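import Pool.Agent.Lib.MP_181146_gt.HX.SpecY

/-!
# Project HX, module AsY: passage to the coefficients `F` and `L` (helper28, after AsX of helper72)
-/

set_option autoImplicit false

namespace HXx

open scoped TensorProduct
open HEp HPx HTx

section

/-! ## Change of coefficients -/

variable {K : SS}

/-- Change of coefficients as a `ℤ`-linear map. -/
private noncomputable def AsY_cc (F : Type) [CommRing F] (K : SS) : Ch ℤ K →ₗ[ℤ] Ch F K :=
  (Finsupp.mapRange.addMonoidHom (Int.castAddHom F)).toIntLinearMap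

private lemma AsY_cc_apply {F : Type} [CommRing F] (x : Ch ℤ K) : AsY_cc F K x = cc F x := rfl

private lemma AsY_cc_sx {F : Type} [CommRing F] {n : ℕ} (x : K.K n) :
    AsY_cc F K (sx ℤ x) = sx F x := by
  rw [AsY_cc_apply, cc, sx, Finsupp.mapRange_single, map_one]
  rfl

private lemma AsY_pow {F : Type} [CommRing F] {V : Type} [AddCommGroup V] [Module F V] (i : ℕ)
    (v : V) : ((-1 : ℤ) ^ i) • v = ((-1 : F) ^ i) • v := by
  rw [← Int.cast_smul_eq_zsmul F]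
  push_cast
  rfl

private lemma AsY_cc_bd {F : Type} [CommRing F] (x : Ch ℤ K) :
    cc F (bd ℤ K x) = bd F K (cc F x) := by
  have h : AsY_cc F K ∘ₗ bd ℤ K =
      (bd F K).toAddMonoidHom.toIntLinearMap ∘ₗ AsY_cc F K := ch_ext fun n x => by
    rw [LinearMap.comp_apply, LinearMap.comp_apply, AsY_cc_sx]
    change AsY_cc F K (bd ℤ K (sx ℤ x)) = bd F K (sx F x)
    cases n with
    | zero => rw [bd_sx_zero, bd_sx_zero, map_zero]
    | succ n =>
      rw [bd_sx, bd_sx, map_sum]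
      refine Finset.sum_congr rfl fun i _ => ?_
      rw [map_smul, AsY_cc_sx, AsY_pow (F := F)]
  exact LinearMap.congr_fun h x

private lemma AsY_cc_sub {F : Type} [CommRing F] (x y : Ch ℤ K) :
    cc F (x - y) = cc F x - cc F y := map_sub (AsY_cc F K) x y

private lemma AsY_cc_zero {F : Type} [CommRing F] : cc F (0 : Ch ℤ K) = 0 :=
  map_zero (AsY_cc F K)

private lemma AsY_cc_gr {F : Type} [CommRing F] {n : ℕ} {x : Ch ℤ K} (hx : x ∈ gr ℤ K n) :
    cc F x ∈ gr F K n := by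
  unfold gr at hx ⊢
  rw [Finsupp.mem_supported] at hx ⊢
  refine Set.Subset.trans ?_ hx
  exact_mod_cast Finsupp.support_mapRange

private lemma AsY_xF_sx {F : Type} [CommRing F] (x : Ch ℤ K →ₗ[ℤ] ℤ) {n : ℕ} (σ : K.K n) :
    xF F x (sx F σ) = ((x (sx ℤ σ) : ℤ) : F) := by
  unfold xF sx
  rw [Finsupp.linearCombination_single, one_smul]

private lemma AsY_xF_cc {F : Type} [CommRing F] (x : Ch ℤ K →ₗ[ℤ] ℤ) (y : Ch ℤ K) :
    xF F x (cc F y) = ((x y : ℤ) : F) := by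
  have h : (xF F x).toAddMonoidHom.toIntLinearMap ∘ₗ AsY_cc F K =
      (Int.castAddHom F).toIntLinearMap ∘ₗ x := ch_ext fun n σ => by
    rw [LinearMap.comp_apply, LinearMap.comp_apply, AsY_cc_sx]
    exact AsY_xF_sx x σ
  exact LinearMap.congr_fun h y

private lemma AsY_xF_bd {F : Type} [CommRing F] (x : Ch ℤ K →ₗ[ℤ] ℤ)
    (hx : ∀ y, x (bd ℤ K y) = 0) : xF F x ∘ₗ bd F K = 0 := ch_ext fun n σ => by
  rw [LinearMap.comp_apply, ← AsY_cc_sx, AsY_cc_apply, ← AsY_cc_bd, AsY_xF_cc, hx, Int.cast_zero,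
    LinearMap.zero_apply]

private lemma AsY_xF_sup {F : Type} [CommRing F] {n : ℕ} (x : Ch ℤ K →ₗ[ℤ] ℤ) (hx : Sup n x) :
    Sup n (xF F x) := by
  intro i hi y hy
  refine gr_eq (g := 0) (fun σ => ?_) hy
  rw [AsY_xF_sx, hx i hi _ (sx_mem_gr ℤ σ), Int.cast_zero, LinearMap.zero_apply]

end

/-! ## Direct limits -/

section

variable {R : Type} [CommRing R]

private lemma AsY_dl {M N : Type} [AddCommGroup M] [Module R M] [AddCommGroup N] [Module R N]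
    (e : Module.End R M) (e' : Module.End R N) (ψ : M ≃ₗ[R] N) (h : ∀ x, ψ (e x) = e' (ψ x)) :
    Nonempty (HBx.DL e ≃ₗ[R] HBx.DL e') := by
  have h' : ∀ y, ψ.symm (e' y) = e (ψ.symm y) := by
    intro y
    rw [LinearEquiv.symm_apply_eq, h, LinearEquiv.apply_symm_apply]
  refine ⟨LinearEquiv.ofLinearMap (HBx.dlMap e e' (ψ : M →ₗ[R] N) h)
    (HBx.dlMap e' e (ψ.symm : N →ₗ[R] M) h') ?_ ?_⟩
  · apply LinearMap.ext
    intro t
    obtain ⟨n, x, rfl⟩ := HBx.dl_ind _ t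
    rw [LinearMap.comp_apply, HBx.dlMap_dlj, HBx.dlMap_dlj, LinearMap.id_apply]
    exact congrArg (HBx.dlj e' n) (ψ.apply_symm_apply x)
  · apply LinearMap.ext
    intro t
    obtain ⟨n, x, rfl⟩ := HBx.dl_ind _ t
    rw [LinearMap.comp_apply, HBx.dlMap_dlj, HBx.dlMap_dlj, LinearMap.id_apply]
    exact congrArg (HBx.dlj e n) (ψ.symm_apply_apply x)

private lemma AsY_dl_sub {M : Type} [AddCommGroup M] [Module R M] (e : Module.End R M)
    [Subsingleton M] : Subsingleton (HBx.DL e) := by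
  refine ⟨fun s t => ?_⟩
  obtain ⟨n, x, rfl⟩ := HBx.dl_ind _ s
  obtain ⟨m, y, rfl⟩ := HBx.dl_ind _ t
  rw [Subsingleton.elim x 0, Subsingleton.elim y 0, map_zero, map_zero]

private lemma AsY_hrk {L : Type} [Field L] (ε : R →+* L) {M N : Type} [AddCommGroup M]
    [Module R M] [AddCommGroup N] [Module R N] (a : M ≃ₗ[R] N) :
    HBx.hrk ε M = HBx.hrk ε N := by
  let _ : Algebra R L := ε.toAlgebra
  exact LinearEquiv.finrank_eq
    (TensorProduct.AlgebraTensorModule.congr (LinearEquiv.refl L L) a)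

private lemma AsY_hrk0 {L : Type} [Field L] (ε : R →+* L) (M : Type) [AddCommGroup M]
    [Module R M] [Subsingleton M] : HBx.hrk ε M = 0 := by
  let _ : Algebra R L := ε.toAlgebra
  have : Subsingleton (L ⊗[R] M) := by
    refine ⟨fun s t => ?_⟩
    have h : ∀ z : L ⊗[R] M, z = 0 := by
      intro z
      induction z with
      | zero => rfl
      | add a b ha hb => rw [ha, hb, add_zero]
      | tmul a b => rw [Subsingleton.elim b 0, TensorProduct.tmul_zero]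
    rw [h s, h t]
  exact Module.finrank_zero_of_subsingleton

private lemma AsY_hrkT {L : Type} [Field L] (ε : R →+* L) (V : Type) [AddCommGroup V] :
    HBx.hrk ε (R ⊗[ℤ] V) = Module.finrank L (L ⊗[ℤ] V) := by
  let _ : Algebra R L := ε.toAlgebra
  exact LinearEquiv.finrank_eq (TensorProduct.AlgebraTensorModule.cancelBaseChange ℤ R L L V)

end

/-! ## The comparison on homology -/

private lemma AsY_cyc {G : Type} [CommGroup G] {E : Type} [TopologicalSpace E]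
    {act : G → C(E, E)} (X : AX G) (Λ : LT X E act) (i : ℕ) (y : X.P i) (hy : y ∈ (nX X).Z i) :
    bd ℤ (Sing E) (Λ.f i y) = 0 := by
  cases i with
  | zero => exact bd_gr0 (Λ.f_gr 0 y)
  | succ i =>
    rw [← Λ.fd]
    have h0 : X.d i y = 0 := hy
    rw [h0, map_zero]

private lemma AsY_mem {G : Type} [CommGroup G] {E : Type} [TopologicalSpace E]
    {act : G → C(E, E)} (X : AX G) (Λ : LT X E act) (F : Type) [CommRing F] (i : ℕ) (y : X.P i) :
    cc F (Λ.f i y) ∈ grZ F (Sing E) i := by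
  rw [grZ_ofNat]
  exact AsY_cc_gr (Λ.f_gr i y)

/-- The class of `cc (f y)`. -/
private noncomputable def AsY_z {G : Type} [CommGroup G] {E : Type} [TopologicalSpace E]
    {act : G → C(E, E)} (X : AX G) (Λ : LT X E act) (F : Type) [CommRing F] (i : ℕ) (y : X.P i)
    (hy : y ∈ (nX X).Z i) : HAx.Zi (cX F (Sing E)) i :=
  ⟨cc F (Λ.f i y), ⟨AsY_mem X Λ F i y, by
    change bd F (Sing E) (cc F (Λ.f i y)) = 0
    rw [← AsY_cc_bd, AsY_cyc X Λ i y hy, AsY_cc_zero]⟩⟩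

/-- The isomorphism of the homology groups. -/
private lemma AsY_chi {F : Type} [CommRing F] (T U : HRx.GC F) (φ : T.V →ₗ[F] U.V)
    (hφ : HRx.IsQI T U φ.toAddMonoidHom) (i : ℤ) :
    ∃ χ : HAx.Hi T i ≃ₗ[F] HAx.Hi U i, ∀ (x : HAx.Zi T i) (z : HAx.Zi U i),
      U.Bdy i (z.1 - φ x.1) → χ (Submodule.Quotient.mk x) = Submodule.Quotient.mk z := by
  obtain ⟨⟨hG, hd⟩, hi, hs⟩ := hφ
  have hG' : ∀ i, ∀ x ∈ T.G i, φ x ∈ U.G i := hG
  have hd' : ∀ x, φ (T.d x) = U.d (φ x) := hd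
  have hi' : ∀ i x, T.Cyc i x → U.Bdy i (φ x) → T.Bdy i x := hi
  have hs' : ∀ i y, U.Cyc i y → ∃ x, T.Cyc i x ∧ U.Bdy i (y - φ x) := hs
  have hz : ∀ x ∈ HAx.Zi T i, φ x ∈ HAx.Zi U i := by
    intro x hx
    refine ⟨hG' i x hx.1, ?_⟩
    change U.d (φ x) = 0
    rw [← hd', show T.d x = 0 from hx.2, map_zero]
  obtain ⟨Φ, hΦ⟩ : ∃ Φ : HAx.Hi T i →ₗ[F] HAx.Hi U i, ∀ x : HAx.Zi T i,
      Φ (Submodule.Quotient.mk x) =
        Submodule.Quotient.mk (⟨φ x.1, hz x.1 x.2⟩ : HAx.Zi U i) :=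
    ⟨Submodule.mapQ _ _ (φ.restrict hz) (fun x hx => by
      obtain ⟨y, hy, hyx⟩ := (HAx.mem_Bi T i x).1 hx
      refine (HAx.mem_Bi U i _).2 ⟨φ y, hG' _ y hy, ?_⟩
      exact (hd' y).symm.trans (congrArg φ hyx)), fun x => rfl⟩
  have hinj : Function.Injective Φ := by
    rw [← LinearMap.ker_eq_bot, LinearMap.ker_eq_bot']
    intro u hu
    obtain ⟨x, rfl⟩ := Submodule.Quotient.mk_surjective _ u
    rw [hΦ] at hu
    refine (Submodule.Quotient.mk_eq_zero _).2 ((HAx.mem_Bi T i x).2 (hi' i x.1 x.2 ?_))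
    exact (HAx.mem_Bi U i _).1 ((Submodule.Quotient.mk_eq_zero _).1 hu)
  have hsur : Function.Surjective Φ := by
    intro u
    obtain ⟨y, rfl⟩ := Submodule.Quotient.mk_surjective _ u
    obtain ⟨x, hx, hb⟩ := hs' i y.1 y.2
    refine ⟨Submodule.Quotient.mk (⟨x, hx⟩ : HAx.Zi T i), ?_⟩
    rw [hΦ]
    symm
    exact (Submodule.Quotient.eq _).2 ((HAx.mem_Bi U i _).2 hb)
  refine ⟨LinearEquiv.ofBijective Φ ⟨hinj, hsur⟩, fun x z h => ?_⟩
  refine (hΦ x).trans ?_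
  symm
  exact (Submodule.Quotient.eq _).2 ((HAx.mem_Bi U i _).2 h)

/-- The operator `y ↦ x ∩ (c y)` maps boundaries to boundaries. -/
private lemma AsY_op (hMuA : HPx.S_MuA) (hCapD : HPx.S_CapD)
    (e : ∀ p q : ℕ, Ch ℤ ((De p).prod (De q))) (he : EZ e) {E : Type} [TopologicalSpace E]
    {v : E} {n : ℕ} (hn : Odd n) (Q : Cl E v n) (m : SSHom ((Sing E).prod (Sing E)) (Sing E))
    (F : Type) [CommRing F] (i : ℕ) (w : Ch F (Sing E)) (hw : w ∈ grZ F (Sing E) (i + 1)) :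
    cap (xF F Q.x) (mu F e m (cc F Q.c ⊗ₜ[F] w)) ∈ grZ F (Sing E) (i + 1) ∧
      bd F (Sing E) (cap (xF F Q.x) (mu F e m (cc F Q.c ⊗ₜ[F] w))) =
        cap (xF F Q.x) (mu F e m (cc F Q.c ⊗ₜ[F] bd F (Sing E) w)) := by
  have hc : bd F (Sing E) (cc F Q.c) = 0 := by rw [← AsY_cc_bd, Q.c_bd, AsY_cc_zero]
  obtain ⟨m1, m2, -⟩ := hMuA e he F (Sing E) m n hn (cc F Q.c) (AsY_cc_gr Q.c_gr) hc
  obtain ⟨c1, c2, -⟩ := hCapD F (Sing E) n (xF F Q.x) (AsY_xF_sup Q.x Q.x_sup)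
  have hw' : w ∈ gr F (Sing E) (i + 1) := by
    have h := hw
    rw [show ((i : ℤ) + 1) = ((i + 1 : ℕ) : ℤ) by push_cast; ring, grZ_ofNat] at h
    exact h
  refine ⟨?_, ?_⟩
  · rw [show ((i : ℤ) + 1) = ((i + 1 : ℕ) : ℤ) by push_cast; ring, grZ_ofNat]
    exact c2 _ _ (m2 _ _ hw')
  · have h1 := c1 (mu F e m (cc F Q.c ⊗ₜ[F] w))
    rw [AsY_xF_bd Q.x Q.x_bd] at h1
    have h0 : cap (0 : Ch F (Sing E) →ₗ[F] F) (mu F e m (cc F Q.c ⊗ₜ[F] w)) = 0 := by
      have := c1 (0 : Ch F (Sing E))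
      simp [cap, lx]
    rw [h0, zero_add, hn.neg_one_pow, neg_one_smul] at h1
    rw [m1, map_neg, h1, neg_neg]

private lemma AsY_psi (hBcX : S_BcX) (hHF : S_HFc) (hMuA : HPx.S_MuA) (hCapD : HPx.S_CapD)
    (e : ∀ p q : ℕ, Ch ℤ ((De p).prod (De q))) (he : EZ e)
    (G : Type) [CommGroup G] (E : Type) [TopologicalSpace E] (D : Mlt G E) (X : AX G)
    (Λ : LT X E D.act) (n : ℕ) (hn : Odd n) (Q : Cl E D.v n) (e' : (nX X).E)
    (he' : ∀ i (y : X.P i), y ∈ (nX X).Z i → ∃ w ∈ gr ℤ (Sing E) (i + 1),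
      Λ.f i (e'.f i y) - cap Q.x (mu ℤ e (SingMul D.m) (Q.c ⊗ₜ Λ.f i y)) = bd ℤ (Sing E) w)
    (F : Type) [CommRing F] [Module.Free ℤ F] [Module.Finite ℤ F]
    (T : HRx.GC F) (EE : HBy.En T) (φ : T.V →ₗ[F] Ch F (Sing E))
    (hφ : HRx.IsQI T (cX F (Sing E)) φ.toAddMonoidHom)
    (hEE : IsXT F e (SingMul D.m) Q.x Q.c φ EE) (i : ℕ) :
    ∃ ψ : (F ⊗[ℤ] (nX X).H i) ≃ₗ[F] HAx.Hi T i,
      ∀ z, ψ (LinearMap.baseChange F (e'.Hm i) z) = GEm EE i (ψ z) := by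
  obtain ⟨ψ, hψ⟩ := hHF G E D.act X Λ F i
  obtain ⟨χ, hχ⟩ := AsY_chi T (cX F (Sing E)) φ hφ i
  refine ⟨ψ.trans χ.symm, fun z => ?_⟩
  induction z with
  | zero => simp only [map_zero]
  | add a b ha hb => rw [map_add, map_add, ha, hb, map_add, map_add]
  | tmul a h =>
    obtain ⟨y, rfl⟩ := Submodule.Quotient.mk_surjective _ h
    have e1 : a ⊗ₜ[ℤ] (Submodule.Quotient.mk y : (nX X).H i) =
        a • ((1 : F) ⊗ₜ[ℤ] (Submodule.Quotient.mk y : (nX X).H i)) := by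
      rw [TensorProduct.smul_tmul', smul_eq_mul, mul_one]
    rw [e1, map_smul, map_smul, map_smul, map_smul]
    congr 1
    rw [LinearMap.baseChange_tmul, NC.E.Hm_mk]
    have hy' : e'.f i y.1 ∈ (nX X).Z i := e'.Z i y.1 y.2
    have h1 := hψ y (AsY_z X Λ F i y.1 y.2) rfl
    have h2 := hψ ⟨e'.f i y.1, hy'⟩ (AsY_z X Λ F i (e'.f i y.1) hy') rfl
    obtain ⟨x, hx, hxb⟩ := hφ.2.2 (i : ℤ) (cc F (Λ.f i y.1)) (AsY_z X Λ F i y.1 y.2).2
    have h3 : χ (Submodule.Quotient.mk (⟨x, hx⟩ : HAx.Zi T i)) =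
        Submodule.Quotient.mk (AsY_z X Λ F i y.1 y.2) := hχ ⟨x, hx⟩ _ hxb
    have h4 : (ψ.trans χ.symm) ((1 : F) ⊗ₜ[ℤ] (Submodule.Quotient.mk y : (nX X).H i)) =
        Submodule.Quotient.mk (⟨x, hx⟩ : HAx.Zi T i) := by
      rw [LinearEquiv.trans_apply, h1, ← h3, LinearEquiv.symm_apply_apply]
    have hEx : EE.e x ∈ HAx.Zi T i := by
      refine ⟨EE.he i x hx.1, ?_⟩
      change T.d (EE.e x) = 0
      rw [← EE.hed, show T.d x = 0 from hx.2, map_zero]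
    have h5 : GEm EE i (Submodule.Quotient.mk (⟨x, hx⟩ : HAx.Zi T i)) =
        Submodule.Quotient.mk (⟨EE.e x, hEx⟩ : HAx.Zi T i) := rfl
    rw [h4, h5, LinearEquiv.trans_apply, LinearEquiv.symm_apply_eq]
    refine Eq.trans h2 ?_
    symm
    refine hχ ⟨EE.e x, hEx⟩ _ ?_
    -- the boundary
    change ∃ b ∈ grZ F (Sing E) ((i : ℤ) + 1), bd F (Sing E) b =
      cc F (Λ.f i (e'.f i y.1)) - φ (EE.e x)
    obtain ⟨w, hw, hwe⟩ := he' i y.1 y.2
    obtain ⟨w2, hw2, hwe2⟩ : ∃ w2 : Ch F (Sing E), w2 ∈ grZ F (Sing E) ((i : ℤ) + 1) ∧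
      bd F (Sing E) w2 = cc F (Λ.f i y.1) - φ x := hxb
    obtain ⟨w3, hw3, hwe3⟩ : ∃ w3 : Ch F (Sing E), w3 ∈ grZ F (Sing E) ((i : ℤ) + 1) ∧
      bd F (Sing E) w3 = φ (EE.e x) -
        cap (xF F Q.x) (mu F e (SingMul D.m) (cc F Q.c ⊗ₜ[F] φ x)) := hEE i x hx
    obtain ⟨p1, p2⟩ := AsY_op hMuA hCapD e he hn Q (SingMul D.m) F i w2 hw2
    have h6 := hBcX F e (Sing E) (SingMul D.m) Q.x Q.c (Λ.f i y.1)
    have h7 : cc F (Λ.f i (e'.f i y.1)) - cc F (cap Q.x (mu ℤ e (SingMul D.m)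
        (Q.c ⊗ₜ Λ.f i y.1))) = bd F (Sing E) (cc F w) := by
      rw [← AsY_cc_sub, hwe, AsY_cc_bd]
    have hwm : cc F w ∈ grZ F (Sing E) ((i : ℤ) + 1) := by
      have := AsY_cc_gr (F := F) hw
      rw [← grZ_ofNat] at this
      exact_mod_cast this
    refine ⟨cc F w + cap (xF F Q.x) (mu F e (SingMul D.m) (cc F Q.c ⊗ₜ[F] w2)) - w3,
      Submodule.sub_mem _ (Submodule.add_mem _ hwm p1) hw3, ?_⟩
    rw [map_sub, map_add, p2, hwe2, hwe3, ← h7, h6, TensorProduct.tmul_sub, map_sub, map_sub]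
    abel

theorem tAsY : S_BcX → S_HFc → S_HTl → S_DlT → S_DlS → HPx.S_AxF → HPx.S_MuA → HPx.S_CapD →
    S_AsY := by
  intro hBcX hHF hHTe hDlT hDlS hAxF hMuA hCapD e he G _ _ E _ D X Λ N hK n hn Q e' he' k hk L _ hL
    F _ _ _ ε T EE φ hφ hEE
  -- the homology of the telescope in the degrees `≥ 0`
  have hA : ∀ i : ℕ, Nonempty (HAx.Hi (HBy.tel EE) i ≃ₗ[F] F ⊗[ℤ] HBx.DL (e'.Hm i)) := by
    intro i
    obtain ⟨ψ, hψ⟩ := AsY_psi hBcX hHF hMuA hCapD e he G E D X Λ n hn Q e' he' F T EE φ hφ hEE i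
    obtain ⟨a⟩ := hHTe F T EE i
    obtain ⟨b⟩ := AsY_dl (LinearMap.baseChange F (e'.Hm i)) (GEm EE i) ψ hψ
    obtain ⟨c⟩ := hDlT ℤ F ((nX X).H i) (e'.Hm i)
    exact ⟨a.trans (b.symm.trans c.symm)⟩
  -- negative degrees
  have hneg : ∀ i : ℤ, i < 0 → Subsingleton (HAx.Hi (HBy.tel EE) i) := by
    intro i hi
    obtain ⟨a⟩ := hHTe F T EE i
    obtain ⟨χ, -⟩ := AsY_chi T (cX F (Sing E)) φ hφ i
    have h1 : ∀ x : HAx.Zi (cX F (Sing E)) i, x = 0 := by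
      intro x
      have hz : ∀ u : Ch F (Sing E), u ∈ grZ F (Sing E) i → u = 0 := by
        intro u hu
        rw [grZ_neg F (Sing E) i hi, Submodule.mem_bot] at hu
        exact hu
      exact Subtype.ext (hz x.1 x.2.1)
    have h2 : Subsingleton (HAx.Hi (cX F (Sing E)) i) := by
      refine ⟨fun s t => ?_⟩
      obtain ⟨s, rfl⟩ := Submodule.Quotient.mk_surjective _ s
      obtain ⟨t, rfl⟩ := Submodule.Quotient.mk_surjective _ t
      rw [h1 s, h1 t]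
    have h2' : Subsingleton (HAx.Hi T i) := χ.toEquiv.subsingleton
    have h3 : Subsingleton (HBx.DL (GEm EE i)) := AsY_dl_sub (GEm EE i)
    exact a.toEquiv.subsingleton
  -- large degrees
  have hbig : ∀ i : ℕ, N ≤ i → Subsingleton (HAx.Hi (HBy.tel EE) i) := by
    intro i hi
    obtain ⟨a⟩ := hA i
    have h1 : Subsingleton (X.P i) := hK i hi
    have h2 : Subsingleton ((nX X).H i) := by
      refine ⟨fun s t => ?_⟩
      obtain ⟨s, rfl⟩ := Submodule.Quotient.mk_surjective _ s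
      obtain ⟨t, rfl⟩ := Submodule.Quotient.mk_surjective _ t
      have h0 : s.1 = t.1 := @Subsingleton.elim (X.P i) h1 s.1 t.1
      exact congrArg _ (Subtype.ext h0)
    have h3 : Subsingleton (HBx.DL (e'.Hm i)) := AsY_dl_sub (e'.Hm i)
    have h4 : Subsingleton (F ⊗[ℤ] HBx.DL (e'.Hm i)) := by
      have h : ∀ z : F ⊗[ℤ] HBx.DL (e'.Hm i), z = 0 := by
        intro z
        induction z with
        | zero => rfl
        | add a b ha hb => rw [ha, hb, add_zero]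
        | tmul a b => rw [Subsingleton.elim b 0, TensorProduct.tmul_zero]
      exact ⟨fun s t => by rw [h s, h t]⟩
    exact a.toEquiv.subsingleton
  -- finiteness
  have hfin : ∀ i : ℕ, Module.Finite F (HAx.Hi (HBy.tel EE) i) := by
    intro i
    obtain ⟨a⟩ := hA i
    have h1 : Module.Finite ℤ (X.P i) := (hAxF G (X.P i)).1
    have h1' : Module.Finite ℤ ((nX X).P i) := h1
    have h2 : Module.Finite ℤ (HBx.DL (e'.Hm i)) :=
      Module.Finite.of_surjective (HBx.dlj (e'.Hm i) 0) (hDlS ℤ ((nX X).H i) (e'.Hm i) k (hk i))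
    have h3 : Module.Finite F (F ⊗[ℤ] HBx.DL (e'.Hm i)) := Module.Finite.base_change ℤ F _
    exact Module.Finite.equiv a.symm
  refine ⟨?_, N, ?_, ?_⟩
  · intro i
    rcases lt_or_ge i 0 with h | h
    · have := hneg i h
      infer_instance
    · obtain ⟨m, rfl⟩ := Int.eq_ofNat_of_zero_le h
      exact hfin m
  · intro i hi
    rcases lt_or_ge i 0 with h | h
    · exact hneg i h
    · obtain ⟨m, rfl⟩ := Int.eq_ofNat_of_zero_le h
      refine hbig m ?_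
      rw [abs_of_nonneg h] at hi
      exact_mod_cast hi.le
  · have hsub : (Finset.range N).map ⟨fun m : ℕ => (m : ℤ), Nat.cast_injective⟩ ⊆
        Finset.Icc (-(N : ℤ)) N := by
      intro i hi
      obtain ⟨m, hm, rfl⟩ := Finset.mem_map.1 hi
      rw [Finset.mem_range] at hm
      rw [Finset.mem_Icc]
      change -(N : ℤ) ≤ (m : ℤ) ∧ (m : ℤ) ≤ N
      omega
    rw [← Finset.sum_subset hsub, Finset.sum_map]
    · rw [← hL]
      refine Finset.sum_congr rfl fun m _ => ?_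
      obtain ⟨a⟩ := hA m
      have h1 : HBx.hrk ε (HAx.Hi (HBy.tel EE) (m : ℤ)) =
          Module.finrank L (L ⊗[ℤ] HBx.DL (e'.Hm m)) := by
        rw [AsY_hrk ε a, AsY_hrkT]
      change (((m : ℤ).negOnePow : ℤˣ) : ℤ) *
        (HBx.hrk ε (HAx.Hi (HBy.tel EE) (m : ℤ)) : ℤ) = _
      rw [h1, Int.negOnePow_def, zpow_natCast]
      push_cast
      rfl
    · intro i _ hi
      have h0 : Subsingleton (HAx.Hi (HBy.tel EE) i) := by
        rcases lt_or_ge i 0 with h | h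
        · exact hneg i h
        · obtain ⟨m, rfl⟩ := Int.eq_ofNat_of_zero_le h
          refine hbig m ?_
          by_contra hlt
          exact hi (Finset.mem_map.2 ⟨m, Finset.mem_range.2 (by omega), rfl⟩)
      rw [AsY_hrk0]
      push_cast
      ring

end HXx
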