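import Pool.Agent.Lib.MP_181146_gt.HX.SpecX

/-! # Project HX: BcX, change of coefficients in the operator -/

set_option autoImplicit false

namespace HXx

open scoped TensorProduct
open HEp HPx HTx

/-- Change of coefficients as a `ℤ`-linear map. -/
private noncomputable def BcX_cc (F : Type) [CommRing F] (M : SS) : Ch ℤ M →ₗ[ℤ] Ch F M :=
  (Finsupp.mapRange.addMonoidHom (Int.castAddHom F)).toIntLinearMap

private lemma BcX_apply {F : Type} [CommRing F] {M : SS} (x : Ch ℤ M) :
    BcX_cc F M x = cc F x := rfl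

private lemma BcX_sx {F : Type} [CommRing F] {M : SS} {n : ℕ} (x : M.K n) :
    BcX_cc F M (sx ℤ x) = sx F x := by
  rw [BcX_apply, cc, sx, Finsupp.mapRange_single, map_one]
  rfl

private lemma BcX_cmap {F : Type} [CommRing F] {M N : SS} (f : SSHom M N) (x : Ch ℤ M) :
    cc F (cmap ℤ f x) = cmap F f (cc F x) := by
  have h : BcX_cc F N ∘ₗ cmap ℤ f =
      (cmap F f).toAddMonoidHom.toIntLinearMap ∘ₗ BcX_cc F M := ch_ext fun n x => by
    rw [LinearMap.comp_apply, LinearMap.comp_apply, cmap_sx, BcX_sx, BcX_sx]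
    exact (cmap_sx F f x).symm
  exact LinearMap.congr_fun h x

private lemma BcX_cap_sx {k : Type} [CommRing k] {K : SS} (x : Ch k K →ₗ[k] k) {n : ℕ} (σ : K.K n) :
    cap x (sx k σ) = ∑ p ∈ Finset.HasAntidiagonal.antidiagonal n,
      x (sx k (K.act (fr p.1 n) σ)) • sx k (K.act (bk p.1 p.2 n) σ) := by
  rw [cap, LinearMap.comp_apply, dl, LinearMap.comp_apply, cmap_sx, aw, sx,
    Finsupp.linearCombination_single, one_smul, map_sum]
  refine Finset.sum_congr rfl fun p _ => ?_
  exact lx_tmul x _ _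

private lemma BcX_cap {F : Type} [CommRing F] {K : SS} (x : Ch ℤ K →ₗ[ℤ] ℤ) (c : Ch ℤ K) :
    cc F (cap x c) = cap (xF F x) (cc F c) := by
  have h : BcX_cc F K ∘ₗ cap x =
      (cap (xF F x)).toAddMonoidHom.toIntLinearMap ∘ₗ BcX_cc F K := ch_ext fun n σ => by
    rw [LinearMap.comp_apply, LinearMap.comp_apply, BcX_sx, BcX_cap_sx, map_sum]
    refine Eq.trans ?_ (BcX_cap_sx (xF F x) σ).symm
    refine Finset.sum_congr rfl fun p _ => ?_
    rw [map_smul, BcX_sx]
    have h1 : xF F x (sx F (K.act (fr p.1 n) σ)) = ((x (sx ℤ (K.act (fr p.1 n) σ)) : ℤ) : F) := by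
      rw [xF, sx, Finsupp.linearCombination_single, one_smul]
      rfl
    rw [h1, Int.cast_smul_eq_zsmul]
  exact LinearMap.congr_fun h c

theorem tBcX : HEp.S_NabR → S_BcX := by
  intro hN F _ e K m x c y
  rw [BcX_cap, mu, mu, LinearMap.comp_apply, LinearMap.comp_apply, BcX_cmap, hN e F K K c y]

end HXx
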