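import Pool.Agent.Lib.MP_181146_gt.HX.SpecX

/-!
# Project HX, module CAd: additivity in the group element
-/

set_option autoImplicit false

namespace HXx

open scoped TensorProduct
open HEp HPx HTx

/-! ### Operators -/

private lemma CAd_sum {W : Type} [AddCommGroup W] (T : AddMonoid.End W) (s : Finset ℕ) (z : W) :
    (∑ j ∈ s, T ^ j) z = ∑ j ∈ s, (T ^ j) z := by
  classical
  induction s using Finset.induction_on with
  | empty => rfl
  | insert j s hj ih =>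
    rw [Finset.sum_insert hj, Finset.sum_insert hj, ← ih]
    rfl

private lemma CAd_pow {W W' : Type} [AddCommGroup W] [AddCommGroup W'] (Φ : W →+ W')
    (T : AddMonoid.End W) (T' : AddMonoid.End W') (h : ∀ z, Φ (T z) = T' (Φ z)) (j : ℕ) (z : W) :
    Φ ((T ^ j) z) = (T' ^ j) (Φ z) := by
  induction j generalizing z with
  | zero => rfl
  | succ j ih =>
    rw [pow_succ, pow_succ]
    change Φ ((T ^ j) (T z)) = (T' ^ j) (T' (Φ z))
    rw [ih, h]

private lemma CAd_tau {W W' : Type} [AddCommGroup W] [AddCommGroup W'] (Φ : W →+ W')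
    (T : AddMonoid.End W) (T' : AddMonoid.End W') (h : ∀ z, Φ (T z) = T' (Φ z)) (k i : ℕ) (z : W) :
    Φ (tau T k i z) = tau T' k i (Φ z) := by
  unfold tau
  split_ifs with hi
  · rw [CAd_sum, CAd_sum, map_sum]
    exact Finset.sum_congr rfl fun j _ => CAd_pow Φ T T' h j z
  · change Φ (T z - z) = T' (Φ z) - Φ z
    rw [map_sub, h]

private lemma CAd_Tmem (A : GW) (T : A.Op) (k i j : ℕ) (z : A.W) (hz : z ∈ A.g j) :
    tau T.T k i z ∈ A.g j := by
  have hp : ∀ l, (T.T ^ l) z ∈ A.g j := by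
    intro l
    induction l with
    | zero => exact hz
    | succ l ih =>
      rw [pow_succ']
      exact T.Tg j _ ih
  unfold tau
  split_ifs
  · rw [CAd_sum]
    exact sum_mem fun l _ => hp l
  · change T.T z - z ∈ A.g j
    exact sub_mem (T.Tg j z hz) hz

/-- chains are mapped to chains -/
private lemma CAd_ch {A A' : GW} (T : A.Op) (T' : A'.Op) (Φ : A.W →+ A'.W)
    (hg : ∀ i, ∀ z ∈ A.g i, Φ z ∈ A'.g i) (hε : ∀ z, A'.ε (Φ z) = A.ε z)
    (hD : ∀ z, A'.D (Φ z) = Φ (A.D z)) (hT : ∀ z, Φ (T.T z) = T'.T (Φ z)) (k n : ℕ) (w : ℕ → A.W)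
    (hw : A.Ch T k n w) : A'.Ch T' k n fun i => Φ (w i) := by
  refine ⟨fun i hi => hg i _ (hw.1 i hi), ?_, fun i hi => ?_⟩
  · rw [hε]
    exact hw.2.1
  · rw [hD, hw.2.2 i hi]
    exact CAd_tau Φ T.T T'.T hT k (i + 1) (w i)

/-! ### The three maps -/

private lemma CAd_cmap {K L : SS} (f g : SSHom K L)
    (h : ∀ (n : ℕ) (x : K.K n), f.f x = g.f x) (z : Ch ℤ K) : cmap ℤ f z = cmap ℤ g z := by
  have h2 : cmap ℤ f = cmap ℤ g := ch_ext fun n x => by rw [cmap_sx, cmap_sx, h]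
  rw [h2]

private lemma CAd_mu (hNabN : HEp.S_NabN) (e : ∀ p q : ℕ, Ch ℤ ((De p).prod (De q)))
    {G : Type} [CommGroup G] {E : Type} [TopologicalSpace E] (D : Mlt G E) (a c : G)
    (z : Ch ℤ (Sing E) ⊗[ℤ] Ch ℤ (Sing E)) :
    mu ℤ e (SingMul D.m) (TensorProduct.map (cmap ℤ (SingMap (D.act a)))
      (cmap ℤ (SingMap (D.act c))) z) =
      cmap ℤ (SingMap (D.act (a * c))) (mu ℤ e (SingMul D.m) z) := by
  rw [mu, LinearMap.comp_apply, LinearMap.comp_apply, hNabN, ← cmap_comp, ← cmap_comp]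
  refine CAd_cmap _ _ (fun n (x : C(Pool.Agent.Lib.SingHom.Sx n, E) ×
    C(Pool.Agent.Lib.SingHom.Sx n, E)) => ?_) _
  refine ContinuousMap.ext fun t => ?_
  change D.m (D.act a (x.1 t), D.act c (x.2 t)) = D.act (a * c) (D.m (x.1 t, x.2 t))
  rw [D.m1, D.m2, D.act_mul]
  rfl

private lemma CAd_bd (hNabD : HEp.S_NabD) (e : ∀ p q : ℕ, Ch ℤ ((De p).prod (De q)))
    (he : EZ e) {E : Type} [TopologicalSpace E] (m : C(E × E, E))
    (z : Ch ℤ (Sing E) ⊗[ℤ] Ch ℤ (Sing E)) :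
    mu ℤ e (SingMul m) (((cz (Sing E)).tens (cz (Sing E))).d z) =
      bd ℤ (Sing E) (mu ℤ e (SingMul m) z) := by
  rw [mu, LinearMap.comp_apply, LinearMap.comp_apply]
  refine (congrArg (cmap ℤ (SingMul m)) (hNabD e he ℤ (Sing E) (Sing E) z)).trans ?_
  exact cmap_bd ℤ _ _

private lemma CAd_deg (hNabG : HEp.S_NabG) (e : ∀ p q : ℕ, Ch ℤ ((De p).prod (De q)))
    (he : EZ e) {E : Type} [TopologicalSpace E] (m : C(E × E, E)) (i : ℕ)
    (z : Ch ℤ (Sing E) ⊗[ℤ] Ch ℤ (Sing E)) (hz : z ∈ tgr (gr ℤ (Sing E)) (gr ℤ (Sing E)) i) :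
    mu ℤ e (SingMul m) z ∈ gr ℤ (Sing E) i := by
  induction hz using Submodule.span_induction with
  | mem z hz =>
    obtain ⟨a, b, x, y, rfl, hx, hy, rfl⟩ := hz
    rw [mu, LinearMap.comp_apply]
    exact cmap_gr _ ((hNabG e he ℤ _ _).1 a b x hx y hy)
  | zero =>
    rw [map_zero]
    exact Submodule.zero_mem _
  | add a b _ _ ha hb =>
    rw [map_add]
    exact Submodule.add_mem _ ha hb
  | smul c a _ ha =>
    rw [map_smul]
    exact Submodule.smul_mem _ _ ha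

private lemma CAd_mue (hNabU : HEp.S_NabU) (e : ∀ p q : ℕ, Ch ℤ ((De p).prod (De q)))
    (he : EZ e) {E : Type} [TopologicalSpace E] (m : C(E × E, E))
    (z : Ch ℤ (Sing E) ⊗[ℤ] Ch ℤ (Sing E)) :
    aug ℤ (Sing E) (mu ℤ e (SingMul m) z) = augT (aug ℤ (Sing E)) (aug ℤ (Sing E)) z := by
  rw [mu, LinearMap.comp_apply, aug_cmap, (hNabU e he ℤ _ _).2.2]

private noncomputable def CAd_p1 (K : SS) : Ch ℤ K ⊗[ℤ] Ch ℤ K →ₗ[ℤ] Ch ℤ K where
  toFun z := p1 z
  map_add' z w := by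
    rw [p1, p1, p1, map_add, map_add]
  map_smul' c z := by
    rw [p1, p1, map_smul, map_smul]
    rfl

private noncomputable def CAd_p2 (K : SS) : Ch ℤ K ⊗[ℤ] Ch ℤ K →ₗ[ℤ] Ch ℤ K where
  toFun z := p2 z
  map_add' z w := by
    rw [p2, p2, p2, map_add, map_add]
  map_smul' c z := by
    rw [p2, p2, map_smul, map_smul]
    rfl

private lemma CAd_p1_tmul {K : SS} (a b : Ch ℤ K) : CAd_p1 K (a ⊗ₜ b) = aug ℤ K b • a := by
  change p1 (a ⊗ₜ b) = _
  rw [p1, TensorProduct.map_tmul, TensorProduct.rid_tmul]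
  rfl

private lemma CAd_p2_tmul {K : SS} (a b : Ch ℤ K) : CAd_p2 K (a ⊗ₜ b) = aug ℤ K a • b := by
  change p2 (a ⊗ₜ b) = _
  rw [p2, TensorProduct.map_tmul, TensorProduct.lid_tmul]
  rfl

private lemma CAd_aug {K : SS} {b : ℕ} {y : Ch ℤ K} (hy : y ∈ gr ℤ K (b + 1)) : aug ℤ K y = 0 :=
  gr_eq (f := aug ℤ K) (g := 0) (fun σ => by
    rw [aug_sx_succ]
    rfl) hy

private lemma CAd_p1g {K : SS} (i : ℕ) (z : Ch ℤ K ⊗[ℤ] Ch ℤ K)
    (hz : z ∈ tgr (gr ℤ K) (gr ℤ K) i) : CAd_p1 K z ∈ gr ℤ K i := by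
  induction hz using Submodule.span_induction with
  | mem z hz =>
    obtain ⟨a, b, x, y, hab, hx, hy, rfl⟩ := hz
    rw [CAd_p1_tmul]
    cases b with
    | zero =>
      obtain rfl : a = i := by omega
      exact Submodule.smul_mem _ _ hx
    | succ b =>
      rw [CAd_aug hy, zero_smul]
      exact Submodule.zero_mem _
  | zero =>
    rw [map_zero]
    exact Submodule.zero_mem _
  | add a b _ _ ha hb =>
    rw [map_add]
    exact Submodule.add_mem _ ha hb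
  | smul c a _ ha =>
    rw [map_smul]
    exact Submodule.smul_mem _ _ ha

private lemma CAd_p2g {K : SS} (i : ℕ) (z : Ch ℤ K ⊗[ℤ] Ch ℤ K)
    (hz : z ∈ tgr (gr ℤ K) (gr ℤ K) i) : CAd_p2 K z ∈ gr ℤ K i := by
  induction hz using Submodule.span_induction with
  | mem z hz =>
    obtain ⟨a, b, x, y, hab, hx, hy, rfl⟩ := hz
    rw [CAd_p2_tmul]
    cases a with
    | zero =>
      obtain rfl : b = i := by omega
      exact Submodule.smul_mem _ _ hy
    | succ a =>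
      rw [CAd_aug hx, zero_smul]
      exact Submodule.zero_mem _
  | zero =>
    rw [map_zero]
    exact Submodule.zero_mem _
  | add a b _ _ ha hb =>
    rw [map_add]
    exact Submodule.add_mem _ ha hb
  | smul c a _ ha =>
    rw [map_smul]
    exact Submodule.smul_mem _ _ ha

private lemma CAd_p1e {K : SS} (z : Ch ℤ K ⊗[ℤ] Ch ℤ K) :
    aug ℤ K (CAd_p1 K z) = augT (aug ℤ K) (aug ℤ K) z := by
  induction z using TensorProduct.induction_on with
  | zero => simp only [map_zero]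
  | add x y hx hy => rw [map_add, map_add, map_add, hx, hy]
  | tmul a b =>
    rw [CAd_p1_tmul, augT_tmul, map_smul, smul_eq_mul, mul_comm]

private lemma CAd_p2e {K : SS} (z : Ch ℤ K ⊗[ℤ] Ch ℤ K) :
    aug ℤ K (CAd_p2 K z) = augT (aug ℤ K) (aug ℤ K) z := by
  induction z using TensorProduct.induction_on with
  | zero => simp only [map_zero]
  | add x y hx hy => rw [map_add, map_add, map_add, hx, hy]
  | tmul a b =>
    rw [CAd_p2_tmul, augT_tmul, map_smul, smul_eq_mul]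

private lemma CAd_p1d {K : SS} (z : Ch ℤ K ⊗[ℤ] Ch ℤ K) :
    bd ℤ K (CAd_p1 K z) = CAd_p1 K (((cz K).tens (cz K)).d z) := by
  induction z using TensorProduct.induction_on with
  | zero => simp only [map_zero]
  | add x y hx hy => rw [map_add, map_add, map_add, map_add, hx, hy]
  | tmul a b =>
    have h3 : ((cz K).tens (cz K)).d (a ⊗ₜ b) =
      bd ℤ K a ⊗ₜ[ℤ] b + (cz K).sg a ⊗ₜ[ℤ] bd ℤ K b := rfl
    rw [CAd_p1_tmul]
    refine Eq.trans ?_ (congrArg (CAd_p1 K) h3).symm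
    rw [map_add, CAd_p1_tmul, CAd_p1_tmul, aug_bd, zero_smul, add_zero, map_smul]

private lemma CAd_p2d {K : SS} (z : Ch ℤ K ⊗[ℤ] Ch ℤ K) :
    bd ℤ K (CAd_p2 K z) = CAd_p2 K (((cz K).tens (cz K)).d z) := by
  induction z using TensorProduct.induction_on with
  | zero => simp only [map_zero]
  | add x y hx hy => rw [map_add, map_add, map_add, map_add, hx, hy]
  | tmul a b =>
    have h3 : ((cz K).tens (cz K)).d (a ⊗ₜ b) =
      bd ℤ K a ⊗ₜ[ℤ] b + (cz K).sg a ⊗ₜ[ℤ] bd ℤ K b := rfl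
    have h4 : aug ℤ K ((cz K).sg a) = aug ℤ K a := aug_sg a
    rw [CAd_p2_tmul]
    refine Eq.trans ?_ (congrArg (CAd_p2 K) h3).symm
    rw [map_add, CAd_p2_tmul, CAd_p2_tmul, aug_bd, zero_smul, zero_add, map_smul, h4]

private lemma CAd_p1T {K : SS} (φ ψ : SSHom K K) (z : Ch ℤ K ⊗[ℤ] Ch ℤ K) :
    CAd_p1 K (TensorProduct.map (cmap ℤ φ) (cmap ℤ ψ) z) = cmap ℤ φ (CAd_p1 K z) := by
  induction z using TensorProduct.induction_on with
  | zero => simp only [map_zero]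
  | add x y hx hy => rw [map_add, map_add, map_add, map_add, hx, hy]
  | tmul a b => rw [TensorProduct.map_tmul, CAd_p1_tmul, CAd_p1_tmul, aug_cmap, map_smul]

private lemma CAd_p2T {K : SS} (φ ψ : SSHom K K) (z : Ch ℤ K ⊗[ℤ] Ch ℤ K) :
    CAd_p2 K (TensorProduct.map (cmap ℤ φ) (cmap ℤ ψ) z) = cmap ℤ ψ (CAd_p2 K z) := by
  induction z using TensorProduct.induction_on with
  | zero => simp only [map_zero]
  | add x y hx hy => rw [map_add, map_add, map_add, map_add, hx, hy]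
  | tmul a b => rw [TensorProduct.map_tmul, CAd_p2_tmul, CAd_p2_tmul, aug_cmap, map_smul]

theorem tCAd : S_ChE → HPx.S_TG → HPx.S_Zet → HEp.S_NabD → HEp.S_NabG → HEp.S_NabN → HEp.S_NabU →
    S_CAd := by
  intro hChE hTG hZet hNabD hNabG hNabN hNabU
  intro e he G _ X E _ D Λ n hn hE u hu k g g' hg hg'
  obtain ⟨t1, t2, -⟩ := hTG ℤ (Sing E) (vtx D.v) (n + 1) n.succ_pos hE.1 hE.2
  set T : (tW (Sing E)).Op := tT (SingMap (D.act g)) (SingMap (D.act g')) with hT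
  have hTk : T.T ^ k = 1 := by
    rw [hT, tT_pow, hg, hg']
    have h1 := tT_pow D (1 : G) 1 0
    rw [pow_zero, pow_zero] at h1
    exact h1.symm
  have hAc : (tW (Sing E)).Ac (n + 1) := by
    have h1 : (sx ℤ (vtx D.v) ⊗ₜ sx ℤ (vtx D.v) : Ch ℤ (Sing E) ⊗[ℤ] Ch ℤ (Sing E)) ∈
        tgr (gr ℤ (Sing E)) (gr ℤ (Sing E)) 0 :=
      Submodule.subset_span ⟨0, 0, _, _, rfl, sx_mem_gr ℤ _, sx_mem_gr ℤ _, rfl⟩
    have h2 : augT (aug ℤ (Sing E)) (aug ℤ (Sing E))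
        (sx ℤ (vtx D.v) ⊗ₜ sx ℤ (vtx D.v) : Ch ℤ (Sing E) ⊗[ℤ] Ch ℤ (Sing E)) = 1 := by
      rw [augT_tmul, aug_sx_zero, one_mul]
    exact ⟨⟨_, h1, h2⟩, fun _ => t2, t1⟩
  obtain ⟨w, hw⟩ := hChE (tW (Sing E)) T k (n + 1) hTk hAc
  -- the three chain maps
  have m3 : (chW (Sing E)).Ch (chT (SingMap (D.act (g * g')))) k (n + 1)
      fun i => mu ℤ e (SingMul D.m) (w i) :=
    CAd_ch (A := tW (Sing E)) (A' := chW (Sing E)) T (chT (SingMap (D.act (g * g'))))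
      (mu ℤ e (SingMul D.m)).toAddMonoidHom (fun i z hz => CAd_deg hNabG e he D.m i z hz)
      (fun z => CAd_mue hNabU e he D.m z)
      (fun z => (CAd_bd hNabD e he D.m z).symm) (fun z => CAd_mu hNabN e D g g' z) k (n + 1) w hw
  have m1 : (chW (Sing E)).Ch (chT (SingMap (D.act g))) k (n + 1)
      fun i => CAd_p1 (Sing E) (w i) :=
    CAd_ch (A := tW (Sing E)) (A' := chW (Sing E)) T (chT (SingMap (D.act g)))
      (CAd_p1 (Sing E)).toAddMonoidHom (fun i z hz => CAd_p1g i z hz) (fun z => CAd_p1e z)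
      (fun z => CAd_p1d z) (fun z => CAd_p1T _ _ z) k (n + 1) w hw
  have m2 : (chW (Sing E)).Ch (chT (SingMap (D.act g'))) k (n + 1)
      fun i => CAd_p2 (Sing E) (w i) :=
    CAd_ch (A := tW (Sing E)) (A' := chW (Sing E)) T (chT (SingMap (D.act g')))
      (CAd_p2 (Sing E)).toAddMonoidHom (fun i z hz => CAd_p2g i z hz) (fun z => CAd_p2e z)
      (fun z => CAd_p2d z) (fun z => CAd_p2T _ _ z) k (n + 1) w hw
  refine ⟨_, _, _, m1, m2, m3, ?_⟩
  -- the cycle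
  set z : (tW (Sing E)).W := tau T.T k 0 (w (n + 1)) with hz
  have hzg : z ∈ tgr (gr ℤ (Sing E)) (gr ℤ (Sing E)) (n + 1) :=
    CAd_Tmem (tW (Sing E)) T k 0 (n + 1) _ (hw.1 (n + 1) le_rfl)
  have hzd : (tW (Sing E)).D z = 0 := by
    rw [hz, CAd_tau (tW (Sing E)).D T.T T.T (fun x => (T.TD x).symm), hw.2.2 n n.lt_succ_self]
    have h1 : tau T.T k 0 * tau T.T k (n + 1) = 0 := by
      unfold tau
      rw [if_pos (by decide), if_neg (by
        rw [Nat.not_even_iff_odd]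
        exact hn.add_one), geom_sum_mul, hTk, sub_self]
    exact congrArg (fun Φ : AddMonoid.End (tW (Sing E)).W => Φ (w n)) h1
  have key := hZet e he G X E D.act Λ D.v D.m
    ⟨{ toFun := D.A, map_zero_left := D.A0, map_one_left := D.A1 }⟩
    ⟨{ toFun := D.B, map_zero_left := D.B0, map_one_left := D.B1 }⟩ n hE u u u hu
    (fun _ _ => rfl) (fun _ _ => rfl) z hzg hzd
  have k3 : mu ℤ e (SingMul D.m) z =
      tau (chT (SingMap (D.act (g * g')))).T k 0 (mu ℤ e (SingMul D.m) (w (n + 1))) :=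
    CAd_tau (mu ℤ e (SingMul D.m)).toAddMonoidHom T.T (chT (SingMap (D.act (g * g')))).T
      (fun z => CAd_mu hNabN e D g g' z) k 0 _
  have k1 : p1 z = tau (chT (SingMap (D.act g))).T k 0 (CAd_p1 (Sing E) (w (n + 1))) :=
    CAd_tau (CAd_p1 (Sing E)).toAddMonoidHom T.T (chT (SingMap (D.act g))).T
      (fun z => CAd_p1T _ _ z) k 0 _
  have k2 : p2 z = tau (chT (SingMap (D.act g'))).T k 0 (CAd_p2 (Sing E) (w (n + 1))) :=
    CAd_tau (CAd_p2 (Sing E)).toAddMonoidHom T.T (chT (SingMap (D.act g'))).T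
      (fun z => CAd_p2T _ _ z) k 0 _
  rw [k1, k2, k3] at key
  exact key

end HXx
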