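import Pool.Agent.Lib.MP_181146_gt.HX.SpecX

/-!
# Project HX, task CBi: the binomial relation for the singular chains
-/

set_option linter.unusedVariables false
set_option autoImplicit false

namespace HXx

open scoped TensorProduct
open HEp HPx HTx

section

variable {K : SS}

/-- The component of degree `i`. -/
private noncomputable def cbi_pr (K : SS) (i : ℕ) : Ch ℤ K →ₗ[ℤ] Ch ℤ K :=
  Finsupp.linearCombination ℤ (fun x => if x.1 = i then Finsupp.single x 1 else 0)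

private lemma cbi_pr_sx (i : ℕ) {n : ℕ} (σ : K.K n) :
    cbi_pr K i (sx ℤ σ) = if n = i then sx ℤ σ else 0 := by
  rw [cbi_pr, sx, Finsupp.linearCombination_single, one_smul]

private lemma cbi_pr_mem (i : ℕ) (x : Ch ℤ K) : cbi_pr K i x ∈ gr ℤ K i := by
  induction x using Finsupp.induction_linear with
  | zero => rw [map_zero]; exact zero_mem _
  | add a b ha hb => rw [map_add]; exact add_mem ha hb
  | single s r =>
    have h1 : (Finsupp.single s r : Ch ℤ K) = r • sx ℤ s.2 := (Finsupp.smul_single_one s r).symm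
    rw [h1, map_smul, cbi_pr_sx]
    refine Submodule.smul_mem _ _ ?_
    split_ifs with h
    · subst h
      exact sx_mem_gr ℤ _
    · exact zero_mem _

private lemma cbi_pr_self {i : ℕ} {x : Ch ℤ K} (hx : x ∈ gr ℤ K i) : cbi_pr K i x = x :=
  gr_eq (f := cbi_pr K i) (g := LinearMap.id) (fun σ => by
    rw [cbi_pr_sx, if_pos rfl, LinearMap.id_apply]) hx

private lemma cbi_pr_bd (i : ℕ) (x : Ch ℤ K) :
    cbi_pr K i (bd ℤ K x) = bd ℤ K (cbi_pr K (i + 1) x) := by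
  have h : cbi_pr K i ∘ₗ bd ℤ K = bd ℤ K ∘ₗ cbi_pr K (i + 1) := ch_ext fun n σ => by
    rw [LinearMap.comp_apply, LinearMap.comp_apply, cbi_pr_sx]
    cases n with
    | zero => rw [bd_sx_zero, map_zero, if_neg (by omega), map_zero]
    | succ n =>
      rw [bd_sx, map_sum]
      by_cases hn : n = i
      · rw [if_pos (by omega), bd_sx]
        refine Finset.sum_congr rfl fun j _ => ?_
        rw [map_smul, cbi_pr_sx, if_pos hn]
      · rw [if_neg (by omega), map_zero]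
        refine Finset.sum_eq_zero fun j _ => ?_
        rw [map_smul, cbi_pr_sx, if_neg hn, smul_zero]
  exact LinearMap.congr_fun h x

private lemma cbi_sg {a : ℕ} {x : Ch ℤ K} (hx : x ∈ gr ℤ K a) :
    (chDG ℤ K).sg x = (-1 : ℤ) ^ a • x := by
  have h := gr_eq (f := (chDG ℤ K).sg) (g := ((-1 : ℤ) ^ a) • LinearMap.id) (fun σ => by
    rw [DG.sg_apply, LinearMap.smul_apply, LinearMap.id_apply]
    change sx ℤ σ - (2 : ℤ) • od ℤ K (sx ℤ σ) = _
    rw [od_sx]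
    rcases Nat.even_or_odd a with h | h
    · rw [if_neg (Nat.not_odd_iff_even.2 h), h.neg_one_pow, smul_zero, sub_zero, one_smul]
    · rw [if_pos h, h.neg_one_pow, two_smul, neg_smul, one_smul]
      abel) hx
  rw [h, LinearMap.smul_apply, LinearMap.id_apply]

/-- operators commuting with `T` commute with `tau`. -/
private lemma cbi_tau {W : Type} [AddCommGroup W] (T : AddMonoid.End W) (φ : W →+ W)
    (h : ∀ x, φ (T x) = T (φ x)) (k i : ℕ) (x : W) : φ (tau T k i x) = tau T k i (φ x) := by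
  have hp : ∀ (j : ℕ) (x : W), φ ((T ^ j) x) = (T ^ j) (φ x) := by
    intro j
    induction j with
    | zero => intro x; rfl
    | succ j ih =>
      intro x
      rw [pow_succ']
      change φ (T ((T ^ j) x)) = T ((T ^ j) (φ x))
      rw [h, ih]
  unfold tau
  split_ifs
  · have h1 : ∀ y : W, (∑ j ∈ Finset.range k, T ^ j) y = ∑ j ∈ Finset.range k, (T ^ j) y :=
      fun y => AddMonoidHom.finset_sum_apply (fun j => T ^ j) (Finset.range k) y
    rw [h1, h1, map_sum]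
    exact Finset.sum_congr rfl fun j _ => hp j x
  · change φ (T x - x) = T (φ x) - φ x
    rw [map_sub, h]

/-- acyclicity -/
private lemma cbi_ac {E : Type} [TopologicalSpace E] {v : E} {n : ℕ} (hE : AcE E (vtx v) n) :
    (chW (Sing E)).Ac n := by
  refine ⟨⟨sx ℤ (vtx v), sx_mem_gr ℤ _, aug_sx_zero ℤ _⟩, fun _ x hx hx0 => ?_,
    fun i hi hin x hx hx0 => ?_⟩
  · obtain ⟨y, hy⟩ := hE.1 x hx
    have hx0' : aug ℤ (Sing E) x = 0 := hx0
    rw [hx0', zero_smul, sub_zero] at hy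
    refine ⟨cbi_pr (Sing E) 1 y, cbi_pr_mem 1 y, ?_⟩
    have h1 := cbi_pr_bd 0 y
    rw [← hy, cbi_pr_self hx] at h1
    exact h1.symm
  · obtain ⟨y, hy⟩ := hE.2 i hi hin x hx hx0
    refine ⟨cbi_pr (Sing E) (i + 1) y, cbi_pr_mem (i + 1) y, ?_⟩
    have h1 := cbi_pr_bd i y
    rw [← hy, cbi_pr_self hx] at h1
    exact h1.symm

private lemma cbi_bd_mu (hNabD : HEp.S_NabD) (e : ∀ p q : ℕ, Ch ℤ ((De p).prod (De q)))
    (he : EZ e) (m : SSHom (K.prod K) K) (x y : Ch ℤ K) {a : ℕ} (hx : x ∈ gr ℤ K a) :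
    bd ℤ K (mu ℤ e m (x ⊗ₜ y)) =
      mu ℤ e m (bd ℤ K x ⊗ₜ y) + (-1 : ℤ) ^ a • mu ℤ e m (x ⊗ₜ bd ℤ K y) := by
  have h1 := hNabD e he ℤ K K (x ⊗ₜ y)
  have h2 : ((chDG ℤ K).tens (chDG ℤ K)).d (x ⊗ₜ y) =
      bd ℤ K x ⊗ₜ[ℤ] y + (chDG ℤ K).sg x ⊗ₜ[ℤ] bd ℤ K y := rfl
  have h3 : nab ℤ e K K (((chDG ℤ K).tens (chDG ℤ K)).d (x ⊗ₜ y)) =
      nab ℤ e K K (bd ℤ K x ⊗ₜ y) + (-1 : ℤ) ^ a • nab ℤ e K K (x ⊗ₜ bd ℤ K y) := by
    refine Eq.trans (congrArg _ h2) ?_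
    rw [cbi_sg hx, map_add, ← TensorProduct.smul_tmul', map_smul]
  have h4 := h1.symm.trans h3
  rw [mu, LinearMap.comp_apply, LinearMap.comp_apply, LinearMap.comp_apply, ← cmap_bd, h4,
    map_add, map_smul]

private lemma cbi_mu_l (hNabN : HEp.S_NabN) (e : ∀ p q : ℕ, Ch ℤ ((De p).prod (De q)))
    (m : SSHom (K.prod K) K) (ψ : SSHom K K)
    (hψ : ∀ (j : ℕ) (x y : K.K j), m.f (ψ.f x, y) = ψ.f (m.f (x, y))) (x y : Ch ℤ K) :
    mu ℤ e m (cmap ℤ ψ x ⊗ₜ y) = cmap ℤ ψ (mu ℤ e m (x ⊗ₜ y)) := by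
  have h1 := hNabN e ℤ K K K K ψ (SSHom.id K) (x ⊗ₜ y)
  rw [TensorProduct.map_tmul, cmap_id] at h1
  have h2 : m.comp (ψ.prod (SSHom.id K)) = ψ.comp m := by
    unfold SSHom.comp SSHom.prod SSHom.id
    congr 1
    funext j x
    exact hψ j x.1 x.2
  rw [mu, LinearMap.comp_apply, LinearMap.comp_apply, h1, ← cmap_comp, h2, cmap_comp]

private lemma cbi_mu_r (hNabN : HEp.S_NabN) (e : ∀ p q : ℕ, Ch ℤ ((De p).prod (De q)))
    (m : SSHom (K.prod K) K) (ψ : SSHom K K)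
    (hψ : ∀ (j : ℕ) (x y : K.K j), m.f (x, ψ.f y) = ψ.f (m.f (x, y))) (x y : Ch ℤ K) :
    mu ℤ e m (x ⊗ₜ cmap ℤ ψ y) = cmap ℤ ψ (mu ℤ e m (x ⊗ₜ y)) := by
  have h1 := hNabN e ℤ K K K K (SSHom.id K) ψ (x ⊗ₜ y)
  rw [TensorProduct.map_tmul, cmap_id] at h1
  have h2 : m.comp ((SSHom.id K).prod ψ) = ψ.comp m := by
    unfold SSHom.comp SSHom.prod SSHom.id
    congr 1
    funext j x
    exact hψ j x.1 x.2
  rw [mu, LinearMap.comp_apply, LinearMap.comp_apply, h1, ← cmap_comp, h2, cmap_comp]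

/-- left and right multiplication as additive maps -/
private noncomputable def cbi_L (e : ∀ p q : ℕ, Ch ℤ ((De p).prod (De q)))
    (m : SSHom (K.prod K) K) (y : Ch ℤ K) : Ch ℤ K →+ Ch ℤ K where
  toFun x := mu ℤ e m (x ⊗ₜ y)
  map_zero' := by rw [TensorProduct.zero_tmul, map_zero]
  map_add' a b := by rw [TensorProduct.add_tmul, map_add]

private noncomputable def cbi_R (e : ∀ p q : ℕ, Ch ℤ ((De p).prod (De q)))
    (m : SSHom (K.prod K) K) (x : Ch ℤ K) : Ch ℤ K →+ Ch ℤ K where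
  toFun y := mu ℤ e m (x ⊗ₜ y)
  map_zero' := by rw [TensorProduct.tmul_zero, map_zero]
  map_add' a b := by rw [TensorProduct.tmul_add, map_add]

end

theorem tCBi : S_ChB → HEp.S_NabD → HEp.S_NabG → HEp.S_NabN → HEp.S_NabU → S_CBi := by
  intro hChB hNabD hNabG hNabN hNabU e he G _ X hN E _ D Λ n m hn hE u hu k g hg x hx i hi him
  have hml : ∀ (j : ℕ) (a b : (Sing E).K j), (SingMul D.m).f ((SingMap (D.act g)).f a, b) =
      (SingMap (D.act g)).f ((SingMul D.m).f (a, b)) := by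
    intro j a b
    refine ContinuousMap.ext fun t => ?_
    exact D.m1 g _ _
  have hmr : ∀ (j : ℕ) (a b : (Sing E).K j), (SingMul D.m).f (a, (SingMap (D.act g)).f b) =
      (SingMap (D.act g)).f ((SingMul D.m).f (a, b)) := by
    intro j a b
    refine ContinuousMap.ext fun t => ?_
    exact D.m2 g _ _
  have hk : (chT (SingMap (D.act g))).T ^ k = 1 := by
    rw [chT_pow, hg, chT_one]
  have hL : ∀ (y : Ch ℤ (Sing E)) (j : ℕ) (a : Ch ℤ (Sing E)),
      mu ℤ e (SingMul D.m) ((tau (chT (SingMap (D.act g))).T k j a : Ch ℤ (Sing E)) ⊗ₜ y) =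
        tau (chT (SingMap (D.act g))).T k j (mu ℤ e (SingMul D.m) (a ⊗ₜ y)) := by
    intro y j a
    exact cbi_tau (W := Ch ℤ (Sing E)) (chT (SingMap (D.act g))).T
      (cbi_L e (SingMul D.m) y)
      (fun a => cbi_mu_l hNabN e (SingMul D.m) (SingMap (D.act g)) hml a y) k j a
  have hR : ∀ (y : Ch ℤ (Sing E)) (j : ℕ) (a : Ch ℤ (Sing E)),
      mu ℤ e (SingMul D.m) (y ⊗ₜ (tau (chT (SingMap (D.act g))).T k j a : Ch ℤ (Sing E))) =
        tau (chT (SingMap (D.act g))).T k j (mu ℤ e (SingMul D.m) (y ⊗ₜ a)) := by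
    intro y j a
    exact cbi_tau (W := Ch ℤ (Sing E)) (chT (SingMap (D.act g))).T
      (cbi_R e (SingMul D.m) y)
      (fun a => cbi_mu_r hNabN e (SingMul D.m) (SingMap (D.act g)) hmr y a) k j a
  obtain ⟨hx1, hx2, hx3⟩ := hx
  have hx1' : ∀ a, a ≤ n + 1 → x a ∈ gr ℤ (Sing E) a := hx1
  have hx3' : ∀ a, a < n + 1 → bd ℤ (Sing E) (x (a + 1)) =
      tau (chT (SingMap (D.act g))).T k (a + 1) (x a) := hx3
  refine hChB (chW (Sing E)) (chT (SingMap (D.act g))) k (n + 1) m (by omega) hk (cbi_ac hE) x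
    ⟨hx1, hx2, hx3⟩ (fun a b => mu ℤ e (SingMul D.m) (x a ⊗ₜ[ℤ] x b)) ?_ ?_ ?_
    (u.comp (Λ.f' (n + 1))) ?_ ?_ i hi him
  · intro a b ha hb
    exact cmap_gr (SingMul D.m) ((hNabG e he ℤ (Sing E) (Sing E)).1 a b (x a) (hx1' a ha) (x b)
      (hx1' b hb))
  · have h1 := (hNabU e he ℤ (Sing E) (Sing E)).2.2 (x 0 ⊗ₜ[ℤ] x 0)
    change aug ℤ (Sing E) (cmap ℤ (SingMul D.m) (nab ℤ e (Sing E) (Sing E) (x 0 ⊗ₜ[ℤ] x 0))) = 1
    have hx2' : aug ℤ (Sing E) (x 0) = 1 := hx2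
    rw [aug_cmap, h1, augT_tmul, hx2', one_mul]
  · intro a b ha hb
    have h1 := cbi_bd_mu hNabD e he (SingMul D.m) (x a) (x b) (hx1' a ha)
    refine Eq.trans h1 ?_
    congr 1
    · cases a with
      | zero =>
        rw [bd_gr0 (hx1' 0 ha), TensorProduct.zero_tmul, map_zero, if_pos rfl]
        rfl
      | succ a =>
        rw [hx3' a (by omega), hL, if_neg (by omega)]
        rfl
    · congr 1
      cases b with
      | zero =>
        rw [bd_gr0 (hx1' 0 hb), TensorProduct.tmul_zero, map_zero, if_pos rfl]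
        rfl
      | succ b =>
        rw [hx3' b (by omega), hR, if_neg (by omega)]
        rfl
  · intro θ hθ hθ0
    have hθ0' : bd ℤ (Sing E) θ = 0 := hθ0
    obtain ⟨h, -, hh⟩ := hN g
    have h1 := hh n (Λ.f' (n + 1) θ)
    rw [← Λ.f'd, hθ0', map_zero, map_zero, add_zero] at h1
    change u (Λ.f' (n + 1) (cmap ℤ (SingMap (D.act g)) θ)) = u (Λ.f' (n + 1) θ)
    rw [Λ.f'g, ← sub_eq_zero, ← map_sub, ← h1]
    exact hu _
  · intro y hy
    change u (Λ.f' (n + 1) (bd ℤ (Sing E) y)) = 0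
    rw [Λ.f'd]
    exact hu _

end HXx
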