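import Pool.Agent.Lib.MP_181146_gt.HX.SpecX

/-!
# Project HX, module CTw: chains and the last value of a tower
-/

set_option autoImplicit false

namespace HXx

open HEp HPx HTx

/-- The value of an equivariant map on `τ_j c`. -/
private lemma CTw_tauW {G : Type} [CommGroup G] {W P : Type} [AddCommGroup W] [AddCommGroup P]
    [Module (ZG G) P] (T : AddMonoid.End W) (f : W →+ P) (g : G)
    (h : ∀ c, f (T c) = MonoidAlgebra.of ℤ G g • f c) (k j : ℕ) (c : W) :
    f (tau T k j c) = tw g k j • f c := by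
  have hp : ∀ j : ℕ, f ((T ^ j) c) = MonoidAlgebra.of ℤ G (g ^ j) • f c := by
    intro j
    induction j with
    | zero =>
      rw [pow_zero, pow_zero, map_one, one_smul]
      rfl
    | succ j ih =>
      rw [pow_succ', pow_succ', map_mul, mul_smul, ← ih]
      exact h _
  unfold tau tw
  split_ifs with hj
  · have h1 : (∑ j ∈ Finset.range k, T ^ j) c = ∑ j ∈ Finset.range k, (T ^ j) c :=
      AddMonoidHom.finsetSum_apply _ _ _
    rw [h1, map_sum, Finset.sum_smul]
    exact Finset.sum_congr rfl fun j _ => hp j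
  · have h1 : (T - 1) c = T c - c := rfl
    rw [h1, map_sub, sub_smul, one_smul, h]

/-- The value of `f'` on `τ_j c`. -/
private lemma CTw_tau {G : Type} [CommGroup G] {X : AX G} {E : Type} [TopologicalSpace E]
    {act : G → C(E, E)} (Λ : Lk X E act) (g : G) (k i j : ℕ) (c : (chW (Sing E)).W) :
    Λ.f' i (tau (chT (SingMap (act g))).T k j c) = tw g k j • Λ.f' i c :=
  CTw_tauW (W := (chW (Sing E)).W) (chT (SingMap (act g))).T (Λ.f' i) g (Λ.f'g g i) k j c

/-- The norm in terms of `g - 1`. -/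
private lemma CTw_norm {G : Type} [CommGroup G] (g : G) (k : ℕ) :
    ∃ S : ZG G, tw g k 0 = (k : ZG G) + (MonoidAlgebra.of ℤ G g - 1) * S := by
  refine ⟨∑ j ∈ Finset.range k, ∑ l ∈ Finset.range j, MonoidAlgebra.of ℤ G g ^ l, ?_⟩
  rw [Finset.mul_sum]
  have h1 : ∀ j ∈ Finset.range k, (MonoidAlgebra.of ℤ G g - 1) *
      ∑ l ∈ Finset.range j, MonoidAlgebra.of ℤ G g ^ l = MonoidAlgebra.of ℤ G (g ^ j) - 1 := by
    intro j _
    rw [mul_geom_sum, map_pow]
  rw [Finset.sum_congr rfl h1, Finset.sum_sub_distrib]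
  unfold tw
  rw [if_pos Even.zero]
  simp

/-- One odd step. -/
private lemma CTw_step {G : Type} [CommGroup G] (g : G) (k : ℕ) {P P' : Type} [AddCommGroup P]
    [AddCommGroup P'] [Module (ZG G) P] [Module (ZG G) P'] (d : P →ₗ[ZG G] P') (v : P →+ ℤ)
    (w : P' →+ ℤ) (hv : ∀ x, v ((MonoidAlgebra.of ℤ G g - 1 : ZG G) • x) = w (d x)) (y : P)
    (y' : P') (hy : d y = (MonoidAlgebra.of ℤ G g - 1 : ZG G) • y') :
    (k : ℤ) ∣ v (tw g k 0 • y) - w (tw g k 0 • y') := by
  obtain ⟨S, hS⟩ := CTw_norm g k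
  have h0 : w (d (S • y)) = w (S • d y) := congrArg w (d.map_smul S y)
  have h1 : v (tw g k 0 • y) = k * v y + w (S • d y) := by
    rw [hS, add_smul, map_add, mul_smul, hv, h0, Nat.cast_smul_eq_nsmul, map_nsmul,
      nsmul_eq_mul]
  have h2 : w (tw g k 0 • y') = k * w y' + w (S • d y) := by
    rw [hy, smul_smul, mul_comm S, hS, add_smul, map_add, Nat.cast_smul_eq_nsmul, map_nsmul,
      nsmul_eq_mul]
  refine ⟨v y - w y', ?_⟩
  rw [h1, h2]
  ring

/-- The last value of a tower. -/
theorem tCTw : S_CTw := by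
  intro G _ X E _ act Λ n hn g k hg u z T x hx
  obtain ⟨hx1, hx2, hx3⟩ := hx
  have hd : ∀ i, i < n + 1 → X.d i (Λ.f' (i + 1) (x (i + 1))) = tw g k (i + 1) • Λ.f' i (x i) := by
    intro i hi
    rw [← Λ.f'd, ← CTw_tau]
    exact congrArg _ (hx3 i hi)
  have hodd : ∀ i, Even i → tw g k (i + 1) = MonoidAlgebra.of ℤ G g - 1 := by
    intro i hi
    unfold tw
    rw [if_neg]
    rw [Nat.even_add_one]
    exact not_not_intro hi
  have heven : ∀ i, Even i → tw g k i = tw g k 0 := by
    intro i hi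
    unfold tw
    rw [if_pos hi, if_pos Even.zero]
  have key : ∀ i, i ≤ n → (k : ℤ) ∣ T.b i (tw g k 0 • Λ.f' i (x i)) - z := by
    intro i
    induction i with
    | zero =>
      intro _
      rw [T.bot, Λ.f'ε]
      have h1 : aug ℤ (Sing E) (x 0) = 1 := hx2
      rw [h1, mul_one, sub_self]
      exact dvd_zero _
    | succ i ih =>
      intro hi
      have ih' := ih (by omega)
      rcases Nat.even_or_odd (i + 1) with he | ho
      · have h1 : T.b (i + 1) (tw g k 0 • Λ.f' (i + 1) (x (i + 1))) =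
            T.b i (tw g k 0 • Λ.f' i (x i)) := by
          rw [← heven _ he, T.rel i (by omega), hd i (by omega)]
        rw [h1]
        exact ih'
      · have hei : Even i := by
          rcases Nat.even_or_odd i with h | h
          · exact h
          · exact absurd ho (by rw [Nat.not_odd_iff_even]; exact h.add_one)
        have h1 := CTw_step g k (X.d i) (T.b (i + 1)) (T.b i)
          (fun x => by rw [← hodd i hei]; exact T.rel i (by omega) x)
          (Λ.f' (i + 1) (x (i + 1))) (Λ.f' i (x i)) (by rw [hd i (by omega), hodd i hei])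
        have h2 := dvd_add h1 ih'
        rwa [sub_add_sub_cancel] at h2
  rw [CTw_tau]
  have h1 := CTw_step g k (X.d n) u (T.b n) T.top
    (Λ.f' (n + 1) (x (n + 1))) (Λ.f' n (x n)) (by rw [hd n (by omega), hodd n hn])
  have h2 := dvd_add h1 (key n le_rfl)
  rwa [sub_add_sub_cancel] at h2

end HXx
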