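import Pool.Agent.Lib.MP_181146_gt.HX.SpecX

/-!
# Project HX, module ChB: binomial coefficients
-/

set_option autoImplicit false

namespace HXx

open HEp HPx HTx

section ChBaux

variable {W : Type} [AddCommGroup W]

private lemma ChB_tau_even (T : AddMonoid.End W) (k i : ℕ) (h : Even i) :
    tau T k i = ∑ j ∈ Finset.range k, T ^ j := if_pos h

private lemma ChB_tau_odd (T : AddMonoid.End W) (k i : ℕ) (h : ¬ Even i) :
    tau T k i = T - 1 := if_neg h

private lemma ChB_tau_app (T : AddMonoid.End W) (k i : ℕ) (h : Even i) (x : W) :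
    tau T k i x = ∑ j ∈ Finset.range k, (T ^ j) x := by
  rw [ChB_tau_even T k i h]
  exact AddMonoidHom.finsetSum_apply _ _ _

private lemma ChB_tt (T : AddMonoid.End W) (k i : ℕ) (hk : T ^ k = 1) :
    tau T k (i + 1) * tau T k i = 0 := by
  by_cases h : Even i
  · rw [ChB_tau_even T k i h, ChB_tau_odd T k (i + 1) (by rwa [Nat.even_add_one, not_not]),
      mul_geom_sum, hk, sub_self]
  · rw [ChB_tau_odd T k i h, ChB_tau_even T k (i + 1) (Nat.even_add_one.2 h), geom_sum_mul, hk,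
      sub_self]

private lemma ChB_comm (T : AddMonoid.End W) (k i j : ℕ) :
    tau T k i * tau T k j = tau T k j * tau T k i := by
  have h1 : ∀ j, Commute T (tau T k j) := by
    intro j
    by_cases h : Even j
    · rw [ChB_tau_even T k j h]
      exact Commute.sum_right _ _ _ fun l _ => (Commute.refl T).pow_right l
    · rw [ChB_tau_odd T k j h]
      exact (Commute.refl T).sub_right (Commute.one_right T)
  have h2 : Commute (tau T k i) (tau T k j) := by
    by_cases h : Even i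
    · rw [ChB_tau_even T k i h]
      exact Commute.sum_left _ _ _ fun l _ => (h1 j).pow_left l
    · rw [ChB_tau_odd T k i h]
      exact (h1 j).sub_left (Commute.one_left _)
  exact h2

private lemma ChB_tau_mem (T : AddMonoid.End W) (k : ℕ) (S : AddSubgroup W)
    (hS : ∀ x ∈ S, T x ∈ S) (i : ℕ) (x : W) (hx : x ∈ S) : tau T k i x ∈ S := by
  by_cases h : Even i
  · rw [ChB_tau_app T k i h]
    refine AddSubgroup.sum_mem _ fun j _ => ?_
    have h1 : ∀ j, (T ^ j) x ∈ S := by
      intro j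
      induction j with
      | zero => exact hx
      | succ j ih =>
        rw [pow_succ']
        exact hS _ ih
    exact h1 j
  · rw [ChB_tau_odd T k i h]
    exact S.sub_mem (hS _ hx) hx

private lemma ChB_tau_D (T : AddMonoid.End W) (k : ℕ) (D : W →+ W)
    (hD : ∀ x, T (D x) = D (T x)) (i : ℕ) (x : W) : D (tau T k i x) = tau T k i (D x) := by
  by_cases h : Even i
  · rw [ChB_tau_app T k i h, ChB_tau_app T k i h, map_sum]
    refine Finset.sum_congr rfl fun j _ => ?_
    have h1 : ∀ j, D ((T ^ j) x) = (T ^ j) (D x) := by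
      intro j
      induction j with
      | zero => rfl
      | succ j ih =>
        rw [pow_succ']
        change D (T ((T ^ j) x)) = T ((T ^ j) (D x))
        rw [← ih, hD]
    exact h1 j
  · rw [ChB_tau_odd T k i h]
    change D (T x - x) = T (D x) - D x
    rw [map_sub, hD]

/-- The right hand side of the relations. -/
private def ChB_R (τ : ℕ → AddMonoid.End W) (H : ℕ → ℕ → W) (a b : ℕ) : W :=
  (if a = 0 then 0 else τ a (H (a - 1) b)) +
    (-1 : ℤ) ^ a • (if b = 0 then 0 else τ b (H a (b - 1)))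

variable (τ : ℕ → AddMonoid.End W)

private lemma ChB_R_congr (H H' : ℕ → ℕ → W) (a b : ℕ)
    (h1 : a ≠ 0 → H (a - 1) b = H' (a - 1) b) (h2 : b ≠ 0 → H a (b - 1) = H' a (b - 1)) :
    ChB_R τ H a b = ChB_R τ H' a b := by
  have e1 : (if a = 0 then (0 : W) else τ a (H (a - 1) b)) =
      if a = 0 then 0 else τ a (H' (a - 1) b) := by
    by_cases ha : a = 0
    · rw [if_pos ha, if_pos ha]
    · rw [if_neg ha, if_neg ha, h1 ha]
  have e2 : (if b = 0 then (0 : W) else τ b (H a (b - 1))) =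
      if b = 0 then 0 else τ b (H' a (b - 1)) := by
    by_cases hb : b = 0
    · rw [if_pos hb, if_pos hb]
    · rw [if_neg hb, if_neg hb, h2 hb]
  unfold ChB_R
  rw [e1, e2]

private lemma ChB_R_sub (H H' : ℕ → ℕ → W) (a b : ℕ) :
    ChB_R τ (fun a b => H a b - H' a b) a b = ChB_R τ H a b - ChB_R τ H' a b := by
  have e1 : (if a = 0 then (0 : W) else τ a (H (a - 1) b - H' (a - 1) b)) =
      (if a = 0 then 0 else τ a (H (a - 1) b)) - if a = 0 then 0 else τ a (H' (a - 1) b) := by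
    by_cases ha : a = 0
    · rw [if_pos ha, if_pos ha, if_pos ha, sub_zero]
    · rw [if_neg ha, if_neg ha, if_neg ha, map_sub]
  have e2 : (if b = 0 then (0 : W) else τ b (H a (b - 1) - H' a (b - 1))) =
      (if b = 0 then 0 else τ b (H a (b - 1))) - if b = 0 then 0 else τ b (H' a (b - 1)) := by
    by_cases hb : b = 0
    · rw [if_pos hb, if_pos hb, if_pos hb, sub_zero]
    · rw [if_neg hb, if_neg hb, if_neg hb, map_sub]
  unfold ChB_R
  rw [e1, e2, smul_sub]
  abel

private lemma ChB_R_D (D : W →+ W) (hD : ∀ i x, D (τ i x) = τ i (D x)) (H : ℕ → ℕ → W)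
    (a b : ℕ) : D (ChB_R τ H a b) = ChB_R τ (fun a b => D (H a b)) a b := by
  unfold ChB_R
  rw [map_add, map_zsmul]
  congr 1
  · by_cases ha : a = 0
    · rw [if_pos ha, if_pos ha, map_zero]
    · rw [if_neg ha, if_neg ha, hD]
  · congr 1
    by_cases hb : b = 0
    · rw [if_pos hb, if_pos hb, map_zero]
    · rw [if_neg hb, if_neg hb, hD]

private lemma ChB_R_mem (S : AddSubgroup W) (hτ : ∀ i, ∀ x ∈ S, τ i x ∈ S) (H : ℕ → ℕ → W)
    (a b : ℕ) (h1 : a ≠ 0 → H (a - 1) b ∈ S) (h2 : b ≠ 0 → H a (b - 1) ∈ S) :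
    ChB_R τ H a b ∈ S := by
  unfold ChB_R
  refine S.add_mem ?_ (S.zsmul_mem ?_ _)
  · by_cases ha : a = 0
    · rw [if_pos ha]
      exact S.zero_mem
    · rw [if_neg ha]
      exact hτ _ _ (h1 ha)
  · by_cases hb : b = 0
    · rw [if_pos hb]
      exact S.zero_mem
    · rw [if_neg hb]
      exact hτ _ _ (h2 hb)

private lemma ChB_R_R (htt : ∀ i x, τ (i + 1) (τ i x) = 0) (hc : ∀ i j x, τ i (τ j x) = τ j (τ i x))
    (H : ℕ → ℕ → W) (a b : ℕ) : ChB_R τ (fun a b => ChB_R τ H a b) a b = 0 := by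
  have hz : ∀ (a : ℕ) (y : W), τ (a + 1) (if a = 0 then 0 else τ a y) = 0 := by
    intro a y
    by_cases ha : a = 0
    · rw [if_pos ha, map_zero]
    · rw [if_neg ha, htt]
  unfold ChB_R
  beta_reduce
  cases a with
  | zero =>
    rw [if_pos rfl, zero_add, pow_zero, one_smul]
    cases b with
    | zero => rw [if_pos rfl]
    | succ b =>
      rw [if_neg (Nat.succ_ne_zero b), if_pos rfl, zero_add, one_smul, Nat.add_sub_cancel, hz]
  | succ a =>
    rw [if_neg (Nat.succ_ne_zero a), Nat.add_sub_cancel]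
    cases b with
    | zero =>
      rw [if_pos rfl, if_pos rfl, smul_zero, smul_zero, add_zero, add_zero, hz]
    | succ b =>
      rw [if_neg (Nat.succ_ne_zero b), if_neg (Nat.succ_ne_zero b),
        if_neg (Nat.succ_ne_zero a), Nat.add_sub_cancel, map_add, map_add, hz,
        zero_add, map_zsmul, map_zsmul, hz, smul_zero, add_zero, hc (b + 1) (a + 1), pow_succ,
        mul_neg_one, neg_smul, add_neg_cancel]

end ChBaux

private lemma ChB_cyc (A : GW) (τ : ℕ → AddMonoid.End A.W)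
    (hD : ∀ i x, A.D (τ i x) = τ i (A.D x)) (htt : ∀ i x, τ (i + 1) (τ i x) = 0)
    (hc : ∀ i j x, τ i (τ j x) = τ j (τ i x)) (n : ℕ) (G : ℕ → ℕ → A.W)
    (hGD : ∀ a b, a + b ≤ n → A.D (G a b) = ChB_R τ G a b) (h : ℕ → ℕ → A.W) (N : ℕ) (hN : N ≤ n)
    (hh : ∀ a b, a + b < N → A.D (h a b) = G a b - ChB_R τ h a b) (a b : ℕ) (hab : a + b = N) :
    A.D (G a b - ChB_R τ h a b) = 0 := by
  rw [map_sub, hGD a b (by omega), ChB_R_D τ A.D hD,
    ChB_R_congr τ (fun a b => A.D (h a b)) (fun a b => G a b - ChB_R τ h a b) a b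
      (fun ha => hh _ _ (by omega)) (fun hb => hh _ _ (by omega)),
    ChB_R_sub, ChB_R_R τ htt hc, sub_zero, sub_self]

private lemma ChB_hom (A : GW) (τ : ℕ → AddMonoid.End A.W)
    (hg : ∀ j i, ∀ x ∈ A.g j, τ i x ∈ A.g j)
    (hD : ∀ i x, A.D (τ i x) = τ i (A.D x)) (htt : ∀ i x, τ (i + 1) (τ i x) = 0)
    (hc : ∀ i j x, τ i (τ j x) = τ j (τ i x)) (n : ℕ) (hA : A.Ac n) (G : ℕ → ℕ → A.W)
    (hG : ∀ a b, a + b ≤ n → G a b ∈ A.g (a + b))
    (hGD : ∀ a b, a + b ≤ n → A.D (G a b) = ChB_R τ G a b) (hG0 : A.ε (G 0 0) = 0) (N : ℕ)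
    (hN : N ≤ n) : ∃ h : ℕ → ℕ → A.W, ∀ a b, a + b < N →
      h a b ∈ A.g (a + b + 1) ∧ A.D (h a b) = G a b - ChB_R τ h a b := by
  induction N with
  | zero => exact ⟨fun _ _ => 0, fun a b hab => absurd hab (Nat.not_lt_zero _)⟩
  | succ N ih =>
    obtain ⟨h, hh⟩ := ih (by omega)
    have key : ∀ a b, a + b = N → ∃ y ∈ A.g (a + b + 1), A.D y = G a b - ChB_R τ h a b := by
      intro a b hab
      have hcy := ChB_cyc A τ hD htt hc n G hGD h N (by omega) (fun a b h' => (hh a b h').2) a b hab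
      have hmem : G a b - ChB_R τ h a b ∈ A.g (a + b) := by
        refine (A.g (a + b)).sub_mem (hG a b (by omega)) ?_
        refine ChB_R_mem τ (A.g (a + b)) (hg (a + b)) h a b (fun ha => ?_) (fun hb => ?_)
        · have h1 := (hh (a - 1) b (by omega)).1
          rwa [show a - 1 + b + 1 = a + b by omega] at h1
        · have h1 := (hh a (b - 1) (by omega)).1
          rwa [show a + (b - 1) + 1 = a + b by omega] at h1
      rcases Nat.eq_zero_or_pos (a + b) with h0 | h0
      · obtain ⟨rfl, rfl⟩ : a = 0 ∧ b = 0 := by omega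
        have hR : ChB_R τ h 0 0 = 0 := by
          unfold ChB_R
          rw [if_pos rfl, smul_zero, add_zero]
        rw [hR, sub_zero] at hmem ⊢
        exact hA.2.1 (by omega) _ hmem hG0
      · exact hA.2.2 (a + b) h0 (by omega) _ hmem hcy
    choose! y hy1 hy2 using key
    refine ⟨fun a b => if a + b = N then y a b else h a b, fun a b hab => ?_⟩
    have hR : ChB_R τ (fun a b => if a + b = N then y a b else h a b) a b = ChB_R τ h a b := by
      refine ChB_R_congr τ _ _ a b (fun ha => ?_) (fun hb => ?_)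
      · exact if_neg (by omega)
      · exact if_neg (by omega)
    rw [hR]
    beta_reduce
    by_cases he : a + b = N
    · rw [if_pos he]
      exact ⟨hy1 a b he, hy2 a b he⟩
    · rw [if_neg he]
      exact hh a b (by omega)

/-- The coefficients. -/
private def ChB_c (a b : ℕ) : ℤ :=
  if a % 2 = 1 ∧ b % 2 = 1 then 0 else ((a / 2 + b / 2).choose (a / 2) : ℤ)

private lemma ChB_ee (a b : ℕ) : ChB_c (2 * a) (2 * b) = ((a + b).choose a : ℤ) := by
  unfold ChB_c
  rw [if_neg (by omega), show 2 * a / 2 = a by omega, show 2 * b / 2 = b by omega]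

private lemma ChB_eo (a b : ℕ) : ChB_c (2 * a) (2 * b + 1) = ((a + b).choose a : ℤ) := by
  unfold ChB_c
  rw [if_neg (by omega), show 2 * a / 2 = a by omega, show (2 * b + 1) / 2 = b by omega]

private lemma ChB_oe (a b : ℕ) : ChB_c (2 * a + 1) (2 * b) = ((a + b).choose a : ℤ) := by
  unfold ChB_c
  rw [if_neg (by omega), show (2 * a + 1) / 2 = a by omega, show 2 * b / 2 = b by omega]

private lemma ChB_oo (a b : ℕ) : ChB_c (2 * a + 1) (2 * b + 1) = 0 := by
  unfold ChB_c
  rw [if_pos (by omega)]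

private lemma ChB_rel (A : GW) (T : A.Op) (k n : ℕ) (x : ℕ → A.W) (hx : A.Ch T k n x) (a b : ℕ)
    (hab : a + b ≤ n) : A.D (ChB_c a b • x (a + b)) =
      ChB_R (tau T.T k) (fun a b => ChB_c a b • x (a + b)) a b := by
  have hev : ∀ i, tau T.T k (2 * i) = tau T.T k 0 := by
    intro i
    rw [ChB_tau_even _ _ _ (even_two_mul i), ChB_tau_even _ _ _ (by decide)]
  have hod : ∀ i, tau T.T k (2 * i + 1) = tau T.T k 1 := by
    intro i
    rw [ChB_tau_odd _ _ _ (by
      rw [Nat.even_add_one, not_not]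
      exact even_two_mul i), ChB_tau_odd _ _ _ (by decide)]
  have hDx : ∀ i, i < n → A.D (x (i + 1)) = tau T.T k (i + 1) (x i) := hx.2.2
  rw [map_zsmul]
  unfold ChB_R
  beta_reduce
  obtain ⟨p, rfl | rfl⟩ := Nat.even_or_odd' a
  · obtain ⟨q, rfl | rfl⟩ := Nat.even_or_odd' b
    · -- even, even
      rw [(even_two_mul p).neg_one_pow, one_smul, ChB_ee]
      rcases p with _ | p
      · rcases q with _ | q
        · have h0 : A.D (x (2 * 0 + 2 * 0)) = 0 := A.D0 _ (hx.1 0 (Nat.zero_le _))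
          rw [h0, smul_zero, if_pos rfl, add_zero]
        · have e1 : 2 * (q + 1) = 2 * q + 1 + 1 := by ring
          rw [if_pos rfl, zero_add, if_neg (by omega), e1, Nat.add_sub_cancel, ChB_eo 0 q,
            map_zsmul, mul_zero, zero_add, zero_add, zero_add, hDx _ (by omega),
            Nat.choose_zero_right, Nat.choose_zero_right, zero_add]
      · rcases q with _ | q
        · have e1 : 2 * (p + 1) = 2 * p + 1 + 1 := by ring
          rw [if_neg (by omega), if_pos rfl, add_zero, e1, Nat.add_sub_cancel, ChB_oe p 0,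
            map_zsmul, mul_zero, add_zero, add_zero, hDx _ (by omega), add_zero, add_zero,
            Nat.choose_self, Nat.choose_self]
        · have e1 : 2 * (p + 1) = 2 * p + 1 + 1 := by ring
          have e2 : 2 * (q + 1) = 2 * q + 1 + 1 := by ring
          have e3 : 2 * (p + 1) + 2 * (q + 1) - 1 = 2 * p + 1 + 2 * (q + 1) := by omega
          rw [if_neg (by omega), if_neg (by omega)]
          have i1 : 2 * (p + 1) - 1 = 2 * p + 1 := by omega
          have i2 : 2 * (q + 1) - 1 = 2 * q + 1 := by omega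
          have i3 : 2 * (p + 1) + 2 * (q + 1) = 2 * p + 1 + 2 * (q + 1) + 1 := by ring
          have i4 : 2 * (p + 1) + (2 * q + 1) = 2 * p + 1 + 2 * (q + 1) := by ring
          have i5 : 2 * p + 1 + 2 * (q + 1) + 1 = 2 * (p + q + 2) := by ring
          rw [i1, i2, ChB_oe, ChB_eo, i3, i4, hDx _ (by omega), i5, hev, hev, hev, map_zsmul,
            map_zsmul, ← add_smul]
          congr 1
          have i6 : p + 1 + (q + 1) = (p + q + 1) + 1 := by ring
          have i7 : p + (q + 1) = p + q + 1 := by ring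
          have i8 : p + 1 + q = p + q + 1 := by ring
          rw [i6, i7, i8, Nat.choose_succ_succ]
          push_cast
          ring
    · -- even, odd
      have e1 : (if 2 * p = 0 then (0 : A.W) else
          tau T.T k (2 * p) (ChB_c (2 * p - 1) (2 * q + 1) • x (2 * p - 1 + (2 * q + 1)))) = 0 := by
        rcases p with _ | p
        · exact if_pos rfl
        · rw [if_neg (by omega), show 2 * (p + 1) - 1 = 2 * p + 1 by omega, ChB_oo, zero_smul,
            map_zero]
      have i5 : 2 * p + 2 * q + 1 = 2 * (p + q) + 1 := by ring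
      rw [e1, zero_add, (even_two_mul p).neg_one_pow, one_smul, ChB_eo,
        if_neg (Nat.succ_ne_zero (2 * q)), Nat.add_sub_cancel, ChB_ee, map_zsmul, ← add_assoc,
        hDx _ (by omega), i5, hod, hod]
  · obtain ⟨q, rfl | rfl⟩ := Nat.even_or_odd' b
    · -- odd, even
      have e1 : (if 2 * q = 0 then (0 : A.W) else
          tau T.T k (2 * q) (ChB_c (2 * p + 1) (2 * q - 1) • x (2 * p + 1 + (2 * q - 1)))) = 0 := by
        rcases q with _ | q
        · exact if_pos rfl
        · rw [if_neg (by omega), show 2 * (q + 1) - 1 = 2 * q + 1 by omega, ChB_oo, zero_smul,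
            map_zero]
      have i3 : 2 * p + 1 + 2 * q = 2 * p + 2 * q + 1 := by ring
      have i5 : 2 * p + 2 * q + 1 = 2 * (p + q) + 1 := by ring
      rw [e1, smul_zero, add_zero, if_neg (Nat.succ_ne_zero (2 * p)), Nat.add_sub_cancel, ChB_oe,
        ChB_ee, map_zsmul, i3, hDx _ (by omega), i5, hod, hod]
    · -- odd, odd
      have hodd : Odd (2 * p + 1) := ⟨p, rfl⟩
      have i3 : 2 * p + 1 + 2 * q = 2 * p + (2 * q + 1) := by ring
      rw [ChB_oo, zero_smul, hodd.neg_one_pow, if_neg (Nat.succ_ne_zero (2 * p)),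
        if_neg (Nat.succ_ne_zero (2 * q)), Nat.add_sub_cancel, Nat.add_sub_cancel, ChB_eo, ChB_oe,
        map_zsmul, map_zsmul, hod, hod, i3, neg_smul, one_smul, add_neg_cancel]

theorem tChB : S_ChB := by
  intro A T k n m hn hk hA x hx F hF hF0 hFD u hu hud i hi him
  have hg : ∀ j i, ∀ x ∈ A.g j, tau T.T k i x ∈ A.g j :=
    fun j i x hx => ChB_tau_mem T.T k (A.g j) (T.Tg j) i x hx
  have hD : ∀ i x, A.D (tau T.T k i x) = tau T.T k i (A.D x) :=
    fun i x => ChB_tau_D T.T k A.D T.TD i x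
  have htt : ∀ i x, tau T.T k (i + 1) (tau T.T k i x) = 0 := by
    intro i x
    have h := congrArg (fun f : AddMonoid.End A.W => f x) (ChB_tt T.T k i hk)
    exact h
  have hc : ∀ i j x, tau T.T k i (tau T.T k j x) = tau T.T k j (tau T.T k i x) := by
    intro i j x
    have h := congrArg (fun f : AddMonoid.End A.W => f x) (ChB_comm T.T k i j)
    exact h
  -- the difference of the two families
  have hG : ∀ a b, a + b ≤ n → F a b - ChB_c a b • x (a + b) ∈ A.g (a + b) := by
    intro a b hab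
    exact (A.g (a + b)).sub_mem (hF a b (by omega) (by omega))
      ((A.g (a + b)).zsmul_mem (hx.1 _ hab) _)
  have hGD : ∀ a b, a + b ≤ n → A.D (F a b - ChB_c a b • x (a + b)) =
      ChB_R (tau T.T k) (fun a b => F a b - ChB_c a b • x (a + b)) a b := by
    intro a b hab
    rw [ChB_R_sub (tau T.T k) F (fun a b => ChB_c a b • x (a + b)), map_sub,
      ChB_rel A T k n x hx a b hab]
    congr 1
    exact hFD a b (by omega) (by omega)
  have hG0 : A.ε (F 0 0 - ChB_c 0 0 • x (0 + 0)) = 0 := by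
    have e : ChB_c 0 0 = 1 := by
      have := ChB_ee 0 0
      rwa [mul_zero, add_zero, Nat.choose_self, Nat.cast_one] at this
    rw [e, one_smul, map_sub, hF0, add_zero, hx.2.1, sub_self]
  obtain ⟨h, hh⟩ := ChB_hom A (tau T.T k) hg hD htt hc n hA
    (fun a b => F a b - ChB_c a b • x (a + b)) hG hGD hG0 n le_rfl
  -- the cycles
  have hth : ∀ a b, a + b = n →
      F a b - ChB_c a b • x (a + b) - ChB_R (tau T.T k) h a b ∈ A.g n ∧
      A.D (F a b - ChB_c a b • x (a + b) - ChB_R (tau T.T k) h a b) = 0 := by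
    intro a b hab
    refine ⟨?_, ChB_cyc A (tau T.T k) hD htt hc n (fun a b => F a b - ChB_c a b • x (a + b)) hGD h n
      le_rfl (fun a b h' => (hh a b h').2) a b hab⟩
    have h1 := hG a b hab.le
    rw [hab] at h1 ⊢
    refine (A.g n).sub_mem h1 ?_
    refine ChB_R_mem (tau T.T k) (A.g n) (hg n) h a b (fun ha => ?_) (fun hb => ?_)
    · have h2 := (hh (a - 1) b (by omega)).1
      rwa [show a - 1 + b + 1 = n by omega] at h2
    · have h2 := (hh a (b - 1) (by omega)).1
      rwa [show a + (b - 1) + 1 = n by omega] at h2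
  have huN : ∀ θ ∈ A.g n, A.D θ = 0 → u (tau T.T k 0 θ) = k * u θ := by
    intro θ hθ hθ'
    have h1 : ∀ j, (T.T ^ j) θ ∈ A.g n ∧ A.D ((T.T ^ j) θ) = 0 ∧ u ((T.T ^ j) θ) = u θ := by
      intro j
      induction j with
      | zero => exact ⟨hθ, hθ', rfl⟩
      | succ j ih =>
        rw [pow_succ']
        refine ⟨T.Tg _ _ ih.1, ?_, (hu _ ih.1 ih.2.1).trans ih.2.2⟩
        change A.D (T.T ((T.T ^ j) θ)) = 0
        rw [← T.TD, ih.2.1, map_zero]
    rw [ChB_tau_app _ _ _ (by decide), map_sum,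
      Finset.sum_congr rfl fun j _ => (h1 j).2.2, Finset.sum_const, Finset.card_range, nsmul_eq_mul]
  -- the last step
  obtain ⟨p, rfl⟩ : ∃ p, i = p + 1 := ⟨i - 1, by omega⟩
  obtain ⟨q, rfl⟩ : ∃ q, m = p + 1 + (q + 1) := ⟨m - (p + 1) - 1, by omega⟩
  have hev : ∀ i, tau T.T k (2 * i + 1 + 1) = tau T.T k 0 := by
    intro i
    rw [ChB_tau_even _ _ _ ⟨i + 1, by ring⟩, ChB_tau_even _ _ _ (by decide)]
  have hnn : n = 2 * p + 1 + (2 * q + 1 + 1) := by omega
  obtain ⟨m1, c1⟩ := hth (2 * p + 1) (2 * q + 1 + 1) hnn.symm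
  obtain ⟨m2, c2⟩ := hth (2 * p + 1 + 1) (2 * q + 1) (by omega)
  have hDF := hFD (2 * p + 1 + 1) (2 * q + 1 + 1) (by omega) (by omega)
  have hu0 : u (A.D (F (2 * p + 1 + 1) (2 * q + 1 + 1))) = 0 := by
    apply hud
    have h1 := hF (2 * p + 1 + 1) (2 * q + 1 + 1) (by omega) (by omega)
    rwa [show 2 * p + 1 + 1 + (2 * q + 1 + 1) = n + 1 by omega] at h1
  have hpow : (-1 : ℤ) ^ (2 * p + 1 + 1) = 1 := Even.neg_one_pow ⟨p + 1, by ring⟩
  have hpow' : (-1 : ℤ) ^ (2 * p + 1) = -1 := Odd.neg_one_pow ⟨p, rfl⟩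
  rw [if_neg (Nat.succ_ne_zero _), if_neg (Nat.succ_ne_zero _), Nat.add_sub_cancel,
    Nat.add_sub_cancel, hpow, one_smul, hev, hev] at hDF
  have R1 : ChB_R (tau T.T k) h (2 * p + 1) (2 * q + 1 + 1) =
      tau T.T k (2 * p + 1) (h (2 * p) (2 * q + 1 + 1)) -
        tau T.T k 0 (h (2 * p + 1) (2 * q + 1)) := by
    unfold ChB_R
    rw [if_neg (Nat.succ_ne_zero _), if_neg (Nat.succ_ne_zero _), Nat.add_sub_cancel,
      Nat.add_sub_cancel, hpow', neg_smul, one_smul, hev, sub_eq_add_neg]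
  have R2 : ChB_R (tau T.T k) h (2 * p + 1 + 1) (2 * q + 1) =
      tau T.T k 0 (h (2 * p + 1) (2 * q + 1)) +
        tau T.T k (2 * q + 1) (h (2 * p + 1 + 1) (2 * q)) := by
    unfold ChB_R
    rw [if_neg (Nat.succ_ne_zero _), if_neg (Nat.succ_ne_zero _), Nat.add_sub_cancel,
      Nat.add_sub_cancel, hpow, one_smul, hev]
  have N1 : ∀ y, tau T.T k 0 (tau T.T k (2 * p + 1) y) = 0 := by
    intro y
    rw [← hev p]
    exact htt _ _
  have N2 : ∀ y, tau T.T k 0 (tau T.T k (2 * q + 1) y) = 0 := by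
    intro y
    rw [← hev q]
    exact htt _ _
  have k1 := huN _ m1 c1
  have k2 := huN _ m2 c2
  have x1 : x (2 * p + 1 + (2 * q + 1 + 1)) = x n := by rw [hnn]
  have x2 : x (2 * p + 1 + 1 + (2 * q + 1)) = x n := by
    rw [hnn]
    congr 1
    ring
  have C1 : ChB_c (2 * p + 1) (2 * q + 1 + 1) = ((p + (q + 1)).choose p : ℤ) := by
    rw [show 2 * q + 1 + 1 = 2 * (q + 1) by ring, ChB_oe]
  have C2 : ChB_c (2 * p + 1 + 1) (2 * q + 1) = ((p + 1 + q).choose (p + 1) : ℤ) := by
    rw [show 2 * p + 1 + 1 = 2 * (p + 1) by ring, ChB_eo]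
  have E1 : ∀ (c : ℤ) (y z w v : A.W),
      tau T.T k 0 (y - c • z - (tau T.T k (2 * p + 1) w - tau T.T k 0 v)) =
        tau T.T k 0 y - c • tau T.T k 0 z + tau T.T k 0 (tau T.T k 0 v) := by
    intro c y z w v
    rw [map_sub, map_sub, map_sub, N1, map_zsmul, zero_sub, sub_neg_eq_add]
  have E2 : ∀ (c : ℤ) (y z w v : A.W),
      tau T.T k 0 (y - c • z - (tau T.T k 0 v + tau T.T k (2 * q + 1) w)) =
        tau T.T k 0 y - c • tau T.T k 0 z - tau T.T k 0 (tau T.T k 0 v) := by
    intro c y z w v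
    rw [map_sub, map_sub, map_add, N2, map_zsmul, add_zero]
  rw [R1, C1, x1, E1, map_add, map_sub, map_zsmul] at k1
  rw [R2, C2, x2, E2, map_sub, map_sub, map_zsmul] at k2
  have hch : (((p + 1 + (q + 1)).choose (p + 1) : ℕ) : ℤ) =
      ((p + (q + 1)).choose p : ℤ) + ((p + 1 + q).choose (p + 1) : ℤ) := by
    have i6 : p + 1 + (q + 1) = (p + q + 1) + 1 := by ring
    have i7 : p + (q + 1) = p + q + 1 := by ring
    have i8 : p + 1 + q = p + q + 1 := by ring
    rw [i6, i7, i8, Nat.choose_succ_succ]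
    push_cast
    ring
  rw [hDF, map_add] at hu0
  rw [hch]
  simp only [smul_eq_mul] at k1 k2
  refine ⟨-(u (F (2 * p + 1) (2 * q + 1 + 1) - ((p + (q + 1)).choose p : ℤ) • x n -
    (tau T.T k (2 * p + 1) (h (2 * p) (2 * q + 1 + 1)) -
      tau T.T k 0 (h (2 * p + 1) (2 * q + 1)))) +
    u (F (2 * p + 1 + 1) (2 * q + 1) - ((p + 1 + q).choose (p + 1) : ℤ) • x n -
    (tau T.T k 0 (h (2 * p + 1) (2 * q + 1)) +
      tau T.T k (2 * q + 1) (h (2 * p + 1 + 1) (2 * q))))), ?_⟩
  linear_combination -k1 - k2 + hu0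

end HXx
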