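import Pool.Agent.Lib.MP_181146_gt.HX.SpecX

/-!
# ChE: chain maps from the periodic resolution exist

Induction on the degree: `τ_(n+1) x_n` is a cycle (its augmentation is `0` if `n = 0`), so it is
a boundary.
-/

set_option autoImplicit false

namespace HXx

open HEp HPx HTx

private lemma ChE_mul {M : Type} [AddCommGroup M] (f g : AddMonoid.End M) (x : M) :
    (f * g) x = f (g x) := rfl

private lemma ChE_pow_D {A : GW} (T : A.Op) (j : ℕ) (x : A.W) :
    (T.T ^ j) (A.D x) = A.D ((T.T ^ j) x) := by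
  induction j with
  | zero => rfl
  | succ j ih => rw [pow_succ', ChE_mul, ChE_mul, ih, T.TD]

private lemma ChE_pow_g {A : GW} (T : A.Op) (i j : ℕ) (x : A.W) (hx : x ∈ A.g i) :
    (T.T ^ j) x ∈ A.g i := by
  induction j with
  | zero => exact hx
  | succ j ih =>
    rw [pow_succ', ChE_mul]
    exact T.Tg i _ ih

private lemma ChE_sum_apply {A : GW} (T : A.Op) (k : ℕ) (x : A.W) :
    (∑ j ∈ Finset.range k, T.T ^ j) x = ∑ j ∈ Finset.range k, (T.T ^ j) x :=
  AddMonoidHom.finsetSum_apply _ _ _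

private lemma ChE_tau_D {A : GW} (T : A.Op) (k i : ℕ) (x : A.W) :
    tau T.T k i (A.D x) = A.D (tau T.T k i x) := by
  unfold tau
  split_ifs
  · rw [ChE_sum_apply, ChE_sum_apply, map_sum]
    exact Finset.sum_congr rfl fun j _ => ChE_pow_D T j x
  · change T.T (A.D x) - A.D x = A.D (T.T x - x)
    rw [map_sub, T.TD]

private lemma ChE_tau_g {A : GW} (T : A.Op) (k i m : ℕ) (x : A.W) (hx : x ∈ A.g m) :
    tau T.T k i x ∈ A.g m := by
  unfold tau
  split_ifs
  · rw [ChE_sum_apply]
    exact AddSubgroup.sum_mem _ fun j _ => ChE_pow_g T m j x hx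
  · change T.T x - x ∈ A.g m
    exact AddSubgroup.sub_mem _ (T.Tg m x hx) hx

private lemma ChE_tau_tau {A : GW} (T : A.Op) (k i : ℕ) (hk : T.T ^ k = 1) (x : A.W) :
    tau T.T k (i + 1) (tau T.T k i x) = 0 := by
  have h : tau T.T k (i + 1) * tau T.T k i = 0 := by
    unfold tau
    by_cases hi : Even i
    · rw [if_pos hi, if_neg (by rw [Nat.even_add_one]; exact fun h => h hi), mul_geom_sum, hk,
        sub_self]
    · rw [if_neg hi, if_pos (by rw [Nat.even_add_one]; exact hi), geom_sum_mul, hk, sub_self]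
  rw [← ChE_mul, h]
  rfl

theorem tChE : S_ChE := by
  intro A T k n hk
  induction n with
  | zero =>
    rintro ⟨⟨v, hv, hv1⟩, -, -⟩
    refine ⟨fun _ => v, ?_, hv1, fun i hi => absurd hi (Nat.not_lt_zero i)⟩
    intro i hi
    obtain rfl : i = 0 := Nat.le_zero.1 hi
    exact hv
  | succ n ih =>
    rintro ⟨hA0, hA1, hA2⟩
    obtain ⟨x, hx1, hx2, hx3⟩ := ih ⟨hA0, fun _ => hA1 (Nat.succ_pos n),
      fun i hi hin => hA2 i hi (Nat.lt_succ_of_lt hin)⟩
    have hg : tau T.T k (n + 1) (x n) ∈ A.g n := ChE_tau_g T k _ n _ (hx1 n le_rfl)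
    have hy : ∃ y ∈ A.g (n + 1), A.D y = tau T.T k (n + 1) (x n) := by
      rcases Nat.eq_zero_or_pos n with hn | hn
      · subst hn
        refine hA1 (Nat.succ_pos 0) _ hg ?_
        have h1 : tau T.T k (0 + 1) (x 0) = T.T (x 0) - x 0 := by
          unfold tau
          rw [if_neg (by decide)]
          rfl
        rw [h1, map_sub, T.Tε, sub_self]
      · refine hA2 n hn (Nat.lt_succ_self n) _ hg ?_
        obtain ⟨m, rfl⟩ : ∃ m, n = m + 1 := ⟨n - 1, by omega⟩
        rw [← ChE_tau_D, hx3 m (Nat.lt_succ_self m)]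
        exact ChE_tau_tau T k (m + 1) hk _
    obtain ⟨y, hy1, hy2⟩ := hy
    refine ⟨Function.update x (n + 1) y, ?_, ?_, ?_⟩
    · intro i hi
      rcases Nat.lt_or_ge i (n + 1) with h | h
      · rw [Function.update_of_ne (Nat.ne_of_lt h)]
        exact hx1 i (Nat.le_of_lt_succ h)
      · obtain rfl : i = n + 1 := le_antisymm hi h
        rw [Function.update_self]
        exact hy1
    · rw [Function.update_of_ne (Nat.succ_ne_zero n).symm]
      exact hx2
    · intro i hi
      rw [Function.update_of_ne (Nat.ne_of_lt hi)]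
      rcases Nat.lt_or_ge i n with h | h
      · rw [Function.update_of_ne (Nat.ne_of_lt (Nat.succ_lt_succ h))]
        exact hx3 i h
      · obtain rfl : i = n := le_antisymm (Nat.le_of_lt_succ hi) h
        rw [Function.update_self]
        exact hy2

end HXx
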