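import Pool.Agent.Lib.MP_181146_gt.HX.SpecX

/-!
# Project HX, module ChU: uniqueness of the last value of a chain modulo `k`
-/

set_option autoImplicit false

namespace HXx

open scoped TensorProduct
open HEp HPx HTx

private theorem ChU_sum {W : Type} [AddCommGroup W] (T : AddMonoid.End W) (s : Finset ℕ) (x : W) :
    (∑ j ∈ s, T ^ j) x = ∑ j ∈ s, (T ^ j) x := by
  classical
  induction s using Finset.induction_on with
  | empty => rfl
  | insert a s ha ih =>
    rw [Finset.sum_insert ha, Finset.sum_insert ha, ← ih]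
    rfl

private theorem ChU_pow_succ {W : Type} [AddCommGroup W] (T : AddMonoid.End W) (j : ℕ) (x : W) :
    (T ^ (j + 1)) x = T ((T ^ j) x) := by
  rw [pow_succ']
  rfl

/-- The powers of `T` preserve the degree and commute with `D`. -/
private theorem ChU_pow (A : GW) (T : A.Op) (j i : ℕ) (x : A.W) (hx : x ∈ A.g i) :
    (T.T ^ j) x ∈ A.g i := by
  induction j with
  | zero => exact hx
  | succ j ih =>
    rw [ChU_pow_succ]
    exact T.Tg i _ ih

private theorem ChU_powD (A : GW) (T : A.Op) (j : ℕ) (x : A.W) :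
    (T.T ^ j) (A.D x) = A.D ((T.T ^ j) x) := by
  induction j with
  | zero => rfl
  | succ j ih => rw [ChU_pow_succ, ih, T.TD, ChU_pow_succ]

private theorem ChU_even {W : Type} [AddCommGroup W] (T : AddMonoid.End W) (k i : ℕ) (hi : Even i)
    (x : W) : tau T k i x = ∑ j ∈ Finset.range k, (T ^ j) x := by
  unfold tau
  rw [if_pos hi, ChU_sum]

private theorem ChU_odd {W : Type} [AddCommGroup W] (T : AddMonoid.End W) (k i : ℕ) (hi : ¬ Even i)
    (x : W) : tau T k i x = T x - x := by
  unfold tau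
  rw [if_neg hi]
  rfl

private theorem ChU_g (A : GW) (T : A.Op) (k m i : ℕ) (x : A.W) (hx : x ∈ A.g i) :
    tau T.T k m x ∈ A.g i := by
  by_cases hm : Even m
  · rw [ChU_even _ _ _ hm]
    exact AddSubgroup.sum_mem _ fun j _ => ChU_pow A T j i x hx
  · rw [ChU_odd _ _ _ hm]
    exact AddSubgroup.sub_mem _ (T.Tg i x hx) hx

private theorem ChU_D (A : GW) (T : A.Op) (k m : ℕ) (x : A.W) :
    tau T.T k m (A.D x) = A.D (tau T.T k m x) := by
  by_cases hm : Even m
  · rw [ChU_even _ _ _ hm, ChU_even _ _ _ hm, map_sum]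
    exact Finset.sum_congr rfl fun j _ => ChU_powD A T j x
  · rw [ChU_odd _ _ _ hm, ChU_odd _ _ _ hm, map_sub, T.TD]

/-- Two consecutive operators compose to zero. -/
private theorem ChU_comp {W : Type} [AddCommGroup W] (T : AddMonoid.End W) (k m : ℕ) (hk : T ^ k = 1)
    (x : W) : tau T k (m + 1) (tau T k m x) = 0 := by
  have h1 : tau T k (m + 1) * tau T k m = 0 := by
    unfold tau
    by_cases hm : Even m
    · rw [if_pos hm, if_neg (by rw [Nat.even_add_one]; exact fun h => h hm), mul_geom_sum, hk, sub_self]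
    · rw [if_neg hm, if_pos (by rw [Nat.even_add_one]; exact hm), geom_sum_mul, hk, sub_self]
  exact DFunLike.congr_fun h1 x

private theorem ChU_N (T' : ℕ) {W : Type} [AddCommGroup W] (T : AddMonoid.End W) (k n : ℕ) (hn : Odd n)
    (hk : T ^ k = 1) (x : W) : tau T k T' (tau T k n x) = if Even T' then 0 else tau T k T' (tau T k n x) := by
  split_ifs with h
  · have h1 : tau T k T' * tau T k n = 0 := by
      unfold tau
      rw [if_pos h, if_neg (Nat.not_even_iff_odd.2 hn), geom_sum_mul, hk, sub_self]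
    exact DFunLike.congr_fun h1 x
  · rfl

/-- **Uniqueness of the last value of a chain modulo `k`.** -/
theorem tChU : S_ChU := by
  intro A T k n hn hk hA x x' hx hx' u hu
  obtain ⟨-, hA0, hA1⟩ := hA
  obtain ⟨hg, hε, hD⟩ := hx
  obtain ⟨hg', hε', hD'⟩ := hx'
  -- the homotopy
  have key : ∀ m, m ≤ n → ∃ z ∈ A.g m, A.D (x m - x' m - tau T.T k m z) = 0 ∧ (m = 0 → z = 0) := by
    intro m
    induction m with
    | zero =>
      intro _
      refine ⟨0, AddSubgroup.zero_mem _, ?_, fun _ => rfl⟩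
      rw [map_zero, sub_zero]
      exact A.D0 _ (AddSubgroup.sub_mem _ (hg 0 (Nat.zero_le n)) (hg' 0 (Nat.zero_le n)))
    | succ m ih =>
      intro hm
      obtain ⟨z, hz, hz1, hz0⟩ := ih (by omega)
      have hw : x m - x' m - tau T.T k m z ∈ A.g m :=
        AddSubgroup.sub_mem _ (AddSubgroup.sub_mem _ (hg m (by omega)) (hg' m (by omega)))
          (ChU_g A T k m m z hz)
      obtain ⟨y, hy, hyD⟩ : ∃ y ∈ A.g (m + 1), A.D y = x m - x' m - tau T.T k m z := by
        rcases Nat.eq_zero_or_pos m with h0 | h0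
        · subst h0
          refine hA0 (by omega) _ hw ?_
          rw [hz0 rfl, map_zero, sub_zero, map_sub, hε, hε', sub_self]
        · exact hA1 m h0 (by omega) _ hw hz1
      refine ⟨y, hy, ?_, fun h => absurd h (Nat.succ_ne_zero m)⟩
      rw [map_sub, map_sub, hD m (by omega), hD' m (by omega), ← ChU_D, hyD, map_sub, map_sub,
        ChU_comp T.T k m hk, sub_zero, sub_self]
  obtain ⟨z, hz, hzD, -⟩ := key n le_rfl
  have hθ : x n - x' n - tau T.T k n z ∈ A.g n :=
    AddSubgroup.sub_mem _ (AddSubgroup.sub_mem _ (hg n le_rfl) (hg' n le_rfl)) (ChU_g A T k n n z hz)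
  -- the values on the powers
  have hpow : ∀ j, u ((T.T ^ j) (x n - x' n - tau T.T k n z)) = u (x n - x' n - tau T.T k n z) := by
    intro j
    induction j with
    | zero => rfl
    | succ j ih =>
      rw [ChU_pow_succ, hu _ (ChU_pow A T j n _ hθ) (by rw [← ChU_powD, hzD, map_zero]), ih]
  have h1 : u (tau T.T k 0 (x n - x' n - tau T.T k n z)) = k * u (x n - x' n - tau T.T k n z) := by
    rw [ChU_even _ _ _ Even.zero, map_sum, Finset.sum_congr rfl fun j _ => hpow j, Finset.sum_const,
      Finset.card_range, nsmul_eq_mul]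
  have h2 : tau T.T k 0 (x n - x' n - tau T.T k n z) = tau T.T k 0 (x n) - tau T.T k 0 (x' n) := by
    have h3 := ChU_N 0 T.T k n hn hk z
    rw [if_pos Even.zero] at h3
    rw [map_sub, map_sub, h3, sub_zero]
  rw [h2, map_sub] at h1
  exact ⟨_, h1⟩

end HXx
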