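import Pool.Agent.Lib.MP_181146_gt.HX.SpecX

set_option autoImplicit false

namespace HXx

open HEp HPx HTx

/-! # HX/Cov: the homology of `N X` and of `X` -/

section Cov

variable {G : Type} [CommGroup G]

private lemma Cov_mulN (g : G) (p : ℕ) (hg : g ^ p = 1) :
    MonoidAlgebra.of ℤ G g * tw g p 0 = tw g p 0 := by
  have h : (MonoidAlgebra.of ℤ G g - 1) * tw g p 0 = 0 := by
    have e : tw g p 0 = ∑ j ∈ Finset.range p, (MonoidAlgebra.of ℤ G g) ^ j := by
      unfold tw
      rw [if_pos (by decide)]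
      exact Finset.sum_congr rfl fun j _ => map_pow _ _ _
    rw [e, mul_geom_sum, ← map_pow, hg, map_one, sub_self]
  rw [sub_mul, one_mul, sub_eq_zero] at h
  exact h

private lemma Cov_powN (g : G) (p : ℕ) (hg : g ^ p = 1) (j : ℕ) :
    MonoidAlgebra.of ℤ G (g ^ j) * tw g p 0 = tw g p 0 := by
  induction j with
  | zero => rw [pow_zero, map_one, one_mul]
  | succ j ih => rw [pow_succ, map_mul, mul_assoc, Cov_mulN g p hg, ih]

private lemma Cov_NN (g : G) (p : ℕ) (hg : g ^ p = 1) :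
    tw g p 0 * tw g p 0 = (p : ZG G) * tw g p 0 := by
  have e : tw g p 0 = ∑ j ∈ Finset.range p, MonoidAlgebra.of ℤ G (g ^ j) := by
    unfold tw
    rw [if_pos (by decide)]
  conv_lhs => rw [e, ← e]
  have h : (∑ j ∈ Finset.range p, MonoidAlgebra.of ℤ G (g ^ j)) * tw g p 0 =
      ∑ j ∈ Finset.range p, tw g p 0 := by
    rw [Finset.sum_mul]
    exact Finset.sum_congr rfl fun j _ => Cov_powN g p hg j
  rw [← e] at h
  rw [h, Finset.sum_const, Finset.card_range, nsmul_eq_mul]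

private lemma Cov_NNs (g : G) (p : ℕ) (hg : g ^ p = 1) {M : Type} [AddCommGroup M]
    [Module (ZG G) M] (y : M) :
    tw g p 0 • (tw g p 0 • y) = (p : ℤ) • (tw g p 0 • y) := by
  rw [← mul_smul, Cov_NN g p hg, mul_smul]
  have h := Nat.cast_smul_eq_nsmul (ZG G) p (tw g p 0 • y)
  rw [h, natCast_zsmul]

private lemma Cov_bd (X : AX G) (hN : X.PN) (g : G) (i : ℕ) (z : X.P i) (hz : z ∈ (nX X).Z i) :
    (show X.P i from MonoidAlgebra.of ℤ G g • z - z) ∈ (nX X).B i := by
  obtain ⟨h, h0, h1⟩ := hN g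
  cases i with
  | zero => exact ⟨h 0 z, h0 z⟩
  | succ i =>
    have hz' : X.d i z = 0 := hz
    refine ⟨h (i + 1) z, ?_⟩
    have h2 := h1 i z
    rw [hz', map_zero, add_zero] at h2
    exact h2

private lemma Cov_bdN (X : AX G) (hN : X.PN) (g : G) (p : ℕ) (i : ℕ) (z : X.P i)
    (hz : z ∈ (nX X).Z i) :
    (show X.P i from tw g p 0 • z - (p : ℤ) • z) ∈ (nX X).B i := by
  have e : (tw g p 0 • z - (p : ℤ) • z : X.P i) =
      ∑ j ∈ Finset.range p, (MonoidAlgebra.of ℤ G (g ^ j) • z - z) := by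
    unfold tw
    rw [if_pos (by decide), Finset.sum_smul, Finset.sum_sub_distrib, Finset.sum_const,
      Finset.card_range, natCast_zsmul]
  rw [e]
  exact Submodule.sum_mem _ fun j _ => Cov_bd X hN (g ^ j) i z hz

private lemma Cov_Z (X : AX G) (g : G) (p i : ℕ) (x : (nXN X g p).P i)
    (hx : x ∈ (nXN X g p).Z i) : (nN X g p i).subtype x ∈ (nX X).Z i := by
  cases i with
  | zero => exact trivial
  | succ i =>
    have h : (nXN X g p).d i x = 0 := hx
    exact congrArg Subtype.val h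

private lemma Cov_B (X : AX G) (g : G) (p i : ℕ) (x : (nXN X g p).P i)
    (hx : x ∈ (nXN X g p).B i) : (nN X g p i).subtype x ∈ (nX X).B i := by
  obtain ⟨y, rfl⟩ := hx
  exact ⟨y.1, rfl⟩

/-- The element `N w` of `N X_i`. -/
private noncomputable def Cov_el (X : AX G) (g : G) (p i : ℕ) (w : X.P i) : (nXN X g p).P i :=
  (⟨tw g p 0 • w, ⟨w, rfl⟩⟩ : nN X g p i)

/-- The map on homology. -/
private noncomputable def Cov_phi (X : AX G) (g : G) (p i : ℕ) :
    (nXN X g p).H i →ₗ[ℤ] (nX X).H i :=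
  Submodule.mapQ _ _ (LinearMap.restrict (nN X g p i).subtype (Cov_Z X g p i))
    (fun x hx => Cov_B X g p i x hx)

private lemma Cov_phi_mk (X : AX G) (g : G) (p i : ℕ) (x : (nXN X g p).Z i) :
    Cov_phi X g p i (Submodule.Quotient.mk x) =
      Submodule.Quotient.mk (⟨(nN X g p i).subtype x.1, Cov_Z X g p i x.1 x.2⟩ : (nX X).Z i) := rfl

end Cov

/-- **Module Cov.** -/
theorem tCov : S_CpI → S_Cov := by
  intro hI L _ _ G _ _ X hN p hp g hg _ _ e e' he i
  refine hI L _ _ (e'.Hm i) (e.Hm i) (Cov_phi X g p i) ?_ (p : ℤ) (by exact_mod_cast hp.ne') ?_ ?_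
  · intro x
    obtain ⟨x, rfl⟩ := Submodule.Quotient.mk_surjective _ x
    rw [NC.E.Hm_mk, Cov_phi_mk, Cov_phi_mk, NC.E.Hm_mk]
    congr 1
    exact Subtype.ext (he i x.1)
  · intro x hx
    obtain ⟨x, rfl⟩ := Submodule.Quotient.mk_surjective _ x
    rw [Cov_phi_mk, Submodule.Quotient.mk_eq_zero] at hx
    obtain ⟨w, hw⟩ := hx
    have hw' : X.d i w = (x.1.1 : X.P i) := hw
    rw [← Submodule.Quotient.mk_smul, Submodule.Quotient.mk_eq_zero]
    obtain ⟨y, hy⟩ := x.1.2
    have hy' : tw g p 0 • y = (x.1.1 : X.P i) := hy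
    refine ⟨Cov_el X g p (i + 1) w, ?_⟩
    apply Subtype.ext
    have h3 : ∀ w : X.P (i + 1), X.d i (tw g p 0 • w) = tw g p 0 • X.d i w :=
      fun w => map_smul _ _ _
    refine (h3 w).trans ?_
    rw [hw', ← hy', Cov_NNs g p hg, hy']
    rfl
  · intro y
    obtain ⟨z, rfl⟩ := Submodule.Quotient.mk_surjective _ y
    have hz : Cov_el X g p i z.1 ∈ (nXN X g p).Z i := by
      have hz2 := z.2
      cases i with
      | zero => exact Submodule.mem_top
      | succ i =>
        have h : X.d i z.1 = 0 := hz2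
        apply Subtype.ext
        have h3 : ∀ w : X.P (i + 1), X.d i (tw g p 0 • w) = tw g p 0 • X.d i w :=
          fun w => map_smul _ _ _
        refine (h3 z.1).trans ?_
        rw [h, smul_zero]
        rfl
    refine ⟨Submodule.Quotient.mk ⟨_, hz⟩, ?_⟩
    rw [Cov_phi_mk, ← Submodule.Quotient.mk_smul, Submodule.Quotient.eq]
    exact Cov_bdN X hN g p i z.1 z.2

end HXx
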