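import Pool.Agent.Lib.MP_181146_gt.HX.SpecX

/-!
# Project HX, module CpA: multiplicativity of `cpL` for finitely generated abelian groups.
-/

set_option autoImplicit false

namespace HXx

open scoped TensorProduct
open HEp HPx HTx

/-- `tCpA`: multiplicativity of `cpL`. -/
theorem tCpA : S_CpS → S_CpA := by
  intro hS L _ _ A _ _ B e he
  classical
  -- the inclusion `L ⊗ B → L ⊗ A`
  set i : L ⊗[ℤ] B →ₗ[L] L ⊗[ℤ] A := LinearMap.baseChange L B.subtype with hi
  set q : L ⊗[ℤ] A →ₗ[L] L ⊗[ℤ] (A ⧸ B) := LinearMap.baseChange L B.mkQ with hq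
  have hinj : Function.Injective i := by
    have h := Module.Flat.lTensor_preserves_injective_linearMap (M := L) B.subtype
      B.injective_subtype
    intro x y hxy
    exact h hxy
  have hsurj : Function.Surjective q := by
    have h := LinearMap.lTensor_surjective L (g := B.mkQ) B.mkQ_surjective
    intro x
    obtain ⟨y, hy⟩ := h x
    exact ⟨y, hy⟩
  have hker : LinearMap.ker q = LinearMap.range i := by
    have h := lTensor_exact L (f := B.subtype) (g := B.mkQ)
      (by rw [LinearMap.exact_iff]; simp) B.mkQ_surjective
    ext x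
    constructor
    · intro hx
      exact (h x).1 hx
    · intro hx
      exact (h x).2 hx
  have hei : ∀ x, LinearMap.baseChange L e (i x) = i (LinearMap.baseChange L (e.restrict he) x) := by
    intro x
    rw [hi]
    have : (LinearMap.baseChange L e) ∘ₗ (LinearMap.baseChange L B.subtype) =
        (LinearMap.baseChange L B.subtype) ∘ₗ (LinearMap.baseChange L (e.restrict he)) := by
      rw [← LinearMap.baseChange_comp, ← LinearMap.baseChange_comp]
      rfl
    exact LinearMap.congr_fun this x
  have heq : ∀ x, q (LinearMap.baseChange L e x) = LinearMap.baseChange L (B.mapQ B e he) (q x) := by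
    intro x
    rw [hq]
    have : (LinearMap.baseChange L B.mkQ) ∘ₗ (LinearMap.baseChange L e) =
        (LinearMap.baseChange L (B.mapQ B e he)) ∘ₗ (LinearMap.baseChange L B.mkQ) := by
      rw [← LinearMap.baseChange_comp, ← LinearMap.baseChange_comp]
      rfl
    exact LinearMap.congr_fun this x
  have hW : LinearMap.range i ≤ (LinearMap.range i).comap (LinearMap.baseChange L e) := by
    rintro _ ⟨x, rfl⟩
    exact ⟨_, (hei x).symm⟩
  have h0 := hS L (L ⊗[ℤ] A) (LinearMap.range i) (LinearMap.baseChange L e) hW
  -- the submodule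
  have h1 : LinearMap.charpoly (M := LinearMap.range i) ((LinearMap.baseChange L e).restrict hW) =
      (LinearMap.baseChange L (e.restrict he)).charpoly := by
    rw [← LinearEquiv.charpoly_conj (LinearEquiv.ofInjective i hinj)
      (LinearMap.baseChange L (e.restrict he))]
    congr 1
    apply LinearMap.ext
    intro y
    obtain ⟨x, rfl⟩ := (LinearEquiv.ofInjective i hinj).surjective y
    apply Subtype.ext
    rw [LinearEquiv.conj_apply_apply, LinearEquiv.symm_apply_apply]
    exact hei x
  -- the quotient
  have h2 : ((LinearMap.range i).mapQ (LinearMap.range i) (LinearMap.baseChange L e) hW).charpoly =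
      (LinearMap.baseChange L (B.mapQ B e he)).charpoly := by
    let Q : ((L ⊗[ℤ] A) ⧸ LinearMap.range i) ≃ₗ[L] L ⊗[ℤ] (A ⧸ B) :=
      (Submodule.quotEquivOfEq _ _ hker.symm).trans (q.quotKerEquivOfSurjective hsurj)
    have hQ : ∀ x, Q (Submodule.Quotient.mk x) = q x := fun x => rfl
    rw [← LinearEquiv.charpoly_conj Q]
    congr 1
    apply LinearMap.ext
    intro y
    obtain ⟨z, rfl⟩ := Q.surjective y
    obtain ⟨x, rfl⟩ := Submodule.Quotient.mk_surjective _ z
    rw [LinearEquiv.conj_apply_apply, LinearEquiv.symm_apply_apply, hQ]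
    have : ((LinearMap.range i).mapQ (LinearMap.range i) (LinearMap.baseChange L e) hW)
        (Submodule.Quotient.mk x) = Submodule.Quotient.mk (LinearMap.baseChange L e x) := rfl
    rw [this, hQ]
    exact heq x
  unfold cpL
  rw [h0, h1, h2]

end HXx
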