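import Pool.Agent.Lib.MP_181146_gt.HX.SpecX

/-!
# Project HX, module CpD: the characteristic polynomial of `e` with `e (1 - e)` nilpotent
-/

set_option autoImplicit false

namespace HXx

open HEp HPx HTx Polynomial

private theorem CpD_pow {R : Type} [CommRing R] {M : Type} [AddCommGroup M] [Module R M]
    (e : Module.End R M) (k : ℕ) : ∀ (n : ℕ) (x : M),
    HBx.dlj e (n + k) ((e ^ k) x) = HBx.dlj e n x := by
  induction k with
  | zero => intro n x; rfl
  | succ k ih =>
    intro n x
    rw [pow_succ', Module.End.mul_apply, ← add_assoc, HBx.dlj_succ, ih]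

private theorem CpD_cop (L : Type) [Field L] : IsCoprime (X : L[X]) (X - 1) := ⟨1, -1, by ring⟩

theorem tCpD : S_DlZ → S_DlS → S_CpD := by
  intro hDlZ hDlS L _ V _ _ _ e k he
  have hV1 : ∀ x ∈ LinearMap.ker (aeval e (X ^ k : L[X])),
      e x ∈ LinearMap.ker (aeval e (X ^ k : L[X])) := by
    intro x hx
    rw [LinearMap.mem_ker] at hx ⊢
    rw [map_pow, aeval_X] at hx ⊢
    rw [← Module.End.mul_apply, ← pow_succ, pow_succ', Module.End.mul_apply, hx, map_zero]
  have hV2 : ∀ x ∈ LinearMap.ker (aeval e ((X - 1) ^ k : L[X])),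
      e x ∈ LinearMap.ker (aeval e ((X - 1) ^ k : L[X])) := by
    intro x hx
    rw [LinearMap.mem_ker] at hx ⊢
    have h1 : aeval e ((X - 1) ^ k : L[X]) * e = e * aeval e ((X - 1) ^ k : L[X]) := by
      have h2 : aeval e ((X - 1) ^ k * X : L[X]) = aeval e (X * (X - 1) ^ k : L[X]) := by
        rw [mul_comm]
      rw [map_mul, map_mul, aeval_X] at h2
      exact h2
    rw [← Module.End.mul_apply, h1, Module.End.mul_apply, hx, map_zero]
  have hcop : IsCoprime (X ^ k : L[X]) ((X - 1) ^ k) := (CpD_cop L).pow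
  have hdis := disjoint_ker_aeval_of_isCoprime e hcop
  have htop : LinearMap.ker (aeval e (X ^ k : L[X])) ⊔
      LinearMap.ker (aeval e ((X - 1) ^ k : L[X])) = ⊤ := by
    have h1 : (X ^ k * (X - 1) ^ k : L[X]) = (-1) ^ k * (X * (1 - X)) ^ k := by
      rw [← mul_pow, ← mul_pow]
      congr 1
      ring
    rw [sup_ker_aeval_eq_ker_aeval_mul_of_coprime e hcop, h1, map_mul, map_pow, map_pow, map_mul,
      map_sub, map_one, aeval_X, he, mul_zero, LinearMap.ker_zero]
  have hVW : IsCompl (LinearMap.ker (aeval e (X ^ k : L[X])))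
      (LinearMap.ker (aeval e ((X - 1) ^ k : L[X]))) := ⟨hdis, codisjoint_iff.2 htop⟩
  have hinj : ∀ (m : ℕ) (x : V), x ∈ LinearMap.ker (aeval e ((X - 1) ^ k : L[X])) →
      (e ^ m) x = 0 → x = 0 := by
    intro m x hx hm
    have h1 : IsCoprime (X ^ m : L[X]) ((X - 1) ^ k) := (CpD_cop L).pow
    have h2 := disjoint_ker_aeval_of_isCoprime e h1
    refine (Submodule.disjoint_def.1 h2) x ?_ hx
    rw [LinearMap.mem_ker, map_pow, aeval_X]
    exact hm
  generalize hA : LinearMap.ker (aeval e (X ^ k : L[X])) = A at hV1 hVW hdis htop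
  generalize hB : LinearMap.ker (aeval e ((X - 1) ^ k : L[X])) = B at hV2 hVW hdis htop hinj
  have hmA : ∀ x, x ∈ A ↔ (e ^ k) x = 0 := by
    intro x
    rw [← hA, LinearMap.mem_ker, map_pow, aeval_X]
  have hmB : ∀ x, x ∈ B ↔ ((e - 1) ^ k) x = 0 := by
    intro x
    rw [← hB, LinearMap.mem_ker, map_pow, map_sub, map_one, aeval_X]
  let E := Submodule.prodEquivOfIsCompl A B hVW
  have hψ : (e.restrict hV1).prodMap (e.restrict hV2) = E.symm.conj e := by
    apply LinearMap.ext
    rintro ⟨x, y⟩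
    rw [LinearEquiv.conj_apply, LinearEquiv.symm_symm, LinearMap.comp_apply, LinearMap.comp_apply]
    change _ = E.symm (e (E (x, y)))
    rw [LinearEquiv.eq_symm_apply]
    change ((e.restrict hV1 x : A) : V) + ((e.restrict hV2 y : B) : V) = e ((x : V) + (y : V))
    rw [map_add]
    rfl
  have hn1 : IsNilpotent (e.restrict hV1) := by
    refine ⟨k, ?_⟩
    apply LinearMap.ext
    intro x
    apply Subtype.ext
    rw [Module.End.pow_restrict k hV1]
    exact (hmA x).1 x.2
  have hn2 : IsNilpotent (e.restrict hV2 - (1 : L) • 1) := by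
    have h2 : ∀ x ∈ B, (e - 1) x ∈ B := fun x hx => B.sub_mem (hV2 x hx) hx
    have h3 : e.restrict hV2 - (1 : L) • 1 = (e - 1).restrict h2 := by
      rw [one_smul]
      rfl
    rw [h3]
    refine ⟨k, ?_⟩
    apply LinearMap.ext
    intro x
    apply Subtype.ext
    rw [Module.End.pow_restrict k h2]
    exact (hmB x).1 x.2
  have hc1 := IsNilpotent.charpoly_eq_X_pow_finrank hn1
  have hc2 : (e.restrict hV2).charpoly = (X - 1) ^ Module.finrank L B := by
    have h1 := IsNilpotent.charpoly_eq_X_pow_finrank hn2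
    rw [LinearMap.charpoly_sub_smul] at h1
    have h2 := congrArg (fun q : L[X] => q.comp (X - C 1)) h1
    simp only [comp_assoc, add_comp, X_comp, C_comp, sub_add_cancel, comp_X, pow_comp] at h2
    rw [h2, C_1]
  have hfr : Module.finrank L (HBx.DL e) = Module.finrank L B := by
    let f : B →ₗ[L] HBx.DL e := HBx.dlj e 0 ∘ₗ B.subtype
    have hf1 : Function.Injective f := by
      rw [← LinearMap.ker_eq_bot, LinearMap.ker_eq_bot']
      intro x hx
      obtain ⟨m, hm⟩ := hDlZ L V e 0 (x : V) hx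
      exact Subtype.ext (hinj m x x.2 hm)
    have hf2 : Function.Surjective f := by
      intro t
      obtain ⟨x, rfl⟩ := hDlS L V e k he t
      have hx : x ∈ A ⊔ B := by rw [htop]; exact Submodule.mem_top
      obtain ⟨y, hy, z, hz, rfl⟩ := Submodule.mem_sup.1 hx
      refine ⟨⟨z, hz⟩, ?_⟩
      have h1 : HBx.dlj e 0 y = 0 := by
        rw [← CpD_pow e k 0 y, (hmA y).1 hy, map_zero]
      change HBx.dlj e 0 z = HBx.dlj e 0 (y + z)
      rw [map_add, h1, zero_add]
    exact (LinearEquiv.ofBijective f ⟨hf1, hf2⟩).finrank_eq.symm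
  refine ⟨Module.finrank L A, ?_⟩
  rw [← E.symm.charpoly_conj e, ← hψ, LinearMap.charpoly_prodMap, hc1, hc2, hfr]

end HXx
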