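import Pool.Agent.Lib.MP_181146_gt.HX.SpecX

/-!
# Project HX, module CpI: invariance of the characteristic polynomial under isogenies

`φ : A → A'` with kernel and cokernel killed by `p ≠ 0`.  The inverse of `L ⊗ φ` is
`a ⊗ y ↦ (a / p) ⊗ s y`, where `φ (s y) = p • y`.
-/

set_option autoImplicit false

namespace HXx

open scoped TensorProduct
open HEp HPx HTx

private theorem CpI_zero {L : Type} [Field L] [CharZero L] {A : Type} [AddCommGroup A]
    {p : ℤ} (hp : p ≠ 0) {x : A} (hx : p • x = 0) (a : L) : a ⊗ₜ[ℤ] x = 0 := by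
  have hpL : (p : L) ≠ 0 := Int.cast_ne_zero.2 hp
  have h : a = p • ((p : L)⁻¹ * a) := by
    rw [zsmul_eq_mul, ← mul_assoc, mul_inv_cancel₀ hpL, one_mul]
  rw [h, TensorProduct.smul_tmul, hx, TensorProduct.tmul_zero]

private theorem CpI_eq {L : Type} [Field L] [CharZero L] {A A' : Type} [AddCommGroup A]
    [AddCommGroup A'] {φ : A →ₗ[ℤ] A'} {p : ℤ} (hp : p ≠ 0)
    (h1 : ∀ x, φ x = 0 → p • x = 0) {x y : A} (h : φ x = φ y) (a : L) :
    a ⊗ₜ[ℤ] x = a ⊗ₜ[ℤ] y := by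
  have h0 : φ (x - y) = 0 := by rw [map_sub, h, sub_self]
  have := CpI_zero hp (h1 _ h0) a
  rw [TensorProduct.tmul_sub] at this
  exact sub_eq_zero.1 this

private theorem CpI_inv {L : Type} [Field L] [CharZero L] {A : Type} [AddCommGroup A]
    {p : ℤ} (hp : p ≠ 0) (x : A) (a : L) : a • ((p : L)⁻¹ ⊗ₜ[ℤ] (p • x)) = a ⊗ₜ[ℤ] x := by
  have hpL : (p : L) ≠ 0 := Int.cast_ne_zero.2 hp
  rw [← TensorProduct.smul_tmul, TensorProduct.smul_tmul', zsmul_eq_mul, mul_inv_cancel₀ hpL,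
    smul_eq_mul, mul_one]

theorem tCpI : S_CpI := by
  intro L _ _ A A' _ _ _ _ e e' φ hφ p hp h1 h2
  choose s hs using h2
  let ψ : A' →ₗ[ℤ] L ⊗[ℤ] A :=
    (AddMonoidHom.mk' (fun y => (p : L)⁻¹ ⊗ₜ[ℤ] s y) (fun y z => by
      rw [← TensorProduct.tmul_add]
      refine CpI_eq hp h1 ?_ _
      rw [hs, map_add, hs, hs, smul_add])).toIntLinearMap
  have hψ : ∀ y, ψ y = (p : L)⁻¹ ⊗ₜ[ℤ] s y := fun y => rfl
  have a1 : φ.baseChange L ∘ₗ ψ.liftBaseChange L = LinearMap.id := by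
    refine TensorProduct.AlgebraTensorModule.curry_injective ?_
    ext y
    change φ.baseChange L (ψ.liftBaseChange L (1 ⊗ₜ[ℤ] y)) = 1 ⊗ₜ[ℤ] y
    rw [LinearMap.liftBaseChange_tmul, hψ, map_smul, LinearMap.baseChange_tmul, hs, CpI_inv hp]
  have a2 : ψ.liftBaseChange L ∘ₗ φ.baseChange L = LinearMap.id := by
    refine TensorProduct.AlgebraTensorModule.curry_injective ?_
    ext x
    change ψ.liftBaseChange L (φ.baseChange L (1 ⊗ₜ[ℤ] x)) = 1 ⊗ₜ[ℤ] x
    rw [LinearMap.baseChange_tmul, LinearMap.liftBaseChange_tmul, hψ,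
      CpI_eq hp h1 (y := p • x) (by rw [hs, map_smul]), CpI_inv hp]
  let E : (L ⊗[ℤ] A) ≃ₗ[L] (L ⊗[ℤ] A') := LinearEquiv.ofLinearMap _ _ a1 a2
  have hE : E.conj (e.baseChange L) = e'.baseChange L := by
    apply LinearMap.ext
    intro z
    obtain ⟨w, rfl⟩ := E.surjective z
    rw [LinearEquiv.conj_apply_apply, LinearEquiv.symm_apply_apply]
    change φ.baseChange L (e.baseChange L w) = e'.baseChange L (φ.baseChange L w)
    induction w with
    | zero => simp only [map_zero]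
    | add x y hx hy => simp only [map_add, hx, hy]
    | tmul a x => simp only [LinearMap.baseChange_tmul, hφ]
  unfold cpL
  rw [← hE, LinearEquiv.charpoly_conj]

end HXx
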