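import Pool.Agent.Lib.MP_181146_gt.HX.SpecX

/-!
# Project HX, module DlS: surjectivity of the map of the first stage to the direct limit (Fitting)
-/

set_option autoImplicit false

namespace HXx

open HEp HPx HTx

private theorem DlS_pow {R : Type} [CommRing R] {M : Type} [AddCommGroup M] [Module R M]
    (e : Module.End R M) (k : ℕ) : ∀ (n : ℕ) (x : M),
    HBx.dlj e (n + k) ((e ^ k) x) = HBx.dlj e n x := by
  induction k with
  | zero => intro n x; rfl
  | succ k ih =>
    intro n x
    rw [pow_succ', Module.End.mul_apply, ← add_assoc, HBx.dlj_succ, ih]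

theorem tDlS : S_DlS := by
  intro R _ M _ _ e k he t
  obtain ⟨n, x, rfl⟩ := HBx.dl_ind e t
  have h0 : IsCoprime (Polynomial.X : Polynomial ℤ) (1 - Polynomial.X) := ⟨1, 1, by ring⟩
  obtain ⟨c, d, hcd⟩ := h0.pow (m := n) (n := k)
  have h1 : Polynomial.aeval e (Polynomial.X ^ n * c) + Polynomial.aeval e
      (d * (1 - Polynomial.X) ^ k) = 1 := by
    rw [← map_add, mul_comm (Polynomial.X ^ n) c, hcd, map_one]
  have h2 : x = (e ^ n) (Polynomial.aeval e c x)
      + Polynomial.aeval e (d * (1 - Polynomial.X) ^ k) x := by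
    have h3 := congrArg (fun f : Module.End R M => f x) h1
    simp only [LinearMap.add_apply, Module.End.one_apply] at h3
    rw [map_mul, map_pow, Polynomial.aeval_X, Module.End.mul_apply] at h3
    exact h3.symm
  have h4 : (e ^ k) (Polynomial.aeval e (d * (1 - Polynomial.X) ^ k) x) = 0 := by
    have h5 : Polynomial.aeval e (Polynomial.X ^ k * (d * (1 - Polynomial.X) ^ k)) = 0 := by
      have h6 : (Polynomial.X ^ k * (d * (1 - Polynomial.X) ^ k) : Polynomial ℤ) =
          d * (Polynomial.X * (1 - Polynomial.X)) ^ k := by rw [mul_pow]; ring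
      rw [h6, map_mul, map_pow, map_mul, map_sub, map_one, Polynomial.aeval_X, he, mul_zero]
    have h7 := congrArg (fun f : Module.End R M => f x) h5
    simp only [LinearMap.zero_apply] at h7
    rw [map_mul, map_pow, Polynomial.aeval_X, Module.End.mul_apply] at h7
    exact h7
  refine ⟨Polynomial.aeval e c x, ?_⟩
  have h8 : HBx.dlj e n (Polynomial.aeval e (d * (1 - Polynomial.X) ^ k) x) = 0 := by
    rw [← DlS_pow e k, h4, map_zero]
  have h9 := DlS_pow e n 0 (Polynomial.aeval e c x)
  rw [zero_add] at h9
  rw [← h9]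
  conv_rhs => rw [h2, map_add, h8, add_zero]

end HXx
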