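import Pool.Agent.Lib.MP_181146_gt.HX.SpecX

/-!
# Project HX, module DlT: tensor product and direct limit
-/

set_option autoImplicit false

namespace HXx

open HEp HPx HTx
open scoped TensorProduct

section

variable {R S : Type} [CommRing R] [CommRing S] [Algebra R S] {M : Type} [AddCommGroup M]
  [Module R M] (e : Module.End R M)

private theorem DlT_le (N : Submodule R (ℕ →₀ M))
    (h : ∀ (n : ℕ) (x : M), Finsupp.single n x - Finsupp.single (n + 1) (e x) ∈ N) :
    HBx.dlRel e ≤ N := by
  unfold HBx.dlRel
  rw [Submodule.span_le]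
  rintro _ ⟨n, x, rfl⟩
  exact h n x

/-- The map from the direct limit to the direct limit of the base changes. -/
private noncomputable def DlT_g : HBx.DL e →ₗ[R] HBx.DL (LinearMap.baseChange S e) :=
  (HBx.dlRel e).liftQ
    (Finsupp.lsum R fun n =>
      ((HBx.dlj (LinearMap.baseChange S e) n).restrictScalars R) ∘ₗ (TensorProduct.mk R S M 1))
    (DlT_le e _ fun n x => by
      rw [LinearMap.mem_ker, map_sub, Finsupp.lsum_single, Finsupp.lsum_single]
      change HBx.dlj (LinearMap.baseChange S e) n (1 ⊗ₜ[R] x) -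
        HBx.dlj (LinearMap.baseChange S e) (n + 1) (1 ⊗ₜ[R] e x) = 0
      rw [← LinearMap.baseChange_tmul, HBx.dlj_succ, sub_self])

private theorem DlT_g_dlj (n : ℕ) (x : M) :
    DlT_g (S := S) e (HBx.dlj e n x) = HBx.dlj (LinearMap.baseChange S e) n (1 ⊗ₜ[R] x) := by
  unfold DlT_g
  change (Finsupp.lsum R fun n =>
      ((HBx.dlj (LinearMap.baseChange S e) n).restrictScalars R) ∘ₗ (TensorProduct.mk R S M 1))
      (Finsupp.single n x) = _
  rw [Finsupp.lsum_single]
  rfl

/-- The map from the base change of the direct limit. -/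
private noncomputable def DlT_F : (S ⊗[R] HBx.DL e) →ₗ[S] HBx.DL (LinearMap.baseChange S e) :=
  (DlT_g (S := S) e).liftBaseChange S

private theorem DlT_F_tmul (a : S) (n : ℕ) (x : M) :
    DlT_F (S := S) e (a ⊗ₜ[R] HBx.dlj e n x) =
      HBx.dlj (LinearMap.baseChange S e) n (a ⊗ₜ[R] x) := by
  unfold DlT_F
  rw [LinearMap.liftBaseChange_tmul, DlT_g_dlj, ← map_smul, TensorProduct.smul_tmul', smul_eq_mul,
    mul_one]

/-- The inverse map. -/
private noncomputable def DlT_G : HBx.DL (LinearMap.baseChange S e) →ₗ[S] (S ⊗[R] HBx.DL e) :=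
  (HBx.dlRel (LinearMap.baseChange S e)).liftQ
    (Finsupp.lsum S fun n => LinearMap.baseChange S (HBx.dlj e n))
    (DlT_le _ _ fun n x => by
      rw [LinearMap.mem_ker, map_sub, Finsupp.lsum_single, Finsupp.lsum_single, sub_eq_zero]
      induction x using TensorProduct.induction_on with
      | zero => simp only [map_zero]
      | tmul a x =>
        rw [LinearMap.baseChange_tmul, LinearMap.baseChange_tmul, LinearMap.baseChange_tmul,
          HBx.dlj_succ]
      | add x y hx hy => rw [map_add, map_add, map_add, hx, hy])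

private theorem DlT_G_dlj (n : ℕ) (x : S ⊗[R] M) :
    DlT_G (S := S) e (HBx.dlj (LinearMap.baseChange S e) n x) =
      LinearMap.baseChange S (HBx.dlj e n) x := by
  unfold DlT_G
  change (Finsupp.lsum S fun n => LinearMap.baseChange S (HBx.dlj e n)) (Finsupp.single n x) = _
  rw [Finsupp.lsum_single]

end

theorem tDlT : S_DlT := by
  intro R S _ _ _ M _ _ e
  refine ⟨LinearEquiv.ofLinearMap (DlT_F e) (DlT_G e) ?_ ?_⟩
  · apply LinearMap.ext
    intro t
    obtain ⟨n, x, rfl⟩ := HBx.dl_ind _ t
    rw [LinearMap.comp_apply, DlT_G_dlj, LinearMap.id_apply]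
    induction x using TensorProduct.induction_on with
    | zero => simp only [map_zero]
    | tmul a x => rw [LinearMap.baseChange_tmul, DlT_F_tmul]
    | add x y hx hy => rw [map_add, map_add, hx, hy, map_add]
  · apply LinearMap.ext
    intro t
    rw [LinearMap.comp_apply, LinearMap.id_apply]
    induction t using TensorProduct.induction_on with
    | zero => simp only [map_zero]
    | tmul a t =>
      obtain ⟨n, x, rfl⟩ := HBx.dl_ind _ t
      rw [DlT_F_tmul, DlT_G_dlj, LinearMap.baseChange_tmul]
    | add x y hx hy => rw [map_add, map_add, hx, hy]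

end HXx
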