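import Pool.Agent.Lib.MP_181146_gt.HX.SpecX

/-!
# HX/DlZ: zero in the direct limit (helper84)
-/

set_option autoImplicit false

namespace HXx

open HEp HPx HTx

/-- The map `y ↦ ∑ e^(N - j) y_j`. -/
private noncomputable def DlZ_S {R : Type} [CommRing R] {M : Type} [AddCommGroup M] [Module R M]
    (e : Module.End R M) (N : ℕ) : (ℕ →₀ M) →ₗ[R] M :=
  Finsupp.lsum ℕ fun j => (e ^ (N - j) : M →ₗ[R] M)

private lemma DlZ_single {R : Type} [CommRing R] {M : Type} [AddCommGroup M] [Module R M]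
    (e : Module.End R M) (N j : ℕ) (x : M) :
    DlZ_S e N (Finsupp.single j x) = (e ^ (N - j)) x := by
  unfold DlZ_S
  rw [Finsupp.lsum_single]

theorem tDlZ : S_DlZ := by
  intro R _ M _ _ e n x h
  have h1 : Finsupp.single n x ∈ HBx.dlRel e := (Submodule.Quotient.mk_eq_zero _).1 h
  have h2 : ∀ y ∈ HBx.dlRel e, ∃ N0 : ℕ, ∀ N, N0 ≤ N → DlZ_S e N y = 0 := by
    intro y hy
    unfold HBx.dlRel at hy
    induction hy using Submodule.span_induction with
    | mem y hy =>
      obtain ⟨m, z, rfl⟩ := hy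
      refine ⟨m + 1, fun N hN => ?_⟩
      rw [map_sub, DlZ_single, DlZ_single]
      obtain ⟨j, rfl⟩ := Nat.exists_eq_add_of_le hN
      have e1 : m + 1 + j - m = j + 1 := by omega
      have e2 : m + 1 + j - (m + 1) = j := by omega
      rw [e1, e2, pow_succ, Module.End.mul_apply, sub_self]
    | zero => exact ⟨0, fun N _ => map_zero _⟩
    | add y z _ _ hy hz =>
      obtain ⟨N1, h1⟩ := hy
      obtain ⟨N2, h2⟩ := hz
      refine ⟨max N1 N2, fun N hN => ?_⟩
      rw [map_add, h1 N (le_trans (le_max_left _ _) hN), h2 N (le_trans (le_max_right _ _) hN),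
        add_zero]
    | smul a y _ hy =>
      obtain ⟨N1, h1⟩ := hy
      refine ⟨N1, fun N hN => ?_⟩
      rw [map_smul, h1 N hN, smul_zero]
  obtain ⟨N0, h3⟩ := h2 _ h1
  refine ⟨N0 + n - n, ?_⟩
  rw [← DlZ_single]
  exact h3 (N0 + n) (Nat.le_add_right _ _)

end HXx
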