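import Pool.Agent.Lib.MP_181146_gt.HX.SpecY

/-!
# Project HX, module EZJ: the property `EZ` of the telescope depends only on the operators on
homology
-/

set_option autoImplicit false

namespace HXx

open scoped TensorProduct
open HEp HPx HTx

/-- Direct limits of isomorphic operators. -/
private noncomputable def EZJ_dl {R : Type} [CommRing R] {M N : Type} [AddCommGroup M] [Module R M]
    [AddCommGroup N] [Module R N] (e : Module.End R M) (e' : Module.End R N) (ψ : M ≃ₗ[R] N)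
    (h : ∀ x, ψ (e x) = e' (ψ x)) : HBx.DL e ≃ₗ[R] HBx.DL e' :=
  LinearEquiv.ofLinearMap (HBx.dlMap e e' ψ.toLinearMap h)
    (HBx.dlMap e' e ψ.symm.toLinearMap (fun x => by
      change ψ.symm (e' x) = e (ψ.symm x)
      rw [LinearEquiv.symm_apply_eq, h, LinearEquiv.apply_symm_apply]))
    (by
      apply LinearMap.ext
      intro t
      obtain ⟨n, x, rfl⟩ := HBx.dl_ind _ t
      rw [LinearMap.comp_apply, HBx.dlMap_dlj, HBx.dlMap_dlj]
      change HBx.dlj e' n (ψ (ψ.symm x)) = HBx.dlj e' n x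
      rw [LinearEquiv.apply_symm_apply])
    (by
      apply LinearMap.ext
      intro t
      obtain ⟨n, x, rfl⟩ := HBx.dl_ind _ t
      rw [LinearMap.comp_apply, HBx.dlMap_dlj, HBx.dlMap_dlj]
      change HBx.dlj e n (ψ.symm (ψ x)) = HBx.dlj e n x
      rw [LinearEquiv.symm_apply_apply])

/-- The number `hrk` of isomorphic modules. -/
private lemma EZJ_hrk {F : Type} [CommRing F] {L : Type} [Field L] (ε : F →+* L) {M N : Type}
    [AddCommGroup M] [Module F M] [AddCommGroup N] [Module F N] (ψ : M ≃ₗ[F] N) :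
    HBx.hrk ε M = HBx.hrk ε N := by
  let _ : Algebra F L := ε.toAlgebra
  exact (ψ.baseChange F L M N).finrank_eq

theorem tEZJ : S_HTl → S_EZJ := by
  intro hT F _ L _ ε T T' E E' h hE
  have hχ : ∀ i, Nonempty (HAx.Hi (HBy.tel E) i ≃ₗ[F] HAx.Hi (HBy.tel E') i) := by
    intro i
    obtain ⟨ψ, hψ⟩ := h i
    obtain ⟨a⟩ := hT F T E i
    obtain ⟨b⟩ := hT F T' E' i
    exact ⟨(a.trans (EZJ_dl (GEm E i) (GEm E' i) ψ hψ)).trans b.symm⟩
  obtain ⟨hf, N, hN, hs⟩ := hE
  refine ⟨fun i => ?_, N, fun i hi => ?_, ?_⟩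
  · obtain ⟨χ⟩ := hχ i
    have := hf i
    exact Module.Finite.equiv χ
  · obtain ⟨χ⟩ := hχ i
    have := hN i hi
    exact χ.symm.toEquiv.subsingleton
  · rw [← hs]
    refine Finset.sum_congr rfl fun i _ => ?_
    obtain ⟨χ⟩ := hχ i
    rw [EZJ_hrk ε χ]

end HXx
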