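import Pool.Agent.Lib.MP_181146_gt.HX.SpecX

/-!
# Project HX, module GpX: an element of prime order with value zero
-/

set_option autoImplicit false

namespace HXx

open HEp HPx HTx

private theorem GpX_card {G : Type} [CommGroup G] [Fintype G] [DecidableEq G] (p : ℕ)
    (hV : (Finset.univ.filter fun g : G => g ^ p = 1).card ≤ p) (j : ℕ) :
    (Finset.univ.filter fun g : G => g ^ p ^ j = 1).card ≤ p ^ j := by
  induction j with
  | zero =>
    have h : (Finset.univ.filter fun g : G => g ^ p ^ 0 = 1) = {1} := by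
      ext g
      simp
    rw [h, Finset.card_singleton, pow_zero]
  | succ j ih =>
    have h1 : (Finset.univ.filter fun g : G => g ^ p ^ (j + 1) = 1).card ≤
        p * ((Finset.univ.filter fun g : G => g ^ p ^ (j + 1) = 1).image fun g => g ^ p).card := by
      refine Finset.card_le_mul_card_image _ _ fun a ha => ?_
      obtain ⟨x0, -, rfl⟩ := Finset.mem_image.1 ha
      refine le_trans ?_ hV
      refine Finset.card_le_card_of_injOn (fun x => x * x0⁻¹) ?_ ?_
      · intro x hx
        have hx' : x ^ p = x0 ^ p := (Finset.mem_filter.1 hx).2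
        refine Finset.mem_filter.2 ⟨Finset.mem_univ _, ?_⟩
        rw [mul_pow, hx', inv_pow, mul_inv_cancel]
      · intro x _ y _ hxy
        exact mul_right_cancel hxy
    have h2 : ((Finset.univ.filter fun g : G => g ^ p ^ (j + 1) = 1).image fun g => g ^ p).card ≤
        p ^ j := by
      refine le_trans (Finset.card_le_card ?_) ih
      intro a ha
      obtain ⟨x, hx, rfl⟩ := Finset.mem_image.1 ha
      refine Finset.mem_filter.2 ⟨Finset.mem_univ _, ?_⟩
      rw [← pow_mul, ← pow_succ']
      exact (Finset.mem_filter.1 hx).2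
    calc _ ≤ p * _ := h1
      _ ≤ p * p ^ j := Nat.mul_le_mul_left _ h2
      _ = p ^ (j + 1) := (pow_succ' p j).symm

private theorem GpX_cyc {G : Type} [CommGroup G] [Fintype G] [DecidableEq G] (p : ℕ)
    (hp : p.Prime) (hG : IsPGroup p G)
    (hV : (Finset.univ.filter fun g : G => g ^ p = 1).card ≤ p) : IsCyclic G := by
  haveI : Fact p.Prime := ⟨hp⟩
  obtain ⟨k, hk⟩ := IsPGroup.iff_card.1 hG
  refine isCyclic_of_card_pow_eq_one_le fun n hn => ?_
  obtain ⟨j, -, hj⟩ := (Nat.dvd_prime_pow hp).1 (Nat.gcd_dvd_right n (p ^ k))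
  have h1 : (Finset.univ.filter fun g : G => g ^ n = 1).card ≤
      (Finset.univ.filter fun g : G => g ^ p ^ j = 1).card := by
    refine Finset.card_le_card fun g hg => ?_
    have hg' : g ^ n = 1 := (Finset.mem_filter.1 hg).2
    refine Finset.mem_filter.2 ⟨Finset.mem_univ _, ?_⟩
    have hg2 : g ^ p ^ k = 1 := by
      rw [← hk]
      exact pow_card_eq_one'
    rw [← hj]
    exact orderOf_dvd_iff_pow_eq_one.1
      (Nat.dvd_gcd (orderOf_dvd_of_pow_eq_one hg') (orderOf_dvd_of_pow_eq_one hg2))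
  have h2 : p ^ j ≤ n := by
    rw [← hj]
    exact Nat.gcd_le_left _ hn
  exact (h1.trans (GpX_card p hV j)).trans h2

theorem tGpX : S_GpX := by
  intro G _ _ hG m hm z hz h0
  classical
  haveI : Fintype G := Fintype.ofFinite G
  by_cases hA : ∃ p : ℕ, p.Prime ∧ p ∣ Nat.card G ∧ ∀ j, m ≠ p ^ j
  · obtain ⟨p, hp, hd, hj⟩ := hA
    haveI : Fact p.Prime := ⟨hp⟩
    obtain ⟨g, hg⟩ := exists_prime_orderOf_dvd_card' p hd
    refine ⟨p, g, hp, hg, h0 p hp hj g ?_⟩
    rw [← hg]
    exact pow_orderOf_eq_one g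
  · have hA' : ∀ p : ℕ, p.Prime → p ∣ Nat.card G → ∃ j, m = p ^ j := by
      intro p hp hd
      by_contra h
      exact hA ⟨p, hp, hd, fun j hj => h ⟨j, hj⟩⟩
    have hc1 : Nat.card G ≠ 1 := by
      intro hc
      refine hG 2 Nat.prime_two (IsPGroup.of_card (n := 0) (by rw [hc, pow_zero])) ?_
      haveI : Subsingleton G := (Nat.card_eq_one_iff_unique.1 hc).1
      exact isCyclic_of_subsingleton
    obtain ⟨p, hp, hpd⟩ := Nat.exists_prime_and_dvd hc1
    have huniq : ∀ q : ℕ, q.Prime → q ∣ Nat.card G → q = p := by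
      intro q hq hqd
      obtain ⟨a, ha⟩ := hA' p hp hpd
      obtain ⟨b, hb⟩ := hA' q hq hqd
      have hb0 : b ≠ 0 := by
        rintro rfl
        rw [pow_zero] at hb
        omega
      have hqa : q ∣ p ^ a := by
        rw [← ha, hb]
        exact dvd_pow_self q hb0
      exact (Nat.prime_dvd_prime_iff_eq hq hp).1 (hq.dvd_of_dvd_pow hqa)
    have hcard : Nat.card G = p ^ (Nat.card G).primeFactorsList.length :=
      Nat.eq_prime_pow_of_unique_prime_dvd Nat.card_pos.ne' fun {q} hq hqd => huniq q hq hqd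
    have hPG : IsPGroup p G := IsPGroup.of_card hcard
    have hV : p < (Finset.univ.filter fun g : G => g ^ p = 1).card := by
      by_contra h
      exact hG p hp hPG (GpX_cyc p hp hPG (not_lt.1 h))
    haveI : NeZero p := ⟨hp.ne_zero⟩
    have hV' : (Finset.univ : Finset (ZMod p)).card <
        (Finset.univ.filter fun g : G => g ^ p = 1).card := by
      rw [Finset.card_univ, ZMod.card]
      exact hV
    obtain ⟨g, hg, h, hh, hne, heq⟩ := Finset.exists_ne_map_eq_of_card_lt_of_maps_to hV'
      (f := z p) (fun x _ => Finset.mem_coe.2 (Finset.mem_univ _))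
    have hg' : g ^ p = 1 := (Finset.mem_filter.1 hg).2
    have hh' : h ^ p = 1 := (Finset.mem_filter.1 hh).2
    have hi' : h⁻¹ ^ p = 1 := by rw [inv_pow, hh', inv_one]
    have e1 : z p 1 = 0 := by
      have := hz p hp 1 1 (one_pow p) (one_pow p)
      rw [mul_one] at this
      exact left_eq_add.1 this
    have e2 : z p h + z p h⁻¹ = 0 := by
      rw [← hz p hp h h⁻¹ hh' hi', mul_inv_cancel, e1]
    refine ⟨p, g * h⁻¹, hp, ?_, ?_⟩
    · haveI : Fact p.Prime := ⟨hp⟩
      refine orderOf_eq_prime ?_ ?_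
      · rw [mul_pow, hg', hi', mul_one]
      · intro h1
        exact hne (mul_inv_eq_one.1 h1)
    · rw [hz p hp g h⁻¹ hg' hi', heq, e2]

end HXx
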