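import Pool.Agent.Lib.MP_181146_gt.HX.SpecY

/-!
# Project HX, module HTl: the homology of the telescope
-/

set_option autoImplicit false

namespace HXx

open HEp HPx HTx

section

variable {R : Type} [CommRing R]

private lemma HTl_jk {M : Type} [AddCommGroup M] [Module R M] (e : Module.End R M) :
    ∀ (k n : ℕ) (x : M), HBx.dlj e (n + k) ((e ^ k) x) = HBx.dlj e n x := by
  intro k
  induction k with
  | zero => intro n x; rfl
  | succ k ih =>
    intro n x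
    rw [pow_succ', Module.End.mul_apply, ← add_assoc, HBx.dlj_succ, ih]

private lemma HTl_pz {T : HRx.GC R} (E : HBy.En T) (i : ℤ) (k : ℕ) :
    ∀ x ∈ HAx.Zi T i, ((E.e : Module.End R T.V) ^ k) x ∈ HAx.Zi T i := by
  induction k with
  | zero => intro x hx; exact hx
  | succ k ih =>
    intro x hx
    obtain ⟨h1, h2⟩ := ih x hx
    rw [pow_succ', Module.End.mul_apply]
    refine ⟨E.he i _ h1, ?_⟩
    change T.d (E.e (((E.e : Module.End R T.V) ^ k) x)) = 0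
    rw [← E.hed, show T.d (((E.e : Module.End R T.V) ^ k) x) = 0 from h2, map_zero]

private lemma HTl_pow {T : HRx.GC R} (E : HBy.En T) (i : ℤ) (k : ℕ) (x : HAx.Zi T i) :
    ((GEm E i : Module.End R (HAx.Hi T i)) ^ k) (Submodule.Quotient.mk x) =
      Submodule.Quotient.mk
        (⟨((E.e : Module.End R T.V) ^ k) x.1, HTl_pz E i k x.1 x.2⟩ : HAx.Zi T i) := by
  induction k with
  | zero => rfl
  | succ k ih =>
    rw [pow_succ', Module.End.mul_apply, ih]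
    refine congrArg Submodule.Quotient.mk (Subtype.ext ?_)
    change E.e (((E.e : Module.End R T.V) ^ k) x.1) = ((E.e : Module.End R T.V) ^ (k + 1)) x.1
    rw [pow_succ', Module.End.mul_apply]

end

theorem tHTl : HBy.S_TelC → S_HTl := by
  intro hC R _ T E i
  obtain ⟨c1, c2, c3, c4⟩ := hC R T E
  have hz : ∀ n, ∀ x ∈ HAx.Zi T i, HBy.tj E n x ∈ HAx.Zi (HBy.tel E) i := by
    intro n x hx
    refine ⟨(c1 n).1 i x hx.1, ?_⟩
    change (HBy.tel E).d (HBy.tj E n x) = 0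
    have h := (c1 n).2 x
    rw [show T.d x = 0 from hx.2, map_zero] at h
    exact h.symm
  -- the maps of the stages
  obtain ⟨J, hJ⟩ : ∃ J : ℕ → HAx.Hi T i →ₗ[R] HAx.Hi (HBy.tel E) i,
      ∀ n (x : HAx.Zi T i), J n (Submodule.Quotient.mk x) =
        Submodule.Quotient.mk (⟨HBy.tj E n x.1, hz n x.1 x.2⟩ : HAx.Zi (HBy.tel E) i) :=
    ⟨fun n => Submodule.mapQ _ _ ((HBy.tj E n).restrict (hz n)) (fun x hx => by
      obtain ⟨y, hy, hyx⟩ := (HAx.mem_Bi T i x).1 hx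
      refine (HAx.mem_Bi (HBy.tel E) i _).2 ⟨HBy.tj E n y, (c1 n).1 _ y hy, ?_⟩
      exact ((c1 n).2 y).symm.trans (congrArg (HBy.tj E n) hyx)), fun n x => rfl⟩
  obtain ⟨φ, hφ⟩ : ∃ φ : (ℕ →₀ HAx.Hi T i) →ₗ[R] HAx.Hi (HBy.tel E) i,
      ∀ n x, φ (Finsupp.single n x) = J n x :=
    ⟨Finsupp.lsum R fun n => J n, fun n x => by rw [Finsupp.lsum_single]⟩
  have hrel : HBx.dlRel (GEm E i) ≤ LinearMap.ker φ := by
    unfold HBx.dlRel
    rw [Submodule.span_le]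
    rintro _ ⟨n, x, rfl⟩
    obtain ⟨x, rfl⟩ := Submodule.Quotient.mk_surjective _ x
    change φ _ = 0
    have hx1 : E.e x.1 ∈ HAx.Zi T i := by
      refine ⟨E.he i _ x.2.1, ?_⟩
      change T.d (E.e x.1) = 0
      rw [← E.hed, show T.d x.1 = 0 from x.2.2, map_zero]
    have h1 : GEm E i (Submodule.Quotient.mk x) =
        Submodule.Quotient.mk (⟨E.e x.1, hx1⟩ : HAx.Zi T i) := rfl
    rw [map_sub, hφ, hφ, sub_eq_zero, h1, hJ, hJ]
    refine (Submodule.Quotient.eq _).2 ((HAx.mem_Bi (HBy.tel E) i _).2 ?_)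
    exact c4 i n x.1 x.2
  obtain ⟨Φ, hΦ⟩ : ∃ Φ : HBx.DL (GEm E i) →ₗ[R] HAx.Hi (HBy.tel E) i,
      ∀ n x, Φ (HBx.dlj (GEm E i) n x) = J n x :=
    ⟨(HBx.dlRel (GEm E i)).liftQ φ hrel, fun n x => hφ n x⟩
  refine ⟨(LinearEquiv.ofBijective Φ ⟨?_, ?_⟩).symm⟩
  · rw [← LinearMap.ker_eq_bot, LinearMap.ker_eq_bot']
    intro u hu
    obtain ⟨n, h, rfl⟩ := HBx.dl_ind _ u
    obtain ⟨x, rfl⟩ := Submodule.Quotient.mk_surjective _ h
    rw [hΦ, hJ] at hu
    have hb : (HBy.tel E).Bdy i (HBy.tj E n x.1) :=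
      (HAx.mem_Bi (HBy.tel E) i _).1 ((Submodule.Quotient.mk_eq_zero _).1 hu)
    obtain ⟨k, hk⟩ := (c3 i n x.1 x.2).1 hb
    have e0 : (Submodule.Quotient.mk (⟨((E.e : Module.End R T.V) ^ k) x.1,
        HTl_pz E i k x.1 x.2⟩ : HAx.Zi T i) : HAx.Hi T i) = 0 :=
      (Submodule.Quotient.mk_eq_zero _).2 ((HAx.mem_Bi T i _).2 hk)
    rw [← HTl_jk (GEm E i) k, HTl_pow E i k x, e0, map_zero]
  · intro t
    obtain ⟨⟨y, hy⟩, rfl⟩ := Submodule.Quotient.mk_surjective _ t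
    obtain ⟨n, x, hx, hb⟩ := c2 i y hy
    refine ⟨HBx.dlj (GEm E i) n (Submodule.Quotient.mk (⟨x, hx⟩ : HAx.Zi T i)), ?_⟩
    rw [hΦ, hJ]
    symm
    exact (Submodule.Quotient.eq _).2 ((HAx.mem_Bi (HBy.tel E) i _).2 hb)

end HXx
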