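import Pool.Agent.Lib.MP_181146_gt.HX.SpecX

/-!
# Project HX, module Hpf: the Hopf formula for characteristic polynomials
-/

set_option autoImplicit false

namespace HXx

open scoped TensorProduct
open HEp HPx HTx

section

variable (L : Type) [Field L] [CharZero L] (X : NC) [∀ i, Module.Finite ℤ (X.P i)] (e : X.E)

private noncomputable def Hpf_p (i : ℕ) : Polynomial L := cpL L (X.P i) (e.f i)

private noncomputable def Hpf_h (i : ℕ) : Polynomial L := cpL L (X.H i) (e.Hm i)

private noncomputable def Hpf_z (i : ℕ) : Polynomial L :=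
  cpL L (X.Z i) ((e.f i).restrict (e.Z i))

private noncomputable def Hpf_b (i : ℕ) : Polynomial L :=
  cpL L (X.B i) ((e.f i).restrict (e.B i))

private lemma Hpf_zbh (hA : S_CpA) (hI : S_CpI) (i : ℕ) :
    Hpf_z L X e i = Hpf_b L X e i * Hpf_h L X e i := by
  unfold Hpf_z Hpf_b Hpf_h
  have he : (X.B i).comap (X.Z i).subtype ≤
      ((X.B i).comap (X.Z i).subtype).comap ((e.f i).restrict (e.Z i)) :=
    fun x hx => e.B i x hx
  rw [hA L (X.Z i) ((X.B i).comap (X.Z i).subtype) ((e.f i).restrict (e.Z i)) he]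
  congr 1
  refine hI L _ _ _ _ (((X.Z i).subtype).restrict (fun x hx => hx)) (fun x => rfl) 1 one_ne_zero
    (fun x hx => ?_) (fun y => ?_)
  · rw [one_smul]
    have h1 : (x.1.1 : X.P i) = 0 := congrArg Subtype.val hx
    exact Subtype.ext (Subtype.ext h1)
  · refine ⟨⟨⟨y.1, X.B_le_Z i y.2⟩, y.2⟩, ?_⟩
    rw [one_smul]
    rfl

private lemma Hpf_pz0 (hI : S_CpI) : Hpf_p L X e 0 = Hpf_z L X e 0 := by
  unfold Hpf_p Hpf_z
  refine (hI L _ _ _ _ (X.Z 0).subtype (fun x => rfl) 1 one_ne_zero (fun x hx => ?_)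
    (fun y => ?_)).symm
  · rw [one_smul]
    exact Subtype.ext hx
  · refine ⟨⟨y, Submodule.mem_top⟩, ?_⟩
    rw [one_smul]
    rfl

private lemma Hpf_pzb (hA : S_CpA) (hI : S_CpI) (i : ℕ) :
    Hpf_p L X e (i + 1) = Hpf_z L X e (i + 1) * Hpf_b L X e i := by
  unfold Hpf_p Hpf_z Hpf_b
  have he : X.Z (i + 1) ≤ (X.Z (i + 1)).comap (e.f (i + 1)) := fun x hx => e.Z (i + 1) x hx
  rw [hA L (X.P (i + 1)) (X.Z (i + 1)) (e.f (i + 1)) he]
  congr 1
  let ψ : X.P (i + 1) →ₗ[ℤ] X.B i := (X.d i).rangeRestrict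
  have hψ : X.Z (i + 1) ≤ LinearMap.ker ψ := by
    intro x hx
    rw [LinearMap.mem_ker]
    exact Subtype.ext hx
  refine hI L _ _ _ _ ((X.Z (i + 1)).liftQ ψ hψ) (fun x => ?_) 1 one_ne_zero
    (fun x hx => ?_) (fun y => ?_)
  · obtain ⟨x, rfl⟩ := Submodule.Quotient.mk_surjective _ x
    exact Subtype.ext (e.comm i x).symm
  · obtain ⟨x, rfl⟩ := Submodule.Quotient.mk_surjective _ x
    rw [one_smul, Submodule.Quotient.mk_eq_zero]
    exact congrArg Subtype.val hx
  · obtain ⟨y, ⟨x, rfl⟩⟩ := y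
    refine ⟨Submodule.Quotient.mk x, ?_⟩
    rw [one_smul]
    rfl

private lemma Hpf_b1 (i : ℕ) (h : Subsingleton (X.P (i + 1))) : Hpf_b L X e i = 1 := by
  unfold Hpf_b cpL
  have h1 : Subsingleton (X.B i) := by
    constructor
    rintro ⟨_, x, rfl⟩ ⟨_, y, rfl⟩
    rw [Subsingleton.elim x y]
  have h2 : Subsingleton (L ⊗[ℤ] (X.B i)) := by
    constructor
    have h3 : ∀ x : L ⊗[ℤ] (X.B i), x = 0 := by
      intro x
      induction x with
      | zero => rfl
      | add x y hx hy => rw [hx, hy, add_zero]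
      | tmul a b => rw [Subsingleton.elim b 0, TensorProduct.tmul_zero]
    intro x y
    rw [h3 x, h3 y]
  refine (Polynomial.Monic.natDegree_eq_zero (LinearMap.charpoly_monic _)).1 ?_
  rw [LinearMap.charpoly_natDegree]
  exact Module.finrank_zero_of_subsingleton

private lemma Hpf_ind (hA : S_CpA) (hI : S_CpI) (M : ℕ) :
    (Even M → (∏ i ∈ Finset.range (M + 1), if Even i then Hpf_p L X e i else Hpf_h L X e i) =
      (∏ i ∈ Finset.range (M + 1), if Even i then Hpf_h L X e i else Hpf_p L X e i) *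
        Hpf_b L X e M) ∧
    (¬ Even M → (∏ i ∈ Finset.range (M + 1), if Even i then Hpf_h L X e i else Hpf_p L X e i) =
      (∏ i ∈ Finset.range (M + 1), if Even i then Hpf_p L X e i else Hpf_h L X e i) *
        Hpf_b L X e M) := by
  induction M with
  | zero =>
    refine ⟨fun _ => ?_, fun h => absurd Even.zero h⟩
    rw [Finset.prod_range_one, Finset.prod_range_one, if_pos Even.zero, if_pos Even.zero,
      Hpf_pz0 L X e hI, Hpf_zbh L X e hA hI, mul_comm]
  | succ M ih =>
    constructor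
    · intro h
      have h' : ¬ Even M := by
        intro h1
        exact (Nat.even_add_one.1 h) h1
      rw [Finset.prod_range_succ, Finset.prod_range_succ (n := M + 1), if_pos h, if_pos h,
        Hpf_pzb L X e hA hI, Hpf_zbh L X e hA hI, ih.2 h']
      ring
    · intro h
      have h' : Even M := by
        by_contra h1
        exact h (Nat.even_add_one.2 h1)
      rw [Finset.prod_range_succ, Finset.prod_range_succ (n := M + 1), if_neg h, if_neg h,
        Hpf_pzb L X e hA hI, Hpf_zbh L X e hA hI, ih.1 h']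
      ring

end

/-- **Hpf.** The Hopf formula. -/
theorem tHpf : S_CpA → S_CpI → S_Hpf := by
  intro hA hI L _ _ X _ e N hN
  cases N with
  | zero => rw [Finset.range_zero, Finset.prod_empty, Finset.prod_empty]
  | succ M =>
    have hb := Hpf_b1 L X e M (hN (M + 1) le_rfl)
    have h := Hpf_ind L X e hA hI M
    rw [hb, mul_one, mul_one] at h
    by_cases hM : Even M
    · exact h.1 hM
    · exact (h.2 hM).symm

end HXx
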