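import Pool.Agent.Lib.MP_181146_gt.HX.SpecX

/-!
# Project HX, module Luc: binomial coefficients modulo `p`
-/

set_option autoImplicit false

namespace HXx

open HEp HPx HTx

private lemma Luc_aux (p : ℕ) (hp : p.Prime) (n v : ℕ) :
    (p ^ v * n).choose (p ^ v) ≡ n [MOD p] := by
  have : Fact p.Prime := ⟨hp⟩
  induction v with
  | zero =>
    rw [pow_zero, one_mul, Nat.choose_one_right]
  | succ v ih =>
    have h1 := Choose.choose_modEq_choose_mod_mul_choose_div_nat (p := p)
      (n := p ^ (v + 1) * n) (k := p ^ (v + 1))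
    have e1 : p ^ (v + 1) * n = p * (p ^ v * n) := by ring
    have e2 : p ^ (v + 1) = p * p ^ v := by ring
    rw [e1, e2, Nat.mul_mod_right, Nat.mul_mod_right, Nat.choose_self, one_mul,
      Nat.mul_div_cancel_left _ hp.pos, Nat.mul_div_cancel_left _ hp.pos] at h1
    rw [e1, e2]
    exact h1.trans ih

theorem tLuc : S_Luc := by
  intro p m hp hm h
  obtain ⟨v, n, hn, rfl⟩ := Nat.exists_eq_pow_mul_and_not_dvd (n := m) (by omega) p hp.ne_one
  rcases Nat.lt_or_ge 1 n with h1 | h1
  · exfalso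
    have hpos : 0 < p ^ v := pow_pos hp.pos v
    have h2 := h (p ^ v) hpos (by nlinarith)
    have h3 := Luc_aux p hp n v
    exact hn ((Nat.ModEq.dvd_iff h3 dvd_rfl).1 h2)
  · have h2 : n ≠ 0 := by
      rintro rfl
      exact hn (dvd_zero p)
    have h3 : n = 1 := by omega
    exact ⟨v, by rw [h3, mul_one]⟩

end HXx
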