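import Pool.Agent.Lib.MP_181146_gt.HX.SpecX

/-!
# Project HX: NlE, nilpotency of `E (1 - E)` on the homology

`NlE_H b`: the total homology of a module with an operator `b`; `NlE_op`: the operators on it.
-/

set_option linter.unusedVariables false
set_option autoImplicit false

namespace HXx

open scoped TensorProduct
open HEp HPx HTx

/-! ## A. The ring identity -/

lemma NlE_ring {R : Type} [Ring R] (α β : R) (h : α * β + β * α = 1) (k : ℕ) :
    ((α * β) * (1 - α * β)) ^ k = α ^ (2 * k) * β ^ (2 * k) := by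
  have h1 : 1 - α * β = β * α := by rw [← h]; abel
  have h2 : α * (β * β) = (β * β) * α := by
    have e1 : α * β = 1 - β * α := by rw [← h]; abel
    calc α * (β * β) = (α * β) * β := by rw [mul_assoc]
      _ = (1 - β * α) * β := by rw [e1]
      _ = β - β * (α * β) := by noncomm_ring
      _ = β - β * (1 - β * α) := by rw [e1]
      _ = (β * β) * α := by noncomm_ring
  have h3 : (α * β) * (1 - α * β) = (α ^ 2) * (β ^ 2) := by
    rw [h1]
    calc (α * β) * (β * α) = α * ((β * β) * α) := by noncomm_ring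
      _ = α * (α * (β * β)) := by rw [h2]
      _ = (α ^ 2) * (β ^ 2) := by rw [pow_two, pow_two]; noncomm_ring
  have h4 : Commute α (β ^ 2) := by
    rw [pow_two]
    exact h2
  have h5 : Commute (α ^ 2) (β ^ 2) := h4.pow_left 2
  rw [h3, h5.mul_pow, ← pow_mul, ← pow_mul]

/-! ## B. The total homology -/

section Tot

variable {V : Type} [AddCommGroup V] (b : V →ₗ[ℤ] V)

/-- The total homology. -/
abbrev NlE_H : Type :=
  LinearMap.ker b ⧸ (LinearMap.range b).comap (LinearMap.ker b).subtype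

/-- The operator on the total homology. -/
def NlE_op (g : V →ₗ[ℤ] V) (hg : ∀ y, g (b y) = - b (g y)) : Module.End ℤ (NlE_H b) :=
  Submodule.mapQ _ _ (g.restrict (p := LinearMap.ker b) (q := LinearMap.ker b) (fun x hx => by
    have h := hg x
    rw [LinearMap.mem_ker] at hx ⊢
    rw [hx, map_zero] at h
    rw [← neg_eq_zero, ← h])) (fun x hx => by
    obtain ⟨y, hy⟩ := hx
    refine ⟨- g y, ?_⟩
    rw [map_neg, ← hg, hy]
    rfl)

lemma NlE_op_mk (g : V →ₗ[ℤ] V) (hg : ∀ y, g (b y) = - b (g y)) (y : V) (hy : b y = 0)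
    (hy' : b (g y) = 0) :
    NlE_op b g hg (Submodule.Quotient.mk ⟨y, hy⟩) = Submodule.Quotient.mk ⟨g y, hy'⟩ := rfl

lemma NlE_ker (g : V →ₗ[ℤ] V) (hg : ∀ y, g (b y) = - b (g y)) (y : V) (hy : b y = 0) :
    b (g y) = 0 := by
  have h := hg y
  rw [hy, map_zero] at h
  rw [← neg_eq_zero, ← h]

lemma NlE_mk_eq (y z : V) (hy : b y = 0) (hz : b z = 0) (w : V) (hw : y - z = b w) :
    (Submodule.Quotient.mk ⟨y, hy⟩ : NlE_H b) = Submodule.Quotient.mk ⟨z, hz⟩ := by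
  rw [Submodule.Quotient.eq]
  exact ⟨w, hw.symm⟩

lemma NlE_mk_zero (y : V) (hy : b y = 0) :
    (Submodule.Quotient.mk ⟨y, hy⟩ : NlE_H b) = 0 ↔ ∃ w, b w = y := by
  rw [Submodule.Quotient.mk_eq_zero]
  exact Iff.rfl

lemma NlE_rel (g g' κ : V →ₗ[ℤ] V) (hg : ∀ y, g (b y) = - b (g y))
    (hg' : ∀ y, g' (b y) = - b (g' y))
    (h : ∀ y, g (g' y) + g' (g y) = y + (b (κ y) + κ (b y))) :
    NlE_op b g' hg' * NlE_op b g hg + NlE_op b g hg * NlE_op b g' hg' = 1 := by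
  apply LinearMap.ext
  intro a
  obtain ⟨⟨y, hy⟩, rfl⟩ := Submodule.Quotient.mk_surjective _ a
  have hy0 : b y = 0 := hy
  have h1 := NlE_ker b g hg y hy0
  have h2 := NlE_ker b g' hg' y hy0
  change (Submodule.Quotient.mk ⟨g' (g y) + g (g' y), _⟩ : NlE_H b) = Submodule.Quotient.mk ⟨y, hy⟩
  refine NlE_mk_eq b _ _ _ _ (κ y) ?_
  have h3 := h y
  rw [hy0, map_zero, add_zero] at h3
  rw [add_comm (g' (g y)), h3]
  abel

lemma NlE_pow (g : V →ₗ[ℤ] V) (hg : ∀ y, g (b y) = - b (g y)) (k : ℕ) (y : V) (hy : b y = 0) :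
    ∃ hy' : b ((g ^ k) y) = 0, ((NlE_op b g hg) ^ k) (Submodule.Quotient.mk ⟨y, hy⟩) =
      Submodule.Quotient.mk ⟨(g ^ k) y, hy'⟩ := by
  induction k with
  | zero => exact ⟨hy, rfl⟩
  | succ k ih =>
    obtain ⟨h1, h2⟩ := ih
    have e : (g ^ (k + 1)) y = g ((g ^ k) y) := by
      rw [pow_succ']
      rfl
    have h3 : b ((g ^ (k + 1)) y) = 0 := by
      rw [e]
      exact NlE_ker b g hg _ h1
    refine ⟨h3, ?_⟩
    rw [pow_succ', Module.End.mul_apply, h2]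
    refine (NlE_op_mk b g hg _ h1 (NlE_ker b g hg _ h1)).trans ?_
    congr 1
    apply Subtype.ext
    exact e.symm

end Tot

/-! ## C. The operators on the chains -/

section Chn

lemma NlE_powgr {K : SS} (g : Ch ℤ K →ₗ[ℤ] Ch ℤ K) (n : ℕ)
    (hg : ∀ i, ∀ y ∈ gr ℤ K i, g y ∈ gr ℤ K (i + n)) (k i : ℕ) (y : Ch ℤ K) (hy : y ∈ gr ℤ K i) :
    (g ^ k) y ∈ gr ℤ K (i + k * n) := by
  induction k with
  | zero =>
    rw [zero_mul, add_zero]
    exact hy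
  | succ k ih =>
    rw [pow_succ', Module.End.mul_apply, Nat.succ_mul, ← add_assoc]
    exact hg _ _ ih

end Chn

section Lnk

variable {G : Type} [CommGroup G] {E : Type} [TopologicalSpace E] {X : AX G} {act : G → C(E, E)}

lemma NlE_fZ (Λ : Lk X E act) (i : ℕ) (y : X.P i) (hy : y ∈ (nX X).Z i) :
    bd ℤ (Sing E) (Λ.f i y) = 0 := by
  cases i with
  | zero => exact bd_gr0 (Λ.f_gr 0 y)
  | succ i =>
    rw [← Λ.fd, show X.d i y = 0 from hy, map_zero]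

lemma NlE_bdy (Λ : Lk X E act) (i : ℕ) (y : X.P i) (hy : y ∈ (nX X).Z i)
    (w : Ch ℤ (Sing E)) (hw : bd ℤ (Sing E) w = Λ.f i y) :
    ∃ u : X.P (i + 1), X.d i u = y := by
  have h1 : X.d i (Λ.f' (i + 1) w) = Λ.f' i (Λ.f i y) := by
    rw [← Λ.f'd, hw]
  cases i with
  | zero =>
    refine ⟨Λ.f' 1 w - Λ.h 0 y, ?_⟩
    rw [map_sub, h1, ← Λ.h0]
    abel
  | succ i =>
    refine ⟨Λ.f' (i + 2) w - Λ.h (i + 1) y, ?_⟩
    have h2 := Λ.hs i y
    rw [show X.d i y = 0 from hy, map_zero, add_zero] at h2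
    rw [map_sub, h1, ← h2]
    abel

/-- The map on homology induced by `f`. -/
noncomputable def NlE_phi (Λ : Lk X E act) (i : ℕ) :
    (nX X).H i →ₗ[ℤ] NlE_H (bd ℤ (Sing E)) :=
  Submodule.liftQ _ (AddMonoidHom.toIntLinearMap
    { toFun := fun y : (nX X).Z i =>
        (Submodule.Quotient.mk ⟨Λ.f i y.1, NlE_fZ Λ i y.1 y.2⟩ : NlE_H (bd ℤ (Sing E)))
      map_zero' := by
        rw [NlE_mk_zero]
        refine ⟨0, ?_⟩
        rw [map_zero]
        exact (map_zero (Λ.f i)).symm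
      map_add' := fun y z => by
        rw [← Submodule.Quotient.mk_add]
        congr 1
        apply Subtype.ext
        exact map_add (Λ.f i) _ _ }) (fun y hy => by
    obtain ⟨w, hw⟩ := hy
    change (Submodule.Quotient.mk ⟨Λ.f i y.1, NlE_fZ Λ i y.1 y.2⟩ : NlE_H (bd ℤ (Sing E))) = 0
    rw [NlE_mk_zero]
    exact ⟨Λ.f (i + 1) w, (Λ.fd i w).symm.trans (congrArg (Λ.f i) hw)⟩)

lemma NlE_phi_mk (Λ : Lk X E act) (i : ℕ) (y : (nX X).Z i) :
    NlE_phi Λ i (Submodule.Quotient.mk y) =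
      Submodule.Quotient.mk ⟨Λ.f i y.1, NlE_fZ Λ i y.1 y.2⟩ := rfl

lemma NlE_inj (Λ : Lk X E act) (i : ℕ) (a : (nX X).H i) (h : NlE_phi Λ i a = 0) : a = 0 := by
  obtain ⟨y, rfl⟩ := Submodule.Quotient.mk_surjective _ a
  rw [NlE_phi_mk, NlE_mk_zero] at h
  obtain ⟨w, hw⟩ := h
  rw [Submodule.Quotient.mk_eq_zero]
  obtain ⟨y, hy⟩ := y
  exact NlE_bdy Λ i y hy w hw

end Lnk

/-! ## D. The theorem -/

theorem tNlE (hRelC : S_RelC) (hMuA : HPx.S_MuA) (hCapD : HPx.S_CapD) : S_NlE := by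
  intro e he G _ _ E _ _ D X Λ N hK n hn hn1 Q e' he'
  -- the operators
  obtain ⟨mB, mG, -⟩ := hMuA e he ℤ (Sing E) (SingMul D.m) n hn Q.c Q.c_gr Q.c_bd
  obtain ⟨cB, cG, cG0, -⟩ := hCapD ℤ (Sing E) n Q.x Q.x_sup
  obtain ⟨κ, hκ, -⟩ := hRelC e he ℤ E D.v D.m
    ⟨{ toFun := fun p => D.A p
       continuous_toFun := D.A.continuous
       map_zero_left := fun x => D.A0 x
       map_one_left := fun x => D.A1 x }⟩ D.B D.B0 D.B1 n hn Q.c Q.c_gr Q.c_bd Q.x Q.x_sup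
    Q.x_bd Q.x_c Q.w Q.hw
  set b : Ch ℤ (Sing E) →ₗ[ℤ] Ch ℤ (Sing E) := bd ℤ (Sing E) with hb
  let ξ : Ch ℤ (Sing E) →ₗ[ℤ] Ch ℤ (Sing E) :=
    mu ℤ e (SingMul D.m) ∘ₗ TensorProduct.mk ℤ (Ch ℤ (Sing E)) (Ch ℤ (Sing E)) Q.c
  have hξ : ∀ y, ξ y = mu ℤ e (SingMul D.m) (Q.c ⊗ₜ y) := fun y => rfl
  have ξb : ∀ y, ξ (b y) = - b (ξ y) := mB
  have cb : ∀ y, cap Q.x (b y) = - b (cap Q.x y) := by
    intro y
    have h0 : Q.x ∘ₗ b = 0 := LinearMap.ext fun z => Q.x_bd z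
    have h1 : cap (0 : Ch ℤ (Sing E) →ₗ[ℤ] ℤ) y = 0 := by
      have h2 : (lx (0 : Ch ℤ (Sing E) →ₗ[ℤ] ℤ)) = 0 := by
        rw [lx, TensorProduct.map_zero_left, LinearMap.comp_zero]
      rw [cap, h2, LinearMap.zero_comp, LinearMap.zero_apply]
    rw [cB y, h0, h1, hn.neg_one_pow, zero_add, neg_one_smul]
  have rel := NlE_rel b ξ (cap Q.x) κ ξb cb hκ
  refine ⟨N, fun i => ?_⟩
  set A := NlE_op b (cap Q.x) cb with hA
  set B := NlE_op b ξ ξb with hB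
  -- compatibility with the operator on the homology
  have h1 : ∀ a : (nX X).H i, NlE_phi Λ.toLk i (e'.Hm i a) = (A * B) (NlE_phi Λ.toLk i a) := by
    intro a
    obtain ⟨y, rfl⟩ := Submodule.Quotient.mk_surjective _ a
    rw [NC.E.Hm_mk, NlE_phi_mk, NlE_phi_mk]
    obtain ⟨w, -, hw⟩ := he' i y.1 y.2
    have h2 : b (ξ (Λ.f i y.1)) = 0 := NlE_ker b ξ ξb _ (NlE_fZ Λ.toLk i y.1 y.2)
    have h3 : b (cap Q.x (ξ (Λ.f i y.1))) = 0 := NlE_ker b _ cb _ h2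
    change _ = (Submodule.Quotient.mk ⟨cap Q.x (ξ (Λ.f i y.1)), h3⟩ : NlE_H b)
    exact NlE_mk_eq b _ _ _ _ w hw
  have h2 : ∀ (k : ℕ) (a : (nX X).H i), NlE_phi Λ.toLk i (((e'.Hm i * (1 - e'.Hm i)) ^ k) a) =
      (((A * B) * (1 - A * B)) ^ k) (NlE_phi Λ.toLk i a) := by
    intro k
    induction k with
    | zero => intro a; rfl
    | succ k ih =>
      intro a
      have h3 : NlE_phi Λ.toLk i ((e'.Hm i * (1 - e'.Hm i)) a) =
          ((A * B) * (1 - A * B)) (NlE_phi Λ.toLk i a) := by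
        rw [Module.End.mul_apply, h1, LinearMap.sub_apply, map_sub, h1, Module.End.one_apply]
        rfl
      rw [pow_succ, Module.End.mul_apply, ih, h3, pow_succ]
      rfl
  apply LinearMap.ext
  intro a
  rw [LinearMap.zero_apply]
  apply NlE_inj Λ.toLk i
  rw [h2, NlE_ring A B rel, Module.End.mul_apply]
  obtain ⟨y, rfl⟩ := Submodule.Quotient.mk_surjective _ a
  rw [NlE_phi_mk]
  obtain ⟨h3, h4⟩ := NlE_pow b ξ ξb (2 * N) (Λ.f i y.1) (NlE_fZ Λ.toLk i y.1 y.2)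
  have h5 : (B ^ (2 * N)) (Submodule.Quotient.mk ⟨Λ.f i y.1, NlE_fZ Λ.toLk i y.1 y.2⟩) = 0 := by
    rw [hB]
    refine h4.trans ?_
    rw [NlE_mk_zero]
    have h6 := NlE_powgr ξ n mG (2 * N) i (Λ.f i y.1) (Λ.f_gr i y.1)
    have h7 := Λ.ht _ _ h6
    have h8 : N ≤ i + 2 * N * n := by nlinarith
    have h9 := hK _ h8
    rw [Subsingleton.elim (Λ.f' (i + 2 * N * n) ((ξ ^ (2 * N)) (Λ.f i y.1))) 0, map_zero, h3,
      map_zero, add_zero, zero_sub] at h7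
    refine ⟨- Λ.t ((ξ ^ (2 * N)) (Λ.f i y.1)), ?_⟩
    rw [map_neg, hb, ← h7, neg_neg]
  rw [h5, map_zero]

end HXx
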