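import Pool.Agent.Lib.MP_181146_gt.HX.SpecX

/-!
# Project HX, module `OpE`: the equivariant operator on `X`
-/

set_option autoImplicit false

namespace HXx

open scoped TensorProduct
open HEp HPx HTx

section

variable {k : Type} [CommRing k] {K : SS}

private lemma OpE_lx_add {V : Type} [AddCommGroup V] [Module k V] (x x' : V →ₗ[k] k) :
    lx (x + x') = lx x + lx x' := by
  refine TensorProduct.ext' fun a b => ?_
  rw [LinearMap.add_apply, lx_tmul, lx_tmul, lx_tmul, LinearMap.add_apply, add_smul]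

private lemma OpE_lx_zero {V : Type} [AddCommGroup V] [Module k V] :
    lx (0 : V →ₗ[k] k) = 0 := by
  refine TensorProduct.ext' fun a b => ?_
  rw [lx_tmul, LinearMap.zero_apply, LinearMap.zero_apply, zero_smul]

private lemma OpE_cap_add (x x' : Ch k K →ₗ[k] k) (y : Ch k K) :
    cap (x + x') y = cap x y + cap x' y := by
  unfold cap
  rw [OpE_lx_add]
  rfl

private lemma OpE_cap_zero (y : Ch k K) : cap (0 : Ch k K →ₗ[k] k) y = 0 := by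
  unfold cap
  rw [OpE_lx_zero]
  rfl

end

/-- **OpE.** -/
theorem tOpE : HPx.S_MuA → HPx.S_CapD → HPx.S_CobI → S_OpE := by
  intro hMuA hCapD hCobI e he G _ _ E _ _ D X Λ n hn hn1 hX Q g hI
  obtain ⟨u', hu'c, hu'g, hu'e⟩ := hI
  obtain ⟨i0, rfl⟩ : ∃ i0, n = i0 + 1 := ⟨n - 1, by omega⟩
  have hi0 : Even i0 := by
    rcases Nat.even_or_odd i0 with h | h
    · exact h
    · exact absurd hn (by rw [Nat.not_odd_iff_even]; exact h.add_one)
  -- the invariant cochain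
  obtain ⟨xh, hxh⟩ : ∃ xh : Ch ℤ (Sing E) →ₗ[ℤ] ℤ, ∀ c, xh c = u' (Λ.f' (i0 + 1) c) :=
    ⟨(u'.comp (Λ.f' (i0 + 1))).toIntLinearMap, fun _ => rfl⟩
  have hSup : Sup (i0 + 1) xh := by
    intro i hi y hy
    rw [hxh, Λ.f'_gr i (i0 + 1) (Ne.symm hi) y hy, map_zero]
  have hxb : ∀ y, xh (bd ℤ (Sing E) y) = 0 := by
    intro y
    rw [hxh, Λ.f'd]
    exact hu'c _
  have hxg : ∀ y, xh (cmap ℤ (SingMap (D.act g)) y) = xh y := by
    intro y
    rw [hxh, hxh, Λ.f'g]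
    exact hu'g g (Subgroup.mem_zpowers g) _
  -- the operator `Ξ`
  obtain ⟨m1, m2, m3⟩ := hMuA e he ℤ (Sing E) (SingMul D.m) (i0 + 1) hn Q.c Q.c_gr Q.c_bd
  obtain ⟨Xi, hXi⟩ : ∃ Xi : Ch ℤ (Sing E) →ₗ[ℤ] Ch ℤ (Sing E),
      ∀ y, Xi y = mu ℤ e (SingMul D.m) (Q.c ⊗ₜ y) :=
    ⟨mu ℤ e (SingMul D.m) ∘ₗ TensorProduct.mk ℤ _ _ Q.c, fun _ => rfl⟩
  have hCm : Cm (Sing E) (SingMul D.m) (SingMap (D.act g)) := by
    intro j a b
    refine ContinuousMap.ext fun t => ?_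
    exact D.m2 g (DFunLike.coe (F := C(Pool.Agent.Lib.SingHom.Sx j, E)) a t)
      (DFunLike.coe (F := C(Pool.Agent.Lib.SingHom.Sx j, E)) b t)
  have Xd : ∀ y, Xi (bd ℤ (Sing E) y) = - bd ℤ (Sing E) (Xi y) := fun y => by
    rw [hXi, hXi]
    exact m1 y
  have Xgr : ∀ i, ∀ y ∈ gr ℤ (Sing E) i, Xi y ∈ gr ℤ (Sing E) (i + (i0 + 1)) := fun i y hy => by
    rw [hXi]
    exact m2 i y hy
  have Xg : ∀ y, Xi (cmap ℤ (SingMap (D.act g)) y) = cmap ℤ (SingMap (D.act g)) (Xi y) :=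
    fun y => by
      rw [hXi, hXi]
      exact m3 _ hCm y
  -- the cap product
  obtain ⟨c1, c2, -, c4⟩ := hCapD ℤ (Sing E) (i0 + 1) xh hSup
  have hz : xh ∘ₗ bd ℤ (Sing E) = 0 := LinearMap.ext hxb
  have Cd : ∀ y, cap xh (bd ℤ (Sing E) y) = - bd ℤ (Sing E) (cap xh y) := fun y => by
    rw [c1 y, hz, OpE_cap_zero, zero_add, hn.neg_one_pow, neg_smul, one_smul]
  have Cg := c4 (SingMap (D.act g)) hxg
  -- the chain map
  have comm : ∀ i (x : X.P (i + 1)), Λ.f' i (cap xh (Xi (Λ.f i (X.d i x)))) =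
      X.d i (Λ.f' (i + 1) (cap xh (Xi (Λ.f (i + 1) x)))) := by
    intro i x
    rw [Λ.fd, Xd, map_neg, Cd, neg_neg, Λ.f'd]
  let e' : (nX X).E :=
    { f := fun i => ((Λ.f' i).comp ((cap xh).toAddMonoidHom.comp
        (Xi.toAddMonoidHom.comp (Λ.f i)))).toIntLinearMap
      comm := comm }
  have he' : ∀ i (x : X.P i), (show X.P i from e'.f i x) =
      Λ.f' i (cap xh (Xi (Λ.f i x))) := fun i x => rfl
  refine ⟨e', ?_, ?_⟩
  · intro i x
    change Λ.f' i (cap xh (Xi (Λ.f i (MonoidAlgebra.of ℤ G g • x)))) =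
      MonoidAlgebra.of ℤ G g • Λ.f' i (cap xh (Xi (Λ.f i x)))
    rw [Λ.fg, Xg, Cg, Λ.f'g]
  -- comparison
  obtain ⟨k1, -, -⟩ := hCobI G X (i0 + 1) hX
  obtain ⟨ξ, hξ⟩ := k1 i0 (Nat.lt_succ_self i0)
    ((Q.x.toAddMonoidHom).comp (Λ.f (i0 + 1)) - u') (by
      intro x hx
      rw [AddMonoidHom.sub_apply, hu'e x hx, sub_self])
  obtain ⟨η, hη⟩ : ∃ η : Ch ℤ (Sing E) →ₗ[ℤ] ℤ, ∀ c, η c = ξ (Λ.f' i0 c) - Q.x (Λ.t c) :=
    ⟨(ξ.comp (Λ.f' i0) - (Q.x.toAddMonoidHom).comp Λ.t).toIntLinearMap, fun _ => rfl⟩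
  have ηS : Sup i0 η := by
    intro i hi y hy
    rw [hη, Λ.f'_gr i i0 (Ne.symm hi) y hy, map_zero,
      Q.x_sup (i + 1) (by omega) _ (Λ.t_gr i y hy), sub_zero]
  have hQ : Q.x = xh + η ∘ₗ bd ℤ (Sing E) := by
    refine ch_ext fun j σ => ?_
    rw [LinearMap.add_apply, LinearMap.comp_apply]
    have hσ := sx_mem_gr ℤ (K := Sing E) σ
    generalize sx ℤ σ = c at hσ ⊢
    by_cases hj : j = i0 + 1
    · subst hj
      have h1 := Λ.ht (i0 + 1) c hσ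
      have h2 := hξ (Λ.f' (i0 + 1) c)
      rw [AddMonoidHom.sub_apply] at h2
      have h3 : Q.x (Λ.f (i0 + 1) (Λ.f' (i0 + 1) c)) - xh c =
          ξ (Λ.f' i0 (bd ℤ (Sing E) c)) := by
        rw [hxh, Λ.f'd]
        exact h2
      have h4 : Q.x (Λ.f (i0 + 1) (Λ.f' (i0 + 1) c)) - Q.x c =
          Q.x (Λ.t (bd ℤ (Sing E) c)) := by
        rw [← map_sub, h1, map_add, Q.x_bd, zero_add]
      rw [hη]
      linarith
    · rw [Q.x_sup j hj c hσ, hSup j hj c hσ, zero_add]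
      cases j with
      | zero => rw [bd_gr0 hσ, map_zero]
      | succ j => rw [ηS j (by omega) _ (bd_gr hσ)]
  obtain ⟨q1, q2, -, -⟩ := hCapD ℤ (Sing E) i0 η ηS
  intro i y hy
  have hfy : bd ℤ (Sing E) (Λ.f i y) = 0 := by
    cases i with
    | zero => exact bd_gr0 (Λ.f_gr 0 y)
    | succ i =>
      rw [← Λ.fd, show X.d i y = 0 from hy, map_zero]
  have ha : bd ℤ (Sing E) (Xi (Λ.f i y)) = 0 := by
    have h := Xd (Λ.f i y)
    rw [hfy, map_zero] at h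
    exact neg_eq_zero.1 h.symm
  have hag := Xgr i _ (Λ.f_gr i y)
  have hzg := c2 i _ hag
  have hzb : bd ℤ (Sing E) (cap xh (Xi (Λ.f i y))) = 0 := by
    have h := Cd (Xi (Λ.f i y))
    rw [ha, map_zero] at h
    exact neg_eq_zero.1 h.symm
  have h1 := Λ.ht i _ hzg
  rw [hzb, map_zero, add_zero] at h1
  have h2 := q1 (Xi (Λ.f i y))
  rw [ha, map_zero, hi0.neg_one_pow, one_smul] at h2
  have h3 : cap Q.x (Xi (Λ.f i y)) = cap xh (Xi (Λ.f i y)) +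
      cap (η ∘ₗ bd ℤ (Sing E)) (Xi (Λ.f i y)) := by
    rw [hQ, OpE_cap_add]
  refine ⟨Λ.t (cap xh (Xi (Λ.f i y))) + cap η (Xi (Λ.f i y)),
    Submodule.add_mem _ (Λ.t_gr i _ hzg) (q2 (i + 1) _ ?_), ?_⟩
  · have : i + 1 + i0 = i + (i0 + 1) := by omega
    rw [this]
    exact hag
  · rw [← hXi, h3, map_add, ← h1]
    change Λ.f i (Λ.f' i (cap xh (Xi (Λ.f i y)))) - _ = _
    have h4 : bd ℤ (Sing E) (cap η (Xi (Λ.f i y))) =
        - cap (η ∘ₗ bd ℤ (Sing E)) (Xi (Λ.f i y)) := by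
      rw [eq_neg_iff_add_eq_zero, add_comm]
      exact h2.symm
    rw [h4]
    abel

end HXx
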