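import Pool.Agent.Lib.MP_181146_gt.HX.SpecX

/-!
# Module HX/SwF: characteristic polynomial and a free action of `t`
-/

set_option autoImplicit false

namespace HXx

open scoped TensorProduct
open HEp HPx HTx

private theorem SwF_one (K : Type) [Field K] (V : Type) [AddCommGroup V] [Module K V]
    [Module.Finite K V] [Subsingleton V] (e : Module.End K V) : e.charpoly = 1 := by
  have h1 : e.charpoly.natDegree = 0 := by
    rw [LinearMap.charpoly_natDegree]
    exact Module.finrank_zero_of_subsingleton
  exact (LinearMap.charpoly_monic e).natDegree_eq_zero.1 h1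

/-- The characteristic polynomials of two conjugate maps. -/
private theorem SwF_conj (K : Type) [Field K] (V V' : Type) [AddCommGroup V] [Module K V]
    [Module.Finite K V] [AddCommGroup V'] [Module K V'] [Module.Finite K V'] (φ : V ≃ₗ[K] V')
    (e : Module.End K V) (e' : Module.End K V') (h : ∀ x, e' (φ x) = φ (e x)) :
    e'.charpoly = e.charpoly := by
  have h1 : e' = φ.conj e := by
    ext y
    obtain ⟨x, rfl⟩ := φ.surjective y
    rw [h, LinearEquiv.conj_apply]
    simp
  rw [h1, LinearEquiv.charpoly_conj]

private theorem SwF_all (hC : S_CpS) (K : Type) [Field K] (p : ℕ) :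
    ∀ (V : Type) [AddCommGroup V] [Module K V] [Module.Finite K V]
    (t e : Module.End K V) (_hte : ∀ x, e (t x) = t (e x)) (_htp : t ^ p = 0)
    (_hex : ∀ x, t x = 0 → ∃ y, (t ^ (p - 1)) y = x)
    (he : ∀ x ∈ LinearMap.ker t, e x ∈ LinearMap.ker t),
    e.charpoly = (e.restrict he).charpoly ^ p := by
  induction p with
  | zero =>
    intro V _ _ _ t e hte htp hex he
    rw [pow_zero] at htp
    have h1 : ∀ x : V, x = 0 := fun x => LinearMap.congr_fun htp x
    have : Subsingleton V := ⟨fun x y => by rw [h1 x, h1 y]⟩
    rw [pow_zero]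
    exact SwF_one K V e
  | succ p ih =>
    intro V _ _ _ t e hte htp hex he
    rw [Nat.add_sub_cancel] at hex
    -- the image of `t`
    have hr : ∀ x ∈ LinearMap.range t, e x ∈ LinearMap.range t := by
      rintro _ ⟨y, rfl⟩
      exact ⟨e y, (hte y).symm⟩
    have ht : ∀ x ∈ LinearMap.range t, t x ∈ LinearMap.range t := fun x _ => ⟨x, rfl⟩
    have hpow : ∀ (n : ℕ) (x : LinearMap.range t),
        (((t.restrict ht) ^ n) x : V) = (t ^ n) (x : V) := by
      intro n
      induction n with
      | zero => intro x; rfl
      | succ n ihn =>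
        intro x
        rw [pow_succ', pow_succ']
        change t ((((t.restrict ht) ^ n) x : LinearMap.range t) : V) = t ((t ^ n) (x : V))
        rw [ihn]
    have hte' : ∀ x, (e.restrict hr) ((t.restrict ht) x) = (t.restrict ht) ((e.restrict hr) x) :=
      fun x => Subtype.ext (hte x)
    have htp' : (t.restrict ht) ^ p = 0 := by
      ext x
      obtain ⟨y, hy⟩ := x.2
      rw [hpow, ← hy]
      have h1 := LinearMap.congr_fun htp y
      rw [pow_succ] at h1
      exact h1
    have hex' : ∀ x, (t.restrict ht) x = 0 → ∃ y, ((t.restrict ht) ^ (p - 1)) y = x := by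
      intro x hx
      rcases Nat.eq_zero_or_pos p with rfl | hp
      · exact ⟨x, rfl⟩
      · have h1 : t (x : V) = 0 := congrArg Subtype.val hx
        obtain ⟨y, hy⟩ := hex _ h1
        refine ⟨⟨t y, y, rfl⟩, Subtype.ext ?_⟩
        rw [hpow]
        change (t ^ (p - 1)) (t y) = _
        rw [← hy]
        obtain ⟨q, rfl⟩ : ∃ q, p = q + 1 := ⟨p - 1, by omega⟩
        rw [Nat.add_sub_cancel, pow_succ]
        rfl
    have he' : ∀ x ∈ LinearMap.ker (t.restrict ht),
        (e.restrict hr) x ∈ LinearMap.ker (t.restrict ht) := by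
      intro x hx
      rw [LinearMap.mem_ker] at hx ⊢
      rw [← hte', hx, map_zero]
    have key := ih (LinearMap.range t) (t.restrict ht) (e.restrict hr) hte' htp' hex' he'
    -- the quotient
    have hle : LinearMap.ker t ≤ (LinearMap.ker t).comap e := he
    have h1 := hC K V (LinearMap.ker t) e hle
    have h2 : (e.restrict hr).charpoly =
        ((LinearMap.ker t).mapQ (LinearMap.ker t) e hle).charpoly := by
      refine SwF_conj K (V ⧸ LinearMap.ker t) (LinearMap.range t) t.quotKerEquivRange _ _ ?_
      intro x
      obtain ⟨x, rfl⟩ := Submodule.Quotient.mk_surjective _ x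
      apply Subtype.ext
      change e (t.quotKerEquivRange (Submodule.Quotient.mk x) : V) =
        (t.quotKerEquivRange ((LinearMap.ker t).mapQ (LinearMap.ker t) e hle
          (Submodule.Quotient.mk x)) : V)
      rw [Submodule.mapQ_apply, LinearMap.quotKerEquivRange_apply_mk,
        LinearMap.quotKerEquivRange_apply_mk]
      exact hte x
    rw [← h2, key] at h1
    rw [h1, pow_succ']
    congr 1
    rcases Nat.eq_zero_or_pos p with rfl | hp
    · rw [pow_zero, pow_zero]
    congr 1
    -- the two kernels
    let φ : LinearMap.ker (t.restrict ht) ≃ₗ[K] LinearMap.ker t :=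
      { toFun := fun x => ⟨(x.1 : V), congrArg Subtype.val (LinearMap.mem_ker.1 x.2)⟩
        invFun := fun x => ⟨⟨(x : V), by
          obtain ⟨y, hy⟩ := hex _ (LinearMap.mem_ker.1 x.2)
          obtain ⟨q, rfl⟩ : ∃ q, p = q + 1 := ⟨p - 1, by omega⟩
          rw [pow_succ'] at hy
          exact ⟨(t ^ q) y, hy⟩⟩, by
          rw [LinearMap.mem_ker]
          exact Subtype.ext (LinearMap.mem_ker.1 x.2)⟩
        left_inv := fun x => rfl
        right_inv := fun x => rfl
        map_add' := fun x y => rfl
        map_smul' := fun c x => rfl }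
    exact (SwF_conj K _ _ φ _ _ fun x => rfl).symm

theorem tSwF : S_CpS → S_SwF := by
  intro hC K _ V _ _ _ p _ t e hte htp hex he
  exact SwF_all hC K p V t e hte htp hex he

end HXx
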