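import Pool.Agent.Lib.MP_181146_gt.HX.SpecX

/-! # Project HX: SwP, exactness for projective modules over the group ring -/

set_option autoImplicit false

namespace HXx

open HEp HPx HTx

/-- Representatives for the cosets of the group generated by `g`. -/
private theorem SwP_rep (G : Type) [CommGroup G] [Finite G] (g : G) :
    ∃ J : G → ℕ, (∀ a, J a < orderOf g) ∧ ∀ a, J (g * a) = (J a + 1) % orderOf g := by
  classical
  let q : G → G := fun a => Quotient.out (a : G ⧸ Subgroup.zpowers g)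
  have hq : ∀ a, q (g * a) = q a := by
    intro a
    have h1 : ((g * a : G) : G ⧸ Subgroup.zpowers g) = (a : G ⧸ Subgroup.zpowers g) := by
      rw [QuotientGroup.eq]
      have h2 : (g * a)⁻¹ * a = g⁻¹ := by
        rw [mul_inv_rev, mul_comm a⁻¹ g⁻¹, inv_mul_cancel_right]
      rw [h2]
      exact inv_mem (Subgroup.mem_zpowers g)
    change Quotient.out ((g * a : G) : G ⧸ Subgroup.zpowers g) = _
    rw [h1]
  have hJ : ∀ a, ∃ j, j < orderOf g ∧ g ^ j * q a = a := by
    intro a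
    have h1 : (q a)⁻¹ * a ∈ Subgroup.zpowers g := by
      rw [← QuotientGroup.eq]
      exact QuotientGroup.out_eq' _
    rw [mem_zpowers_iff_mem_range_orderOf, Finset.mem_image] at h1
    obtain ⟨j, hj, h2⟩ := h1
    refine ⟨j, Finset.mem_range.1 hj, ?_⟩
    change g ^ j = (q a)⁻¹ * a at h2
    rw [h2, mul_comm, mul_inv_cancel_left]
  choose J hJ1 hJ2 using hJ
  refine ⟨J, hJ1, fun a => ?_⟩
  have h1 : g ^ J (g * a) * q a = g ^ (J a + 1) * q a := by
    rw [← hq a, hJ2 (g * a), pow_succ', mul_assoc, hq a, hJ2 a]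
  have h2 : g ^ J (g * a) = g ^ (J a + 1) := mul_right_cancel h1
  have h3 := pow_inj_mod.1 h2
  rw [Nat.mod_eq_of_lt (hJ1 (g * a))] at h3
  exact h3

/-- An additive map `ψ` with `∑ g^j ψ g^(-j) = 1`. -/
private def SwP_Ex (G : Type) [CommGroup G] (g : G) (M : Type) [AddCommGroup M]
    [Module (ZG G) M] : Prop :=
  ∃ ψ : M →+ M, ∀ x : M, ∑ j ∈ Finset.range (orderOf g),
    MonoidAlgebra.of ℤ G (g ^ j) • ψ (MonoidAlgebra.of ℤ G (g⁻¹ ^ j) • x) = x

private theorem SwP_one (G : Type) [CommGroup G] [Finite G] (g : G) : SwP_Ex G g (ZG G) := by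
  classical
  obtain ⟨J, hJ1, hJ2⟩ := SwP_rep G g
  have hJ3 : ∀ (j : ℕ) (a : G), J (g ^ j * a) = (J a + j) % orderOf g := by
    intro j a
    induction j with
    | zero => rw [pow_zero, one_mul, add_zero, Nat.mod_eq_of_lt (hJ1 a)]
    | succ j ih => rw [pow_succ', mul_assoc, hJ2, ih, Nat.mod_add_mod, add_assoc]
  let c : G → ZG G := fun a => if J a = 0 then MonoidAlgebra.single a 1 else 0
  let ψ : ZG G →+ ZG G := ((MonoidAlgebra.basis G ℤ).constr ℤ c).toAddMonoidHom
  have hψ : ∀ a : G, ψ (MonoidAlgebra.single a 1) = c a := by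
    intro a
    have h := (MonoidAlgebra.basis G ℤ).constr_basis ℤ c a
    rw [MonoidAlgebra.basis_apply] at h
    exact h
  let F : ZG G →+ ZG G := ∑ j ∈ Finset.range (orderOf g),
    (DistribSMul.toAddMonoidHom (ZG G) (MonoidAlgebra.of ℤ G (g ^ j))).comp
      (ψ.comp (DistribSMul.toAddMonoidHom (ZG G) (MonoidAlgebra.of ℤ G (g⁻¹ ^ j))))
  have hF : ∀ x, F x = ∑ j ∈ Finset.range (orderOf g),
      MonoidAlgebra.of ℤ G (g ^ j) • ψ (MonoidAlgebra.of ℤ G (g⁻¹ ^ j) • x) := by
    intro x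
    rw [AddMonoidHom.finsetSum_apply]
    rfl
  refine ⟨ψ, fun x => ?_⟩
  rw [← hF]
  have h1 : F.toIntLinearMap = LinearMap.id := by
    refine (MonoidAlgebra.basis G ℤ).ext fun a => ?_
    rw [MonoidAlgebra.basis_apply]
    change F (MonoidAlgebra.single a 1) = MonoidAlgebra.single a 1
    rw [hF]
    have h2 : ∀ j, MonoidAlgebra.of ℤ G (g⁻¹ ^ j) • (MonoidAlgebra.single a 1 : ZG G) =
        MonoidAlgebra.single (g⁻¹ ^ j * a) 1 := by
      intro j
      rw [smul_eq_mul, MonoidAlgebra.of_apply, MonoidAlgebra.single_mul_single, one_mul]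
    have h3 : ∀ j, j < orderOf g → (J (g⁻¹ ^ j * a) = 0 ↔ j = J a) := by
      intro j hj
      have h4 := hJ3 j (g⁻¹ ^ j * a)
      have h5 : g ^ j * (g⁻¹ ^ j * a) = a := by
        rw [inv_pow, mul_inv_cancel_left]
      rw [h5] at h4
      constructor
      · intro h6
        rw [h6, zero_add, Nat.mod_eq_of_lt hj] at h4
        exact h4.symm
      · intro h6
        have h7 := hJ1 (g⁻¹ ^ j * a)
        rcases Nat.lt_or_ge (J (g⁻¹ ^ j * a) + j) (orderOf g) with h8 | h8
        · rw [Nat.mod_eq_of_lt h8] at h4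
          omega
        · have h9 : (J (g⁻¹ ^ j * a) + j) % orderOf g = J (g⁻¹ ^ j * a) + j - orderOf g := by
            rw [Nat.mod_eq_sub_mod h8, Nat.mod_eq_of_lt (by omega)]
          rw [h9] at h4
          omega
    rw [Finset.sum_eq_single (J a)]
    · rw [h2, hψ]
      change MonoidAlgebra.of ℤ G (g ^ J a) •
        (if J (g⁻¹ ^ J a * a) = 0 then MonoidAlgebra.single (g⁻¹ ^ J a * a) 1 else 0 : ZG G) = _
      rw [if_pos ((h3 _ (hJ1 a)).2 rfl), smul_eq_mul, MonoidAlgebra.of_apply,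
        MonoidAlgebra.single_mul_single, one_mul, inv_pow, mul_inv_cancel_left]
    · intro j hj hne
      rw [h2, hψ]
      change MonoidAlgebra.of ℤ G (g ^ j) •
        (if J (g⁻¹ ^ j * a) = 0 then MonoidAlgebra.single (g⁻¹ ^ j * a) 1 else 0 : ZG G) = _
      rw [if_neg (fun h => hne ((h3 j (Finset.mem_range.1 hj)).1 h)), smul_zero]
    · intro h
      exact absurd (Finset.mem_range.2 (hJ1 a)) h
  exact LinearMap.congr_fun h1 x

private theorem SwP_proj (G : Type) [CommGroup G] [Finite G] (g : G) (M : Type) [AddCommGroup M]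
    [Module (ZG G) M] [Module.Finite (ZG G) M] [Module.Projective (ZG G) M] : SwP_Ex G g M := by
  obtain ⟨ψ, hψ⟩ := SwP_one G g
  obtain ⟨k, π, hπ⟩ := Module.Finite.exists_fin' (ZG G) M
  obtain ⟨s, hs⟩ := Module.projective_lifting_property π LinearMap.id hπ
  let Ψ : (Fin k → ZG G) →+ (Fin k → ZG G) :=
    { toFun := fun v i => ψ (v i)
      map_zero' := by
        funext i
        exact map_zero ψ
      map_add' := fun v w => by
        funext i
        exact map_add ψ _ _ }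
  refine ⟨π.toAddMonoidHom.comp (Ψ.comp s.toAddMonoidHom), fun x => ?_⟩
  have h1 : ∑ j ∈ Finset.range (orderOf g), MonoidAlgebra.of ℤ G (g ^ j) •
      Ψ (MonoidAlgebra.of ℤ G (g⁻¹ ^ j) • s x) = s x := by
    funext i
    rw [Finset.sum_apply]
    exact hψ (s x i)
  have h2 : π (s x) = x := LinearMap.congr_fun hs x
  conv_rhs => rw [← h2, ← h1, map_sum]
  refine Finset.sum_congr rfl fun j _ => ?_
  rw [π.map_smul, ← s.map_smul]
  rfl

theorem tSwP : S_SwP := by
  intro G _ _ M _ _ _ _ g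
  obtain ⟨ψ, hψ⟩ := SwP_proj G g M
  have htw0 : ∀ y : M, tw g (orderOf g) 0 • y =
      ∑ j ∈ Finset.range (orderOf g), MonoidAlgebra.of ℤ G (g ^ j) • y := by
    intro y
    unfold tw
    rw [if_pos Even.zero, Finset.sum_smul]
  have htw1 : ∀ y : M, tw g (orderOf g) 1 • y = MonoidAlgebra.of ℤ G g • y - y := by
    intro y
    unfold tw
    rw [if_neg (by decide), sub_smul, one_smul]
  have key : ∀ (p : ℤ) (x : M), (∃ z, tw g (orderOf g) 1 • x = p • z) →
      ∃ y z, x = tw g (orderOf g) 0 • y + p • z := by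
    rintro p x ⟨z, hz⟩
    rw [htw1] at hz
    have h1 : MonoidAlgebra.of ℤ G g⁻¹ • x = x - p • (MonoidAlgebra.of ℤ G g⁻¹ • z) := by
      have h2 : MonoidAlgebra.of ℤ G g⁻¹ • (MonoidAlgebra.of ℤ G g • x - x) =
          MonoidAlgebra.of ℤ G g⁻¹ • (p • z) := by rw [hz]
      rw [smul_sub, smul_smul, ← map_mul, inv_mul_cancel, map_one, one_smul,
        smul_comm (MonoidAlgebra.of ℤ G g⁻¹) p z] at h2
      rw [← h2]
      abel
    have h3 : ∀ j : ℕ, ∃ w : M, MonoidAlgebra.of ℤ G (g⁻¹ ^ j) • x = x + p • w := by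
      intro j
      induction j with
      | zero => exact ⟨0, by rw [pow_zero, map_one, one_smul, smul_zero, add_zero]⟩
      | succ j ih =>
        obtain ⟨w, hw⟩ := ih
        refine ⟨MonoidAlgebra.of ℤ G g⁻¹ • w - MonoidAlgebra.of ℤ G g⁻¹ • z, ?_⟩
        rw [pow_succ', map_mul, mul_smul, hw, smul_add, h1,
          smul_comm (MonoidAlgebra.of ℤ G g⁻¹) p w, smul_sub]
        abel
    choose w hw using h3
    refine ⟨ψ x, ∑ j ∈ Finset.range (orderOf g), MonoidAlgebra.of ℤ G (g ^ j) • ψ (w j), ?_⟩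
    rw [htw0, Finset.smul_sum, ← Finset.sum_add_distrib]
    conv_lhs => rw [← hψ x]
    refine Finset.sum_congr rfl fun j _ => ?_
    rw [hw j, map_add, smul_add, map_zsmul, smul_comm (MonoidAlgebra.of ℤ G (g ^ j)) p (ψ (w j))]
  refine ⟨fun x hx => ?_, key⟩
  obtain ⟨y, z, h⟩ := key 0 x ⟨0, by rw [hx, smul_zero]⟩
  exact ⟨y, by rw [h, zero_smul, add_zero]⟩

end HXx
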