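import Pool.Agent.Lib.MP_181146_gt.HX.SpecX

/-!
# Project HX, module Swn: characteristic polynomials modulo `p` of `M` and `N M`
-/

set_option autoImplicit false

namespace HXx

open scoped TensorProduct
open HEp HPx HTx Polynomial

/-- Every element of `𝔽_p ⊗ M` is `1 ⊗ m`. -/
private lemma Swn_surj (p : ℕ) {M : Type} [AddCommGroup M] (x : ZMod p ⊗[ℤ] M) :
    ∃ m : M, x = (1 : ZMod p) ⊗ₜ[ℤ] m := by
  induction x with
  | zero => exact ⟨0, (TensorProduct.tmul_zero _ _).symm⟩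
  | tmul a m =>
    obtain ⟨n, rfl⟩ := ZMod.intCast_surjective a
    refine ⟨n • m, ?_⟩
    rw [← TensorProduct.smul_tmul, zsmul_eq_mul, mul_one]
  | add x y hx hy =>
    obtain ⟨a, rfl⟩ := hx
    obtain ⟨b, rfl⟩ := hy
    exact ⟨a + b, (TensorProduct.tmul_add _ _ _).symm⟩

/-- The kernel of `M → 𝔽_p ⊗ M`. -/
private lemma Swn_ker (p : ℕ) {M : Type} [AddCommGroup M] [Module.Finite ℤ M] [Module.Free ℤ M]
    {m : M} (h : (1 : ZMod p) ⊗ₜ[ℤ] m = 0) : ∃ z : M, m = (p : ℤ) • z := by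
  let b := Module.Free.chooseBasis ℤ M
  have h1 : ∀ i, ((b.repr m i : ℤ) : ZMod p) = 0 := by
    intro i
    have h2 := b.baseChange_repr_tmul (ZMod p) (1 : ZMod p) m i
    rw [h, map_zero, zsmul_eq_mul, mul_one] at h2
    exact h2.symm
  have h2 : ∀ i, ∃ c : ℤ, b.repr m i = p * c := fun i =>
    (ZMod.intCast_zmod_eq_zero_iff_dvd _ p).1 (h1 i)
  choose c hc using h2
  refine ⟨∑ i, c i • b i, ?_⟩
  rw [Finset.smul_sum]
  conv_lhs => rw [← b.sum_repr m]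
  refine Finset.sum_congr rfl fun i _ => ?_
  rw [hc i, mul_smul]

private lemma Swn_tz (p : ℕ) {M : Type} [AddCommGroup M] (z : M) :
    (1 : ZMod p) ⊗ₜ[ℤ] ((p : ℤ) • z) = 0 := by
  rw [← TensorProduct.smul_tmul, zsmul_eq_mul, mul_one, Int.cast_natCast, ZMod.natCast_self,
    TensorProduct.zero_tmul]

/-- `(T - 1)^p = T^p - 1` modulo `p`. -/
private lemma Swn_pol1 (p : ℕ) [Fact p.Prime] : ((X : (ZMod p)[X]) - 1) ^ p = X ^ p - 1 := by
  rw [sub_pow_char, one_pow]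

/-- `(T - 1)^(p-1) = 1 + T + … + T^(p-1)` modulo `p`. -/
private lemma Swn_pol (p : ℕ) [Fact p.Prime] :
    ((X : (ZMod p)[X]) - 1) ^ (p - 1) = ∑ j ∈ Finset.range p, X ^ j := by
  have hp := (Fact.out : p.Prime)
  have h2 : ((X : (ZMod p)[X]) - 1) * ∑ j ∈ Finset.range p, X ^ j = X ^ p - 1 := mul_geom_sum X p
  have h3 : ((X : (ZMod p)[X]) - 1) ≠ 0 := by
    have := X_sub_C_ne_zero (1 : ZMod p)
    rwa [map_one] at this
  apply mul_left_cancel₀ h3
  rw [h2, ← Swn_pol1, ← pow_succ', Nat.sub_add_cancel hp.one_le]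

theorem tSwn : S_SwF → S_SwP → HPx.S_AxF → S_Swn := by
  intro hF hP hA G _ _ M _ _ _ _ _ p hp g hg e he W hW heW
  obtain ⟨-, hfree⟩ := hA G M
  have hpf : Fact p.Prime := ⟨hp⟩
  have hWfree : Module.Free ℤ W := inferInstance
  refine ⟨e.charpoly, (e.restrict heW).charpoly, LinearMap.charpoly_monic _,
    LinearMap.charpoly_monic _, ?_, ?_⟩
  · intro L _ _
    constructor
    · rw [cpL, LinearMap.charpoly_baseChange, algebraMap_int_eq]
    · rw [cpL, LinearMap.charpoly_baseChange, algebraMap_int_eq]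
  -- the operator of `g`
  obtain ⟨γ0, hγ0⟩ : ∃ γ0 : Module.End ℤ M, ∀ x, γ0 x = MonoidAlgebra.of ℤ G g • x :=
    ⟨(DistribSMul.toAddMonoidHom M (MonoidAlgebra.of ℤ G g : ZG G)).toIntLinearMap, fun _ => rfl⟩
  have hpow : ∀ (j : ℕ) (x : M), (γ0 ^ j) x = MonoidAlgebra.of ℤ G (g ^ j) • x := by
    intro j
    induction j with
    | zero =>
      intro x
      rw [pow_zero, pow_zero, map_one, one_smul, Module.End.one_apply]
    | succ j ih =>
      intro x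
      rw [pow_succ, Module.End.mul_apply, ih, hγ0, pow_succ, map_mul, mul_smul]
  obtain ⟨N0, hN0⟩ : ∃ N0 : Module.End ℤ M, N0 = ∑ j ∈ Finset.range p, γ0 ^ j := ⟨_, rfl⟩
  have hN0a : ∀ x, N0 x = tw g p 0 • x := by
    intro x
    rw [hN0, LinearMap.sum_apply]
    unfold tw
    rw [if_pos (by decide), Finset.sum_smul]
    exact Finset.sum_congr rfl fun j _ => hpow j x
  have htw1 : ∀ x : M, tw g p 1 • x = γ0 x - x := by
    intro x
    unfold tw
    rw [if_neg (by decide), sub_smul, one_smul, hγ0]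
  have hWm : ∀ w, w ∈ W ↔ ∃ y, w = N0 y := by
    intro w
    rw [hW]
    constructor
    · rintro ⟨y, rfl⟩
      exact ⟨y, (hN0a y).symm⟩
    · rintro ⟨y, rfl⟩
      exact ⟨y, (hN0a y).symm⟩
  have hγp : γ0 ^ p = 1 := by
    apply LinearMap.ext
    intro x
    rw [hpow, ← hg, pow_orderOf_eq_one, map_one, one_smul, Module.End.one_apply]
  have hγN : ∀ y, γ0 (N0 y) - N0 y = 0 := by
    intro y
    have h1 : (γ0 - 1) * N0 = 0 := by
      rw [hN0, mul_geom_sum, hγp, sub_self]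
    exact LinearMap.congr_fun h1 y
  obtain ⟨p1, p2⟩ := hP G M g
  rw [hg] at p1 p2
  -- the base change
  let φ : Module.End ℤ M →ₐ[ℤ] Module.End (ZMod p) (ZMod p ⊗[ℤ] M) :=
    Module.End.baseChangeHom ℤ (ZMod p) M
  have hφ : ∀ (f : Module.End ℤ M) (m : M), φ f (1 ⊗ₜ m) = 1 ⊗ₜ f m := fun f m => rfl
  have t1 : (φ γ0 - 1) ^ p = 0 := by
    have h1 := congrArg (aeval (φ γ0)) (Swn_pol1 p)
    rw [map_pow, map_sub, map_sub, map_pow, map_one, aeval_X, ← map_pow φ, hγp, map_one,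
      sub_self] at h1
    exact h1
  have t2 : (φ γ0 - 1) ^ (p - 1) = φ N0 := by
    have h1 := congrArg (aeval (φ γ0)) (Swn_pol p)
    rw [map_pow, map_sub, map_one, aeval_X, map_sum] at h1
    rw [h1, hN0, map_sum]
    refine Finset.sum_congr rfl fun j _ => ?_
    rw [map_pow, map_pow, aeval_X]
  have ht : ∀ m : M, (φ γ0 - 1) (1 ⊗ₜ m) = 1 ⊗ₜ (γ0 m - m) := by
    intro m
    rw [LinearMap.sub_apply, hφ, Module.End.one_apply, TensorProduct.tmul_sub]
  have hlift : ∀ x, (φ γ0 - 1) x = 0 → ∃ y, x = 1 ⊗ₜ N0 y := by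
    intro x hx
    obtain ⟨m, rfl⟩ := Swn_surj p x
    rw [ht] at hx
    obtain ⟨z, hz⟩ := Swn_ker p hx
    obtain ⟨y, z', e1⟩ := p2 p m ⟨z, by rw [htw1]; exact hz⟩
    refine ⟨y, ?_⟩
    rw [e1, TensorProduct.tmul_add, Swn_tz, add_zero, hN0a]
  have hcomm : ∀ x, φ e ((φ γ0 - 1) x) = (φ γ0 - 1) (φ e x) := by
    intro x
    have h1 : e * γ0 = γ0 * e := by
      apply LinearMap.ext
      intro y
      rw [Module.End.mul_apply, Module.End.mul_apply, hγ0, hγ0, he]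
    have h2 : φ e * (φ γ0 - 1) = (φ γ0 - 1) * φ e := by
      rw [mul_sub, sub_mul, ← map_mul, ← map_mul, h1, mul_one, one_mul]
    exact LinearMap.congr_fun h2 x
  have hker : ∀ x ∈ LinearMap.ker (φ γ0 - 1), φ e x ∈ LinearMap.ker (φ γ0 - 1) := by
    intro x hx
    rw [LinearMap.mem_ker] at hx ⊢
    rw [← hcomm, hx, map_zero]
  have main := hF (ZMod p) (ZMod p ⊗[ℤ] M) p hp.pos (φ γ0 - 1) (φ e) hcomm t1 (by
    intro x hx
    obtain ⟨y, rfl⟩ := hlift x hx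
    exact ⟨1 ⊗ₜ y, by rw [t2, hφ]⟩) hker
  -- `𝔽_p ⊗ W` is the kernel
  let ψ : ZMod p ⊗[ℤ] W →ₗ[ZMod p] ZMod p ⊗[ℤ] M := LinearMap.baseChange (ZMod p) W.subtype
  have hψ : ∀ w : W, ψ (1 ⊗ₜ w) = 1 ⊗ₜ (w : M) := fun w => rfl
  have hψk : ∀ x, ψ x ∈ LinearMap.ker (φ γ0 - 1) := by
    intro x
    obtain ⟨w, rfl⟩ := Swn_surj p x
    obtain ⟨y, hy⟩ := (hWm w).1 w.2
    rw [LinearMap.mem_ker, hψ, ht, hy, hγN, TensorProduct.tmul_zero]
  let ψ' : ZMod p ⊗[ℤ] W →ₗ[ZMod p] LinearMap.ker (φ γ0 - 1) := ψ.codRestrict _ hψk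
  have hinj : Function.Injective ψ' := by
    rw [← LinearMap.ker_eq_bot, LinearMap.ker_eq_bot']
    intro x hx
    have hx' : ψ x = 0 := congrArg Subtype.val hx
    obtain ⟨w, rfl⟩ := Swn_surj p x
    rw [hψ] at hx'
    obtain ⟨z, hz⟩ := Swn_ker p hx'
    obtain ⟨y, hy⟩ := (hWm w).1 w.2
    have h1 : (p : ℤ) • (γ0 z - z) = 0 := by
      rw [smul_sub, ← map_smul γ0, ← hz, hy]
      exact hγN y
    have hp0 : (p : ℤ) ≠ 0 := by exact_mod_cast hp.ne_zero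
    have h2 : γ0 z - z = 0 := (smul_eq_zero.1 h1).resolve_left hp0
    obtain ⟨y', hy'⟩ := p1 z (by rw [htw1]; exact h2)
    have hzW : z ∈ W := (hWm z).2 ⟨y', by rw [hN0a]; exact hy'⟩
    have h3 : w = (p : ℤ) • (⟨z, hzW⟩ : W) := Subtype.ext hz
    rw [h3]
    exact Swn_tz p _
  have hsurj : Function.Surjective ψ' := by
    rintro ⟨x, hx⟩
    obtain ⟨y, rfl⟩ := hlift x hx
    exact ⟨1 ⊗ₜ ⟨N0 y, (hWm _).2 ⟨y, rfl⟩⟩, Subtype.ext rfl⟩
  have hconj := LinearEquiv.charpoly_conj (LinearEquiv.ofBijective ψ' ⟨hinj, hsurj⟩)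
    (LinearMap.baseChange (ZMod p) (e.restrict heW))
  have heq : (LinearEquiv.ofBijective ψ' ⟨hinj, hsurj⟩).conj
      (LinearMap.baseChange (ZMod p) (e.restrict heW)) = (φ e).restrict hker := by
    apply LinearMap.ext
    intro x
    obtain ⟨x, rfl⟩ := (LinearEquiv.ofBijective ψ' ⟨hinj, hsurj⟩).surjective x
    rw [LinearEquiv.conj_apply_apply, LinearEquiv.symm_apply_apply]
    obtain ⟨w, rfl⟩ := Swn_surj p x
    apply Subtype.ext
    rfl
  rw [heq, LinearMap.charpoly_baseChange, algebraMap_int_eq] at hconj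
  rw [← hconj, ← main]
  have h5 : (φ e).charpoly = (LinearMap.baseChange (ZMod p) e).charpoly := rfl
  rw [h5, LinearMap.charpoly_baseChange, algebraMap_int_eq]

end HXx
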