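import Pool.Agent.Lib.MP_181146_gt.HX.SpecY

/-!
# Project HX: OUTPUT 3 for big complexes, assembly
-/

set_option autoImplicit false

namespace HXx

open scoped TensorProduct
open HEp HPx HTx

/-- **OUTPUT 3.** -/
theorem tXChY : S_XInv → S_OpE → S_NlE → S_ChZ → S_AsY → S_XChY := by
  intro hXInv hOpE hNlE hChZ hAsY e he G _ _ hG E _ _ D X N hK hN Λ n hn hn1 hX hE Q F _ _ _ L _ _
    ε T EE φ hφ hEE
  obtain ⟨n', rfl⟩ : ∃ n', n = n' + 1 := ⟨n - 1, by omega⟩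
  have hn' : Even n' := by
    obtain ⟨r, hr⟩ := hn
    exact ⟨r, by omega⟩
  have hu : X.Coc ((Q.x.toAddMonoidHom).comp (Λ.f (n' + 1))) := by
    intro y
    change Q.x (Λ.f (n' + 1) (X.d (n' + 1) y)) = 0
    rw [Λ.fd, Q.x_bd]
  obtain ⟨g, hg, hI⟩ := hXInv e he G hG E D X hN Λ.toLk n' hn' (by omega) hX hE _ hu
  obtain ⟨e', h1, h2⟩ := hOpE e he G E D X Λ (n' + 1) hn hn1 hX Q g hI
  obtain ⟨k, hk⟩ := hNlE e he G E D X Λ N hK (n' + 1) hn hn1 Q e' h2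
  exact hAsY e he G E D X Λ N hK (n' + 1) hn Q e' h2 k hk L
    (hChZ G X hN N hK g hg e' h1 k hk L) F ε T EE φ hφ hEE

end HXx
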