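import Pool.Agent.Lib.MP_181146_gt.HP.All
import Pool.Agent.Lib.MP_181146_gt.HB.TelC
import Pool.Agent.Lib.MP_181146_gt.HX.AsY
import Pool.Agent.Lib.MP_181146_gt.HX.BcX
import Pool.Agent.Lib.MP_181146_gt.HX.CAd
import Pool.Agent.Lib.MP_181146_gt.HX.CBi
import Pool.Agent.Lib.MP_181146_gt.HX.CTw
import Pool.Agent.Lib.MP_181146_gt.HX.ChB
import Pool.Agent.Lib.MP_181146_gt.HX.ChE
import Pool.Agent.Lib.MP_181146_gt.HX.ChU
import Pool.Agent.Lib.MP_181146_gt.HX.ChZ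
import Pool.Agent.Lib.MP_181146_gt.HX.Cov
import Pool.Agent.Lib.MP_181146_gt.HX.CpA
import Pool.Agent.Lib.MP_181146_gt.HX.CpD
import Pool.Agent.Lib.MP_181146_gt.HX.CpI
import Pool.Agent.Lib.MP_181146_gt.HX.CpS
import Pool.Agent.Lib.MP_181146_gt.HX.DlS
import Pool.Agent.Lib.MP_181146_gt.HX.DlT
import Pool.Agent.Lib.MP_181146_gt.HX.DlZ
import Pool.Agent.Lib.MP_181146_gt.HX.EZJ
import Pool.Agent.Lib.MP_181146_gt.HX.GpX
import Pool.Agent.Lib.MP_181146_gt.HX.HFc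
import Pool.Agent.Lib.MP_181146_gt.HX.HTl
import Pool.Agent.Lib.MP_181146_gt.HX.Hpf
import Pool.Agent.Lib.MP_181146_gt.HX.Luc
import Pool.Agent.Lib.MP_181146_gt.HX.NlE
import Pool.Agent.Lib.MP_181146_gt.HX.OpE
import Pool.Agent.Lib.MP_181146_gt.HX.RelC
import Pool.Agent.Lib.MP_181146_gt.HX.SwF
import Pool.Agent.Lib.MP_181146_gt.HX.SwP
import Pool.Agent.Lib.MP_181146_gt.HX.Swn
import Pool.Agent.Lib.MP_181146_gt.HX.XChY
import Pool.Agent.Lib.MP_181146_gt.HX.XInv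

/-!
# Project HX (part X): assembly of all modules

OUTPUTS: `pXInv`, `pXChY` (and `pChZ`, `pEZJ`).
-/

set_option autoImplicit false

namespace HXx

theorem pChE : S_ChE := tChE

theorem pChU : S_ChU := tChU

theorem pChB : S_ChB := tChB

theorem pCTw : S_CTw := tCTw

theorem pCAd : S_CAd := tCAd pChE HPx.pTG HPx.pZet HEp.pNabD HEp.pNabG HEp.pNabN HEp.pNabU

theorem pCBi : S_CBi := tCBi pChB HEp.pNabD HEp.pNabG HEp.pNabN HEp.pNabU

theorem pLuc : S_Luc := tLuc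

theorem pGpX : S_GpX := tGpX

theorem pXInv : S_XInv := tXInv pChE pChU pCTw pCAd pCBi pLuc pGpX HPx.pTow HPx.pTowZ

theorem pCpS : S_CpS := tCpS

theorem pCpA : S_CpA := tCpA pCpS

theorem pCpI : S_CpI := tCpI

theorem pHpf : S_Hpf := tHpf pCpA pCpI

theorem pDlZ : S_DlZ := tDlZ

theorem pDlT : S_DlT := tDlT

theorem pDlS : S_DlS := tDlS

theorem pCpD : S_CpD := tCpD pDlZ pDlS

theorem pSwF : S_SwF := tSwF pCpS

theorem pSwP : S_SwP := tSwP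

theorem pSwn : S_Swn := tSwn pSwF pSwP HPx.pAxF

theorem pCov : S_Cov := tCov pCpI

theorem pChZ : S_ChZ := tChZ pHpf pCpD pDlT pSwn pCov HPx.pAxF

theorem pRelC : S_RelC := tRelC HPx.pMuA HPx.pCapD HPx.pT1 HPx.pTwD HPx.pTw3 HPx.pTw4 HPx.pTwG HPx.pVtx HPx.pUnB

theorem pOpE : S_OpE := tOpE HPx.pMuA HPx.pCapD HPx.pCobI

theorem pNlE : S_NlE := tNlE pRelC HPx.pMuA HPx.pCapD

theorem pBcX : S_BcX := tBcX HEp.pNabR

theorem pHFc : S_HFc := tHFc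

theorem pHTl : S_HTl := tHTl HBy.sTelC

theorem pEZJ : S_EZJ := tEZJ pHTl

theorem pAsY : S_AsY := tAsY pBcX pHFc pHTl pDlT pDlS HPx.pAxF HPx.pMuA HPx.pCapD

theorem pXChY : S_XChY := tXChY pXInv pOpE pNlE pChZ pAsY

end HXx
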