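import Pool.Agent.Lib.MP_181146_gt.HT.SpecT
import Pool.Agent.Lib.MP_181146_gt.HB.DefsB

/-!
# Project HX: definitions for part X (a subgroup of prime order on which the obstruction vanishes,
Euler characteristic of the localized homology)

`GW`: graded abelian groups with differential and augmentation (`chW`: singular chains, `tW`: tensor
square).  `GW.Ch`: chain maps from the periodic resolution.  `NC`: complexes indexed by `ℕ`.
`cpL`: characteristic polynomial of an endomorphism of a finitely generated abelian group.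
`chG`: the singular chains as a complex `HBx.GC`.
-/

set_option autoImplicit false

namespace HXx

open scoped TensorProduct
open HEp HPx Polynomial

/-! ## A. Graded abelian groups -/

/-- A graded abelian group with a differential of degree `-1` and an augmentation. -/
structure GW where
  W : Type
  [ac : AddCommGroup W]
  g : ℕ → AddSubgroup W
  D : W →+ W
  ε : W →+ ℤ
  Dg : ∀ i, ∀ x ∈ g (i + 1), D x ∈ g i
  D0 : ∀ x ∈ g 0, D x = 0
  DD : ∀ x, D (D x) = 0
  εD : ∀ x, ε (D x) = 0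

attribute [instance] GW.ac

/-- An operator of degree `0` commuting with the differential and the augmentation. -/
structure GW.Op (A : GW) where
  T : AddMonoid.End A.W
  Tg : ∀ i, ∀ x ∈ A.g i, T x ∈ A.g i
  TD : ∀ x, T (A.D x) = A.D (T x)
  Tε : ∀ x, A.ε (T x) = A.ε x

/-- Exactness in the degrees `< n`, the augmentation is onto. -/
def GW.Ac (A : GW) (n : ℕ) : Prop :=
  (∃ v ∈ A.g 0, A.ε v = 1) ∧ (0 < n → ∀ x ∈ A.g 0, A.ε x = 0 → ∃ y ∈ A.g 1, A.D y = x) ∧
  ∀ i, 0 < i → i < n → ∀ x ∈ A.g i, A.D x = 0 → ∃ y ∈ A.g (i + 1), A.D y = x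

/-- The norm `1 + T + … + T^(k-1)` for even `i`, `T - 1` for odd `i` (compare `HPx.tw`). -/
noncomputable def tau {W : Type} [AddCommGroup W] (T : AddMonoid.End W) (k i : ℕ) :
    AddMonoid.End W :=
  if Even i then ∑ j ∈ Finset.range k, T ^ j else T - 1

/-- A chain map from the periodic resolution, in the degrees `≤ n`: `ε x_0 = 1`,
`D x_(i+1) = τ_(i+1) x_i`. -/
def GW.Ch (A : GW) (T : A.Op) (k n : ℕ) (x : ℕ → A.W) : Prop :=
  (∀ i, i ≤ n → x i ∈ A.g i) ∧ A.ε (x 0) = 1 ∧
    ∀ i, i < n → A.D (x (i + 1)) = tau T.T k (i + 1) (x i)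

section Aux

variable {k : Type} [CommRing k] {K : SS}

/-- Induction over simplices of dimension `m`. -/
lemma gr_ind {M : Type} [AddCommGroup M] [Module k M] {f : Ch k K →ₗ[k] M}
    {S : Submodule k M} {m : ℕ} (h : ∀ σ : K.K m, f (sx k σ) ∈ S) {x : Ch k K}
    (hx : x ∈ gr k K m) : f x ∈ S := by
  have hle : gr k K m ≤ S.comap f := by
    rw [gr, Finsupp.supported_eq_span_single, Submodule.span_le]
    rintro _ ⟨⟨m', σ⟩, hσ, rfl⟩
    have hσ' : m' = m := hσ
    subst hσ'
    exact h σ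
  exact hle hx

/-- Linear maps which agree on the simplices of dimension `m`. -/
lemma gr_eq {M : Type} [AddCommGroup M] [Module k M] {f g : Ch k K →ₗ[k] M} {m : ℕ}
    (h : ∀ σ : K.K m, f (sx k σ) = g (sx k σ)) {x : Ch k K} (hx : x ∈ gr k K m) :
    f x = g x := by
  have := gr_ind (f := f - g) (S := ⊥) (m := m) (fun σ => by
    rw [LinearMap.sub_apply, h σ, sub_self]
    exact Submodule.zero_mem _) hx
  rw [LinearMap.sub_apply, Submodule.mem_bot] at this
  exact sub_eq_zero.1 this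

lemma bd_gr {m : ℕ} {x : Ch k K} (hx : x ∈ gr k K (m + 1)) : bd k K x ∈ gr k K m := by
  refine gr_ind (fun σ => ?_) hx
  rw [bd_sx]
  exact Submodule.sum_mem _ fun i _ => Submodule.smul_mem _ _ (sx_mem_gr k _)

lemma bd_gr0 {x : Ch k K} (hx : x ∈ gr k K 0) : bd k K x = 0 :=
  gr_eq (g := 0) (fun σ => bd_sx_zero k σ) hx

lemma cmap_gr {L : SS} (f : SSHom K L) {m : ℕ} {x : Ch k K} (hx : x ∈ gr k K m) :
    cmap k f x ∈ gr k L m := by
  refine gr_ind (fun σ => ?_) hx
  rw [cmap_sx]
  exact sx_mem_gr k _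

lemma sg_gr {m : ℕ} {x : Ch k K} (hx : x ∈ gr k K m) : (chDG k K).sg x ∈ gr k K m := by
  refine gr_ind (f := (chDG k K).sg) (fun σ => ?_) hx
  rw [DG.sg_apply]
  refine Submodule.sub_mem _ (sx_mem_gr k _) (Submodule.smul_mem _ _ ?_)
  change od k K (sx k σ) ∈ _
  rw [od_sx]
  split_ifs
  · exact sx_mem_gr k _
  · exact Submodule.zero_mem _

lemma aug_sg (x : Ch k K) : aug k K ((chDG k K).sg x) = aug k K x := by
  have h : aug k K ∘ₗ (chDG k K).sg = aug k K := ch_ext fun n x => by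
    rw [LinearMap.comp_apply, DG.sg_apply, map_sub, map_smul]
    change aug k K (sx k x) - (2 : k) • aug k K (od k K (sx k x)) = _
    cases n with
    | zero => rw [od_sx, if_neg (by decide), map_zero, smul_zero, sub_zero]
    | succ n =>
      rw [od_sx, aug_sx_succ]
      split_ifs
      · rw [aug_sx_succ, smul_zero, sub_zero]
      · rw [map_zero, smul_zero, sub_zero]
  exact LinearMap.congr_fun h x

lemma tens_gr {m : ℕ} {z : Ch k K ⊗[k] Ch k K} (hz : z ∈ tgr (gr k K) (gr k K) (m + 1)) :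
    ((chDG k K).tens (chDG k K)).d z ∈ tgr (gr k K) (gr k K) m := by
  induction hz using Submodule.span_induction with
  | mem z hz =>
    obtain ⟨i, j, x, y, hij, hx, hy, rfl⟩ := hz
    rw [DG.tens_d]
    refine Submodule.add_mem _ ?_ ?_
    · cases i with
      | zero =>
        change bd k K x ⊗ₜ[k] y ∈ _
        rw [bd_gr0 hx, TensorProduct.zero_tmul]
        exact Submodule.zero_mem _
      | succ i => exact Submodule.subset_span ⟨i, j, _, _, by omega, bd_gr hx, hy, rfl⟩
    · cases j with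
      | zero =>
        change (chDG k K).sg x ⊗ₜ[k] bd k K y ∈ _
        rw [bd_gr0 hy, TensorProduct.tmul_zero]
        exact Submodule.zero_mem _
      | succ j => exact Submodule.subset_span ⟨i, j, _, _, by omega, sg_gr hx, bd_gr hy, rfl⟩
  | zero =>
    rw [map_zero]
    exact Submodule.zero_mem _
  | add a b _ _ ha hb =>
    rw [map_add]
    exact Submodule.add_mem _ ha hb
  | smul c a _ ha =>
    rw [map_smul]
    exact Submodule.smul_mem _ _ ha

lemma tens_gr0 {z : Ch k K ⊗[k] Ch k K} (hz : z ∈ tgr (gr k K) (gr k K) 0) :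
    ((chDG k K).tens (chDG k K)).d z = 0 := by
  induction hz using Submodule.span_induction with
  | mem z hz =>
    obtain ⟨i, j, x, y, hij, hx, hy, rfl⟩ := hz
    obtain ⟨rfl, rfl⟩ : i = 0 ∧ j = 0 := ⟨by omega, by omega⟩
    rw [DG.tens_d]
    change bd k K x ⊗ₜ[k] y + (chDG k K).sg x ⊗ₜ[k] bd k K y = 0
    rw [bd_gr0 hx, bd_gr0 hy, TensorProduct.zero_tmul, TensorProduct.tmul_zero, add_zero]
  | zero => rw [map_zero]
  | add a b _ _ ha hb => rw [map_add, ha, hb, add_zero]
  | smul c a _ ha => rw [map_smul, ha, smul_zero]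

lemma augT_d (z : Ch k K ⊗[k] Ch k K) :
    augT (aug k K) (aug k K) (((chDG k K).tens (chDG k K)).d z) = 0 := by
  induction z with
  | zero => rw [map_zero, map_zero]
  | add a b ha hb => rw [map_add, map_add, ha, hb, add_zero]
  | tmul a b =>
    rw [DG.tens_d, map_add, augT_tmul, augT_tmul]
    change aug k K (bd k K a) * aug k K b + _ * aug k K (bd k K b) = 0
    rw [aug_bd, aug_bd, zero_mul, mul_zero, add_zero]

end Aux

/-- The chains of `K`. -/
noncomputable def chW (K : SS) : GW where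
  W := Ch ℤ K
  g i := (gr ℤ K i).toAddSubgroup
  D := (bd ℤ K).toAddMonoidHom
  ε := (aug ℤ K).toAddMonoidHom
  Dg _ _ hx := bd_gr hx
  D0 _ hx := bd_gr0 hx
  DD x := bd_bd ℤ x
  εD x := aug_bd ℤ x

/-- The tensor square of the chains of `K`. -/
noncomputable def tW (K : SS) : GW where
  W := Ch ℤ K ⊗[ℤ] Ch ℤ K
  g i := (tgr (gr ℤ K) (gr ℤ K) i).toAddSubgroup
  D := (((cz K).tens (cz K)).d).toAddMonoidHom
  ε := (augT (aug ℤ K) (aug ℤ K)).toAddMonoidHom
  Dg _ _ hx := tens_gr hx
  D0 _ hx := tens_gr0 hx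
  DD x := ((cz K).tens (cz K)).dd x
  εD x := augT_d x

/-- The operator `cmap φ` on the chains. -/
noncomputable def chT {K : SS} (φ : SSHom K K) : (chW K).Op where
  T := (cmap ℤ φ).toAddMonoidHom
  Tg _ _ hx := cmap_gr φ hx
  TD x := cmap_bd ℤ φ x
  Tε x := aug_cmap ℤ φ x

/-- Powers of the operator of a group element. -/
lemma chT_pow {G : Type} [CommGroup G] {E : Type} [TopologicalSpace E] (D : HTx.Mlt G E) (g : G)
    (j : ℕ) : (chT (SingMap (D.act g))).T ^ j = (chT (SingMap (D.act (g ^ j)))).T := by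
  induction j with
  | zero =>
    rw [pow_zero, pow_zero, D.act_one]
    apply AddMonoidHom.ext
    intro x
    exact (cmap_id ℤ x).symm
  | succ j ih =>
    rw [pow_succ, ih, pow_succ, D.act_mul]
    apply AddMonoidHom.ext
    intro x
    exact (cmap_comp ℤ (SingMap (D.act (g ^ j))) (SingMap (D.act g)) x).symm

lemma chT_one {G : Type} [CommGroup G] {E : Type} [TopologicalSpace E] (D : HTx.Mlt G E) :
    (chT (SingMap (D.act 1))).T = 1 := by
  rw [← pow_zero (1 : G), ← chT_pow, pow_zero]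

section TT

variable {K : SS} (φ ψ : SSHom K K)

lemma tT_gr (i : ℕ) (x : Ch ℤ K ⊗[ℤ] Ch ℤ K) (hx : x ∈ tgr (gr ℤ K) (gr ℤ K) i) :
    TensorProduct.map (cmap ℤ φ) (cmap ℤ ψ) x ∈ tgr (gr ℤ K) (gr ℤ K) i := by
  induction hx using Submodule.span_induction with
  | mem z hz =>
    obtain ⟨a, b, x, y, hij, hx, hy, rfl⟩ := hz
    rw [TensorProduct.map_tmul]
    exact Submodule.subset_span ⟨a, b, _, _, hij, cmap_gr φ hx, cmap_gr ψ hy, rfl⟩
  | zero =>
    rw [map_zero]
    exact Submodule.zero_mem _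
  | add a b _ _ ha hb =>
    rw [map_add]
    exact Submodule.add_mem _ ha hb
  | smul c a _ ha =>
    rw [map_smul]
    exact Submodule.smul_mem _ _ ha

lemma tT_d (x : Ch ℤ K ⊗[ℤ] Ch ℤ K) :
    TensorProduct.map (cmap ℤ φ) (cmap ℤ ψ) (((cz K).tens (cz K)).d x) =
      ((cz K).tens (cz K)).d (TensorProduct.map (cmap ℤ φ) (cmap ℤ ψ) x) := by
  induction x with
  | zero => simp only [map_zero]
  | add x y hx hy => rw [map_add, map_add, hx, hy, map_add, map_add]
  | tmul a b =>
    have h1 : cmap ℤ φ ((cz K).sg a) = (cz K).sg (cmap ℤ φ a) := by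
      rw [DG.sg_apply, DG.sg_apply, map_sub, map_smul]
      change _ - (2 : ℤ) • cmap ℤ φ (od ℤ K a) = _ - (2 : ℤ) • od ℤ K (cmap ℤ φ a)
      rw [cmap_od]
    have h2 : ((cz K).tens (cz K)).d (cmap ℤ φ a ⊗ₜ cmap ℤ ψ b) =
      bd ℤ K (cmap ℤ φ a) ⊗ₜ[ℤ] cmap ℤ ψ b + (cz K).sg (cmap ℤ φ a) ⊗ₜ[ℤ] bd ℤ K (cmap ℤ ψ b) := rfl
    have h3 : ((cz K).tens (cz K)).d (a ⊗ₜ b) =
      bd ℤ K a ⊗ₜ[ℤ] b + (cz K).sg a ⊗ₜ[ℤ] bd ℤ K b := rfl
    rw [TensorProduct.map_tmul, h2]
    refine Eq.trans (congrArg _ h3) ?_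
    rw [map_add, TensorProduct.map_tmul, TensorProduct.map_tmul, h1, cmap_bd, cmap_bd]

lemma tT_aug (x : Ch ℤ K ⊗[ℤ] Ch ℤ K) :
    augT (aug ℤ K) (aug ℤ K) (TensorProduct.map (cmap ℤ φ) (cmap ℤ ψ) x) =
      augT (aug ℤ K) (aug ℤ K) x := by
  induction x with
  | zero => simp only [map_zero]
  | add x y hx hy => rw [map_add, map_add, hx, hy, map_add]
  | tmul a b => rw [TensorProduct.map_tmul, augT_tmul, augT_tmul, aug_cmap, aug_cmap]

/-- `φ ⊗ ψ` on the tensor square. -/
noncomputable def tT : (tW K).Op where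
  T := (TensorProduct.map (cmap ℤ φ) (cmap ℤ ψ)).toAddMonoidHom
  Tg i x hx := tT_gr φ ψ i x hx
  TD x := tT_d φ ψ x
  Tε x := tT_aug φ ψ x

end TT

/-- Powers of the operator of a pair of group elements. -/
lemma tT_pow {G : Type} [CommGroup G] {E : Type} [TopologicalSpace E] (D : HTx.Mlt G E)
    (g h : G) (j : ℕ) : (tT (SingMap (D.act g)) (SingMap (D.act h))).T ^ j =
      (tT (SingMap (D.act (g ^ j))) (SingMap (D.act (h ^ j)))).T := by
  have e : ∀ g : G, ∀ j : ℕ, cmap ℤ (SingMap (D.act (g ^ (j + 1)))) =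
      cmap ℤ (SingMap (D.act (g ^ j))) ∘ₗ cmap ℤ (SingMap (D.act g)) := by
    intro g j
    rw [pow_succ, D.act_mul]
    apply LinearMap.ext
    intro x
    exact cmap_comp ℤ (SingMap (D.act (g ^ j))) (SingMap (D.act g)) x
  induction j with
  | zero =>
    rw [pow_zero, pow_zero, pow_zero, D.act_one]
    apply AddMonoidHom.ext
    intro x
    have h1 : cmap ℤ (SingMap (ContinuousMap.id E)) = LinearMap.id := by
      apply LinearMap.ext
      intro x
      exact cmap_id ℤ x
    change x = TensorProduct.map (cmap ℤ (SingMap (ContinuousMap.id E)))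
      (cmap ℤ (SingMap (ContinuousMap.id E))) x
    rw [h1, TensorProduct.map_id]
    rfl
  | succ j ih =>
    rw [pow_succ, ih]
    apply AddMonoidHom.ext
    intro x
    change TensorProduct.map _ _ (TensorProduct.map _ _ x) = TensorProduct.map _ _ x
    rw [e g j, e h j, TensorProduct.map_comp]
    rfl

/-! ## B. Complexes indexed by `ℕ` -/

/-- A complex of abelian groups in the degrees `≥ 0`. -/
structure NC where
  P : ℕ → Type
  [ac : ∀ i, AddCommGroup (P i)]
  d : ∀ i, P (i + 1) →ₗ[ℤ] P i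
  dd : ∀ i x, d i (d (i + 1) x) = 0

attribute [instance] NC.ac

/-- The cycles. -/
def NC.Z (X : NC) : ∀ i, Submodule ℤ (X.P i)
  | 0 => ⊤
  | i + 1 => LinearMap.ker (X.d i)

/-- The boundaries. -/
def NC.B (X : NC) (i : ℕ) : Submodule ℤ (X.P i) := LinearMap.range (X.d i)

lemma NC.B_le_Z (X : NC) (i : ℕ) : X.B i ≤ X.Z i := by
  rintro _ ⟨y, rfl⟩
  cases i with
  | zero => exact Submodule.mem_top
  | succ i => exact X.dd i y

/-- The homology. -/
abbrev NC.H (X : NC) (i : ℕ) : Type := X.Z i ⧸ (X.B i).comap (X.Z i).subtype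

instance NC.finH (X : NC) (i : ℕ) [Module.Finite ℤ (X.P i)] : Module.Finite ℤ (X.H i) := by
  have h1 : IsNoetherian ℤ (X.P i) := isNoetherian_of_isNoetherianRing_of_finite ℤ _
  have h3 : Module.Finite ℤ (X.Z i) := Module.IsNoetherian.finite ℤ _
  exact Module.Finite.of_surjective ((X.B i).comap (X.Z i).subtype).mkQ
    (Submodule.mkQ_surjective _)

/-- A chain map of degree `0` from `X` to `X`. -/
structure NC.E (X : NC) where
  f : ∀ i, X.P i →ₗ[ℤ] X.P i
  comm : ∀ i x, f i (X.d i x) = X.d i (f (i + 1) x)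

lemma NC.E.Z {X : NC} (e : X.E) (i : ℕ) (x : X.P i) (hx : x ∈ X.Z i) : e.f i x ∈ X.Z i := by
  cases i with
  | zero => exact Submodule.mem_top
  | succ i =>
    change X.d i (e.f (i + 1) x) = 0
    rw [← e.comm, show X.d i x = 0 from hx, map_zero]

lemma NC.E.B {X : NC} (e : X.E) (i : ℕ) (x : X.P i) (hx : x ∈ X.B i) : e.f i x ∈ X.B i := by
  obtain ⟨y, rfl⟩ := hx
  exact ⟨e.f (i + 1) y, (e.comm i y).symm⟩

/-- The map on homology. -/
def NC.E.Hm {X : NC} (e : X.E) (i : ℕ) : Module.End ℤ (X.H i) :=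
  Submodule.mapQ _ _ ((e.f i).restrict (e.Z i)) (fun x hx => e.B i x hx)

lemma NC.E.Hm_mk {X : NC} (e : X.E) (i : ℕ) (x : X.Z i) :
    e.Hm i (Submodule.Quotient.mk x) =
      Submodule.Quotient.mk (⟨e.f i x, e.Z i x x.2⟩ : X.Z i) := rfl

/-- The complex `X` over `ℤ`. -/
noncomputable def nX {G : Type} [CommGroup G] (X : AX G) : NC where
  P := X.P
  d i := (X.d i).toAddMonoidHom.toIntLinearMap
  dd := X.dd

/-- The image of the norm `1 + g + … + g^(p-1)` in `X i`. -/
noncomputable def nN {G : Type} [CommGroup G] (X : AX G) (g : G) (p : ℕ) (i : ℕ) : Submodule ℤ (X.P i) :=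
  LinearMap.range (DistribSMul.toAddMonoidHom (X.P i) (tw g p 0)).toIntLinearMap

/-- The subcomplex `N X`. -/
noncomputable def nXN {G : Type} [CommGroup G] (X : AX G) (g : G) (p : ℕ) : NC where
  P i := nN X g p i
  d i := ((X.d i).toAddMonoidHom.toIntLinearMap).restrict (by
    rintro _ ⟨y, rfl⟩
    exact ⟨X.d i y, ((X.d i).map_smul (tw g p 0) y).symm⟩)
  dd i x := Subtype.ext (X.dd i x.1)

/-- The characteristic polynomial of an endomorphism of a finitely generated abelian group, over the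
field `L`. -/
noncomputable def cpL (L : Type) [Field L] (A : Type) [AddCommGroup A] [Module.Finite ℤ A]
    (e : Module.End ℤ A) : L[X] :=
  (LinearMap.baseChange L e).charpoly

/-! ## C. The singular chains as a complex `HBx.GC` -/

section Big

variable (F : Type) [CommRing F] (K : SS)

/-- The chains of dimension `i`, `i` an integer. -/
def grZ (i : ℤ) : Submodule F (Ch F K) := Finsupp.supported F F {x | (x.1 : ℤ) = i}

lemma grZ_ofNat (n : ℕ) : grZ F K n = gr F K n := by
  unfold grZ gr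
  congr 1
  ext x
  exact Nat.cast_inj

lemma grZ_neg (i : ℤ) (hi : i < 0) : grZ F K i = ⊥ := by
  have h : {x : Σ n, K.K n | (x.1 : ℤ) = i} = ∅ := by
    ext x
    simp only [Set.mem_ofPred_eq, Set.mem_empty_iff_false, iff_false]
    omega
  unfold grZ
  rw [h, Finsupp.supported_empty]

lemma bd_grZ (i : ℤ) (x : Ch F K) (hx : x ∈ grZ F K i) : bd F K x ∈ grZ F K (i - 1) := by
  rcases lt_or_ge i 0 with h | h
  · rw [grZ_neg F K i h, Submodule.mem_bot] at hx
    rw [hx, map_zero]
    exact Submodule.zero_mem _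
  · obtain ⟨n, rfl⟩ := Int.eq_ofNat_of_zero_le h
    rw [grZ_ofNat] at hx
    cases n with
    | zero =>
      rw [bd_gr0 hx]
      exact Submodule.zero_mem _
    | succ n =>
      have e : ((n + 1 : ℕ) : ℤ) - 1 = n := by push_cast; ring
      rw [e, grZ_ofNat]
      exact bd_gr hx

/-- The differential. -/
noncomputable def chd (i j : ℤ) : grZ F K i →ₗ[F] grZ F K j :=
  if h : j + 1 = i then
    (bd F K).restrict (fun x hx => by
      have := bd_grZ F K i x hx
      rwa [show i - 1 = j by omega] at this)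
  else 0

lemma chd_apply (i j : ℤ) (h : j + 1 = i) (x : grZ F K i) :
    (chd F K i j x : Ch F K) = bd F K x := by
  unfold chd
  rw [dif_pos h]
  rfl

lemma chd_zero (i j : ℤ) (h : j + 1 ≠ i) : chd F K i j = 0 := dif_neg h

/-- The chains of `K` with coefficients in `F` as a complex. -/
noncomputable def chG : HBx.GC F where
  P i := grZ F K i
  d i j := chd F K i j
  shape i j h := chd_zero F K i j h
  dd i j k x := by
    by_cases h : j + 1 = i
    · by_cases h' : k + 1 = j
      · apply Subtype.ext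
        rw [chd_apply F K j k h', chd_apply F K i j h]
        exact bd_bd F _
      · rw [chd_zero F K j k h']
        rfl
    · rw [chd_zero F K i j h]
      exact map_zero _

variable {K}

/-- Change of coefficients of a cochain. -/
noncomputable def xF (x : Ch ℤ K →ₗ[ℤ] ℤ) : Ch F K →ₗ[F] F :=
  Finsupp.linearCombination F (fun s => ((x (Finsupp.single s 1) : ℤ) : F))

end Big

/-- `E` is, on homology, the operator `y ↦ x ∩ (c y)`. -/
def IsXi (F : Type) [CommRing F] (e : ∀ p q : ℕ, Ch ℤ ((De p).prod (De q))) {K : SS}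
    (m : SSHom (K.prod K) K) (x : Ch ℤ K →ₗ[ℤ] ℤ) (c : Ch ℤ K)
    (E : HBx.GHom (chG F K) (chG F K)) : Prop :=
  ∀ (i : ℤ) (y : grZ F K i), bd F K y = 0 → ∃ w ∈ grZ F K (i + 1),
    (grZ F K i).subtype (E.f i y) - cap (xF F x) (mu F e m (cc F c ⊗ₜ[F] (y : Ch F K))) = bd F K w

/-- The map on homology of a chain map. -/
def GHm {R : Type} [CommRing R] {Q Q' : HBx.GC R} (E : HBx.GHom Q Q') (i : ℤ) :
    Q.H i →ₗ[R] Q'.H i :=
  Submodule.mapQ _ _ ((E.f i).restrict (fun x hx => by
    change Q'.d i (i - 1) (E.f i x) = 0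
    rw [← E.comm, show Q.d i (i - 1) x = 0 from hx, map_zero])) (fun x hx => by
    obtain ⟨y, hy⟩ := hx
    exact ⟨E.f (i + 1) y, by
      rw [← E.comm]
      exact congrArg (E.f i) hy⟩)

end HXx
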