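import Pool.Agent.Lib.MP_181146_gt.HX.SpecX
import Pool.Agent.Lib.MP_181146_gt.HA.DefsA
import Pool.Agent.Lib.MP_181146_gt.HB.SpecB

/-!
# Project HX: part X, second specification: the outputs for big complexes `HRx.GC`

Replaces HF, HTe, EZI, AsX, XChi of `HX/SpecX.lean` (the format of the big complexes is now `HRx.GC` with
the telescope `HBy.tel` and `HAx.EZ`).  Every statement is a separate task; the proof of each is in the
docstring.
-/

set_option linter.unusedVariables false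
set_option autoImplicit false

namespace HXx

open scoped TensorProduct
open HEp HPx HTx

/-- The chains of `K` with coefficients in `F` as a big complex. -/
noncomputable def cX (F : Type) [CommRing F] (K : SS) : HRx.GC F where
  V := Ch F K
  d := bd F K
  G i := grZ F K i
  dG i x hx := bd_grZ F K i x hx
  dd x := bd_bd F x

/-- The map on homology of a chain endomorphism. -/
def GEm {R : Type} [CommRing R] {T : HRx.GC R} (E : HBy.En T) (i : ℤ) :
    Module.End R (HAx.Hi T i) :=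
  Submodule.mapQ _ _ (E.e.restrict (fun x hx => by
    refine ⟨E.he i x hx.1, ?_⟩
    change T.d (E.e x) = 0
    rw [← E.hed, show T.d x = 0 from hx.2, map_zero])) (fun x hx => by
    obtain ⟨y, hy, hyx⟩ := hx
    exact ⟨E.e y, E.he _ y hy, by
      rw [← E.hed]
      exact congrArg E.e hyx⟩)

/-- `E` is, on the homology of `T`, the operator `y ↦ x ∩ (c y)`, through the map `φ` to the chains of
`K` with coefficients in `F`. -/
def IsXT (F : Type) [CommRing F] (e : ∀ p q : ℕ, Ch ℤ ((De p).prod (De q))) {K : SS}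
    (m : SSHom (K.prod K) K) (x : Ch ℤ K →ₗ[ℤ] ℤ) (c : Ch ℤ K) {T : HRx.GC F}
    (φ : T.V →ₗ[F] Ch F K) (E : HBy.En T) : Prop :=
  ∀ (i : ℤ) (y : T.V), T.Cyc i y →
    (cX F K).Bdy i (φ (E.e y) - cap (xF F x) (mu F e m (cc F c ⊗ₜ[F] φ y)))

/-- **HTl** (from HBy.TelC).  The homology of the telescope.  Proof: `[x] ↦ [tj E n x]` is a linear map
`Hi T i → Hi (tel E) i` for every `n` (TelC (1)); by TelC (4) these maps define
`DL (GEm E i) → Hi (tel E) i` (`Submodule.liftQ`, `Finsupp.lsum`).  Onto: TelC (2) and `HBx.dl_ind`.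
Injective: if `tj E n x` is a boundary, then `e^k x` is a boundary for some `k` (TelC (3)), so
`dlj n [x] = dlj (n + k) ((GEm E i)^k [x]) = 0`. -/
def S_HTl : Prop :=
  ∀ (R : Type) [CommRing R] (T : HRx.GC R) (E : HBy.En T) (i : ℤ),
    Nonempty (HAx.Hi (HBy.tel E) i ≃ₗ[R] HBx.DL (GEm E i))

/-- **EZJ** (from HTl).  The property `EZ` of the telescope depends only on the operators on homology.
Proof: `DL (GEm E i) ≃ DL (GEm E' i)` (`HBx.dlMap` for `ψ` and its inverse), HTl; the rank `HBx.hrk`,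
finiteness and triviality are invariant under linear equivalences. -/
def S_EZJ : Prop :=
  ∀ (F : Type) [CommRing F] (L : Type) [Field L] (ε : F →+* L) (T T' : HRx.GC F)
    (E : HBy.En T) (E' : HBy.En T')
    (h : ∀ i, ∃ ψ : HAx.Hi T i ≃ₗ[F] HAx.Hi T' i, ∀ x, ψ (GEm E i x) = GEm E' i (ψ x)),
    HAx.EZ ε (HBy.tel E) → HAx.EZ ε (HBy.tel E')

/-- **HFc.** The homology with coefficients in `F`.  Proof: the homology of `X` and of the chains over
`ℤ` are isomorphic via `f` (`Λ`).  Let `b_1, …, b_r` be a basis of `F` over `ℤ`: every `y ∈ Ch F K` is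
uniquely `∑ b_j cc(y_j)` with `y_j ∈ Ch ℤ K`, `bd` acts on the `y_j`, so `y` is a cycle or boundary of degree
`i` iff all `y_j` are.  The map `a ⊗ [y] ↦ a [cc (f y)]` is bijective. -/
def S_HFc : Prop :=
  ∀ (G : Type) [CommGroup G] (E : Type) [TopologicalSpace E] (act : G → C(E, E)) (X : AX G)
    (Λ : LT X E act) (F : Type) [CommRing F] [Module.Free ℤ F] [Module.Finite ℤ F] (i : ℕ),
    ∃ ψ : (F ⊗[ℤ] (nX X).H i) ≃ₗ[F] HAx.Hi (cX F (Sing E)) i,
      ∀ (y : (nX X).Z i) (z : HAx.Zi (cX F (Sing E)) i),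
        (HAx.Zi (cX F (Sing E)) i).subtype z = cc F (Λ.f i y.1) →
        ψ (1 ⊗ₜ[ℤ] Submodule.Quotient.mk y) = Submodule.Quotient.mk z

/-- **AsY** (from BcX, HFc, HTl, DlT, DlS, HPx.AxF).  Passage to the coefficients `F`, `L`.
Proof: `φ` gives `Hi T i ≃ Hi (cX F (Sing E)) i`.  For `i ≥ 0` let `ψ` be the composition
`F ⊗ H_i(X) ≃ Hi (cX F (Sing E)) i ≃ Hi T i` (HFc); it commutes with `F ⊗ ē_i` and `GEm EE i`:
`[e' y] ↦ [cc (f (e' y))] = [cc (cap x (mu (c ⊗ f y)))]` (`he'`; `cc` of a boundary of `w ∈ gr (i + 1)` is a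
boundary) `= [cap x_F (mu (c_F ⊗ cc (f y)))]` (BcX), and `cc (f y) = φ y' + bd w`, `y'` a cycle of `T`, so this
is `[φ (EE y')]` (`hEE`; the operator preserves boundaries: `xF F Q.x` is a cocycle, `cc F Q.c` a cycle, or apply
BcX and `he'` only: all classes of `T` are combinations of such `y'`).  So `H_i(tel EE) ≃ DL(GEm EE i) ≃
DL(F ⊗ ē_i)` (HTl), `≃ F ⊗ DL(ē_i)` (DlT), and `L ⊗_F H_i(tel EE) ≃ L ⊗_ℤ DL(ē_i)`
(`TensorProduct.AlgebraTensorModule.cancelBaseChange`), of dimension `finrank L (L ⊗[ℤ] DL (ē_i))`.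
`DL(ē_i)` is finitely generated: a quotient of `H_i(X)` by DlS (`X.P i` is finitely generated over `ℤ`, AxF).
For `i < 0` and `i ≥ N` the homology is zero.  Sum over `Icc (-N) N`.
(That `c_F`, `x_F` are a cycle and a cocycle: `cc F (bd y) = bd F (cc F y)`.  For the well-definedness on
boundaries use `HPx.S_MuA` for `cc F Q.c` and `HPx.S_CapD` for `xF F Q.x`, as extra hypotheses.) -/
def S_AsY : Prop :=
  ∀ (e : ∀ p q : ℕ, Ch ℤ ((De p).prod (De q))) (he : EZ e) (G : Type) [CommGroup G] [Finite G]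
    (E : Type) [TopologicalSpace E] (D : Mlt G E) (X : AX G) (Λ : LT X E D.act) (N : ℕ)
    (hK : ∀ i, N ≤ i → Subsingleton (X.P i)) (n : ℕ) (hn : Odd n) (Q : Cl E D.v n)
    (e' : (nX X).E)
    (he' : ∀ i (y : X.P i), y ∈ (nX X).Z i → ∃ w ∈ gr ℤ (Sing E) (i + 1),
      Λ.f i (e'.f i y) - cap Q.x (mu ℤ e (SingMul D.m) (Q.c ⊗ₜ Λ.f i y)) = bd ℤ (Sing E) w)
    (k : ℕ) (hk : ∀ i, (e'.Hm i * (1 - e'.Hm i)) ^ k = 0) (L : Type) [Field L]
    (hL : ∑ i ∈ Finset.range N, (-1 : ℤ) ^ i *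
      (Module.finrank L (L ⊗[ℤ] HBx.DL (e'.Hm i)) : ℤ) = 0)
    (F : Type) [CommRing F] [Module.Free ℤ F] [Module.Finite ℤ F] (ε : F →+* L)
    (T : HRx.GC F) (EE : HBy.En T) (φ : T.V →ₗ[F] Ch F (Sing E))
    (hφ : HRx.IsQI T (cX F (Sing E)) φ.toAddMonoidHom)
    (hEE : IsXT F e (SingMul D.m) Q.x Q.c φ EE),
    HAx.EZ ε (HBy.tel EE)

/-- **XChY** (from XInv, OpE, NlE, ChZ, AsY).  OUTPUT 3.  Proof: `n = n' + 1`; XInv for
`u = Q.x ∘ f n` (a cocycle by `fd`, `x_bd`) gives `g`; OpE gives `e'`, NlE gives `k`, ChZ, AsY. -/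
def S_XChY : Prop :=
  ∀ (e : ∀ p q : ℕ, Ch ℤ ((De p).prod (De q))) (he : EZ e) (G : Type) [CommGroup G] [Finite G]
    (hG : ∀ q : ℕ, q.Prime → IsPGroup q G → ¬ IsCyclic G) (E : Type) [TopologicalSpace E]
    [PathConnectedSpace E] (D : Mlt G E) (X : AX G) (N : ℕ)
    (hK : ∀ i, N ≤ i → Subsingleton (X.P i)) (hN : X.PN) (Λ : LT X E D.act) (n : ℕ) (hn : Odd n)
    (hn1 : 1 < n) (hX : X.Ac n) (hE : AcE E (vtx D.v) n) (Q : Cl E D.v n) (F : Type) [CommRing F]
    [Module.Free ℤ F] [Module.Finite ℤ F] (L : Type) [Field L] [CharZero L] (ε : F →+* L)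
    (T : HRx.GC F) (EE : HBy.En T) (φ : T.V →ₗ[F] Ch F (Sing E))
    (hφ : HRx.IsQI T (cX F (Sing E)) φ.toAddMonoidHom)
    (hEE : IsXT F e (SingMul D.m) Q.x Q.c φ EE),
    HAx.EZ ε (HBy.tel EE)

end HXx
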