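import Pool.Agent.Lib.MP_181146_gt.HX.SpecX

/-!
# Project HX, module AsX: passage to the coefficients `F` and `L` (helper72)
-/

set_option autoImplicit false

namespace HXx

open scoped TensorProduct
open HEp HPx HTx

section

/-! ## Change of coefficients -/

variable {K : SS}

/-- Change of coefficients as a `ℤ`-linear map. -/
private noncomputable def AsX_cc (F : Type) [CommRing F] (K : SS) : Ch ℤ K →ₗ[ℤ] Ch F K :=
  (Finsupp.mapRange.addMonoidHom (Int.castAddHom F)).toIntLinearMap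

private lemma AsX_cc_apply {F : Type} [CommRing F] (x : Ch ℤ K) : AsX_cc F K x = cc F x := rfl

private lemma AsX_cc_sx {F : Type} [CommRing F] {n : ℕ} (x : K.K n) :
    AsX_cc F K (sx ℤ x) = sx F x := by
  rw [AsX_cc_apply, cc, sx, Finsupp.mapRange_single, map_one]
  rfl

private lemma AsX_pow {F : Type} [CommRing F] {V : Type} [AddCommGroup V] [Module F V] (i : ℕ)
    (v : V) : ((-1 : ℤ) ^ i) • v = ((-1 : F) ^ i) • v := by
  rw [← Int.cast_smul_eq_zsmul F]
  push_cast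
  rfl

private lemma AsX_cc_bd {F : Type} [CommRing F] (x : Ch ℤ K) :
    cc F (bd ℤ K x) = bd F K (cc F x) := by
  have h : AsX_cc F K ∘ₗ bd ℤ K =
      (bd F K).toAddMonoidHom.toIntLinearMap ∘ₗ AsX_cc F K := ch_ext fun n x => by
    rw [LinearMap.comp_apply, LinearMap.comp_apply, AsX_cc_sx]
    change AsX_cc F K (bd ℤ K (sx ℤ x)) = bd F K (sx F x)
    cases n with
    | zero => rw [bd_sx_zero, bd_sx_zero, map_zero]
    | succ n =>
      rw [bd_sx, bd_sx, map_sum]
      refine Finset.sum_congr rfl fun i _ => ?_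
      rw [map_smul, AsX_cc_sx, AsX_pow (F := F)]
  exact LinearMap.congr_fun h x

private lemma AsX_cc_sub {F : Type} [CommRing F] (x y : Ch ℤ K) :
    cc F (x - y) = cc F x - cc F y := map_sub (AsX_cc F K) x y

private lemma AsX_cc_zero {F : Type} [CommRing F] : cc F (0 : Ch ℤ K) = 0 :=
  map_zero (AsX_cc F K)

private lemma AsX_cc_gr {F : Type} [CommRing F] {n : ℕ} {x : Ch ℤ K} (hx : x ∈ gr ℤ K n) :
    cc F x ∈ gr F K n := by
  unfold gr at hx ⊢
  rw [Finsupp.mem_supported] at hx ⊢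
  refine Set.Subset.trans ?_ hx
  exact_mod_cast Finsupp.support_mapRange

end

/-! ## Direct limits -/

section

variable {R : Type} [CommRing R]

private lemma AsX_dl {M N : Type} [AddCommGroup M] [Module R M] [AddCommGroup N] [Module R N]
    (e : Module.End R M) (e' : Module.End R N) (ψ : M ≃ₗ[R] N) (h : ∀ x, ψ (e x) = e' (ψ x)) :
    Nonempty (HBx.DL e ≃ₗ[R] HBx.DL e') := by
  have h' : ∀ y, ψ.symm (e' y) = e (ψ.symm y) := by
    intro y
    rw [LinearEquiv.symm_apply_eq, h, LinearEquiv.apply_symm_apply]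
  refine ⟨LinearEquiv.ofLinear (HBx.dlMap e e' (ψ : M →ₗ[R] N) h)
    (HBx.dlMap e' e (ψ.symm : N →ₗ[R] M) h') ?_ ?_⟩
  · apply LinearMap.ext
    intro t
    obtain ⟨n, x, rfl⟩ := HBx.dl_ind _ t
    rw [LinearMap.comp_apply, HBx.dlMap_dlj, HBx.dlMap_dlj, LinearMap.id_apply]
    exact congrArg (HBx.dlj e' n) (ψ.apply_symm_apply x)
  · apply LinearMap.ext
    intro t
    obtain ⟨n, x, rfl⟩ := HBx.dl_ind _ t
    rw [LinearMap.comp_apply, HBx.dlMap_dlj, HBx.dlMap_dlj, LinearMap.id_apply]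
    exact congrArg (HBx.dlj e n) (ψ.symm_apply_apply x)

private lemma AsX_dl_sub {M : Type} [AddCommGroup M] [Module R M] (e : Module.End R M)
    [Subsingleton M] : Subsingleton (HBx.DL e) := by
  refine ⟨fun s t => ?_⟩
  obtain ⟨n, x, rfl⟩ := HBx.dl_ind _ s
  obtain ⟨m, y, rfl⟩ := HBx.dl_ind _ t
  rw [Subsingleton.elim x 0, Subsingleton.elim y 0, map_zero, map_zero]

private lemma AsX_hrk {L : Type} [Field L] (ε : R →+* L) {M N : Type} [AddCommGroup M]
    [Module R M] [AddCommGroup N] [Module R N] (a : M ≃ₗ[R] N) :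
    HBx.hrk ε M = HBx.hrk ε N := by
  letI : Algebra R L := ε.toAlgebra
  exact LinearEquiv.finrank_eq
    (TensorProduct.AlgebraTensorModule.congr (LinearEquiv.refl L L) a)

private lemma AsX_hrk0 {L : Type} [Field L] (ε : R →+* L) (M : Type) [AddCommGroup M]
    [Module R M] [Subsingleton M] : HBx.hrk ε M = 0 := by
  letI : Algebra R L := ε.toAlgebra
  have : Subsingleton (L ⊗[R] M) := by
    refine ⟨fun s t => ?_⟩
    have h : ∀ z : L ⊗[R] M, z = 0 := by
      intro z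
      induction z with
      | zero => rfl
      | add a b ha hb => rw [ha, hb, add_zero]
      | tmul a b => rw [Subsingleton.elim b 0, TensorProduct.tmul_zero]
    rw [h s, h t]
  exact Module.finrank_zero_of_subsingleton

private lemma AsX_hrkT {L : Type} [Field L] (ε : R →+* L) (V : Type) [AddCommGroup V] :
    HBx.hrk ε (R ⊗[ℤ] V) = Module.finrank L (L ⊗[ℤ] V) := by
  letI : Algebra R L := ε.toAlgebra
  exact LinearEquiv.finrank_eq (TensorProduct.AlgebraTensorModule.cancelBaseChange ℤ R L L V)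

end

/-! ## The comparison on homology -/

private lemma AsX_cyc {G : Type} [CommGroup G] {E : Type} [TopologicalSpace E]
    {act : G → C(E, E)} (X : AX G) (Λ : LT X E act) (i : ℕ) (y : X.P i) (hy : y ∈ (nX X).Z i) :
    bd ℤ (Sing E) (Λ.f i y) = 0 := by
  cases i with
  | zero => exact bd_gr0 (Λ.f_gr 0 y)
  | succ i =>
    rw [← Λ.fd]
    have h0 : X.d i y = 0 := hy
    rw [h0, map_zero]

private lemma AsX_mem {G : Type} [CommGroup G] {E : Type} [TopologicalSpace E]
    {act : G → C(E, E)} (X : AX G) (Λ : LT X E act) (F : Type) [CommRing F] (i : ℕ) (y : X.P i) :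
    cc F (Λ.f i y) ∈ grZ F (Sing E) i := by
  rw [grZ_ofNat]
  exact AsX_cc_gr (Λ.f_gr i y)

/-- The class of `cc (f y)`. -/
private noncomputable def AsX_z {G : Type} [CommGroup G] {E : Type} [TopologicalSpace E]
    {act : G → C(E, E)} (X : AX G) (Λ : LT X E act) (F : Type) [CommRing F] (i : ℕ) (y : X.P i)
    (hy : y ∈ (nX X).Z i) : (chG F (Sing E)).Z i :=
  ⟨(⟨cc F (Λ.f i y), AsX_mem X Λ F i y⟩ : grZ F (Sing E) i), by
    change chd F (Sing E) i (i - 1) _ = 0
    apply Subtype.ext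
    rw [chd_apply F (Sing E) i (i - 1) (by ring)]
    change bd F (Sing E) (cc F (Λ.f i y)) = 0
    rw [← AsX_cc_bd, AsX_cyc X Λ i y hy, AsX_cc_zero]⟩

private lemma AsX_psi (hBcX : S_BcX) (hHF : S_HF) (e : ∀ p q : ℕ, Ch ℤ ((De p).prod (De q)))
    (G : Type) [CommGroup G] (E : Type) [TopologicalSpace E] (D : Mlt G E) (X : AX G)
    (Λ : LT X E D.act) (n : ℕ) (Q : Cl E D.v n) (e' : (nX X).E)
    (he' : ∀ i (y : X.P i), y ∈ (nX X).Z i → ∃ w ∈ gr ℤ (Sing E) (i + 1),
      Λ.f i (e'.f i y) - cap Q.x (mu ℤ e (SingMul D.m) (Q.c ⊗ₜ Λ.f i y)) = bd ℤ (Sing E) w)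
    (F : Type) [CommRing F] [Module.Free ℤ F] [Module.Finite ℤ F]
    (EE : HBx.GHom (chG F (Sing E)) (chG F (Sing E)))
    (hEE : IsXi F e (SingMul D.m) Q.x Q.c EE) (i : ℕ) :
    ∃ ψ : (F ⊗[ℤ] (nX X).H i) ≃ₗ[F] (chG F (Sing E)).H i,
      ∀ z, ψ (LinearMap.baseChange F (e'.Hm i) z) = GHm EE i (ψ z) := by
  obtain ⟨ψ, hψ⟩ := hHF G E D.act X Λ F i
  refine ⟨ψ, fun z => ?_⟩
  induction z with
  | zero => simp only [map_zero]
  | add a b ha hb => rw [map_add, map_add, ha, hb, map_add, map_add]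
  | tmul a h =>
    obtain ⟨y, rfl⟩ := Submodule.Quotient.mk_surjective _ h
    have e1 : a ⊗ₜ[ℤ] (Submodule.Quotient.mk y : (nX X).H i) =
        a • ((1 : F) ⊗ₜ[ℤ] (Submodule.Quotient.mk y : (nX X).H i)) := by
      rw [TensorProduct.smul_tmul', smul_eq_mul, mul_one]
    rw [e1, map_smul, map_smul, map_smul, map_smul]
    congr 1
    rw [LinearMap.baseChange_tmul, NC.E.Hm_mk]
    have hy' : e'.f i y.1 ∈ (nX X).Z i := e'.Z i y.1 y.2
    have h1 := hψ y (AsX_z X Λ F i y.1 y.2) rfl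
    have h2 := hψ ⟨e'.f i y.1, hy'⟩ (AsX_z X Λ F i (e'.f i y.1) hy') rfl
    refine h2.trans ?_
    rw [h1]
    obtain ⟨w, hw, hwe⟩ := he' i y.1 y.2
    have hz0 : bd F (Sing E) (cc F (Λ.f i y.1)) = 0 := by
      rw [← AsX_cc_bd, AsX_cyc X Λ i y.1 y.2, AsX_cc_zero]
    obtain ⟨w', hw', hwe'⟩ := hEE i ⟨cc F (Λ.f i y.1), AsX_mem X Λ F i y.1⟩ hz0
    have h3 := hBcX F e (Sing E) (SingMul D.m) Q.x Q.c (Λ.f i y.1)
    have h4 : cc F (Λ.f i (e'.f i y.1)) - cc F (cap Q.x (mu ℤ e (SingMul D.m)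
        (Q.c ⊗ₜ Λ.f i y.1))) = bd F (Sing E) (cc F w) := by
      rw [← AsX_cc_sub, hwe, AsX_cc_bd]
    have hwm : cc F w - w' ∈ grZ F (Sing E) (i + 1) := by
      refine Submodule.sub_mem _ ?_ hw'
      have := AsX_cc_gr (F := F) hw
      rw [← grZ_ofNat] at this
      exact_mod_cast this
    have h5 : cc F (Λ.f i (e'.f i y.1)) - (grZ F (Sing E) i).subtype
        (EE.f i ⟨cc F (Λ.f i y.1), AsX_mem X Λ F i y.1⟩) = bd F (Sing E) (cc F w - w') := by
      rw [map_sub, ← h4, ← hwe', h3]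
      abel
    have hG : GHm EE i (Submodule.Quotient.mk (AsX_z X Λ F i y.1 y.2)) =
        Submodule.Quotient.mk (⟨EE.f i (AsX_z X Λ F i y.1 y.2).1, by
          change (chG F (Sing E)).d i (i - 1) _ = 0
          rw [← EE.comm, show (chG F (Sing E)).d i (i - 1) (AsX_z X Λ F i y.1 y.2).1 = 0 from
            (AsX_z X Λ F i y.1 y.2).2, map_zero]⟩ : (chG F (Sing E)).Z i) := rfl
    rw [hG]
    refine (Submodule.Quotient.eq _).2 ?_
    refine ⟨(⟨cc F w - w', hwm⟩ : grZ F (Sing E) (i + 1)), ?_⟩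
    apply Subtype.ext
    refine (chd_apply F (Sing E) (i + 1) i rfl _).trans ?_
    exact h5.symm

theorem tAsX : S_BcX → S_HF → S_HTe → S_DlT → S_DlS → HPx.S_AxF → S_AsX := by
  intro hBcX hHF hHTe hDlT hDlS hAxF e G _ _ E _ D X Λ N hK n Q e' he' k hk L _ hL F _ _ _ ε EE hEE
  -- the homology of the telescope in the degrees `≥ 0`
  have hA : ∀ i : ℕ, Nonempty ((HBx.Tel (chG F (Sing E)) EE).H i ≃ₗ[F]
      F ⊗[ℤ] HBx.DL (e'.Hm i)) := by
    intro i
    obtain ⟨ψ, hψ⟩ := AsX_psi hBcX hHF e G E D X Λ n Q e' he' F EE hEE i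
    obtain ⟨a⟩ := hHTe F (chG F (Sing E)) EE i
    obtain ⟨b⟩ := AsX_dl (LinearMap.baseChange F (e'.Hm i)) (GHm EE i) ψ hψ
    obtain ⟨c⟩ := hDlT ℤ F ((nX X).H i) (e'.Hm i)
    exact ⟨a.trans (b.symm.trans c.symm)⟩
  -- negative degrees
  have hneg : ∀ i : ℤ, i < 0 → Subsingleton ((HBx.Tel (chG F (Sing E)) EE).H i) := by
    intro i hi
    obtain ⟨a⟩ := hHTe F (chG F (Sing E)) EE i
    have h1 : Subsingleton ((chG F (Sing E)).P i) := by
      change Subsingleton (grZ F (Sing E) i)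
      rw [grZ_neg F (Sing E) i hi]
      infer_instance
    have h2 : Subsingleton ((chG F (Sing E)).H i) := by
      refine ⟨fun s t => ?_⟩
      obtain ⟨s, rfl⟩ := Submodule.Quotient.mk_surjective _ s
      obtain ⟨t, rfl⟩ := Submodule.Quotient.mk_surjective _ t
      exact congrArg _ (Subtype.ext (Subsingleton.elim _ _))
    have h3 : Subsingleton (HBx.DL (GHm EE i)) := AsX_dl_sub (GHm EE i)
    exact a.toEquiv.subsingleton
  -- large degrees
  have hbig : ∀ i : ℕ, N ≤ i → Subsingleton ((HBx.Tel (chG F (Sing E)) EE).H i) := by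
    intro i hi
    obtain ⟨a⟩ := hA i
    have h1 : Subsingleton (X.P i) := hK i hi
    have h2 : Subsingleton ((nX X).H i) := by
      refine ⟨fun s t => ?_⟩
      obtain ⟨s, rfl⟩ := Submodule.Quotient.mk_surjective _ s
      obtain ⟨t, rfl⟩ := Submodule.Quotient.mk_surjective _ t
      have h0 : s.1 = t.1 := @Subsingleton.elim (X.P i) h1 s.1 t.1
      exact congrArg _ (Subtype.ext h0)
    have h3 : Subsingleton (HBx.DL (e'.Hm i)) := AsX_dl_sub (e'.Hm i)
    have h4 : Subsingleton (F ⊗[ℤ] HBx.DL (e'.Hm i)) := by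
      have h : ∀ z : F ⊗[ℤ] HBx.DL (e'.Hm i), z = 0 := by
        intro z
        induction z with
        | zero => rfl
        | add a b ha hb => rw [ha, hb, add_zero]
        | tmul a b => rw [Subsingleton.elim b 0, TensorProduct.tmul_zero]
      exact ⟨fun s t => by rw [h s, h t]⟩
    exact a.toEquiv.subsingleton
  -- finiteness
  have hfin : ∀ i : ℕ, Module.Finite F ((HBx.Tel (chG F (Sing E)) EE).H i) := by
    intro i
    obtain ⟨a⟩ := hA i
    have h1 : Module.Finite ℤ (X.P i) := (hAxF G (X.P i)).1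
    have h1' : Module.Finite ℤ ((nX X).P i) := h1
    have h2 : Module.Finite ℤ (HBx.DL (e'.Hm i)) :=
      Module.Finite.of_surjective (HBx.dlj (e'.Hm i) 0) (hDlS ℤ ((nX X).H i) (e'.Hm i) k (hk i))
    have h3 : Module.Finite F (F ⊗[ℤ] HBx.DL (e'.Hm i)) := Module.Finite.base_change ℤ F _
    exact Module.Finite.equiv a.symm
  refine ⟨?_, N, ?_, ?_⟩
  · intro i
    rcases lt_or_ge i 0 with h | h
    · have := hneg i h
      infer_instance
    · obtain ⟨m, rfl⟩ := Int.eq_ofNat_of_zero_le h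
      exact hfin m
  · intro i hi
    rcases lt_or_ge i 0 with h | h
    · exact hneg i h
    · obtain ⟨m, rfl⟩ := Int.eq_ofNat_of_zero_le h
      refine hbig m ?_
      rw [abs_of_nonneg h] at hi
      exact_mod_cast hi.le
  · have hsub : (Finset.range N).map ⟨fun m : ℕ => (m : ℤ), Nat.cast_injective⟩ ⊆
        Finset.Icc (-(N : ℤ)) N := by
      intro i hi
      obtain ⟨m, hm, rfl⟩ := Finset.mem_map.1 hi
      rw [Finset.mem_range] at hm
      rw [Finset.mem_Icc]
      change -(N : ℤ) ≤ (m : ℤ) ∧ (m : ℤ) ≤ N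
      omega
    rw [← Finset.sum_subset hsub, Finset.sum_map]
    · rw [← hL]
      refine Finset.sum_congr rfl fun m _ => ?_
      obtain ⟨a⟩ := hA m
      have h1 : HBx.hrk ε ((HBx.Tel (chG F (Sing E)) EE).H (m : ℤ)) =
          Module.finrank L (L ⊗[ℤ] HBx.DL (e'.Hm m)) := by
        rw [AsX_hrk ε a, AsX_hrkT]
      change (((m : ℤ).negOnePow : ℤˣ) : ℤ) *
        (HBx.hrk ε ((HBx.Tel (chG F (Sing E)) EE).H (m : ℤ)) : ℤ) = _
      rw [h1, Int.negOnePow_def, zpow_natCast]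
      push_cast
      rfl
    · intro i _ hi
      have h0 : Subsingleton ((HBx.Tel (chG F (Sing E)) EE).H i) := by
        rcases lt_or_ge i 0 with h | h
        · exact hneg i h
        · obtain ⟨m, rfl⟩ := Int.eq_ofNat_of_zero_le h
          refine hbig m ?_
          by_contra hlt
          exact hi (Finset.mem_map.2 ⟨m, Finset.mem_range.2 (by omega), rfl⟩)
      rw [AsX_hrk0]
      push_cast
      ring

end HXx
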