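import Pool.Agent.Lib.MP_181146_gt.HX.SpecX

/-!
# Project HX, module ChZ: the Euler characteristic is zero (output 2)
-/

set_option autoImplicit false

namespace HXx

open scoped TensorProduct
open HEp HPx HTx Polynomial

private theorem ChZ_h (hCpD : S_CpD) (hDlT : S_DlT) (L : Type) [Field L] [CharZero L]
    (A : Type) [AddCommGroup A] [Module.Finite ℤ A] (e : Module.End ℤ A) (k : ℕ)
    (hk : (e * (1 - e)) ^ k = 0) :
    ∃ a : ℕ, cpL L A e = Polynomial.X ^ a * (Polynomial.X - 1) ^
      (Module.finrank L (L ⊗[ℤ] HBx.DL e)) := by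
  have h0 : (LinearMap.baseChange L e * (1 - LinearMap.baseChange L e)) ^ k = 0 := by
    rw [← LinearMap.baseChange_one (R := ℤ) (A := L) (M := A), ← LinearMap.baseChange_sub,
      ← LinearMap.baseChange_mul, ← LinearMap.baseChange_pow, hk, LinearMap.baseChange_zero]
  obtain ⟨a, ha⟩ := hCpD L (L ⊗[ℤ] A) (LinearMap.baseChange L e) k h0
  obtain ⟨ψ⟩ := hDlT ℤ L A e
  refine ⟨a, ?_⟩
  rw [LinearEquiv.finrank_eq ψ]
  exact ha

private theorem ChZ_mu {K : Type} [Field K] (s : Finset ℕ) (f : ℕ → K[X])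
    (hf : ∀ i, (f i).Monic) :
    (∏ i ∈ s, f i).rootMultiplicity 1 = ∑ i ∈ s, (f i).rootMultiplicity 1 := by
  classical
  induction s using Finset.induction_on with
  | empty =>
    rw [Finset.prod_empty, Finset.sum_empty]
    exact Polynomial.rootMultiplicity_eq_zero (by simp [Polynomial.IsRoot])
  | insert a s ha ih =>
    rw [Finset.prod_insert ha, Finset.sum_insert ha, ← ih, Polynomial.rootMultiplicity_mul]
    exact mul_ne_zero (hf a).ne_zero (Polynomial.monic_prod_of_monic _ _ (fun i _ => hf i)).ne_zero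

private theorem ChZ_pow {K : Type} [Field K] (f : K[X]) (hf : f.Monic) (n : ℕ) :
    (f ^ n).rootMultiplicity 1 = n * f.rootMultiplicity 1 := by
  have h := ChZ_mu (Finset.range n) (fun _ => f) (fun _ => hf)
  rw [Finset.prod_const, Finset.sum_const, Finset.card_range, smul_eq_mul] at h
  exact h

private theorem ChZ_X {K : Type} [Field K] (a b : ℕ) :
    (Polynomial.X ^ a * (Polynomial.X - 1) ^ b : K[X]).rootMultiplicity 1 = b := by
  have h1 : (Polynomial.X - 1 : K[X]) = Polynomial.X - Polynomial.C 1 := by rw [map_one]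
  have hX : (Polynomial.X : K[X]).Monic := Polynomial.monic_X
  have hX1 : (Polynomial.X - Polynomial.C 1 : K[X]).Monic := Polynomial.monic_X_sub_C 1
  rw [h1, Polynomial.rootMultiplicity_mul (mul_ne_zero (hX.pow a).ne_zero (hX1.pow b).ne_zero),
    Polynomial.rootMultiplicity_X_sub_C_pow, Polynomial.rootMultiplicity_eq_zero, zero_add]
  rw [Polynomial.IsRoot.def, Polynomial.eval_pow, Polynomial.eval_X, one_pow]
  exact one_ne_zero

private theorem ChZ_key (L : Type) [Field L] [CharZero L] (p : ℕ) [Fact p.Prime] (N : ℕ)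
    (R : ℕ → ℤ[X]) (hR : ∀ i, (R i).Monic) (a b : ℕ → ℕ)
    (h : ∏ i ∈ Finset.range N, (if Even i then (R i).map (Int.castRingHom L) else
        (Polynomial.X ^ a i * (Polynomial.X - 1) ^ b i : L[X])) =
      ∏ i ∈ Finset.range N, (if Even i then (Polynomial.X ^ a i * (Polynomial.X - 1) ^ b i : L[X])
        else (R i).map (Int.castRingHom L))) :
    ∑ i ∈ Finset.range N, (-1 : ℤ) ^ i *
      (((R i).map (Int.castRingHom (ZMod p))).rootMultiplicity 1 : ℤ) =
      ∑ i ∈ Finset.range N, (-1 : ℤ) ^ i * (b i : ℤ) := by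
  let H : ℕ → ℤ[X] := fun i => Polynomial.X ^ a i * (Polynomial.X - 1) ^ b i
  have hH : ∀ i, (H i).Monic := by
    intro i
    have h1 : (Polynomial.X - 1 : ℤ[X]) = Polynomial.X - Polynomial.C 1 := by rw [map_one]
    change (Polynomial.X ^ a i * (Polynomial.X - 1) ^ b i : ℤ[X]).Monic
    rw [h1]
    exact (Polynomial.monic_X.pow _).mul ((Polynomial.monic_X_sub_C 1).pow _)
  have hHm : ∀ (K : Type) [Field K] (i : ℕ), (H i).map (Int.castRingHom K) =
      Polynomial.X ^ a i * (Polynomial.X - 1) ^ b i := by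
    intro K _ i
    change (Polynomial.X ^ a i * (Polynomial.X - 1) ^ b i : ℤ[X]).map (Int.castRingHom K) = _
    rw [Polynomial.map_mul, Polynomial.map_pow, Polynomial.map_pow, Polynomial.map_sub,
      Polynomial.map_X, Polynomial.map_one]
  have h1 : ∏ i ∈ Finset.range N, (if Even i then R i else H i) =
      ∏ i ∈ Finset.range N, (if Even i then H i else R i) := by
    apply Polynomial.map_injective (Int.castRingHom L) (RingHom.injective_int _)
    rw [Polynomial.map_prod, Polynomial.map_prod]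
    refine (Finset.prod_congr rfl fun i _ => ?_).trans (h.trans
      (Finset.prod_congr rfl fun i _ => ?_))
    · split_ifs
      · rfl
      · exact hHm L i
    · split_ifs
      · exact (hHm L i).symm
      · rfl
  have h2 := congrArg (Polynomial.map (Int.castRingHom (ZMod p))) h1
  rw [Polynomial.map_prod, Polynomial.map_prod] at h2
  have h3 := congrArg (Polynomial.rootMultiplicity 1) h2
  rw [ChZ_mu _ _ (fun i => by
    split_ifs
    · exact (hR i).map _
    · exact (hH i).map _), ChZ_mu _ _ (fun i => by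
    split_ifs
    · exact (hH i).map _
    · exact (hR i).map _)] at h3
  have h4 : ∀ i, ((H i).map (Int.castRingHom (ZMod p))).rootMultiplicity 1 = b i := by
    intro i
    rw [hHm (ZMod p) i]
    exact ChZ_X _ _
  have h5 : (∑ i ∈ Finset.range N, (((if Even i then R i else H i).map
      (Int.castRingHom (ZMod p))).rootMultiplicity 1 : ℤ)) -
      ∑ i ∈ Finset.range N, (((if Even i then H i else R i).map
      (Int.castRingHom (ZMod p))).rootMultiplicity 1 : ℤ) = 0 := by
    rw [sub_eq_zero]
    exact_mod_cast h3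
  rw [← sub_eq_zero, ← Finset.sum_sub_distrib, ← h5, ← Finset.sum_sub_distrib]
  refine Finset.sum_congr rfl fun i _ => ?_
  by_cases hi : Even i
  · rw [if_pos hi, if_pos hi, h4, hi.neg_one_pow]
    ring
  · rw [if_neg hi, if_neg hi, h4, (Nat.not_even_iff_odd.1 hi).neg_one_pow]
    ring

private theorem ChZ_alg (L : Type) [Field L] [CharZero L] (p : ℕ) (hp : p.Prime) (N : ℕ)
    (P Q : ℕ → ℤ[X]) (hP : ∀ i, (P i).Monic) (hQ : ∀ i, (Q i).Monic)
    (hPQ : ∀ i, (P i).map (Int.castRingHom (ZMod p)) = (Q i).map (Int.castRingHom (ZMod p)) ^ p)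
    (a b : ℕ → ℕ)
    (h1 : ∏ i ∈ Finset.range N, (if Even i then (P i).map (Int.castRingHom L) else
        (Polynomial.X ^ a i * (Polynomial.X - 1) ^ b i : L[X])) =
      ∏ i ∈ Finset.range N, (if Even i then (Polynomial.X ^ a i * (Polynomial.X - 1) ^ b i : L[X])
        else (P i).map (Int.castRingHom L)))
    (h2 : ∏ i ∈ Finset.range N, (if Even i then (Q i).map (Int.castRingHom L) else
        (Polynomial.X ^ a i * (Polynomial.X - 1) ^ b i : L[X])) =
      ∏ i ∈ Finset.range N, (if Even i then (Polynomial.X ^ a i * (Polynomial.X - 1) ^ b i : L[X])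
        else (Q i).map (Int.castRingHom L))) :
    ∑ i ∈ Finset.range N, (-1 : ℤ) ^ i * (b i : ℤ) = 0 := by
  have : Fact p.Prime := ⟨hp⟩
  have k1 := ChZ_key L p N P hP a b h1
  have k2 := ChZ_key L p N Q hQ a b h2
  have k3 : ∑ i ∈ Finset.range N, (-1 : ℤ) ^ i *
      (((P i).map (Int.castRingHom (ZMod p))).rootMultiplicity 1 : ℤ) =
      (p : ℤ) * ∑ i ∈ Finset.range N, (-1 : ℤ) ^ i *
      (((Q i).map (Int.castRingHom (ZMod p))).rootMultiplicity 1 : ℤ) := by
    rw [Finset.mul_sum]
    refine Finset.sum_congr rfl fun i _ => ?_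
    rw [hPQ, ChZ_pow _ ((hQ i).map _)]
    push_cast
    ring
  rw [k1, k2] at k3
  have hp2 : (2 : ℤ) ≤ p := by exact_mod_cast hp.two_le
  have k4 : ((p : ℤ) - 1) * ∑ i ∈ Finset.range N, (-1 : ℤ) ^ i * (b i : ℤ) = 0 := by
    linear_combination -k3
  rcases mul_eq_zero.1 k4 with h | h
  · omega
  · exact h

/-- OUTPUT 2: the Euler characteristic is zero. -/
theorem tChZ : S_Hpf → S_CpD → S_DlT → S_Swn → S_Cov → HPx.S_AxF → S_ChZ := by
  intro hHpf hCpD hDlT hSwn hCov hAx G _ _ X hN N hK g hg e he k hk L _ _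
  have hFin : ∀ i, Module.Finite ℤ (X.P i) := fun i => (hAx G (X.P i)).1
  have fin1 : ∀ i, Module.Finite ℤ ((nX X).P i) := hFin
  have fin2 : ∀ i, Module.Finite ℤ ((nXN X g (orderOf g)).P i) := by
    intro i
    have h1 : IsNoetherian ℤ (X.P i) := isNoetherian_of_isNoetherianRing_of_finite ℤ _
    have h2 : Module.Finite ℤ (nN X g (orderOf g) i) := Module.IsNoetherian.finite ℤ _
    exact h2
  have hpow : ∀ (i j : ℕ) (x : X.P i), (show X.P i from
      e.f i (MonoidAlgebra.of ℤ G (g ^ j) • x)) =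
      MonoidAlgebra.of ℤ G (g ^ j) • (show X.P i from e.f i x) := by
    intro i j
    induction j with
    | zero =>
      intro x
      rw [pow_zero, map_one, one_smul, one_smul]
    | succ j ih =>
      intro x
      rw [pow_succ', map_mul, mul_smul, he, ih, ← mul_smul]
  have heN : ∀ (i : ℕ) (x : X.P i), (show X.P i from e.f i (tw g (orderOf g) 0 • x)) =
      tw g (orderOf g) 0 • (show X.P i from e.f i x) := by
    intro i x
    have h1 : tw g (orderOf g) 0 = ∑ j ∈ Finset.range (orderOf g), MonoidAlgebra.of ℤ G (g ^ j) := by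
      unfold tw
      rw [if_pos (by decide)]
    rw [h1, Finset.sum_smul, Finset.sum_smul]
    exact (map_sum (e.f i) _ _).trans (Finset.sum_congr rfl fun j _ => hpow i j x)
  have heW : ∀ i, ∀ x ∈ nN X g (orderOf g) i, (show X.P i from e.f i x) ∈ nN X g (orderOf g) i := by
    rintro i _ ⟨y, rfl⟩
    exact ⟨e.f i y, (heN i y).symm⟩
  let e' : (nXN X g (orderOf g)).E :=
    { f := fun i => LinearMap.restrict (e.f i : X.P i →ₗ[ℤ] X.P i) (heW i)
      comm := fun i x => Subtype.ext (e.comm i x.1) }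
  choose P Q hP hQ hL hPQ using fun i => hSwn G (X.P i) (orderOf g) hg g rfl (e.f i) (he i)
    (nN X g (orderOf g) i) rfl (heW i)
  choose a ha using fun i => ChZ_h hCpD hDlT L ((nX X).H i) (e.Hm i) k (hk i)
  have c1 := hHpf L (nX X) e N hK
  have c2 := hHpf L (nXN X g (orderOf g)) e' N (fun i hi => by
    have h1 : Subsingleton (X.P i) := hK i hi
    have h2 : Subsingleton (nN X g (orderOf g) i) := inferInstance
    exact h2)
  have c3 := fun i => hCov L G X hN (orderOf g) hg.pos g (pow_orderOf_eq_one g) e e'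
    (fun i x => rfl) i
  refine ChZ_alg L (orderOf g) hg N P Q hP hQ hPQ a _ ?_ ?_
  · refine (Finset.prod_congr rfl fun i _ => ?_).trans (c1.trans
      (Finset.prod_congr rfl fun i _ => ?_))
    · split_ifs
      · exact (hL i L).1.symm
      · exact (ha i).symm
    · split_ifs
      · exact ha i
      · exact (hL i L).1
  · refine (Finset.prod_congr rfl fun i _ => ?_).trans (c2.trans
      (Finset.prod_congr rfl fun i _ => ?_))
    · split_ifs
      · exact (hL i L).2.symm
      · exact (ha i).symm.trans (c3 i).symm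
    · split_ifs
      · exact (c3 i).trans (ha i)
      · exact (hL i L).2

end HXx
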