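import Pool.Agent.Lib.MP_181146_gt.HX.SpecX

/-!
# HX/HF: homology with coefficients in `F`
-/

set_option autoImplicit false

namespace HXx

open scoped TensorProduct
open HEp HPx HTx

section

variable {F : Type} [CommRing F] {K : SS}

/-- Change of coefficients as an additive map. -/
private noncomputable def HF_cc (F : Type) [CommRing F] (K : SS) : Ch ℤ K →+ Ch F K :=
  Finsupp.mapRange.addMonoidHom (Int.castAddHom F)

private lemma HF_cc_apply (x : Ch ℤ K) : HF_cc F K x = cc F x := rfl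

private lemma HF_cc_sx {n : ℕ} (x : K.K n) : HF_cc F K (sx ℤ x) = sx F x := by
  rw [HF_cc_apply, cc, sx, Finsupp.mapRange_single, map_one]
  rfl

private lemma HF_pow {V : Type} [AddCommGroup V] [Module F V] (i : ℕ) (v : V) :
    ((-1 : ℤ) ^ i) • v = ((-1 : F) ^ i) • v := by
  rw [← Int.cast_smul_eq_zsmul F]
  push_cast
  rfl

private lemma HF_cc_bd (x : Ch ℤ K) : HF_cc F K (bd ℤ K x) = bd F K (HF_cc F K x) := by
  have h : (HF_cc F K).toIntLinearMap ∘ₗ bd ℤ K =
      (bd F K).toAddMonoidHom.toIntLinearMap ∘ₗ (HF_cc F K).toIntLinearMap :=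
    ch_ext fun n x => by
      rw [LinearMap.comp_apply, LinearMap.comp_apply]
      change HF_cc F K (bd ℤ K (sx ℤ x)) = bd F K (HF_cc F K (sx ℤ x))
      rw [HF_cc_sx]
      cases n with
      | zero => rw [bd_sx_zero, bd_sx_zero, map_zero]
      | succ n =>
        rw [bd_sx, bd_sx, map_sum]
        refine Finset.sum_congr rfl fun i _ => ?_
        rw [map_zsmul, HF_cc_sx, HF_pow (F := F)]
  exact LinearMap.congr_fun h x

private lemma HF_cc_gr {m : ℕ} {x : Ch ℤ K} (hx : x ∈ gr ℤ K m) : HF_cc F K x ∈ gr F K m := by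
  have hx' := (Finsupp.mem_supported ℤ x).1 hx
  refine (Finsupp.mem_supported F _).2 ?_
  exact (Finset.coe_subset.2 (Finsupp.support_mapRange (hf := map_zero _))).trans hx'

variable {ι : Type} (b : Module.Basis ι ℤ F)

/-- The coordinates of a chain. -/
private noncomputable def HF_co (j : ι) : Ch F K →+ Ch ℤ K :=
  Finsupp.mapRange.addMonoidHom (b.coord j).toAddMonoidHom

private lemma HF_co_apply (j : ι) (z : Ch F K) (s : Σ n, K.K n) :
    HF_co b j z s = b.repr (z s) j := rfl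

private lemma HF_co_gr (j : ι) {m : ℕ} {x : Ch F K} (hx : x ∈ gr F K m) :
    HF_co b j x ∈ gr ℤ K m := by
  have hx' := (Finsupp.mem_supported F x).1 hx
  refine (Finsupp.mem_supported ℤ _).2 ?_
  exact (Finset.coe_subset.2 (Finsupp.support_mapRange (hf := map_zero _))).trans hx'

variable [Fintype ι]

private lemma HF_sum (z : Ch F K) : ∑ j, b j • HF_cc F K (HF_co b j z) = z := by
  apply Finsupp.ext
  intro s
  rw [Finsupp.finsetSum_apply]
  have h := b.sum_repr (z s)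
  refine Eq.trans ?_ h
  refine Finset.sum_congr rfl fun j _ => ?_
  rw [Finsupp.smul_apply, smul_eq_mul, zsmul_eq_mul, mul_comm]
  rfl

private lemma HF_co_sum (y : ι → Ch ℤ K) (j : ι) :
    HF_co b j (∑ l, b l • HF_cc F K (y l)) = y j := by
  apply Finsupp.ext
  intro s
  have h1 : (∑ l, b l • HF_cc F K (y l)) s = ∑ l, (y l s) • b l := by
    rw [Finsupp.finsetSum_apply]
    refine Finset.sum_congr rfl fun l _ => ?_
    rw [Finsupp.smul_apply, smul_eq_mul, zsmul_eq_mul, mul_comm]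
    rfl
  rw [HF_co_apply, h1, b.repr_sum_self]

private lemma HF_co_bd (z : Ch F K) (j : ι) :
    HF_co b j (bd F K z) = bd ℤ K (HF_co b j z) := by
  have h : bd F K z = ∑ l, b l • HF_cc F K (bd ℤ K (HF_co b l z)) := by
    conv_lhs => rw [← HF_sum b z]
    rw [map_sum]
    refine Finset.sum_congr rfl fun l _ => ?_
    rw [map_smul, HF_cc_bd]
  rw [h, HF_co_sum]

end

section

variable (F : Type) [CommRing F] (K : SS)

private lemma HF_grZ (i : ℕ) : grZ F K ((i : ℤ) + 1) = gr F K (i + 1) := by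
  rw [← grZ_ofNat]
  push_cast
  rfl

private lemma HF_Z (i : ℕ) (z : grZ F K i) : z ∈ (chG F K).Z i ↔ bd F K z = 0 := by
  rw [← chd_apply F K i (i - 1) (by omega) z]
  exact ⟨fun h => congrArg Subtype.val (show chd F K i (i - 1) z = 0 from h),
    fun h => Subtype.ext h⟩

/-- The chain of a cycle. -/
private noncomputable def HF_v (i : ℕ) : (chG F K).Z i →ₗ[F] Ch F K :=
  (grZ F K i).subtype ∘ₗ ((chG F K).Z i).subtype

private lemma HF_B (i : ℕ) (z : (chG F K).Z i) :
    (Submodule.Quotient.mk z : (chG F K).H i) = 0 ↔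
      ∃ w ∈ gr F K (i + 1), HF_v F K i z = bd F K w := by
  rw [Submodule.Quotient.mk_eq_zero]
  constructor
  · rintro ⟨w, hw⟩
    refine ⟨(grZ F K ((i : ℤ) + 1)).subtype w, ?_, ?_⟩
    · rw [← HF_grZ]
      exact w.2
    · have := congrArg (grZ F K i).subtype (show chd F K (i + 1) i w = z.1 from hw)
      exact this.symm.trans (chd_apply F K (i + 1) i rfl w)
  · rintro ⟨w, hw, h⟩
    rw [← HF_grZ] at hw
    refine ⟨(⟨w, hw⟩ : grZ F K ((i : ℤ) + 1)), ?_⟩
    apply Subtype.ext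
    exact (chd_apply F K (i + 1) i rfl ⟨w, hw⟩).trans h.symm

end

section

variable {G : Type} [CommGroup G] {E : Type} [TopologicalSpace E] {act : G → C(E, E)} {X : AX G}
  (Λ : LT X E act)

private lemma HF_fZ (i : ℕ) (y : (nX X).P i) (hy : y ∈ (nX X).Z i) : bd ℤ (Sing E) (Λ.f i y) = 0 := by
  cases i with
  | zero => exact bd_gr0 (Λ.f_gr 0 y)
  | succ i =>
    rw [← Λ.fd, show X.d i y = 0 from hy, map_zero]

private lemma HF_f'Z (i : ℕ) (y : Ch ℤ (Sing E)) (hy : bd ℤ (Sing E) y = 0) :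
    (show (nX X).P i from Λ.f' i y) ∈ (nX X).Z i := by
  cases i with
  | zero => exact Submodule.mem_top
  | succ i =>
    change X.d i (Λ.f' (i + 1) y) = 0
    rw [← Λ.f'd, hy, map_zero]

/-- A cycle of `X` is a boundary if its image is. -/
private lemma HF_inj (i : ℕ) (y : (nX X).P i) (hy : y ∈ (nX X).Z i) (w : Ch ℤ (Sing E))
    (h : Λ.f i y = bd ℤ (Sing E) w) : ∃ v, X.d i v = y := by
  change X.P i at y
  have h1 : Λ.f' i (Λ.f i y) - y = X.d i (Λ.h i y) := by
    cases i with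
    | zero => exact Λ.h0 y
    | succ i => rw [Λ.hs, show X.d i y = 0 from hy, map_zero, add_zero]
  rw [h, Λ.f'd] at h1
  exact ⟨Λ.f' (i + 1) w - Λ.h i y, by rw [map_sub, ← h1]; abel⟩

variable (F : Type) [CommRing F]

/-- The map on cycles, as chains. -/
private noncomputable def HF_g (i : ℕ) : (nX X).Z i →+ Ch F (Sing E) :=
  (HF_cc F (Sing E)).comp (AddMonoidHom.comp (Λ.f i) ((nX X).Z i).subtype.toAddMonoidHom)

/-- The map on cycles. -/
private noncomputable def HF_z (i : ℕ) : (nX X).Z i →+ (chG F (Sing E)).Z i where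
  toFun y := ⟨⟨HF_cc F (Sing E) (Λ.f i y.1), by
    rw [grZ_ofNat]
    exact HF_cc_gr (Λ.f_gr i y.1)⟩, (HF_Z F (Sing E) i _).2 (by
    change bd F (Sing E) (HF_cc F (Sing E) (Λ.f i y.1)) = 0
    rw [← HF_cc_bd, HF_fZ Λ i y.1 y.2, map_zero])⟩
  map_zero' := by
    apply Subtype.ext
    apply Subtype.ext
    exact map_zero (HF_g Λ F i)
  map_add' x y := by
    apply Subtype.ext
    apply Subtype.ext
    exact map_add (HF_g Λ F i) x y

private lemma HF_z_val (i : ℕ) (y : (nX X).Z i) :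
    HF_v F (Sing E) i (HF_z Λ F i y) = HF_cc F (Sing E) (Λ.f i y.1) := rfl

/-- The map on homology. -/
private noncomputable def HF_l (i : ℕ) : (nX X).H i →ₗ[ℤ] (chG F (Sing E)).H i :=
  Submodule.liftQ _ (((chG F (Sing E)).B i).mkQ.toAddMonoidHom.comp (HF_z Λ F i)).toIntLinearMap (by
    rintro y ⟨x, hx⟩
    change (Submodule.Quotient.mk (HF_z Λ F i y) : (chG F (Sing E)).H i) = 0
    rw [HF_B]
    refine ⟨HF_cc F (Sing E) (Λ.f (i + 1) x), HF_cc_gr (Λ.f_gr (i + 1) x), ?_⟩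
    rw [HF_z_val, ← HF_cc_bd, ← Λ.fd]
    exact congrArg (fun y => HF_cc F (Sing E) (Λ.f i y)) hx.symm)

private lemma HF_l_mk (i : ℕ) (y : (nX X).Z i) :
    HF_l Λ F i (Submodule.Quotient.mk y) = Submodule.Quotient.mk (HF_z Λ F i y) := rfl

/-- The map of the statement. -/
private noncomputable def HF_psi (i : ℕ) :
    (F ⊗[ℤ] (nX X).H i) →ₗ[F] (chG F (Sing E)).H i :=
  LinearMap.liftBaseChange F (HF_l Λ F i)

private lemma HF_psi_tmul (i : ℕ) (a : F) (y : (nX X).H i) :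
    HF_psi Λ F i (a ⊗ₜ y) = a • HF_l Λ F i y := by
  rw [HF_psi, LinearMap.liftBaseChange_tmul]

variable {F}
variable {ι : Type} [Fintype ι] (b : Module.Basis ι ℤ F)

include b in
private lemma HF_psi_inj (i : ℕ) : Function.Injective (HF_psi Λ F i) := by
  rw [injective_iff_map_eq_zero]
  intro x hx
  obtain ⟨c, rfl⟩ := TensorProduct.eq_repr_basis_left b x
  rw [Finsupp.sum_fintype _ _ (fun i => TensorProduct.tmul_zero _ _)] at hx ⊢
  choose y hy using fun j => Submodule.Quotient.mk_surjective _ (c j)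
  have hc : c = 0 := by
    rw [map_sum] at hx
    have h1 : (Submodule.Quotient.mk (∑ j, b j • HF_z Λ F i (y j)) : (chG F (Sing E)).H i) = 0 := by
      rw [← hx, ← Submodule.mkQ_apply, map_sum]
      refine Finset.sum_congr rfl fun j _ => ?_
      rw [HF_psi_tmul, ← hy j, HF_l_mk, map_smul]
      rfl
    rw [HF_B] at h1
    obtain ⟨w, hw, h2⟩ := h1
    have h3 : ∑ j, b j • HF_cc F (Sing E) (Λ.f i (y j).1) = bd F (Sing E) w := by
      rw [← h2, map_sum]
      exact Finset.sum_congr rfl fun j _ =>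
        (map_smul (HF_v F (Sing E) i) (b j) (HF_z Λ F i (y j))).symm
    have h4 : ∀ j, Λ.f i (y j).1 = bd ℤ (Sing E) (HF_co b j w) := by
      intro j
      rw [← HF_co_bd, ← h3, HF_co_sum]
    ext j
    obtain ⟨v, hv⟩ := HF_inj Λ i (y j).1 (y j).2 _ (h4 j)
    rw [← hy j]
    exact (Submodule.Quotient.mk_eq_zero _).2 ⟨v, hv⟩
  rw [hc]
  refine Finset.sum_eq_zero fun j _ => ?_
  exact TensorProduct.tmul_zero _ _

include b in
private lemma HF_psi_surj (i : ℕ) : Function.Surjective (HF_psi Λ F i) := by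
  intro q
  obtain ⟨z, rfl⟩ := Submodule.Quotient.mk_surjective _ q
  have hz : HF_v F (Sing E) i z ∈ gr F (Sing E) i := by
    rw [← grZ_ofNat]
    exact z.1.2
  obtain ⟨u, hu⟩ : ∃ u, u = HF_v F (Sing E) i z := ⟨_, rfl⟩
  have hzb : bd F (Sing E) u = 0 := by
    rw [hu]
    exact (HF_Z F (Sing E) i z.1).1 z.2
  rw [← hu] at hz
  have hb : ∀ j, bd ℤ (Sing E) (HF_co b j u) = 0 := fun j => by
    rw [← HF_co_bd, hzb, map_zero]
  obtain ⟨y, hy⟩ : ∃ y : ι → (nX X).Z i, ∀ j, (y j).1 = Λ.f' i (HF_co b j u) :=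
    ⟨fun j => ⟨Λ.f' i (HF_co b j u), HF_f'Z Λ i _ (hb j)⟩, fun j => rfl⟩
  refine ⟨∑ j, b j ⊗ₜ Submodule.Quotient.mk (y j), ?_⟩
  rw [map_sum]
  have h1 : ∑ j, HF_psi Λ F i (b j ⊗ₜ Submodule.Quotient.mk (y j)) =
      Submodule.Quotient.mk (∑ j, b j • HF_z Λ F i (y j)) := by
    rw [← Submodule.mkQ_apply, map_sum]
    refine Finset.sum_congr rfl fun j _ => ?_
    rw [HF_psi_tmul, HF_l_mk, map_smul]
    rfl
  rw [h1, ← sub_eq_zero, ← Submodule.Quotient.mk_sub, HF_B]
  refine ⟨∑ j, b j • HF_cc F (Sing E) (Λ.t (HF_co b j u)), ?_, ?_⟩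
  · exact Submodule.sum_mem _ fun j _ => Submodule.smul_mem _ _
      (HF_cc_gr (Λ.t_gr i _ (HF_co_gr b j hz)))
  · have h2 : HF_v F (Sing E) i (∑ j, b j • HF_z Λ F i (y j) - z) =
        (∑ j, b j • HF_cc F (Sing E) (Λ.f i (y j).1)) - u := by
      rw [hu, map_sub, map_sum]
      exact congrArg (· - _) (Finset.sum_congr rfl fun j _ =>
        map_smul (HF_v F (Sing E) i) (b j) _)
    rw [h2, map_sum]
    conv_lhs => rw [← HF_sum b u]
    rw [← Finset.sum_sub_distrib]
    refine Finset.sum_congr rfl fun j _ => ?_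
    rw [← smul_sub, map_smul, ← map_sub, hy, Λ.ht i _ (HF_co_gr b j hz), hb j, map_zero, add_zero,
      HF_cc_bd]

end

theorem tHF : S_HF := by
  intro G _ E _ act X Λ F _ _ _ i
  have b := Module.Free.chooseBasis ℤ F
  refine ⟨LinearEquiv.ofBijective (HF_psi Λ F i) ⟨HF_psi_inj Λ b i, HF_psi_surj Λ b i⟩, ?_⟩
  intro y z h
  rw [LinearEquiv.ofBijective_apply, HF_psi_tmul, one_smul, HF_l_mk]
  congr 1
  apply Subtype.ext
  apply Subtype.ext
  exact h.symm

end HXx
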