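import Pool.Agent.Lib.MP_181146_gt.HX.SpecX

/-!
# Project HX, module HTe: the homology of the direct limit
-/

set_option autoImplicit false

namespace HXx

open HEp HPx HTx

section

variable {R : Type} [CommRing R]

private lemma HTe_jk {M : Type} [AddCommGroup M] [Module R M] (e : Module.End R M) :
    ∀ (k n : ℕ) (x : M), HBx.dlj e (n + k) ((e ^ k) x) = HBx.dlj e n x := by
  intro k
  induction k with
  | zero => intro n x; rfl
  | succ k ih =>
    intro n x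
    rw [pow_succ', Module.End.mul_apply, ← add_assoc, HBx.dlj_succ, ih]

private lemma HTe_comm {Q : HBx.GC R} (E : HBx.GHom Q Q) (i j : ℤ) (k : ℕ) :
    ∀ x : Q.P i, ((E.f j : Module.End R (Q.P j)) ^ k) (Q.d i j x) =
      Q.d i j (((E.f i : Module.End R (Q.P i)) ^ k) x) := by
  induction k with
  | zero => intro x; rfl
  | succ k ih =>
    intro x
    rw [pow_succ', pow_succ', Module.End.mul_apply, Module.End.mul_apply, ih, E.comm]

private lemma HTe_pow {Q : HBx.GC R} (E : HBx.GHom Q Q) (i : ℤ) (k : ℕ) (x : Q.Z i)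
    (hx : ((E.f i : Module.End R (Q.P i)) ^ k) x.1 ∈ Q.Z i) :
    ((GHm E i : Module.End R (Q.H i)) ^ k) (Submodule.Quotient.mk x) =
      Submodule.Quotient.mk (⟨((E.f i : Module.End R (Q.P i)) ^ k) x.1, hx⟩ : Q.Z i) := by
  induction k with
  | zero => rfl
  | succ k ih =>
    have hk : ((E.f i : Module.End R (Q.P i)) ^ k) x.1 ∈ Q.Z i := by
      change Q.d i (i - 1) _ = 0
      rw [← HTe_comm, show Q.d i (i - 1) x.1 = 0 from x.2, map_zero]
    rw [pow_succ', Module.End.mul_apply, ih hk]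
    refine congrArg Submodule.Quotient.mk (Subtype.ext ?_)
    change E.f i (((E.f i : Module.End R (Q.P i)) ^ k) x.1) =
      ((E.f i : Module.End R (Q.P i)) ^ (k + 1)) x.1
    rw [pow_succ', Module.End.mul_apply]

end

theorem tHTe : S_DlZ → S_HTe := by
  intro hZ R _ Q E i
  -- the map on the finitely supported functions
  obtain ⟨φ, hφ⟩ : ∃ φ : (ℕ →₀ Q.H i) →ₗ[R] (HBx.Tel Q E).H i,
      ∀ n x, φ (Finsupp.single n x) = GHm (HBx.telj Q E n) i x :=
    ⟨Finsupp.lsum R fun n => GHm (HBx.telj Q E n) i, fun n x => by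
      rw [Finsupp.lsum_single]⟩
  have hrel : HBx.dlRel (GHm E i) ≤ LinearMap.ker φ := by
    unfold HBx.dlRel
    rw [Submodule.span_le]
    rintro _ ⟨n, x, rfl⟩
    obtain ⟨x, rfl⟩ := Submodule.Quotient.mk_surjective _ x
    change φ _ = 0
    rw [map_sub, hφ, hφ, sub_eq_zero]
    refine congrArg Submodule.Quotient.mk (Subtype.ext ?_)
    change HBx.dlj (E.f i) n x.1 = HBx.dlj (E.f i) (n + 1) (E.f i x.1)
    rw [HBx.dlj_succ]
  obtain ⟨Φ, hΦ⟩ : ∃ Φ : HBx.DL (GHm E i) →ₗ[R] (HBx.Tel Q E).H i,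
      ∀ n x, Φ (HBx.dlj (GHm E i) n x) = GHm (HBx.telj Q E n) i x :=
    ⟨(HBx.dlRel (GHm E i)).liftQ φ hrel, fun n x => hφ n x⟩
  have hd : ∀ (a b : ℤ) (n : ℕ) (x : Q.P a),
      (HBx.Tel Q E).d a b (HBx.dlj (E.f a) n x) = HBx.dlj (E.f b) n (Q.d a b x) := fun a b n x =>
    HBx.dlMap_dlj (E.f a) (E.f b) (Q.d a b) (fun x => (E.comm a b x).symm) n x
  refine ⟨(LinearEquiv.ofBijective Φ ⟨?_, ?_⟩).symm⟩
  · rw [← LinearMap.ker_eq_bot, LinearMap.ker_eq_bot']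
    intro u hu
    obtain ⟨n, h, rfl⟩ := HBx.dl_ind _ u
    obtain ⟨x, rfl⟩ := Submodule.Quotient.mk_surjective _ h
    rw [hΦ] at hu
    obtain ⟨t, ht⟩ : ∃ t, (HBx.Tel Q E).d (i + 1) i t = HBx.dlj (E.f i) n x.1 :=
      (Submodule.Quotient.mk_eq_zero _).1 hu
    obtain ⟨m, y, rfl⟩ := HBx.dl_ind _ t
    rw [hd] at ht
    have h0 : HBx.dlj (E.f i) (n + m) (((E.f i : Module.End R (Q.P i)) ^ m) x.1 -
        ((E.f i : Module.End R (Q.P i)) ^ n) (Q.d (i + 1) i y)) = 0 := by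
      rw [map_sub, HTe_jk, add_comm n m, HTe_jk, ht, sub_self]
    obtain ⟨k, hk⟩ := hZ R (Q.P i) (E.f i) (n + m) _ h0
    rw [map_sub, ← Module.End.mul_apply, ← Module.End.mul_apply, ← pow_add, ← pow_add,
      sub_eq_zero, HTe_comm] at hk
    have hz : ((E.f i : Module.End R (Q.P i)) ^ (k + m)) x.1 ∈ Q.Z i := by
      change Q.d i (i - 1) _ = 0
      rw [← HTe_comm, show Q.d i (i - 1) x.1 = 0 from x.2, map_zero]
    rw [← HTe_jk (GHm E i) (k + m), HTe_pow E i (k + m) x hz]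
    have e0 : (Submodule.Quotient.mk (⟨((E.f i : Module.End R (Q.P i)) ^ (k + m)) x.1, hz⟩ : Q.Z i) :
        Q.H i) = 0 :=
      (Submodule.Quotient.mk_eq_zero _).2 ⟨_, hk.symm⟩
    rw [e0, map_zero]
  · intro t
    obtain ⟨⟨y, hy⟩, rfl⟩ := Submodule.Quotient.mk_surjective _ t
    obtain ⟨n, x, rfl⟩ := HBx.dl_ind _ y
    have hy' : HBx.dlj (E.f (i - 1)) n (Q.d i (i - 1) x) = 0 := (hd i (i - 1) n x).symm.trans hy
    obtain ⟨k, hk⟩ := hZ R (Q.P (i - 1)) (E.f (i - 1)) n _ hy'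
    rw [HTe_comm] at hk
    refine ⟨HBx.dlj (GHm E i) (n + k)
      (Submodule.Quotient.mk (⟨((E.f i : Module.End R (Q.P i)) ^ k) x, hk⟩ : Q.Z i)), ?_⟩
    rw [hΦ]
    refine congrArg Submodule.Quotient.mk (Subtype.ext ?_)
    change HBx.dlj (E.f i) (n + k) (((E.f i : Module.End R (Q.P i)) ^ k) x) = _
    rw [HTe_jk]

end HXx
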