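import Pool.Agent.Lib.MP_181146_gt.HX.DefsX
import Pool.Agent.Lib.MP_181146_gt.HE.SpecS
import Pool.Agent.Lib.MP_181146_gt.HP.SpecQ

/-!
# Project HX: part X.  Every statement is a separate task; the proof of each is in the docstring.

Section A: chains for a group element and the last value of a tower.  Section B: arithmetic; output
`S_XInv`: if `G` is not cyclic of prime power order, there is an element `g` of prime order such that the
cocycle can be made invariant under `g`.  Section C: characteristic polynomials; output `S_ChZ`.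
Section D: output `S_XChi`: the Euler characteristic of `L ⊗ H(E; F)[1/(XΞ)]` is zero.
-/

set_option linter.unusedVariables false
set_option autoImplicit false

namespace HXx

open scoped TensorProduct
open HEp HPx HTx

/-! ## A. Chains -/

/-- **ChE.** Existence of chains.  Proof: `(T - 1) N = T^k - 1 = 0`, so `τ_(i+1) τ_i = 0` (`N = ∑_(j<k) T^j`;
`τ_i` is additive, commutes with `D`, preserves `g j`).  Induction on `n`: `x 0 = v`; given `x` up to `n`, the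
element `τ_(n+1) (x n)` is in `g n`; if `n = 0` it is `T v - v`, `ε = 0`; if `n > 0` then
`D (τ_(n+1) (x n)) = τ_(n+1) τ_n (x (n-1)) = 0`; so it is `D y` with `y ∈ g (n + 1)` (`Ac (n + 1)`); put
`x (n + 1) = y` (`Function.update`). -/
def S_ChE : Prop :=
  ∀ (A : GW) (T : A.Op) (k n : ℕ) (hk : T.T ^ k = 1) (hA : A.Ac n), ∃ x, A.Ch T k n x

/-- **ChU.** Uniqueness modulo `k`.  Proof: there are `y_i ∈ g (i + 1)`, `i < n`, with
`D y_0 = x_0 - x'_0` and `D y_i = x_i - x'_i - τ_i y_(i-1)`, `0 < i < n` (induction on `i`; the right-hand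
side is a cycle: its `D` is `τ_i (x_(i-1) - x'_(i-1)) - τ_i (D y_(i-1)) = τ_i τ_(i-1) y_(i-2) = 0`, and for `i = 0`
its `ε` is `0`).  `θ = x_n - x'_n - τ_n y_(n-1) ∈ g n` is a cycle.  Since `n` is odd, `N τ_n = N (T - 1) = 0`, so
`N x_n - N x'_n = N θ` and `u (N θ) = ∑_(j<k) u (T^j θ) = k u(θ)` (`T^j θ` are cycles of `g n`).
(`tau T k 0 = N`.) -/
def S_ChU : Prop :=
  ∀ (A : GW) (T : A.Op) (k n : ℕ) (hn : Odd n) (hk : T.T ^ k = 1) (hA : A.Ac n)
    (x x' : ℕ → A.W) (hx : A.Ch T k n x) (hx' : A.Ch T k n x') (u : A.W →+ ℤ)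
    (hu : ∀ θ ∈ A.g n, A.D θ = 0 → u (T.T θ) = u θ),
    (k : ℤ) ∣ u (tau T.T k 0 (x n)) - u (tau T.T k 0 (x' n))

/-- **ChB.** Binomial coefficients.  Proof.  `c(a, b) = 0` if `a`, `b` are odd, otherwise
`c(a, b) = binom(a/2 + b/2, a/2)` (integer parts).  `F'(a, b) = c(a, b) x_(a+b)` for `a + b ≤ n` satisfies the
same relation: `D F'(a, b) = [a > 0] τ_a F'(a-1, b) + (-1)^a [b > 0] τ_b F'(a, b-1)` (four cases of parities,
Pascal's rule for `a`, `b` even; for `a`, `b` odd both sides are zero).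
Homotopy: there are `h(a, b) ∈ g (a + b + 1)` for `a + b < n` with
`D h(a, b) = F(a, b) - F'(a, b) - [a > 0] τ_a h(a-1, b) - (-1)^a [b > 0] τ_b h(a, b-1)` (induction on `a + b`: the
right-hand side is a cycle as `τ_a τ_(a-1) = 0`; `ε = 0` for `a = b = 0`).  For `a + b = n` the right-hand
side `θ(a, b)` is defined and is a cycle of `g n`.
Now `a = 2 i`, `b = 2 (m - i)`, `a + b = n + 1`: `D F(a, b) = N F(a-1, b) + N F(a, b-1)`.
`N F(a-1, b) = binom(m-1, i-1) N x_n + N θ - N N h(a-1, b-1)` (`N τ_(a-1) = N (T - 1) = 0`, sign `(-1)^(a-1) = -1`,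
`τ_b = N`), `N F(a, b-1) = binom(m-1, i) N x_n + N θ' + N N h(a-1, b-1)` (`τ_a = N`, `N τ_(b-1) = 0`).  Sum:
`D F(a, b) = binom(m, i) N x_n + N (θ + θ')`; apply `u`: `0 = binom(m, i) u(N x_n) + k u(θ + θ')`. -/
def S_ChB : Prop :=
  ∀ (A : GW) (T : A.Op) (k n m : ℕ) (hn : n + 1 = 2 * m) (hk : T.T ^ k = 1) (hA : A.Ac n)
    (x : ℕ → A.W) (hx : A.Ch T k n x) (F : ℕ → ℕ → A.W)
    (hF : ∀ a b, a ≤ n → b ≤ n → F a b ∈ A.g (a + b)) (hF0 : A.ε (F 0 0) = 1)
    (hFD : ∀ a b, a ≤ n → b ≤ n → A.D (F a b) =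
      (if a = 0 then 0 else tau T.T k a (F (a - 1) b)) +
      (-1 : ℤ) ^ a • (if b = 0 then 0 else tau T.T k b (F a (b - 1))))
    (u : A.W →+ ℤ) (hu : ∀ θ ∈ A.g n, A.D θ = 0 → u (T.T θ) = u θ)
    (hud : ∀ y ∈ A.g (n + 1), u (A.D y) = 0) (i : ℕ) (hi : 0 < i) (him : i < m),
    (k : ℤ) ∣ (m.choose i : ℤ) * u (tau T.T k 0 (x n))

/-- **CTw.** The last value of a tower.  Proof: `y_i = f' i (x_i) ∈ X.P i` satisfy `ε y_0 = 1`,
`d y_(i+1) = tw g k (i + 1) • y_i`, `u (f' (N x_(n+1))) = u (N y_(n+1))` (`f'g`, `f'd`, `f'ε`;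
`tw g k 0 = N = ∑_(j<k) g^j`).  `S = ∑_(j<k) ∑_(l<j) g^l`, `(g - 1) S = N - k`.
Claim: `b i (N y_i) ≡ z` modulo `k` for all `i ≤ n` (induction): `b 0 (N y_0) = z`; `i` even, `i > 0`:
`b i (N y_i) = b (i-1) (d y_i) = b (i-1) (N y_(i-1))`; `i` odd: `b i (N y_i) = k b i (y_i) + b i ((g - 1) S y_i) =
k b i (y_i) + b (i-1) (S d y_i) = k b i (y_i) + b (i-1) (S (g - 1) y_(i-1)) = k b i (y_i) + b (i-1) (N y_(i-1)) -
k b (i-1) (y_(i-1))`.  The last case applies also to `u` in degree `n + 1` (`T.top`), `n + 1` odd. -/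
def S_CTw : Prop :=
  ∀ (G : Type) [CommGroup G] (X : AX G) (E : Type) [TopologicalSpace E] (act : G → C(E, E))
    (Λ : Lk X E act) (n : ℕ) (hn : Even n) (g : G) (k : ℕ) (hg : g ^ k = 1)
    (u : X.P (n + 1) →+ ℤ) (z : ℤ) (T : X.Tower g k n u z) (x : ℕ → (chW (Sing E)).W)
    (hx : (chW (Sing E)).Ch (chT (SingMap (act g))) k (n + 1) x),
    (k : ℤ) ∣ u (Λ.f' (n + 1) (tau (chT (SingMap (act g))).T k 0 (x (n + 1)))) - z

/-- **CAd** (from ChE, HPx.TG, HPx.Zet, HEp.NabD, HEp.NabG, HEp.NabN, HEp.NabU).  Additivity.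
Proof: `tW (Sing E)` is exact in the degrees `≤ n` (TG and `v ⊗ v`), so there is a chain `w` for
`g ⊗ g'` (`tT (SingMap (act g)) (SingMap (act g'))`) in the degrees `≤ n + 1` (ChE; `T^k = 1` by `tT_pow`).
`x3 = mu w`, `x1 = p1 w`, `x2 = p2 w` are chains for `g g'`, `g`, `g'`: `mu` is a chain map of degree `0`,
`mu ((g ⊗ g') z) = g g' mu z` (`m1`, `m2`, naturality), `aug (mu z) = augT z`; `p1 ((g ⊗ g') z) = g p1 z` as
`aug (g' y) = aug y`, `p1 (D z) = bd (p1 z)` as `aug (bd y) = 0`, `p1 (tgr i) ⊆ gr i`; the same for `p2`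
(`(aug ⊗ 1) (sg a ⊗ b) = aug a • b`).  `z = N w_(n+1) ∈ tgr (n + 1)` is a cycle (`N (T - 1) = 0`, `n + 1` odd), and
`mu z = N x3_(n+1)`, `p1 z = N x1_(n+1)`, `p2 z = N x2_(n+1)`; Zet with `xA = xC = u`. -/
def S_CAd : Prop :=
  ∀ (e : ∀ p q : ℕ, Ch ℤ ((De p).prod (De q))) (he : EZ e) (G : Type) [CommGroup G] (X : AX G)
    (E : Type) [TopologicalSpace E] (D : Mlt G E) (Λ : Lk X E D.act) (n : ℕ) (hn : Even n)
    (hE : AcE E (vtx D.v) (n + 1)) (u : X.P (n + 1) →+ ℤ) (hu : X.Coc u) (k : ℕ) (g g' : G)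
    (hg : g ^ k = 1) (hg' : g' ^ k = 1),
    ∃ x1 x2 x3 : ℕ → (chW (Sing E)).W,
      (chW (Sing E)).Ch (chT (SingMap (D.act g))) k (n + 1) x1 ∧
      (chW (Sing E)).Ch (chT (SingMap (D.act g'))) k (n + 1) x2 ∧
      (chW (Sing E)).Ch (chT (SingMap (D.act (g * g')))) k (n + 1) x3 ∧
      u (Λ.f' (n + 1) (tau (chT (SingMap (D.act (g * g')))).T k 0 (x3 (n + 1)))) =
        u (Λ.f' (n + 1) (tau (chT (SingMap (D.act g))).T k 0 (x1 (n + 1)))) +
        u (Λ.f' (n + 1) (tau (chT (SingMap (D.act g'))).T k 0 (x2 (n + 1))))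

/-- **CBi** (from ChB, HEp.NabD, HEp.NabG, HEp.NabN, HEp.NabU).  Proof: ChB for `A = chW (Sing E)`, degree
`n + 1`, `F a b = mu (x_a ⊗ x_b)`, `u ∘ f' (n + 1)`: `D (x_a ⊗ x_b) = D x_a ⊗ x_b + (-1)^a x_a ⊗ D x_b`
(`sg x_a = (-1)^a x_a` for `x_a ∈ gr a`), `D x_0 = 0`, `mu (τ x ⊗ y) = τ mu (x ⊗ y) = mu (x ⊗ τ y)` (`m1`, `m2` and
naturality), `aug (mu z) = augT z`.  `u (f' (bd y)) = u (d (f' y)) = 0`; `u (f' (g θ)) = u (g f' θ) = u (f' θ)` for
cycles `θ` by PN (`f' θ` is a cycle).  `AcE` gives `(chW (Sing E)).Ac (n + 1)`. -/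
def S_CBi : Prop :=
  ∀ (e : ∀ p q : ℕ, Ch ℤ ((De p).prod (De q))) (he : EZ e) (G : Type) [CommGroup G] (X : AX G)
    (hN : X.PN) (E : Type) [TopologicalSpace E] (D : Mlt G E) (Λ : Lk X E D.act) (n m : ℕ)
    (hn : n + 2 = 2 * m) (hE : AcE E (vtx D.v) (n + 1)) (u : X.P (n + 1) →+ ℤ) (hu : X.Coc u)
    (k : ℕ) (g : G) (hg : g ^ k = 1) (x : ℕ → (chW (Sing E)).W)
    (hx : (chW (Sing E)).Ch (chT (SingMap (D.act g))) k (n + 1) x) (i : ℕ) (hi : 0 < i)
    (him : i < m),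
    (k : ℤ) ∣ (m.choose i : ℤ) *
      u (Λ.f' (n + 1) (tau (chT (SingMap (D.act g))).T k 0 (x (n + 1))))

/-! ## B. Arithmetic and group theory -/

/-- **Luc.** Proof: `m = p^v m'`, `p ∤ m'`.  If `m' > 1` take `i = p^v`: `binom(p^v m', p^v) ≡ m'` modulo `p`
by Lucas (`Choose.choose_modEq_choose_mod_mul_choose_div_nat`, `v` times), a contradiction. -/
def S_Luc : Prop :=
  ∀ (p m : ℕ) (hp : p.Prime) (hm : 1 < m) (h : ∀ i, 0 < i → i < m → p ∣ m.choose i),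
    ∃ j, m = p ^ j

/-- **GpX.** Group theory.  Proof: `G` is not trivial (otherwise it is a cyclic 2-group).  If two
primes divide the order, `m > 1` is not a power of one of them, `p`; take `g` of order `p` (Cauchy) and
`h0`.  Otherwise `G` is a `p`-group, not cyclic, so `{g | g^p = 1}` has more than `p` elements (otherwise
`#{g | g^(p^j) = 1} ≤ p^j` by induction, the map `g ↦ g^p` has a kernel of order `≤ p`, and `G` is cyclic by
`isCyclic_of_card_pow_eq_one_le`); two different elements `g`, `h` of it have the same value `z p`, and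
`z p (g h⁻¹) = 0` by additivity, `g h⁻¹ ≠ 1`. -/
def S_GpX : Prop :=
  ∀ (G : Type) [CommGroup G] [Finite G]
    (hG : ∀ q : ℕ, q.Prime → IsPGroup q G → ¬ IsCyclic G) (m : ℕ) (hm : 1 < m)
    (z : ∀ p : ℕ, G → ZMod p)
    (hz : ∀ p : ℕ, p.Prime → ∀ g h : G, g ^ p = 1 → h ^ p = 1 → z p (g * h) = z p g + z p h)
    (h0 : ∀ p : ℕ, p.Prime → (∀ j, m ≠ p ^ j) → ∀ g : G, g ^ p = 1 → z p g = 0),
    ∃ (p : ℕ) (g : G), p.Prime ∧ orderOf g = p ∧ z p g = 0

/-- **XInv** (from ChE, ChU, CTw, CAd, CBi, Luc, GpX, HPx.Tow, HPx.TowZ).  OUTPUT 1.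
Proof: for a prime `p` and `g^p = 1` let `z p g` be the class modulo `p` of `u (f' (N x_(n+1)))` for a chain `x`
for `g` (`k = p`; `z p g = 0` if `g^p ≠ 1`); it exists by ChE (`AcE` gives `(chW (Sing E)).Ac (n + 1)`,
`T^p = 1` by `chT_pow`), is independent of `x` by ChU (`u (f' (g θ)) = u (f' θ)` by PN), additive by CAd, and
`0` if `m = (n + 2) / 2` is not a power of `p` (CBi: `p ∣ binom(m, i) z`; if `p ∤ z` then `p ∣ binom(m, i)` for all
`i` and Luc).  GpX: `g` of prime order `p` with `z p g = 0`.  Tow: a tower for `g`, `k = p`, with last value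
`z'`; CTw: `z' ≡ 0` modulo `p = orderOf g`; TowZ. -/
def S_XInv : Prop :=
  ∀ (e : ∀ p q : ℕ, Ch ℤ ((De p).prod (De q))) (he : EZ e) (G : Type) [CommGroup G] [Finite G]
    (hG : ∀ q : ℕ, q.Prime → IsPGroup q G → ¬ IsCyclic G) (E : Type) [TopologicalSpace E]
    (D : Mlt G E) (X : AX G) (hN : X.PN) (Λ : Lk X E D.act) (n : ℕ) (hn : Even n) (hn0 : 0 < n)
    (hX : X.Ac (n + 1)) (hE : AcE E (vtx D.v) (n + 1)) (u : X.P (n + 1) →+ ℤ) (hu : X.Coc u),
    ∃ g : G, (orderOf g).Prime ∧ X.Inv (Subgroup.zpowers g) u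

/-! ## C. Characteristic polynomials -/

/-- **CpS.** Multiplicativity of the characteristic polynomial.  Proof: as
`LinearMap.det_eq_det_mul_det` (block triangular matrix in the basis `sumQuot`), with
`LinearMap.charpoly_toMatrix` and `Matrix.charpoly_fromBlocks_zero₂₁`. -/
def S_CpS : Prop :=
  ∀ (K : Type) [Field K] (V : Type) [AddCommGroup V] [Module K V] [Module.Finite K V]
    (W : Submodule K V) (e : Module.End K V) (he : W ≤ W.comap e),
    e.charpoly = (e.restrict he).charpoly * (W.mapQ W e he).charpoly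

/-- **CpA** (from CpS).  The same for finitely generated abelian groups.  Proof: `L` is flat over `ℤ`
(torsion free), so `L ⊗ B → L ⊗ A` is injective, with image `W`; `(L ⊗ A) / W ≃ L ⊗ (A / B)`;
`LinearEquiv.charpoly_conj`. -/
def S_CpA : Prop :=
  ∀ (L : Type) [Field L] [CharZero L] (A : Type) [AddCommGroup A] [Module.Finite ℤ A]
    (B : Submodule ℤ A) (e : Module.End ℤ A) (he : B ≤ B.comap e),
    cpL L A e = cpL L B (e.restrict he) * cpL L (A ⧸ B) (B.mapQ B e he)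

/-- **CpI.** Invariance under maps with kernel and cokernel killed by `p ≠ 0`.  Proof: `L ⊗ φ` is
bijective (flatness of `L`, `p` is invertible in `L`) and commutes with `L ⊗ e`, `L ⊗ e'`;
`LinearEquiv.charpoly_conj`. -/
def S_CpI : Prop :=
  ∀ (L : Type) [Field L] [CharZero L] (A A' : Type) [AddCommGroup A] [AddCommGroup A']
    [Module.Finite ℤ A] [Module.Finite ℤ A'] (e : Module.End ℤ A) (e' : Module.End ℤ A')
    (φ : A →ₗ[ℤ] A') (hφ : ∀ x, φ (e x) = e' (φ x)) (p : ℤ) (hp : p ≠ 0)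
    (h1 : ∀ x, φ x = 0 → p • x = 0) (h2 : ∀ y, ∃ x, φ x = p • y),
    cpL L A e = cpL L A' e'

/-- **Hpf** (from CpA, CpI).  The Hopf formula.  Proof: let `p_i`, `z_i`, `b_i`, `h_i` be the characteristic
polynomials on `P_i`, `Z_i`, `B_i`, `H_i` (`E.Z`, `E.B`).  `z_i = b_i h_i` (CpA, and `(B_i).comap Z_i.subtype ≃ B_i`, CpI
with `p = 1`), `p_0 = z_0`, `p_(i+1) = z_(i+1) b_i` (`P_(i+1) / Z_(i+1) ≃ B_i` via `d`).  Let `A_M`, `C_M` be the two
products over `range M`; by induction `A_M = C_M b_(M-1)` for odd `M` and `C_M = A_M b_(M-1)` for even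
`M > 0`.  `b_(N-1) = 1` as `P_N = 0`. -/
def S_Hpf : Prop :=
  ∀ (L : Type) [Field L] [CharZero L] (X : NC) [∀ i, Module.Finite ℤ (X.P i)] (e : X.E) (N : ℕ)
    (hN : ∀ i, N ≤ i → Subsingleton (X.P i)),
    (∏ i ∈ Finset.range N, if Even i then cpL L (X.P i) (e.f i) else cpL L (X.H i) (e.Hm i)) =
    ∏ i ∈ Finset.range N, if Even i then cpL L (X.H i) (e.Hm i) else cpL L (X.P i) (e.f i)

/-- **DlZ.** Zero in the direct limit.  Proof: the submodule `dlRel e` is the range of the linear map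
`r y = y - shift (e y)` on `ℕ →₀ M`.  If `r y = single n x` then `y_j = 0` for `j < n`, `y_n = x`,
`y_(n+k) = e^k x`; `y` has finite support. -/
def S_DlZ : Prop :=
  ∀ (R : Type) [CommRing R] (M : Type) [AddCommGroup M] [Module R M] (e : Module.End R M) (n : ℕ)
    (x : M), HBx.dlj e n x = 0 → ∃ k : ℕ, (e ^ k) x = 0

/-- **DlT.** The tensor product commutes with the direct limit.  Proof: `a ⊗ j_n x ↦ j_n (a ⊗ x)` and back
(`Submodule.liftQ`, `Finsupp.lsum`, `TensorProduct.lift`; `dlj_succ`). -/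
def S_DlT : Prop :=
  ∀ (R S : Type) [CommRing R] [CommRing S] [Algebra R S] (M : Type) [AddCommGroup M] [Module R M]
    (e : Module.End R M),
    Nonempty ((S ⊗[R] HBx.DL e) ≃ₗ[S] HBx.DL (LinearMap.baseChange S e))

/-- **DlS.** Fitting.  Proof: there are polynomials `a`, `b` over `ℤ` with `a X^k + b (1 - X)^k = 1`; for
`x ∈ M` let `x' = a(e) e^k x`, `x'' = b(e) (1 - e)^k x`, `x = x' + x''`; `e^k x'' = 0`, so `j_n x = j_n x'`;
`(1 - e)^k x' = 0`, and on `ker (1 - e)^k` the operator `e` is invertible with inverse a polynomial in `e`: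
`x' = e^n y`, so `j_n x' = j_0 y`. -/
def S_DlS : Prop :=
  ∀ (R : Type) [CommRing R] (M : Type) [AddCommGroup M] [Module R M] (e : Module.End R M) (k : ℕ)
    (he : (e * (1 - e)) ^ k = 0), Function.Surjective (HBx.dlj e 0)

/-- **CpD** (from DlZ, DlS).  Proof: `V = ker e^k ⊕ ker (1 - e)^k` (Bezout as in DlS);
`LinearMap.charpoly_prodMap`, `charpoly_conj`: `e` is nilpotent on the first summand (charpoly `X^a`),
`1 - e` on the second one (charpoly `(X - 1)^b`, `LinearMap.charpoly_sub_smul`).  `j_0` maps the second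
summand bijectively to `DL e` (surjective as in DlS; injective: `e` is injective on it, DlZ). -/
def S_CpD : Prop :=
  ∀ (L : Type) [Field L] (V : Type) [AddCommGroup V] [Module L V] [Module.Finite L V]
    (e : Module.End L V) (k : ℕ) (he : (e * (1 - e)) ^ k = 0),
    ∃ a : ℕ, e.charpoly =
      Polynomial.X ^ a * (Polynomial.X - 1) ^ (Module.finrank L (HBx.DL e))

/-- **SwF** (from CpS).  Proof: `V ⊇ ker t^(p-1) ⊇ … ⊇ ker t ⊇ 0`, `V = ker t^p`; `t^j` induces an isomorphism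
`ker t^(j+1) / ker t^j ≃ ker t` for `j < p` (onto: `x ∈ ker t` is `t^(p-1) y = t^j (t^(p-1-j) y)`), which commutes
with `e`; so the characteristic polynomial of `e` on `ker t^j` is the `j`-th power of the one on `ker t`
(induction on `j`). -/
def S_SwF : Prop :=
  ∀ (K : Type) [Field K] (V : Type) [AddCommGroup V] [Module K V] [Module.Finite K V] (p : ℕ)
    (hp : 0 < p) (t e : Module.End K V) (hte : ∀ x, e (t x) = t (e x)) (htp : t ^ p = 0)
    (hex : ∀ x, t x = 0 → ∃ y, (t ^ (p - 1)) y = x)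
    (he : ∀ x ∈ LinearMap.ker t, e x ∈ LinearMap.ker t),
    e.charpoly = (e.restrict he).charpoly ^ p

/-- **SwP.** Proof: for the free module of rank one (functions on `G`): if `g x = x` (modulo `p`), the
coefficients of `x` are constant on the cosets of `⟨g⟩` (modulo `p`); let `y` be the part of `x` on a set of
representatives; `x = N y` (modulo `p`).  Free modules of finite rank: componentwise; direct
summands: project. -/
def S_SwP : Prop :=
  ∀ (G : Type) [CommGroup G] [Finite G] (M : Type) [AddCommGroup M] [Module (ZG G) M]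
    [Module.Finite (ZG G) M] [Module.Projective (ZG G) M] (g : G),
    (∀ x : M, tw g (orderOf g) 1 • x = 0 → ∃ y, x = tw g (orderOf g) 0 • y) ∧
    ∀ (p : ℤ) (x : M), (∃ z, tw g (orderOf g) 1 • x = p • z) →
      ∃ y z, x = tw g (orderOf g) 0 • y + p • z

/-- **Swn** (from SwF, SwP, HPx.AxF).  Proof: `M`, `W = N M` are free of finite rank over `ℤ`;
`P`, `Q` the characteristic polynomials over `ℤ` (`LinearMap.charpoly_baseChange`).  `V = 𝔽_p ⊗ M` (or
`M / p M`), `t` = the operator `g - 1`, `t^p = g^p - 1 = 0`, `t^(p-1) = N` (in `𝔽_p[T]`: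
`(T - 1)^(p-1) = 1 + T + … + T^(p-1)`, cancel `T - 1` in `(T - 1)^p = T^p - 1`).  `hex` of SwF is the second part of
SwP.  The map `𝔽_p ⊗ W → V` is injective (if `N x = p y` then `(g - 1) y = 0`, as `M` is torsion free, so
`y ∈ W` by SwP) with image `t^(p-1) V = ker t`, and commutes with `e`. -/
def S_Swn : Prop :=
  ∀ (G : Type) [CommGroup G] [Finite G] (M : Type) [AddCommGroup M] [Module (ZG G) M]
    [Module.Finite (ZG G) M] [Module.Projective (ZG G) M] [Module.Finite ℤ M] (p : ℕ)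
    (hp : p.Prime) (g : G) (hg : orderOf g = p) (e : Module.End ℤ M)
    (he : ∀ x, e (MonoidAlgebra.of ℤ G g • x) = MonoidAlgebra.of ℤ G g • e x)
    (W : Submodule ℤ M)
    (hW : W = LinearMap.range (DistribSMul.toAddMonoidHom M (tw g p 0)).toIntLinearMap)
    (heW : ∀ x ∈ W, e x ∈ W),
    ∃ P Q : Polynomial ℤ, P.Monic ∧ Q.Monic ∧
      (∀ (L : Type) [Field L] [CharZero L], cpL L M e = P.map (Int.castRingHom L) ∧
        cpL L W (e.restrict heW) = Q.map (Int.castRingHom L)) ∧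
      P.map (Int.castRingHom (ZMod p)) = Q.map (Int.castRingHom (ZMod p)) ^ p

/-- **Cov** (from CpI).  The homology of `N X` and of `X`.  Proof: CpI for the map
`H_i(N X) → H_i(X)` induced by the inclusion, `N = ∑_(j<p) g^j`, `N N = p N`.  Kernel: `y ∈ N X_i` a cycle,
`y = d w`; `N y = p y`, so `p y = d (N w)`.  Cokernel: for a cycle `z`, `N z - p z = ∑_j (g^j z - z)` is a
boundary by PN for `g^j`, and `N z` is a cycle of `N X_i`. -/
def S_Cov : Prop :=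
  ∀ (L : Type) [Field L] [CharZero L] (G : Type) [CommGroup G] [Finite G] (X : AX G) (hN : X.PN)
    (p : ℕ) (hp : 0 < p) (g : G) (hg : g ^ p = 1) [∀ i, Module.Finite ℤ ((nX X).P i)]
    [∀ i, Module.Finite ℤ ((nXN X g p).P i)] (e : (nX X).E) (e' : (nXN X g p).E)
    (he : ∀ i (x : nN X g p i), ((nN X g p i).subtype (e'.f i x) : X.P i) = e.f i x.1) (i : ℕ),
    cpL L ((nXN X g p).H i) (e'.Hm i) = cpL L ((nX X).H i) (e.Hm i)

/-- **ChZ** (from Hpf, CpD, DlT, Swn, Cov, HPx.AxF).  OUTPUT 2.  Proof: `e` commutes with `N`, so it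
restricts to `e'` on `nXN X g p`.  `P_i`, `Q_i` of Swn for `X.P i`.  `cpL L (H_i) = X^(a_i) (X - 1)^(b_i)` with
`b_i = dim DL(L ⊗ ē_i) = dim L ⊗ DL(ē_i)` (CpD for `L ⊗ H_i`, DlT).  Hpf for `nX X` and for `nXN X g p` (whose
homology polynomials are the same by Cov): with `A = ∏ P_i` over even `i`, `B` over odd `i`, and `A'`, `B'` the
same products of the `Q_i`: `A ∏_odd h_i = B ∏_even h_i`, `A' ∏_odd h_i = B' ∏_even h_i` in `L[X]`, so also in
`ℤ[X]` (`Polynomial.map` of `ℤ → L` is injective) and in `𝔽_p[X]`.  Take the multiplicities `μ` of the root `1`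
in `𝔽_p[X]` (monic polynomials): `μ(A) - μ(B) = χ = μ(A') - μ(B')`, `χ = ∑_even b_i - ∑_odd b_i`, and
`A = A'^p`, `B = B'^p` modulo `p`, so `χ = p χ`, `χ = 0`. -/
def S_ChZ : Prop :=
  ∀ (G : Type) [CommGroup G] [Finite G] (X : AX G) (hN : X.PN) (N : ℕ)
    (hK : ∀ i, N ≤ i → Subsingleton (X.P i)) (g : G) (hg : (orderOf g).Prime) (e : (nX X).E)
    (he : ∀ i (x : X.P i), (show X.P i from e.f i (MonoidAlgebra.of ℤ G g • x)) =
      MonoidAlgebra.of ℤ G g • (show X.P i from e.f i x)) (k : ℕ)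
    (hk : ∀ i, (e.Hm i * (1 - e.Hm i)) ^ k = 0) (L : Type) [Field L] [CharZero L],
    ∑ i ∈ Finset.range N, (-1 : ℤ) ^ i * (Module.finrank L (L ⊗[ℤ] HBx.DL (e.Hm i)) : ℤ) = 0

/-! ## D. The singular chains -/

/-- **RelC.** The Clifford relation with the explicit operators.  Proof: copy `HP/Rel.lean`; the
operators `a`, `b` of its proof are `y ↦ mu (c ⊗ y)` and `cap x`. -/
def S_RelC : Prop :=
  ∀ (e : ∀ p q : ℕ, Ch ℤ ((De p).prod (De q))) (he : EZ e) (k : Type) [CommRing k] (E : Type)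
    [TopologicalSpace E] [PathConnectedSpace E] (v : E) (m : C(E × E, E))
    (hA : ContinuousMap.Homotopic (ContinuousMap.id E)
      (m.comp (ContinuousMap.prodMk (ContinuousMap.id E) (ContinuousMap.const E v))))
    (B : C(unitInterval × E, E)) (hB0 : ∀ x, B (0, x) = x) (hB1 : ∀ x, B (1, x) = m (v, x))
    (n : ℕ) (hn : Odd n) (c : Ch k (Sing E)) (hc : c ∈ gr k (Sing E) n)
    (hbc : bd k (Sing E) c = 0) (x : Ch k (Sing E) →ₗ[k] k) (hx : Sup n x)
    (hxb : ∀ y, x (bd k (Sing E) y) = 0) (hxc : x c = 1)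
    (w : Ch k (Sing E) ⊗[k] Ch k (Sing E))
    (hw : dl k (Sing E) c = c ⊗ₜ sx k (vtx v) + sx k (vtx v) ⊗ₜ c +
      ((chDG k (Sing E)).tens (chDG k (Sing E))).d w),
    ∃ κ : Ch k (Sing E) →ₗ[k] Ch k (Sing E),
      (∀ y, mu k e (SingMul m) (c ⊗ₜ cap x y) + cap x (mu k e (SingMul m) (c ⊗ₜ y)) =
        y + (bd k (Sing E) (κ y) + κ (bd k (Sing E) y))) ∧
      ∀ α : C(E, E), (∀ x y, m (x, α y) = α (m (x, y))) →
        (∀ s x, B (s, α x) = α (B (s, x))) → (∀ y, x (cmap k (SingMap α) y) = x y) →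
        ∀ y, κ (cmap k (SingMap α) y) = cmap k (SingMap α) (κ y)

/-- **OpE** (from HPx.MuA, HPx.CapD, HPx.CobI).  The equivariant operator on `X`.
Proof: let `u' : X.P n → ℤ` be the invariant cocycle of `hI`, `x̂ = u' ∘ f' n`: supported in degree `n`, cocycle,
`x̂ (g y) = x̂ y`.  `e_i = f' i ∘ cap x̂ ∘ mu (c ⊗ ·) ∘ f i`: commutes with `d` (two anticommuting operators, MuA
and CapD, `n` odd) and with `g` (MuA, CapD, `m2`).  Comparison: `Q.x - (Q.x ∘ f n ∘ f' n) = - (Q.x ∘ t) ∘ bd` on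
`gr n` (`Λ.ht`, `Q.x` is a cocycle); `Q.x ∘ f n - u'` vanishes on cycles of `X.P n`, so it is `ξ ∘ d` (CobI (1),
`n = (n - 1) + 1`); so `Q.x - x̂ = η ∘ bd` with `η` supported in degree `n - 1`, and by CapD for `η` (even degree)
`cap (η ∘ bd) y = cap η (bd y) - bd (cap η y)`, a boundary for cycles `y`.  For `y ∈ Z_i`, `a = mu (c ⊗ f y)` is a
cycle of `gr (i + n)`, `f' (cap x̂ a)`, `f f' z = z + bd (t z)` for cycles `z ∈ gr i`. -/
def S_OpE : Prop :=
  ∀ (e : ∀ p q : ℕ, Ch ℤ ((De p).prod (De q))) (he : EZ e) (G : Type) [CommGroup G] [Finite G]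
    (E : Type) [TopologicalSpace E] [PathConnectedSpace E] (D : Mlt G E) (X : AX G)
    (Λ : LT X E D.act) (n : ℕ) (hn : Odd n) (hn1 : 1 < n) (hX : X.Ac n) (Q : Cl E D.v n) (g : G)
    (hI : X.Inv (Subgroup.zpowers g) ((Q.x.toAddMonoidHom).comp (Λ.f n))),
    ∃ e' : (nX X).E,
      (∀ i (x : X.P i), (show X.P i from e'.f i (MonoidAlgebra.of ℤ G g • x)) =
        MonoidAlgebra.of ℤ G g • (show X.P i from e'.f i x)) ∧
      ∀ i (y : X.P i), y ∈ (nX X).Z i → ∃ w ∈ gr ℤ (Sing E) (i + 1),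
        Λ.f i (e'.f i y) - cap Q.x (mu ℤ e (SingMul D.m) (Q.c ⊗ₜ Λ.f i y)) = bd ℤ (Sing E) w

/-- **NlE** (from RelC, HPx.MuA, HPx.CapD).  Nilpotency of `E (1 - E)` on the homology.
Proof: on the total homology `H = ker bd / range bd` of the chains the operators `Ξ = mu (c ⊗ ·)`,
`X = cap x` satisfy `X Ξ + Ξ X = 1` (RelC), so `Ξ²` commutes with `X` and `X²` with `Ξ`, `X Ξ (1 - X Ξ) = X Ξ Ξ X =
X² Ξ²`, and the `k`-th power is `X^(2k) Ξ^(2k)`.  A cycle `y ∈ gr j`, `j ≥ N`, is a boundary (`f' j y = 0`, `Λ.ht`),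
so for `k ≥ N` the operator `Ξ^(2k)` is zero on the classes of cycles of `gr i`.  For `y ∈ Z_i(X)`:
`[f (e' y)] = X Ξ [f y]`, so `f ((e' (1 - e'))^k y) = bd w`; a cycle `z` of `X` with `f z = bd w`,
is a boundary: `z = f' (f z) - d (h z) = d (f' w - h z)`. -/
def S_NlE : Prop :=
  ∀ (e : ∀ p q : ℕ, Ch ℤ ((De p).prod (De q))) (he : EZ e) (G : Type) [CommGroup G] [Finite G]
    (E : Type) [TopologicalSpace E] [PathConnectedSpace E] (D : Mlt G E) (X : AX G)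
    (Λ : LT X E D.act) (N : ℕ) (hK : ∀ i, N ≤ i → Subsingleton (X.P i)) (n : ℕ) (hn : Odd n)
    (hn1 : 1 < n) (Q : Cl E D.v n) (e' : (nX X).E)
    (he' : ∀ i (y : X.P i), y ∈ (nX X).Z i → ∃ w ∈ gr ℤ (Sing E) (i + 1),
      Λ.f i (e'.f i y) - cap Q.x (mu ℤ e (SingMul D.m) (Q.c ⊗ₜ Λ.f i y)) = bd ℤ (Sing E) w),
    ∃ k : ℕ, ∀ i, (e'.Hm i * (1 - e'.Hm i)) ^ k = 0

/-- **BcX.** Change of coefficients in the operator.  Proof: `cc F` commutes with `cmap`, `nab`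
(`nab_sx`), `dl` (Alexander-Whitney) and `cap`: check on simplices. -/
def S_BcX : Prop :=
  ∀ (F : Type) [CommRing F] (e : ∀ p q : ℕ, Ch ℤ ((De p).prod (De q))) (K : SS)
    (m : SSHom (K.prod K) K) (x : Ch ℤ K →ₗ[ℤ] ℤ) (c y : Ch ℤ K),
    cc F (cap x (mu ℤ e m (c ⊗ₜ y))) = cap (xF F x) (mu F e m (cc F c ⊗ₜ cc F y))

/-- **HF.** The homology with coefficients in `F`.  Proof: the homology of `X` and of the chains over `ℤ`
are isomorphic via `f` (`Λ`).  Let `b_1, …, b_r` be a basis of `F` over `ℤ`: every `y ∈ Ch F K` is uniquely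
`∑ b_j cc(y_j)` with `y_j ∈ Ch ℤ K`, `bd` acts on the `y_j`, so `y` is a cycle or boundary of degree `i` iff all
`y_j` are.  The map `a ⊗ [y] ↦ a [cc (f y)]` is bijective. -/
def S_HF : Prop :=
  ∀ (G : Type) [CommGroup G] (E : Type) [TopologicalSpace E] (act : G → C(E, E)) (X : AX G)
    (Λ : LT X E act) (F : Type) [CommRing F] [Module.Free ℤ F] [Module.Finite ℤ F] (i : ℕ),
    ∃ ψ : (F ⊗[ℤ] (nX X).H i) ≃ₗ[F] (chG F (Sing E)).H i,
      ∀ (y : (nX X).Z i) (z : (chG F (Sing E)).Z i),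
        (grZ F (Sing E) i).subtype z.1 = cc F (Λ.f i y.1) →
        ψ (1 ⊗ₜ[ℤ] Submodule.Quotient.mk y) = Submodule.Quotient.mk z

/-- **HTe** (from DlZ).  The homology of the direct limit.  Proof: the maps `GHm (telj Q E n) i` give
`DL (GHm E i) → H_i (Tel Q E)` (`[x]` at stage `n` goes to `[j_n x]`).  Onto: a cycle is `j_n x` (`dl_ind`), `j_n (d x) = 0`,
so `d (E^k x) = E^k (d x) = 0` (DlZ) and `j_n x = j_(n+k) (E^k x)`.  Injective: if `j_n x = d (j_m y)`, then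
`j_(n+m) (E^m x - E^n (d y)) = 0`, so `E^(m+k) x = d (E^(n+k) y)` by DlZ. -/
def S_HTe : Prop :=
  ∀ (R : Type) [CommRing R] (Q : HBx.GC R) (E : HBx.GHom Q Q) (i : ℤ),
    Nonempty ((HBx.Tel Q E).H i ≃ₗ[R] HBx.DL (GHm E i))

/-- **EZI** (from HTe).  The property `EZ` of the direct limit depends only on the operators on
homology.  Proof: `DL (GHm E i) ≃ DL (GHm E' i)` (`dlMap` for `ψ` and its inverse). -/
def S_EZI : Prop :=
  ∀ (F : Type) [CommRing F] (L : Type) [Field L] (ε : F →+* L) (Q Q' : HBx.GC F)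
    (E : HBx.GHom Q Q) (E' : HBx.GHom Q' Q')
    (h : ∀ i, ∃ ψ : Q.H i ≃ₗ[F] Q'.H i, ∀ x, ψ (GHm E i x) = GHm E' i (ψ x)),
    (HBx.Tel Q E).EZ ε → (HBx.Tel Q' E').EZ ε

/-- **AsX** (from BcX, HF, HTe, DlT, DlS, HPx.AxF).  Passage to the coefficients `F`, `L`.
Proof: for `i ≥ 0` let `ψ` be the isomorphism of HF; it commutes with `F ⊗ ē_i` and `GHm EE i`:
`ψ (1 ⊗ [e' y]) = [cc (f (e' y))] = [cc (cap x (mu (c ⊗ f y)))]` (`he'`; `cc` of a boundary of `w ∈ gr (i + 1)` is a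
boundary) `= [EE (cc (f y))]` (BcX, `hEE`).  So `H_i(Tel) ≃ DL(GHm EE i) ≃ DL(F ⊗ ē_i) ≃ F ⊗ DL(ē_i)` (HTe, DlT), and
`L ⊗_F H_i(Tel) ≃ L ⊗_ℤ DL(ē_i)` (`TensorProduct.AlgebraTensorModule.cancelBaseChange`), of dimension
`finrank L (L ⊗[ℤ] DL (ē_i))`.  `DL(ē_i)` is finitely generated: a quotient of `H_i(X)` by DlS (`X.P i` is
finitely generated over `ℤ`, AxF).  For `i < 0` and `i ≥ N` the homology is zero.  Sum over
`Icc (-N) N`. -/
def S_AsX : Prop :=
  ∀ (e : ∀ p q : ℕ, Ch ℤ ((De p).prod (De q))) (G : Type) [CommGroup G] [Finite G]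
    (E : Type) [TopologicalSpace E] (D : Mlt G E) (X : AX G) (Λ : LT X E D.act) (N : ℕ)
    (hK : ∀ i, N ≤ i → Subsingleton (X.P i)) (n : ℕ) (Q : Cl E D.v n) (e' : (nX X).E)
    (he' : ∀ i (y : X.P i), y ∈ (nX X).Z i → ∃ w ∈ gr ℤ (Sing E) (i + 1),
      Λ.f i (e'.f i y) - cap Q.x (mu ℤ e (SingMul D.m) (Q.c ⊗ₜ Λ.f i y)) = bd ℤ (Sing E) w)
    (k : ℕ) (hk : ∀ i, (e'.Hm i * (1 - e'.Hm i)) ^ k = 0) (L : Type) [Field L]
    (hL : ∑ i ∈ Finset.range N, (-1 : ℤ) ^ i *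
      (Module.finrank L (L ⊗[ℤ] HBx.DL (e'.Hm i)) : ℤ) = 0)
    (F : Type) [CommRing F] [Module.Free ℤ F] [Module.Finite ℤ F] (ε : F →+* L)
    (EE : HBx.GHom (chG F (Sing E)) (chG F (Sing E)))
    (hEE : IsXi F e (SingMul D.m) Q.x Q.c EE),
    (HBx.Tel (chG F (Sing E)) EE).EZ ε

/-- **XChi** (from XInv, OpE, NlE, ChZ, AsX).  OUTPUT 3.  Proof: `n = n' + 1`; XInv for
`u = Q.x ∘ f n` (a cocycle by `fd`, `x_bd`) gives `g`; OpE gives `e'`, NlE gives `k`, ChZ, AsX. -/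
def S_XChi : Prop :=
  ∀ (e : ∀ p q : ℕ, Ch ℤ ((De p).prod (De q))) (he : EZ e) (G : Type) [CommGroup G] [Finite G]
    (hG : ∀ q : ℕ, q.Prime → IsPGroup q G → ¬ IsCyclic G) (E : Type) [TopologicalSpace E]
    [PathConnectedSpace E] (D : Mlt G E) (X : AX G) (N : ℕ)
    (hK : ∀ i, N ≤ i → Subsingleton (X.P i)) (hN : X.PN) (Λ : LT X E D.act) (n : ℕ) (hn : Odd n)
    (hn1 : 1 < n) (hX : X.Ac n) (hE : AcE E (vtx D.v) n) (Q : Cl E D.v n) (F : Type) [CommRing F]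
    [Module.Free ℤ F] [Module.Finite ℤ F] (L : Type) [Field L] [CharZero L] (ε : F →+* L)
    (EE : HBx.GHom (chG F (Sing E)) (chG F (Sing E)))
    (hEE : IsXi F e (SingMul D.m) Q.x Q.c EE),
    (HBx.Tel (chG F (Sing E)) EE).EZ ε

end HXx
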