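import Pool.Agent.Lib.MP_181146_gt.HX.SpecX

/-!
# Project HX, module XInv: output 1, the cocycle is invariant under an element of prime order
-/

set_option linter.unusedVariables false
set_option autoImplicit false

namespace HXx

open scoped TensorProduct
open HEp HPx HTx

section

variable {K : SS}

/-- The component of degree `i`. -/
private noncomputable def xinv_pr (K : SS) (i : ℕ) : Ch ℤ K →ₗ[ℤ] Ch ℤ K :=
  Finsupp.linearCombination ℤ (fun x => if x.1 = i then Finsupp.single x 1 else 0)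

private lemma xinv_pr_sx (i : ℕ) {n : ℕ} (σ : K.K n) :
    xinv_pr K i (sx ℤ σ) = if n = i then sx ℤ σ else 0 := by
  rw [xinv_pr, sx, Finsupp.linearCombination_single, one_smul]

private lemma xinv_pr_mem (i : ℕ) (x : Ch ℤ K) : xinv_pr K i x ∈ gr ℤ K i := by
  induction x using Finsupp.induction_linear with
  | zero => rw [map_zero]; exact zero_mem _
  | add a b ha hb => rw [map_add]; exact add_mem ha hb
  | single s r =>
    have h1 : (Finsupp.single s r : Ch ℤ K) = r • sx ℤ s.2 := (Finsupp.smul_single_one s r).symm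
    rw [h1, map_smul, xinv_pr_sx]
    refine Submodule.smul_mem _ _ ?_
    split_ifs with h
    · subst h
      exact sx_mem_gr ℤ _
    · exact zero_mem _

private lemma xinv_pr_self {i : ℕ} {x : Ch ℤ K} (hx : x ∈ gr ℤ K i) : xinv_pr K i x = x :=
  gr_eq (f := xinv_pr K i) (g := LinearMap.id) (fun σ => by
    rw [xinv_pr_sx, if_pos rfl, LinearMap.id_apply]) hx

private lemma xinv_pr_bd (i : ℕ) (x : Ch ℤ K) :
    xinv_pr K i (bd ℤ K x) = bd ℤ K (xinv_pr K (i + 1) x) := by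
  have h : xinv_pr K i ∘ₗ bd ℤ K = bd ℤ K ∘ₗ xinv_pr K (i + 1) := ch_ext fun n σ => by
    rw [LinearMap.comp_apply, LinearMap.comp_apply, xinv_pr_sx]
    cases n with
    | zero => rw [bd_sx_zero, map_zero, if_neg (by omega), map_zero]
    | succ n =>
      rw [bd_sx, map_sum]
      by_cases hn : n = i
      · rw [if_pos (by omega), bd_sx]
        refine Finset.sum_congr rfl fun j _ => ?_
        rw [map_smul, xinv_pr_sx, if_pos hn]
      · rw [if_neg (by omega), map_zero]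
        refine Finset.sum_eq_zero fun j _ => ?_
        rw [map_smul, xinv_pr_sx, if_neg hn, smul_zero]
  exact LinearMap.congr_fun h x

/-- acyclicity -/
private lemma xinv_ac {E : Type} [TopologicalSpace E] {v : E} {n : ℕ} (hE : AcE E (vtx v) n) :
    (chW (Sing E)).Ac n := by
  refine ⟨⟨sx ℤ (vtx v), sx_mem_gr ℤ _, aug_sx_zero ℤ _⟩,
    fun _ (x : Ch ℤ (Sing E)) (hx : x ∈ gr ℤ (Sing E) 0) hx0 => ?_,
    fun i hi hin (x : Ch ℤ (Sing E)) (hx : x ∈ gr ℤ (Sing E) i) hx0 => ?_⟩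
  · obtain ⟨y, hy⟩ := hE.1 x hx
    have hx0' : aug ℤ (Sing E) x = 0 := hx0
    rw [hx0', zero_smul, sub_zero] at hy
    refine ⟨xinv_pr (Sing E) 1 y, xinv_pr_mem 1 y, ?_⟩
    have h1 := xinv_pr_bd 0 y
    rw [← hy, xinv_pr_self hx] at h1
    exact h1.symm
  · obtain ⟨y, hy⟩ := hE.2 i hi hin x hx hx0
    refine ⟨xinv_pr (Sing E) (i + 1) y, xinv_pr_mem (i + 1) y, ?_⟩
    have h1 := xinv_pr_bd i y
    rw [← hy, xinv_pr_self hx] at h1
    exact h1.symm

end

theorem tXInv : S_ChE → S_ChU → S_CTw → S_CAd → S_CBi → S_Luc → S_GpX → HPx.S_Tow →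
    HPx.S_TowZ → S_XInv := by
  intro hChE hChU hCTw hCAd hCBi hLuc hGpX hTow hTowZ e he G _ _ hG E _ D X hN Λ n hn hn0 hX hE u
    hu
  classical
  have hAc : (chW (Sing E)).Ac (n + 1) := xinv_ac hE
  have hpow : ∀ (p : ℕ) (g : G), g ^ p = 1 → (chT (SingMap (D.act g))).T ^ p = 1 := by
    intro p g hg
    rw [chT_pow, hg, chT_one]
  -- the value of a chain
  obtain ⟨w, hw⟩ : ∃ w : ℕ → G → (ℕ → (chW (Sing E)).W) → ℤ, ∀ p g x, w p g x =
      u (Λ.f' (n + 1) (tau (chT (SingMap (D.act g))).T p 0 (x (n + 1)))) := ⟨_, fun _ _ _ => rfl⟩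
  have hinv : ∀ (g : G), ∀ θ ∈ (chW (Sing E)).g (n + 1), (chW (Sing E)).D θ = 0 →
      (u.comp (Λ.f' (n + 1))) ((chT (SingMap (D.act g))).T θ) = (u.comp (Λ.f' (n + 1))) θ := by
    intro g
    change ∀ θ : Ch ℤ (Sing E), _
    intro θ hθ hθ0
    have hθ0' : bd ℤ (Sing E) θ = 0 := hθ0
    obtain ⟨h, -, hh⟩ := hN g
    have h1 := hh n (Λ.f' (n + 1) θ)
    rw [← Λ.f'd, hθ0', map_zero, map_zero, add_zero] at h1
    change u (Λ.f' (n + 1) (cmap ℤ (SingMap (D.act g)) θ)) = u (Λ.f' (n + 1) θ)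
    rw [Λ.f'g, ← sub_eq_zero, ← map_sub, ← h1]
    exact hu _
  have huniq : ∀ (p : ℕ) (g : G), g ^ p = 1 → ∀ x x' : ℕ → (chW (Sing E)).W,
      (chW (Sing E)).Ch (chT (SingMap (D.act g))) p (n + 1) x →
      (chW (Sing E)).Ch (chT (SingMap (D.act g))) p (n + 1) x' →
      (w p g x : ZMod p) = (w p g x' : ZMod p) := by
    intro p g hg x x' hx hx'
    have h1 := hChU (chW (Sing E)) (chT (SingMap (D.act g))) p (n + 1) hn.add_one (hpow p g hg) hAc
      x x' hx hx' (u.comp (Λ.f' (n + 1))) (hinv g)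
    rw [hw, hw, ← sub_eq_zero, ← Int.cast_sub, ZMod.intCast_zmod_eq_zero_iff_dvd]
    exact h1
  have hex : ∀ (p : ℕ) (g : G), g ^ p = 1 → ∃ x,
      (chW (Sing E)).Ch (chT (SingMap (D.act g))) p (n + 1) x := fun p g hg =>
    hChE (chW (Sing E)) (chT (SingMap (D.act g))) p (n + 1) (hpow p g hg) hAc
  -- the function `z`
  obtain ⟨z, hz⟩ : ∃ z : ∀ p : ℕ, G → ZMod p, ∀ (p : ℕ) (g : G), g ^ p = 1 →
      ∀ x, (chW (Sing E)).Ch (chT (SingMap (D.act g))) p (n + 1) x → z p g = (w p g x : ZMod p) := by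
    refine ⟨fun p g => if h : g ^ p = 1 then (w p g (hex p g h).choose : ZMod p) else 0,
      fun p g hg x hx => ?_⟩
    change (if h : g ^ p = 1 then (w p g (hex p g h).choose : ZMod p) else 0) = _
    rw [dif_pos hg]
    exact huniq p g hg _ _ (hex p g hg).choose_spec hx
  obtain ⟨m, hm⟩ : ∃ m, n + 2 = 2 * m := by
    obtain ⟨r, hr⟩ := hn
    exact ⟨r + 1, by omega⟩
  have hm1 : 1 < m := by omega
  obtain ⟨p, g, hp, hgp, hzg⟩ := hGpX G hG m hm1 z (by
    intro p hp g h hg hh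
    obtain ⟨x1, x2, x3, hx1, hx2, hx3, hrel⟩ := hCAd e he G X E D Λ n hn hE u hu p g h hg hh
    have hgh : (g * h) ^ p = 1 := by rw [mul_pow, hg, hh, mul_one]
    rw [hz p (g * h) hgh x3 hx3, hz p g hg x1 hx1, hz p h hh x2 hx2, ← Int.cast_add, hw, hw, hw,
      hrel]) (by
    intro p hp hj g hg
    obtain ⟨x, hx⟩ := hex p g hg
    rw [hz p g hg x hx, ZMod.intCast_zmod_eq_zero_iff_dvd]
    by_contra hnd
    obtain ⟨j, hj'⟩ := hLuc p m hp hm1 (fun i hi him => by
      have h1 := hCBi e he G X hN E D Λ n m hm hE u hu p g hg x hx i hi him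
      rw [← hw] at h1
      rcases (Nat.prime_iff_prime_int.1 hp).dvd_or_dvd h1 with h2 | h2
      · exact Int.natCast_dvd_natCast.1 h2
      · exact absurd h2 hnd)
    exact hj j hj')
  subst hgp
  refine ⟨g, hp, ?_⟩
  have hg : g ^ orderOf g = 1 := pow_orderOf_eq_one g
  obtain ⟨z', ⟨T⟩⟩ := hTow G X n hn hX hN g (orderOf g) hg u hu
  obtain ⟨x, hx⟩ := hex (orderOf g) g hg
  have h1 := hCTw G X E D.act Λ n hn g (orderOf g) hg u z' T x hx
  have h2 : ((orderOf g : ℕ) : ℤ) ∣ w (orderOf g) g x := by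
    rw [← ZMod.intCast_zmod_eq_zero_iff_dvd, ← hz (orderOf g) g hg x hx, hzg]
  rw [← hw] at h1
  have h3 : ((orderOf g : ℕ) : ℤ) ∣ z' := by
    have := dvd_sub h2 h1
    rwa [sub_sub_cancel] at this
  exact hTowZ G X n hn g u hu z' T h3

end HXx
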